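import Mathlib

/-! Rigidity of power sums modulo a prime power (Linnik's lemma, first part). -/

namespace Pool.Agent.Work.VK

open Finset

section
open MvPolynomial

/-- equal power sums give equal elementary symmetric functions when `1, …, k` are units -/
theorem esymm_eq_of_psum_eq {R : Type*} [CommRing R] {σ : Type*} [Fintype σ] (y z : σ → R)
    (k : ℕ) (hu : ∀ j : ℕ, 1 ≤ j → j ≤ k → IsUnit (j : R))
    (h : ∀ j : ℕ, 1 ≤ j → j ≤ k → ∑ i, y i ^ j = ∑ i, z i ^ j) :
    ∀ j ≤ k, aeval y (esymm σ R j) = aeval z (esymm σ R j) := by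
  intro j
  induction j using Nat.strong_induction_on with
  | _ j ih =>
    intro hj
    rcases Nat.eq_zero_or_pos j with rfl | hpos
    · simp
    have key : ∀ w : σ → R, (j : R) * aeval w (esymm σ R j)
        = (-1) ^ (j + 1) * ∑ a ∈ antidiagonal j with a.1 < j,
            (-1) ^ a.1 * aeval w (esymm σ R a.1) * ∑ i, w i ^ a.2 := by
      intro w
      have := congrArg (aeval w) (mul_esymm_eq_sum σ R j)
      simpa [map_sum, psum] using this
    have h2 : (j : R) * aeval y (esymm σ R j) = (j : R) * aeval z (esymm σ R j) := by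
      rw [key, key]
      congr 1
      refine Finset.sum_congr rfl fun a ha => ?_
      rw [mem_filter, Finset.HasAntidiagonal.mem_antidiagonal] at ha
      rw [ih a.1 ha.2 (by omega), h a.2 (by omega) (by omega)]
    exact (hu j hpos hj).mul_left_cancel h2

end

theorem prod_sub_eq_of_psum_eq {R : Type*} [CommRing R] {σ : Type*} [Fintype σ] (y z : σ → R)
    (hu : ∀ j : ℕ, 1 ≤ j → j ≤ Fintype.card σ → IsUnit (j : R))
    (h : ∀ j : ℕ, 1 ≤ j → j ≤ Fintype.card σ → ∑ i, y i ^ j = ∑ i, z i ^ j) (T : R) :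
    ∏ i, (T - y i) = ∏ i, (T - z i) := by
  have key : ∀ w : σ → R, ∏ i, (T - w i) = ∑ j ∈ Finset.range (Fintype.card σ + 1),
      (-1) ^ j * (MvPolynomial.aeval w (MvPolynomial.esymm σ R j) * T ^ (Fintype.card σ - j)) := by
    intro w
    have h1 := Multiset.prod_X_sub_X_eq_sum_esymm ((univ : Finset σ).val.map w)
    have h2 := congrArg (Polynomial.eval T) h1
    rw [Multiset.map_map] at h2
    have h3 : Polynomial.eval T (Multiset.map ((fun t => Polynomial.X - Polynomial.C t) ∘ w)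
        (univ : Finset σ).val).prod = ∏ i, (T - w i) := by
      have : (Multiset.map ((fun t => Polynomial.X - Polynomial.C t) ∘ w)
        (univ : Finset σ).val).prod = ∏ i, (Polynomial.X - Polynomial.C (w i)) := rfl
      rw [this, Polynomial.eval_prod]
      simp
    rw [h3] at h2
    rw [h2, Polynomial.eval_finsetSum]
    simp only [Multiset.card_map, Finset.card_val, Finset.card_univ]
    refine Finset.sum_congr rfl fun j _ => ?_
    rw [MvPolynomial.aeval_esymm_eq_multiset_esymm]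
    simp
  rw [key, key]
  refine Finset.sum_congr rfl fun j hj => ?_
  rw [Finset.mem_range] at hj
  rw [esymm_eq_of_psum_eq y z _ hu h j (by omega)]

/-- two tuples of residues, distinct modulo `p`, with equal power sums modulo `p^e` agree up to
order modulo `p^e` -/
theorem rigid {p : ℕ} (hp : p.Prime) {k e : ℕ} (hk : k < p) (y z : Fin k → ℤ)
    (hz : ∀ i j, (p : ℤ) ∣ z i - z j → i = j)
    (h : ∀ j : ℕ, 1 ≤ j → j ≤ k → ((p : ℤ) ^ e) ∣ ∑ i, y i ^ j - ∑ i, z i ^ j) (i : Fin k) :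
    ∃ i', ((p : ℤ) ^ e) ∣ y i - z i' := by
  rcases Nat.eq_zero_or_pos e with rfl | he
  · exact ⟨i, by simp⟩
  have hu : ∀ j : ℕ, 1 ≤ j → j ≤ Fintype.card (Fin k) → IsUnit ((j : ℕ) : ZMod (p ^ e)) := by
    intro j h1 h2
    rw [Fintype.card_fin] at h2
    rw [ZMod.isUnit_iff_coprime]
    refine Nat.Coprime.pow_right _ ?_
    rw [Nat.coprime_comm, Nat.Prime.coprime_iff_not_dvd hp]
    intro hd
    have := Nat.le_of_dvd (by omega) hd
    omega
  have hc : ((p ^ e : ℕ) : ℤ) = (p : ℤ) ^ e := by push_cast; rfl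
  have h' : ∀ j : ℕ, 1 ≤ j → j ≤ Fintype.card (Fin k) →
      ∑ i, ((y i : ℤ) : ZMod (p ^ e)) ^ j = ∑ i, ((z i : ℤ) : ZMod (p ^ e)) ^ j := by
    intro j h1 h2
    rw [Fintype.card_fin] at h2
    have := h j h1 h2
    rw [← hc] at this
    have h3 := (ZMod.intCast_zmod_eq_zero_iff_dvd _ (p ^ e)).2 this
    push_cast at h3
    exact sub_eq_zero.1 h3
  have h4 := prod_sub_eq_of_psum_eq (fun i => ((y i : ℤ) : ZMod (p ^ e)))
    (fun i => ((z i : ℤ) : ZMod (p ^ e))) hu h' ((y i : ℤ) : ZMod (p ^ e))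
  rw [Finset.prod_eq_zero (mem_univ i) (sub_self _)] at h4
  have h5 : ((p ^ e : ℕ) : ℤ) ∣ ∏ i', (y i - z i') := by
    rw [← ZMod.intCast_zmod_eq_zero_iff_dvd]
    push_cast
    exact h4.symm
  rw [hc] at h5
  have hpZ : Prime (p : ℤ) := Nat.prime_iff_prime_int.1 hp
  -- some factor is divisible by p
  have h6 : (p : ℤ) ∣ ∏ i', (y i - z i') := (dvd_pow_self _ (by omega)).trans h5
  obtain ⟨i', _, hi'⟩ := hpZ.exists_mem_finset_dvd h6
  refine ⟨i', ?_⟩
  rw [← Finset.mul_prod_erase univ _ (mem_univ i')] at h5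
  have hcop : IsCoprime ((p : ℤ) ^ e) (∏ x ∈ univ.erase i', (y i - z x)) := by
    refine IsCoprime.pow_left ?_
    refine IsCoprime.prod_right fun x hx => ?_
    rw [(Prime.irreducible hpZ).coprime_iff_not_dvd]
    intro hd
    have h7 : (p : ℤ) ∣ z i' - z x := by
      have := dvd_sub hd hi'
      have h8 : (y i - z x) - (y i - z i') = z i' - z x := by ring
      rwa [h8] at this
    exact (Finset.mem_erase.1 hx).1 (hz _ _ h7).symm
  exact hcop.dvd_of_dvd_mul_right h5


/-- Linnik's lemma: tuples distinct modulo `p` with prescribed power sums modulo `p, p², …` -/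
theorem linnik {p : ℕ} (hp : p.Prime) {k : ℕ} (hk : k < p) (S : Finset ℤ)
    (hS : ∀ a ∈ S, ∀ b ∈ S, ((p : ℤ) ^ k) ∣ a - b → a = b) (r : ℤ) (c : Fin k → ℤ) :
    #{y ∈ Fintype.piFinset (fun _ : Fin k => S) | (∀ i j, (p : ℤ) ∣ y i - y j → i = j) ∧
      ∀ j : Fin k, ((p : ℤ) ^ (j.1 + 1)) ∣ ∑ i, (y i - r) ^ (j.1 + 1) - c j}
      ≤ k.factorial * p ^ (k * (k - 1) / 2) := by
  classical
  set A := {y ∈ Fintype.piFinset (fun _ : Fin k => S) | (∀ i j, (p : ℤ) ∣ y i - y j → i = j) ∧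
      ∀ j : Fin k, ((p : ℤ) ^ (j.1 + 1)) ∣ ∑ i, (y i - r) ^ (j.1 + 1) - c j} with hA
  have hp0 : (0 : ℤ) < p := by exact_mod_cast hp.pos
  let Ψ : (Fin k → ℤ) → (Fin k → ℤ) := fun y j =>
    ((∑ i, (y i - r) ^ (j.1 + 1) - c j) / (p : ℤ) ^ (j.1 + 1)) % (p : ℤ) ^ (k - 1 - j.1)
  let T : Finset (Fin k → ℤ) :=
    Fintype.piFinset (fun j : Fin k => Finset.Ico (0 : ℤ) ((p : ℤ) ^ (k - 1 - j.1)))
  have hT : #T = p ^ (k * (k - 1) / 2) := by
    simp only [T, Fintype.card_piFinset, Int.card_Ico, sub_zero]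
    have h1 : ∀ j : Fin k, ((p : ℤ) ^ (k - 1 - j.1)).toNat = p ^ (k - 1 - j.1) := by
      intro j
      rw [← Nat.cast_pow, Int.toNat_natCast]
    rw [Finset.prod_congr rfl fun j _ => h1 j, Finset.prod_pow_eq_pow_sum]
    congr 1
    rw [Fin.sum_univ_eq_sum_range (fun j => k - 1 - j) k, Finset.sum_range_reflect (fun j => j) k,
      Finset.sum_range_id]
  have hmaps : ∀ y ∈ A, Ψ y ∈ T := by
    intro y _
    simp only [T, Fintype.mem_piFinset, Finset.mem_Ico]
    intro j
    have hpos : (0 : ℤ) < (p : ℤ) ^ (k - 1 - j.1) := pow_pos hp0 _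
    exact ⟨Int.emod_nonneg _ hpos.ne', Int.emod_lt_of_pos _ hpos⟩
  have hfib : ∀ b ∈ T, #{y ∈ A | Ψ y = b} ≤ k.factorial := by
    intro b _
    rcases Finset.eq_empty_or_nonempty {y ∈ A | Ψ y = b} with he | ⟨y0, hy0⟩
    · rw [he]; simp
    rw [mem_filter] at hy0
    have hy0A := hy0.1
    rw [hA, mem_filter, Fintype.mem_piFinset] at hy0A
    have hsub : {y ∈ A | Ψ y = b} ⊆
        (univ : Finset (Equiv.Perm (Fin k))).image (fun σ => fun i => y0 (σ i)) := by
      intro y hy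
      rw [mem_filter] at hy
      have hyA := hy.1
      rw [hA, mem_filter, Fintype.mem_piFinset] at hyA
      have hps : ∀ j : ℕ, 1 ≤ j → j ≤ k → ((p : ℤ) ^ k) ∣
          ∑ i, (y i - r) ^ j - ∑ i, (y0 i - r) ^ j := by
        intro j h1 h2
        obtain ⟨j, rfl⟩ : ∃ j', j = j' + 1 := ⟨j - 1, by omega⟩
        have hjk : j < k := by omega
        have e1 : Ψ y ⟨j, hjk⟩ = Ψ y0 ⟨j, hjk⟩ := by rw [hy.2, hy0.2]
        obtain ⟨q, hq⟩ := hyA.2.2 ⟨j, hjk⟩
        obtain ⟨q0, hq0⟩ := hy0A.2.2 ⟨j, hjk⟩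
        simp only [Ψ] at e1
        simp only at hq hq0
        rw [hq, hq0, Int.mul_ediv_cancel_left _ (pow_pos hp0 _).ne',
          Int.mul_ediv_cancel_left _ (pow_pos hp0 _).ne'] at e1
        have e2 : ((p : ℤ) ^ (k - 1 - j)) ∣ q - q0 :=
          (show q0 ≡ q [ZMOD _] from e1.symm).dvd
        obtain ⟨t, ht⟩ := e2
        refine ⟨t, ?_⟩
        have : ∑ i, (y i - r) ^ (j + 1) - ∑ i, (y0 i - r) ^ (j + 1)
            = (p : ℤ) ^ (j + 1) * (q - q0) := by
          rw [mul_sub, ← hq, ← hq0]; ring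
        rw [this, ht, ← mul_assoc, ← pow_add]
        congr 2
        omega
      have hrig := rigid hp hk (e := k) (fun i => y i - r) (fun i => y0 i - r)
        (fun i j hij => hy0A.2.1 i j (by simpa using hij)) hps
      choose σ hσ using hrig
      have hσ' : ∀ i, y i = y0 (σ i) := fun i =>
        hS _ (hyA.1 i) _ (hy0A.1 _) (by simpa using hσ i)
      have hinj : Function.Injective σ := by
        intro i j hij
        refine hyA.2.1 i j ?_
        rw [hσ' i, hσ' j, hij, sub_self]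
        exact dvd_zero _
      refine Finset.mem_image.2 ⟨Equiv.ofBijective σ (Finite.injective_iff_bijective.1 hinj),
        mem_univ _, ?_⟩
      funext i
      exact (hσ' i).symm
    refine (Finset.card_le_card hsub).trans (Finset.card_image_le.trans ?_)
    rw [Finset.card_univ, Fintype.card_perm, Fintype.card_fin]
  calc #A ≤ k.factorial * #T := Finset.card_le_mul_card_image_of_maps_to hmaps _ hfib
    _ = _ := by rw [hT]

end Pool.Agent.Work.VK
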