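import Mathlib
import Pool.Agent.Work.VK.Newton

/-! Counting solutions of the Vinogradov system by additive characters of `(ZMod N)^k`. -/

namespace Pool.Agent.Work.VK

open Finset

/-- the vector of power sums of a tuple -/
def ps (k : ℕ) {ι : Type*} [Fintype ι] (x : ι → ℤ) : Fin k → ℤ := fun j => ∑ i, x i ^ (j.1 + 1)

/-- the number of solutions of the Vinogradov system of degree `k` with variables in `S` -/
def J (k : ℕ) (ι : Type*) [Fintype ι] [DecidableEq ι] (S : Finset ℤ) : ℕ :=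
  #{z ∈ (Fintype.piFinset fun _ : ι => S) ×ˢ (Fintype.piFinset fun _ : ι => S) |
    ps k z.1 = ps k z.2}

noncomputable section

/-- the character `v ↦ e(α · v)` -/
def ex {k N : ℕ} [NeZero N] (α : Fin k → ZMod N) (v : Fin k → ℤ) : ℂ :=
  ZMod.stdAddChar (∑ j, α j * ((v j : ℤ) : ZMod N))

variable {k N : ℕ} [NeZero N]

lemma ex_add (α : Fin k → ZMod N) (v w : Fin k → ℤ) : ex α (v + w) = ex α v * ex α w := by
  unfold ex
  rw [← AddChar.map_add_eq_mul, ← Finset.sum_add_distrib]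
  congr 1
  refine Finset.sum_congr rfl fun j _ => ?_
  rw [Pi.add_apply]; push_cast; ring

lemma norm_ex (α : Fin k → ZMod N) (v : Fin k → ℤ) : ‖ex α v‖ = 1 := by
  unfold ex
  exact AddChar.norm_apply _ _

lemma conj_ex (α : Fin k → ZMod N) (v : Fin k → ℤ) : (starRingEnd ℂ) (ex α v) = ex α (-v) := by
  unfold ex
  rw [← AddChar.map_neg_eq_conj]
  congr 1
  rw [← Finset.sum_neg_distrib]
  refine Finset.sum_congr rfl fun j _ => ?_
  rw [Pi.neg_apply]; push_cast; ring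

lemma sum_ex (v : Fin k → ℤ) :
    ∑ α : Fin k → ZMod N, ex α v = if ∀ j, ((v j : ℤ) : ZMod N) = 0 then (N : ℂ) ^ k else 0 := by
  have h1 : ∀ α : Fin k → ZMod N, ex α v
      = ∏ j, (ZMod.stdAddChar (α j * ((v j : ℤ) : ZMod N)) : ℂ) := by
    intro α
    unfold ex
    have : ∀ T : Finset (Fin k), (ZMod.stdAddChar (∑ j ∈ T, α j * ((v j : ℤ) : ZMod N)) : ℂ)
        = ∏ j ∈ T, (ZMod.stdAddChar (α j * ((v j : ℤ) : ZMod N)) : ℂ) := by
      intro T
      induction T using Finset.induction_on with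
      | empty => simp
      | insert a T ha ih => rw [Finset.sum_insert ha, Finset.prod_insert ha,
          AddChar.map_add_eq_mul, ih]
    exact this univ
  rw [Finset.sum_congr rfl fun α _ => h1 α]
  have h2 := Finset.prod_univ_sum (fun _ : Fin k => (univ : Finset (ZMod N)))
    (fun j a => (ZMod.stdAddChar (a * ((v j : ℤ) : ZMod N)) : ℂ))
  rw [Fintype.piFinset_univ] at h2
  rw [← h2]
  have h3 : ∀ j, ∑ a : ZMod N, (ZMod.stdAddChar (a * ((v j : ℤ) : ZMod N)) : ℂ)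
      = if ((v j : ℤ) : ZMod N) = 0 then (N : ℂ) else 0 := by
    intro j
    have := AddChar.sum_mulShift (R := ZMod N) (R' := ℂ) (ψ := ZMod.stdAddChar)
      ((v j : ℤ) : ZMod N) (ZMod.isPrimitive_stdAddChar N)
    rw [this, ZMod.card]
    split_ifs <;> simp
  rw [Finset.prod_congr rfl fun j _ => h3 j]
  split_ifs with h
  · rw [Finset.prod_congr rfl fun j _ => if_pos (h j)]
    simp
  · push Not at h
    obtain ⟨j, hj⟩ := h
    exact Finset.prod_eq_zero (mem_univ j) (if_neg hj)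

/-- Parseval: the mean square counts coincidences -/
theorem sum_norm_sq {κ : Type*} [DecidableEq κ] (A : Finset κ) (a : κ → Fin k → ℤ)
    (hN : ∀ x ∈ A, ∀ y ∈ A, (∀ j, ((a x j - a y j : ℤ) : ZMod N) = 0) → a x = a y) :
    ∑ α : Fin k → ZMod N, ‖∑ x ∈ A, ex α (a x)‖ ^ 2
      = (N : ℝ) ^ k * #{z ∈ A ×ˢ A | a z.1 = a z.2} := by
  have h1 : ∀ α : Fin k → ZMod N, ((‖∑ x ∈ A, ex α (a x)‖ ^ 2 : ℝ) : ℂ)
      = ∑ z ∈ A ×ˢ A, ex α (a z.1 - a z.2) := by
    intro α
    push_cast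
    rw [← Complex.mul_conj', map_sum, Finset.sum_mul_sum, Finset.sum_product]
    refine Finset.sum_congr rfl fun x _ => Finset.sum_congr rfl fun y _ => ?_
    rw [conj_ex, ← ex_add, sub_eq_add_neg]
  have h2 : ((∑ α : Fin k → ZMod N, ‖∑ x ∈ A, ex α (a x)‖ ^ 2 : ℝ) : ℂ)
      = (((N : ℝ) ^ k * #{z ∈ A ×ˢ A | a z.1 = a z.2} : ℝ) : ℂ) := by
    push_cast
    have h3 : ∀ α : Fin k → ZMod N, (‖∑ x ∈ A, ex α (a x)‖ : ℂ) ^ 2
      = ∑ z ∈ A ×ˢ A, ex α (a z.1 - a z.2) := by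
      intro α
      rw [← h1 α]; push_cast; rfl
    rw [Finset.sum_congr rfl fun α _ => h3 α, Finset.sum_comm]
    have h4 : ∀ z ∈ A ×ˢ A, ∑ α : Fin k → ZMod N, ex α (a z.1 - a z.2)
        = if a z.1 = a z.2 then (N : ℂ) ^ k else 0 := by
      intro z hz
      rw [mem_product] at hz
      rw [sum_ex]
      by_cases h : a z.1 = a z.2
      · rw [if_pos h, if_pos]
        intro j
        rw [h]; simp
      · rw [if_neg h, if_neg]
        intro hc
        exact h (hN _ hz.1 _ hz.2 hc)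
    rw [Finset.sum_congr rfl h4, ← Finset.sum_filter, Finset.sum_const, nsmul_eq_mul, mul_comm]
  exact_mod_cast h2

/-- a modulus detecting vanishing of finitely many integer vectors -/
lemma exists_modulus (V : Finset (Fin k → ℤ)) :
    ∃ N : ℕ, 0 < N ∧ ∀ v ∈ V, (∀ j, ((v j : ℤ) : ZMod N) = 0) → v = 0 := by
  refine ⟨1 + ∑ v ∈ V, ∑ j, (v j).natAbs, by omega, fun v hv h => ?_⟩
  funext j
  have h1 := (ZMod.intCast_zmod_eq_zero_iff_dvd _ _).1 (h j)
  refine Int.eq_zero_of_abs_lt_dvd h1 ?_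
  have h2 : (v j).natAbs ≤ ∑ v ∈ V, ∑ j, (v j).natAbs :=
    (Finset.single_le_sum (f := fun j => (v j).natAbs) (fun _ _ => Nat.zero_le _) (mem_univ j)).trans
      (Finset.single_le_sum (f := fun v : Fin k → ℤ => ∑ j, (v j).natAbs)
        (fun _ _ => Nat.zero_le _) hv)
  have h3 : (|v j| : ℤ) = ((v j).natAbs : ℤ) := Int.abs_eq_natAbs _
  rw [h3]
  push_cast
  have : ((v j).natAbs : ℤ) ≤ ((∑ v ∈ V, ∑ j, (v j).natAbs : ℕ) : ℤ) := by exact_mod_cast h2
  push_cast at this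
  linarith

/-- the exponential sum over `S` -/
def W (α : Fin k → ZMod N) (S : Finset ℤ) : ℂ := ∑ x ∈ S, ex α (fun j : Fin k => x ^ (j.1 + 1))

lemma ex_ps {ι : Type*} [Fintype ι] [DecidableEq ι] (α : Fin k → ZMod N) (x : ι → ℤ) :
    ex α (ps k x) = ∏ i, ex α (fun j : Fin k => x i ^ (j.1 + 1)) := by
  have h : ∀ T : Finset ι, ex α (fun j : Fin k => ∑ i ∈ T, x i ^ (j.1 + 1))
      = ∏ i ∈ T, ex α (fun j : Fin k => x i ^ (j.1 + 1)) := by
    intro T
    induction T using Finset.induction_on with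
    | empty => simp [ex]
    | insert a T ha ih =>
      rw [Finset.prod_insert ha, ← ih, ← ex_add]
      congr 1
      funext j
      rw [Finset.sum_insert ha]; rfl
  exact h univ

lemma prod_W {ι : Type*} [Fintype ι] [DecidableEq ι] (α : Fin k → ZMod N) (S : ι → Finset ℤ) :
    ∏ i, W α (S i) = ∑ x ∈ Fintype.piFinset S, ex α (ps k x) := by
  unfold W
  rw [Finset.prod_univ_sum]
  exact Finset.sum_congr rfl fun x _ => (ex_ps α x).symm

lemma W_pow {ι : Type*} [Fintype ι] [DecidableEq ι] (α : Fin k → ZMod N) (S : Finset ℤ) :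
    W α S ^ Fintype.card ι = ∑ x ∈ Fintype.piFinset (fun _ : ι => S), ex α (ps k x) := by
  rw [← prod_W α (fun _ : ι => S)]
  simp

/-- the moment formula -/
theorem sum_W_pow (ι : Type*) [Fintype ι] [DecidableEq ι] (S : Finset ℤ)
    (hN : ∀ x ∈ Fintype.piFinset (fun _ : ι => S), ∀ y ∈ Fintype.piFinset (fun _ : ι => S),
      (∀ j, ((ps k x j - ps k y j : ℤ) : ZMod N) = 0) → ps k x = ps k y) :
    ∑ α : Fin k → ZMod N, ‖W α S‖ ^ (2 * Fintype.card ι) = (N : ℝ) ^ k * J k ι S := by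
  have h := sum_norm_sq (N := N) (Fintype.piFinset (fun _ : ι => S)) (fun x => ps k x) hN
  rw [← Finset.sum_congr rfl fun α _ => by rw [← W_pow α S]] at h
  rw [J, ← h]
  refine Finset.sum_congr rfl fun α _ => ?_
  rw [norm_pow, ← pow_mul, mul_comm]

end

end Pool.Agent.Work.VK
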