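import Mathlib
import Pool.Agent.Work.VK.Fourier

/-! Elementary properties of the number of solutions of the Vinogradov system. -/

namespace Pool.Agent.Work.VK

open Finset

lemma J_mono {k : ℕ} {ι : Type*} [Fintype ι] [DecidableEq ι] {S T : Finset ℤ} (h : S ⊆ T) :
    J k ι S ≤ J k ι T := by
  unfold J
  refine Finset.card_le_card fun z hz => ?_
  rw [mem_filter, mem_product, Fintype.mem_piFinset, Fintype.mem_piFinset] at hz ⊢
  exact ⟨⟨fun i => h (hz.1.1 i), fun i => h (hz.1.2 i)⟩, hz.2⟩

lemma ps_comp {k : ℕ} {ι κ : Type*} [Fintype ι] [Fintype κ] (e : ι ≃ κ) (x : κ → ℤ) :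
    ps k (x ∘ e) = ps k x := by
  funext j
  exact Equiv.sum_comp e (fun i => x i ^ (j.1 + 1))

lemma J_congr {k : ℕ} {ι κ : Type*} [Fintype ι] [DecidableEq ι] [Fintype κ] [DecidableEq κ]
    (e : ι ≃ κ) (S : Finset ℤ) : J k ι S ≤ J k κ S := by
  unfold J
  refine Finset.card_le_card_of_injOn (fun z => (z.1 ∘ e.symm, z.2 ∘ e.symm)) ?_ ?_
  · intro z hz
    rw [Finset.mem_coe, mem_filter, mem_product, Fintype.mem_piFinset, Fintype.mem_piFinset] at hz ⊢
    refine ⟨⟨fun i => hz.1.1 _, fun i => hz.1.2 _⟩, ?_⟩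
    rw [ps_comp, ps_comp]; exact hz.2
  · intro z _ z' _ h
    simp only [Prod.mk.injEq] at h
    refine Prod.ext ?_ ?_
    · funext i
      have := congrFun h.1 (e i)
      simpa using this
    · funext i
      have := congrFun h.2 (e i)
      simpa using this

lemma J_le_card {k : ℕ} {ι : Type*} [Fintype ι] [DecidableEq ι] (S : Finset ℤ) :
    J k ι S ≤ #S ^ (2 * Fintype.card ι) := by
  unfold J
  refine (Finset.card_filter_le _ _).trans ?_
  rw [Finset.card_product, Fintype.card_piFinset]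
  simp only [Finset.prod_const, Finset.card_univ]
  rw [← pow_add, two_mul]

/-- shifted coincidences are at most as many as coincidences -/
theorem card_shift_le {κ G : Type*} [AddCommGroup G] [DecidableEq G] (A : Finset κ) (a : κ → G)
    (w : G) : #{z ∈ A ×ˢ A | a z.1 + w = a z.2} ≤ #{z ∈ A ×ˢ A | a z.1 = a z.2} := by
  classical
  let c : G → ℕ := fun g => #{x ∈ A | a x = g}
  have key : ∀ w : G, #{z ∈ A ×ˢ A | a z.1 + w = a z.2}
      = ∑ g ∈ A.image a, c g * c (g + w) := by
    intro w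
    rw [Finset.card_filter, Finset.sum_product]
    have h1 : ∀ x ∈ A, ∑ y ∈ A, (if a x + w = a y then 1 else 0) = c (a x + w) := by
      intro x _
      simp only [c]
      rw [Finset.card_filter]
      exact Finset.sum_congr rfl fun y _ => by simp only [eq_comm]
    rw [Finset.sum_congr rfl h1, Finset.sum_comp (fun g => c (g + w)) a]
    exact Finset.sum_congr rfl fun g _ => by rw [smul_eq_mul]
  have h0 := key 0
  simp only [add_zero] at h0
  rw [key w, h0]
  have hz : ∀ g, g ∉ A.image a → c g = 0 := by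
    intro g hg
    simp only [c]
    rw [Finset.card_eq_zero, Finset.filter_eq_empty_iff]
    intro x hx he
    exact hg (Finset.mem_image.2 ⟨x, hx, he⟩)
  have h2 : ∑ g ∈ A.image a, c (g + w) * c (g + w) ≤ ∑ g ∈ A.image a, c g * c g := by
    rw [← Finset.sum_image (s := A.image a) (g := fun g => g + w) (f := fun g => c g * c g)
      (fun x _ y _ h => add_right_cancel h)]
    refine Finset.sum_le_sum_of_ne_zero fun g _ hg => ?_
    by_contra hc
    exact hg (by rw [hz g hc, mul_zero])
  have h3 : 2 * ∑ g ∈ A.image a, c g * c (g + w)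
      ≤ ∑ g ∈ A.image a, c g * c g + ∑ g ∈ A.image a, c (g + w) * c (g + w) := by
    rw [Finset.mul_sum, ← Finset.sum_add_distrib]
    refine Finset.sum_le_sum fun g _ => ?_
    zify
    nlinarith [sq_nonneg ((c g : ℤ) - c (g + w))]
  omega

lemma ps_sum {k : ℕ} {ι κ : Type*} [Fintype ι] [Fintype κ] (x : ι ⊕ κ → ℤ) :
    ps k x = ps k (x ∘ Sum.inl) + ps k (x ∘ Sum.inr) := by
  funext j
  simp only [ps, Pi.add_apply, Function.comp]
  rw [Fintype.sum_sum_type]

/-- adding variables costs at most the trivial factor -/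
theorem J_sum_le {k : ℕ} {ι κ : Type*} [Fintype ι] [DecidableEq ι] [Fintype κ] [DecidableEq κ]
    (S : Finset ℤ) : J k (ι ⊕ κ) S ≤ #S ^ (2 * Fintype.card κ) * J k ι S := by
  classical
  let P : Finset (κ → ℤ) := Fintype.piFinset fun _ : κ => S
  have hP : #(P ×ˢ P) = #S ^ (2 * Fintype.card κ) := by
    rw [Finset.card_product, Fintype.card_piFinset]
    simp only [Finset.prod_const, Finset.card_univ]
    rw [← pow_add, two_mul]
  rw [mul_comm, ← hP]
  unfold J
  refine Finset.card_le_mul_card_image_of_maps_to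
    (f := fun z : (ι ⊕ κ → ℤ) × (ι ⊕ κ → ℤ) => (z.1 ∘ Sum.inr, z.2 ∘ Sum.inr)) ?_ _ ?_
  · intro z hz
    rw [mem_filter, mem_product, Fintype.mem_piFinset, Fintype.mem_piFinset] at hz
    rw [mem_product, Fintype.mem_piFinset, Fintype.mem_piFinset]
    exact ⟨fun i => hz.1.1 _, fun i => hz.1.2 _⟩
  · rintro ⟨b, b'⟩ _
    refine le_trans ?_ (card_shift_le (Fintype.piFinset fun _ : ι => S) (fun x => ps k x)
      (ps k b - ps k b'))
    refine Finset.card_le_card_of_injOn (fun z => (z.1 ∘ Sum.inl, z.2 ∘ Sum.inl)) ?_ ?_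
    · intro z hz
      rw [Finset.mem_coe, mem_filter, mem_filter, mem_product, Fintype.mem_piFinset,
        Fintype.mem_piFinset] at hz
      rw [Finset.mem_coe, mem_filter, mem_product, Fintype.mem_piFinset, Fintype.mem_piFinset]
      obtain ⟨⟨⟨h1, h2⟩, h3⟩, h4⟩ := hz
      simp only [Prod.mk.injEq] at h4
      refine ⟨⟨fun i => h1 _, fun i => h2 _⟩, ?_⟩
      rw [ps_sum, ps_sum z.2, h4.1, h4.2] at h3
      simp only
      rw [← add_sub_assoc, h3]; abel
    · intro z hz z' hz' h
      rw [Finset.mem_coe, mem_filter] at hz hz'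
      have e1 := hz.2.trans hz'.2.symm
      simp only [Prod.mk.injEq] at h e1
      refine Prod.ext ?_ ?_
      · funext i
        rcases i with i | i
        · exact congrFun h.1 i
        · exact congrFun e1.1 i
      · funext i
        rcases i with i | i
        · exact congrFun h.2 i
        · exact congrFun e1.2 i

/-- translation invariance of the system -/
theorem ps_translate {k : ℕ} {ι : Type*} [Fintype ι] {x y : ι → ℤ} (h : ps k x = ps k y) (b : ℤ)
    (j : ℕ) (hj : j ≤ k) : ∑ i, (x i - b) ^ j = ∑ i, (y i - b) ^ j := by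
  have key : ∀ z : ι → ℤ, ∑ i, (z i - b) ^ j
      = ∑ m ∈ Finset.range (j + 1), (∑ i, z i ^ m) * ((-b) ^ (j - m) * (j.choose m)) := by
    intro z
    simp_rw [sub_eq_add_neg, add_pow, Finset.sum_mul]
    rw [Finset.sum_comm]
    exact Finset.sum_congr rfl fun m _ => Finset.sum_congr rfl fun i _ => by ring
  rw [key, key]
  refine Finset.sum_congr rfl fun m hm => ?_
  rw [Finset.mem_range] at hm
  congr 1
  rcases Nat.eq_zero_or_pos m with rfl | hpos
  · simp
  · have := congrFun h ⟨m - 1, by omega⟩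
    simp only [ps] at this
    rwa [Nat.sub_add_cancel hpos] at this

/-- affine images have at most as many solutions -/
theorem J_affine {k : ℕ} {ι : Type*} [Fintype ι] [DecidableEq ι] (S : Finset ℤ) (a b : ℤ)
    (ha : a ≠ 0) : J k ι (S.image fun x => a * x + b) ≤ J k ι S := by
  classical
  unfold J
  have hinv : ∀ x : ℤ, (a * x + b - b) / a = x := fun x => by
    rw [add_sub_cancel_right, Int.mul_ediv_cancel_left _ ha]
  refine Finset.card_le_card_of_injOn
    (fun z => (fun i => (z.1 i - b) / a, fun i => (z.2 i - b) / a)) ?_ ?_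
  · intro z hz
    rw [Finset.mem_coe, mem_filter, mem_product, Fintype.mem_piFinset, Fintype.mem_piFinset] at hz ⊢
    obtain ⟨⟨h1, h2⟩, h3⟩ := hz
    have g1 : ∀ i, ∃ x ∈ S, z.1 i = a * x + b := fun i => by
      obtain ⟨x, hx, he⟩ := Finset.mem_image.1 (h1 i); exact ⟨x, hx, he.symm⟩
    have g2 : ∀ i, ∃ x ∈ S, z.2 i = a * x + b := fun i => by
      obtain ⟨x, hx, he⟩ := Finset.mem_image.1 (h2 i); exact ⟨x, hx, he.symm⟩
    choose u hu hu' using g1
    choose v hv hv' using g2
    have e1 : (fun i => (z.1 i - b) / a) = u := by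
      funext i; rw [hu' i, hinv]
    have e2 : (fun i => (z.2 i - b) / a) = v := by
      funext i; rw [hv' i, hinv]
    show ((∀ i, (fun i => (z.1 i - b) / a) i ∈ S) ∧ ∀ i, (fun i => (z.2 i - b) / a) i ∈ S) ∧
      ps k (fun i => (z.1 i - b) / a) = ps k (fun i => (z.2 i - b) / a)
    rw [e1, e2]
    refine ⟨⟨hu, hv⟩, ?_⟩
    funext j
    have h4 := ps_translate h3 b (j.1 + 1) (by omega)
    have e3 : ∀ i, z.1 i - b = a * u i := fun i => by rw [hu' i]; ring
    have e4 : ∀ i, z.2 i - b = a * v i := fun i => by rw [hv' i]; ring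
    simp only [e3, e4, mul_pow] at h4
    rw [← Finset.mul_sum, ← Finset.mul_sum] at h4
    exact mul_left_cancel₀ (pow_ne_zero _ ha) h4
  · intro z hz z' hz' h
    rw [Finset.mem_coe, mem_filter, mem_product, Fintype.mem_piFinset, Fintype.mem_piFinset]
      at hz hz'
    simp only [Prod.mk.injEq] at h
    have g : ∀ t t' : ℤ, (∃ x ∈ S, a * x + b = t) → (∃ x ∈ S, a * x + b = t') →
        (t - b) / a = (t' - b) / a → t = t' := by
      rintro t t' ⟨x, _, rfl⟩ ⟨x', _, rfl⟩ he
      rw [hinv, hinv] at he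
      rw [he]
    refine Prod.ext ?_ ?_
    · funext i
      exact g _ _ (Finset.mem_image.1 (hz.1.1 i)) (Finset.mem_image.1 (hz'.1.1 i)) (congrFun h.1 i)
    · funext i
      exact g _ _ (Finset.mem_image.1 (hz.1.2 i)) (Finset.mem_image.1 (hz'.1.2 i)) (congrFun h.2 i)

end Pool.Agent.Work.VK
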