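import Mathlib
import Pool.Agent.Work.VK.Count

/-! The `p`-adic recursion for the number of solutions of the Vinogradov system. -/

namespace Pool.Agent.Work.VK

open Finset

section combin

set_option linter.unusedSectionVars false

variable {ι κ : Type*} [Fintype ι] [DecidableEq ι] [Fintype κ] [DecidableEq κ]

/-- products of sets of tuples -/
def bx (A0 : Finset (ι → ℤ)) (A1 : Finset (κ → ℤ)) : Finset (ι ⊕ κ → ℤ) :=
  (A0 ×ˢ A1).map (Equiv.sumArrowEquivProdArrow ι κ ℤ).symm.toEmbedding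

lemma mem_bx {A0 : Finset (ι → ℤ)} {A1 : Finset (κ → ℤ)} {x : ι ⊕ κ → ℤ} :
    x ∈ bx A0 A1 ↔ x ∘ Sum.inl ∈ A0 ∧ x ∘ Sum.inr ∈ A1 := by
  unfold bx
  rw [Finset.mem_map]
  constructor
  · rintro ⟨⟨a, b⟩, h, rfl⟩
    rw [mem_product] at h
    exact h
  · intro h
    refine ⟨(x ∘ Sum.inl, x ∘ Sum.inr), mem_product.2 h, ?_⟩
    funext i
    rcases i with i | i <;> rfl

lemma sum_bx {k N : ℕ} [NeZero N] (α : Fin k → ZMod N) (A0 : Finset (ι → ℤ))
    (A1 : Finset (κ → ℤ)) : ∑ x ∈ bx A0 A1, ex α (ps k x)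
      = (∑ x ∈ A0, ex α (ps k x)) * ∑ x ∈ A1, ex α (ps k x) := by
  unfold bx
  rw [Finset.sum_map, Finset.sum_product, Finset.sum_mul_sum]
  refine Finset.sum_congr rfl fun a _ => Finset.sum_congr rfl fun b _ => ?_
  rw [← ex_add, ps_sum]
  rfl

/-- a reordering that puts `k` different values first -/
lemma exists_perm {k s : ℕ} (c : Fin k ⊕ Fin s → ℤ) (h : k ≤ #(univ.image c)) :
    ∃ σ : Equiv.Perm (Fin k ⊕ Fin s), ∀ i j : Fin k,
      c (σ (Sum.inl i)) = c (σ (Sum.inl j)) → i = j := by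
  classical
  obtain ⟨T, hT, hTk⟩ := Finset.exists_subset_card_eq h
  let e : Fin k ≃ T := (Finset.equivFinOfCardEq hTk).symm
  have h1 : ∀ i : Fin k, ∃ a, c a = (e i).1 := fun i => by
    obtain ⟨a, _, ha⟩ := Finset.mem_image.1 (hT (e i).2)
    exact ⟨a, ha⟩
  choose g hg using h1
  have hginj : Function.Injective g := by
    intro i j hij
    apply e.injective
    apply Subtype.ext
    rw [← hg i, ← hg j, hij]
  let E : {x // x ∈ Set.range (Sum.inl : Fin k → Fin k ⊕ Fin s)} ≃ {x // x ∈ Set.range g} :=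
    (Equiv.ofInjective _ Sum.inl_injective).symm.trans (Equiv.ofInjective g hginj)
  refine ⟨Equiv.extendSubtype E, fun i j hij => ?_⟩
  have h2 : ∀ i : Fin k, Equiv.extendSubtype E (Sum.inl i) = g i := by
    intro i
    rw [Equiv.extendSubtype_apply_of_mem E (Sum.inl i) ⟨i, rfl⟩]
    simp only [E, Equiv.trans_apply]
    have : (⟨Sum.inl i, ⟨i, rfl⟩⟩ : {x // x ∈ Set.range (Sum.inl : Fin k → Fin k ⊕ Fin s)})
        = Equiv.ofInjective _ Sum.inl_injective i := rfl
    rw [this, Equiv.symm_apply_apply]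
    rfl
  rw [h2, h2, hg, hg] at hij
  exact e.injective (Subtype.ext hij)

/-- functions with few values -/
lemma card_few {m q : ℕ} (hm : Fintype.card ι = m) (R : Finset ℤ) (h0 : (0 : ℤ) ∈ R) :
    #{c ∈ Fintype.piFinset (fun _ : ι => R) | #(univ.image c) < q + 1} ≤ #R ^ q * q ^ m := by
  classical
  have hsub : {c ∈ Fintype.piFinset (fun _ : ι => R) | #(univ.image c) < q + 1} ⊆
      ((Fintype.piFinset (fun _ : Fin q => R)) ×ˢ (univ : Finset (ι → Fin q))).image
        (fun z => z.1 ∘ z.2) := by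
    intro c hc
    rw [mem_filter, Fintype.mem_piFinset] at hc
    set T := univ.image c with hT
    have hTq : #T ≤ q := by omega
    let e : T ≃ Fin #T := T.equivFin
    have hcT : ∀ i, c i ∈ T := fun i => Finset.mem_image_of_mem _ (mem_univ _)
    refine Finset.mem_image.2 ⟨(fun j => if hj : j.1 < #T then (e.symm ⟨j.1, hj⟩).1 else 0,
      fun i => Fin.castLE hTq (e ⟨c i, hcT i⟩)), ?_, ?_⟩
    · rw [mem_product]
      refine ⟨?_, mem_univ _⟩
      rw [Fintype.mem_piFinset]
      intro j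
      simp only
      split_ifs with hj
      · obtain ⟨i, _, hi⟩ := Finset.mem_image.1 (e.symm ⟨j.1, hj⟩).2
        rw [← hi]; exact hc.1 i
      · exact h0
    · funext i
      simp only [Function.comp, Fin.val_castLE, Fin.is_lt, dite_true, Fin.eta,
        Equiv.symm_apply_apply]
  refine (Finset.card_le_card hsub).trans (Finset.card_image_le.trans ?_)
  rw [Finset.card_product, Fintype.card_piFinset]
  simp [hm]

end combin

/-- tuples with entries in `S`, distinct modulo `p` -/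
def D0 (k : ℕ) (p : ℕ) (S : Finset ℤ) : Finset (Fin k → ℤ) :=
  {x ∈ Fintype.piFinset (fun _ : Fin k => S) | ∀ i j, (p : ℤ) ∣ x i - x j → i = j}

/-- the residue class `r` in `S` -/
def Sr (p : ℕ) (S : Finset ℤ) (r : ℤ) : Finset ℤ := {x ∈ S | x % (p : ℤ) = r}

/-- counting with well distributed first variables and the others in one class -/
theorem count_class {p : ℕ} (hp : p.Prime) {k s : ℕ} (hk : k < p) (S : Finset ℤ)
    (hS : ∀ a ∈ S, ∀ b ∈ S, ((p : ℤ) ^ k) ∣ a - b → a = b) (r : ℤ) (Js : ℕ)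
    (hJ : J k (Fin s) (Sr p S r) ≤ Js) :
    #{z ∈ bx (D0 k p S) (Fintype.piFinset fun _ : Fin s => Sr p S r) ×ˢ
        bx (D0 k p S) (Fintype.piFinset fun _ : Fin s => Sr p S r) | ps k z.1 = ps k z.2}
      ≤ #S ^ k * (k.factorial * p ^ (k * (k - 1) / 2)) * Js := by
  classical
  set E := bx (D0 k p S) (Fintype.piFinset fun _ : Fin s => Sr p S r) with hE
  let T' : Finset ((Fin k → ℤ) × (Fin k → ℤ)) := {z ∈ (Fintype.piFinset fun _ : Fin k => S) ×ˢ
    D0 k p S | ∀ j : Fin k, ((p : ℤ) ^ (j.1 + 1)) ∣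
      ∑ i, (z.2 i - r) ^ (j.1 + 1) - ∑ i, (z.1 i - r) ^ (j.1 + 1)}
  have hT' : #T' ≤ #S ^ k * (k.factorial * p ^ (k * (k - 1) / 2)) := by
    have h1 : #T' = ∑ x ∈ Fintype.piFinset (fun _ : Fin k => S),
        #{y ∈ D0 k p S | ∀ j : Fin k, ((p : ℤ) ^ (j.1 + 1)) ∣
          ∑ i, (y i - r) ^ (j.1 + 1) - ∑ i, (x i - r) ^ (j.1 + 1)} := by
      simp only [T']
      rw [Finset.card_filter, Finset.sum_product]
      exact Finset.sum_congr rfl fun x _ => (Finset.card_filter _ _).symm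
    rw [h1]
    calc _ ≤ ∑ x ∈ Fintype.piFinset (fun _ : Fin k => S),
          k.factorial * p ^ (k * (k - 1) / 2) := by
          refine Finset.sum_le_sum fun x _ => ?_
          refine le_trans (Finset.card_le_card ?_)
            (linnik hp hk S hS r (fun j => ∑ i, (x i - r) ^ (j.1 + 1)))
          intro y hy
          rw [D0, mem_filter, mem_filter] at hy
          rw [mem_filter]
          exact ⟨hy.1.1, hy.1.2, hy.2⟩
      _ = _ := by
          rw [Finset.sum_const, smul_eq_mul, Fintype.card_piFinset]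
          simp
  refine (Finset.card_le_mul_card_image_of_maps_to (t := T')
    (f := fun z : (Fin k ⊕ Fin s → ℤ) × (Fin k ⊕ Fin s → ℤ) => (z.1 ∘ Sum.inl, z.2 ∘ Sum.inl))
    ?_ Js ?_).trans ?_
  · intro z hz
    rw [mem_filter, mem_product, hE, mem_bx, mem_bx] at hz
    obtain ⟨⟨⟨h1, h2⟩, h3, h4⟩, h5⟩ := hz
    simp only [T']
    rw [mem_filter, mem_product]
    refine ⟨⟨?_, h3⟩, ?_⟩
    · rw [D0, mem_filter] at h1; exact h1.1
    · intro j
      have h6 := ps_translate h5 r (j.1 + 1) (by omega)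
      rw [Fintype.sum_sum_type, Fintype.sum_sum_type] at h6
      have hdiv : ∀ x : Fin k ⊕ Fin s → ℤ,
          x ∘ Sum.inr ∈ (Fintype.piFinset fun _ : Fin s => Sr p S r) →
          ((p : ℤ) ^ (j.1 + 1)) ∣ ∑ i : Fin s, (x (Sum.inr i) - r) ^ (j.1 + 1) := by
        intro x hx
        refine Finset.dvd_sum fun i _ => ?_
        refine pow_dvd_pow_of_dvd ?_ _
        rw [Fintype.mem_piFinset] at hx
        have := hx i
        rw [Sr, mem_filter] at this
        rw [← this.2]
        exact Int.dvd_self_sub_emod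
      have e : ∑ i, ((z.2 ∘ Sum.inl) i - r) ^ (j.1 + 1) - ∑ i, ((z.1 ∘ Sum.inl) i - r) ^ (j.1 + 1)
          = ∑ i : Fin s, (z.1 (Sum.inr i) - r) ^ (j.1 + 1)
            - ∑ i : Fin s, (z.2 (Sum.inr i) - r) ^ (j.1 + 1) := by
        simp only [Function.comp]
        linarith
      simp only at e ⊢
      rw [e]
      exact dvd_sub (hdiv _ h2) (hdiv _ h4)
  · rintro ⟨b, b'⟩ _
    refine le_trans ?_ ((card_shift_le (Fintype.piFinset fun _ : Fin s => Sr p S r)
      (fun x => ps k x) (ps k b - ps k b')).trans hJ)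
    refine Finset.card_le_card_of_injOn (fun z => (z.1 ∘ Sum.inr, z.2 ∘ Sum.inr)) ?_ ?_
    · intro z hz
      rw [Finset.mem_coe, mem_filter, mem_filter, mem_product, hE, mem_bx, mem_bx] at hz
      rw [Finset.mem_coe, mem_filter, mem_product]
      obtain ⟨⟨⟨⟨h1, h2⟩, h3, h4⟩, h5⟩, h6⟩ := hz
      simp only [Prod.mk.injEq] at h6
      refine ⟨⟨h2, h4⟩, ?_⟩
      rw [ps_sum, ps_sum z.2, h6.1, h6.2] at h5
      simp only
      have : ps k (z.1 ∘ Sum.inr) + (ps k b - ps k b')
          = (ps k b + ps k (z.1 ∘ Sum.inr)) - ps k b' := by abel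
      rw [this, h5]; abel
    · intro z hz z' hz' h
      rw [Finset.mem_coe, mem_filter] at hz hz'
      have e1 := hz.2.trans hz'.2.symm
      simp only [Prod.mk.injEq] at h e1
      refine Prod.ext ?_ ?_
      · funext i
        rcases i with i | i
        · exact congrFun e1.1 i
        · exact congrFun h.1 i
      · funext i
        rcases i with i | i
        · exact congrFun e1.2 i
        · exact congrFun h.2 i
  · rw [mul_comm]
    exact Nat.mul_le_mul_right _ hT'

/-- reordering: tuples with at least `k` classes -/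
theorem count_reorder {p k s : ℕ} (S : Finset ℤ) :
    #{z ∈ {x ∈ Fintype.piFinset (fun _ : Fin k ⊕ Fin s => S) | k ≤ #(univ.image fun i => x i % (p : ℤ))} ×ˢ
        {x ∈ Fintype.piFinset (fun _ : Fin k ⊕ Fin s => S) | k ≤ #(univ.image fun i => x i % (p : ℤ))} |
        ps k z.1 = ps k z.2}
      ≤ (k + s).factorial ^ 2 *
        #{z ∈ bx (D0 k p S) (Fintype.piFinset fun _ : Fin s => S) ×ˢ
          bx (D0 k p S) (Fintype.piFinset fun _ : Fin s => S) | ps k z.1 = ps k z.2} := by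
  classical
  set A := {x ∈ Fintype.piFinset (fun _ : Fin k ⊕ Fin s => S) |
    k ≤ #(univ.image fun i => x i % (p : ℤ))} with hA
  set D := bx (D0 k p S) (Fintype.piFinset fun _ : Fin s => S) with hD
  have h1 : ∀ x : Fin k ⊕ Fin s → ℤ, ∃ σ : Equiv.Perm (Fin k ⊕ Fin s), x ∈ A → x ∘ σ ∈ D := by
    intro x
    by_cases hx : x ∈ A
    · rw [hA, mem_filter, Fintype.mem_piFinset] at hx
      obtain ⟨σ, hσ⟩ := exists_perm (fun i => x i % (p : ℤ)) hx.2
      refine ⟨σ, fun _ => ?_⟩
      rw [hD, mem_bx, D0, mem_filter, Fintype.mem_piFinset, Fintype.mem_piFinset]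
      refine ⟨⟨fun i => hx.1 _, fun i j hij => hσ i j ?_⟩, fun i => hx.1 _⟩
      exact Int.emod_eq_emod_iff_emod_sub_eq_zero.2 (Int.emod_eq_zero_of_dvd hij)
    · exact ⟨1, fun h => absurd h hx⟩
  choose σ hσ using h1
  have hcard : #((univ : Finset (Equiv.Perm (Fin k ⊕ Fin s))) ×ˢ
      (univ : Finset (Equiv.Perm (Fin k ⊕ Fin s)))) = (k + s).factorial ^ 2 := by
    rw [Finset.card_product, Finset.card_univ, Fintype.card_perm]
    simp [sq]
  rw [← hcard, ← Finset.card_product]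
  refine Finset.card_le_card_of_injOn
    (fun z => ((σ z.1, σ z.2), (z.1 ∘ σ z.1, z.2 ∘ σ z.2))) ?_ ?_
  · intro z hz
    rw [Finset.mem_coe, mem_filter, mem_product] at hz
    refine Finset.mem_coe.2 (Finset.mem_product.2 ⟨Finset.mem_product.2 ⟨mem_univ _, mem_univ _⟩,
      Finset.mem_filter.2 ⟨Finset.mem_product.2 ⟨hσ _ hz.1.1, hσ _ hz.1.2⟩, ?_⟩⟩)
    show ps k (z.1 ∘ σ z.1) = ps k (z.2 ∘ σ z.2)
    rw [ps_comp, ps_comp]; exact hz.2
  · intro z _ z' _ h
    simp only [Prod.mk.injEq] at h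
    obtain ⟨⟨e1, e2⟩, e3, e4⟩ := h
    refine Prod.ext ?_ ?_
    · funext i
      have := congrFun e3 ((σ z.1).symm i)
      rw [← e1] at this
      simpa using this
    · funext i
      have := congrFun e4 ((σ z.2).symm i)
      rw [← e2] at this
      simpa using this

end Pool.Agent.Work.VK
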