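import Mathlib
import Pool.Agent.Work.VK.Step

/-! The recursion inequality. -/

namespace Pool.Agent.Work.VK

open Finset

noncomputable section

variable {k N : ℕ} [NeZero N]

/-- exponential sum over a set of tuples -/
def FF {ι : Type*} [Fintype ι] (α : Fin k → ZMod N) (A : Finset (ι → ℤ)) : ℂ :=
  ∑ x ∈ A, ex α (ps k x)

lemma W_eq_sum_classes (α : Fin k → ZMod N) {p : ℕ} (hp : 0 < p) (S : Finset ℤ) :
    W α S = ∑ r ∈ Finset.Ico (0 : ℤ) p, W α (Sr p S r) := by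
  unfold W Sr
  rw [Finset.sum_fiberwise_of_maps_to]
  intro x _
  rw [Finset.mem_Ico]
  have : (0 : ℤ) < p := by exact_mod_cast hp
  exact ⟨Int.emod_nonneg _ this.ne', Int.emod_lt_of_pos _ this⟩

lemma norm_W_pow_le (α : Fin k → ZMod N) {p : ℕ} (hp : 0 < p) (S : Finset ℤ) {s : ℕ}
    (hs : 1 ≤ s) : ‖W α S‖ ^ (2 * s)
      ≤ (p : ℝ) ^ (2 * s - 1) * ∑ r ∈ Finset.Ico (0 : ℤ) p, ‖W α (Sr p S r)‖ ^ (2 * s) := by
  rw [W_eq_sum_classes α hp S]
  have h1 : ‖∑ r ∈ Finset.Ico (0 : ℤ) p, W α (Sr p S r)‖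
      ≤ ∑ r ∈ Finset.Ico (0 : ℤ) p, ‖W α (Sr p S r)‖ := norm_sum_le _ _
  refine (pow_le_pow_left₀ (norm_nonneg _) h1 _).trans ?_
  have h2 := pow_sum_le_card_mul_sum_pow (s := Finset.Ico (0 : ℤ) p)
    (f := fun r => ‖W α (Sr p S r)‖) (fun _ _ => norm_nonneg _) (2 * s - 1)
  rw [Nat.sub_add_cancel (by omega)] at h2
  simpa using h2

lemma prod_le_sum_pow {ι : Type*} [Fintype ι] [Nonempty ι] (f : ι → ℝ) (hf : ∀ i, 0 ≤ f i) :
    ∏ i, f i ≤ ∑ i, f i ^ Fintype.card ι := by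
  obtain ⟨i0, _, hi0⟩ := Finset.exists_max_image (univ : Finset ι) f univ_nonempty
  calc ∏ i, f i ≤ ∏ _i : ι, f i0 :=
        Finset.prod_le_prod (fun i _ => hf i) (fun i hi => hi0 i hi)
    _ = f i0 ^ Fintype.card ι := by simp
    _ ≤ ∑ i, f i ^ Fintype.card ι :=
        Finset.single_le_sum (f := fun i => f i ^ Fintype.card ι)
          (fun i _ => pow_nonneg (hf i) _) (mem_univ i0)

omit [NeZero N] in
theorem J_rec {p : ℕ} (hp : p.Prime) {k s : ℕ} (hk : k < p) (hk1 : 1 ≤ k) (hs : 1 ≤ s)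
    (S : Finset ℤ) (hS : ∀ a ∈ S, ∀ b ∈ S, ((p : ℤ) ^ k) ∣ a - b → a = b) (Js Jm : ℕ)
    (hJs : ∀ r ∈ Finset.Ico (0 : ℤ) p, J k (Fin s) (Sr p S r) ≤ Js)
    (hJm : ∀ r ∈ Finset.Ico (0 : ℤ) p, J k (Fin k ⊕ Fin s) (Sr p S r) ≤ Jm) :
    (J k (Fin k ⊕ Fin s) S : ℝ) ≤
      2 * ((k + s).factorial : ℝ) ^ 2 * (p : ℝ) ^ (2 * s) *
        ((#S : ℝ) ^ k * (k.factorial * (p : ℝ) ^ (k * (k - 1) / 2)) * Js)
      + 2 * (k + s) * ((p : ℝ) ^ (k - 1) * ((k - 1 : ℕ) : ℝ) ^ (k + s)) ^ 2 * Jm := by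
  classical
  set P := Fintype.piFinset (fun _ : Fin k ⊕ Fin s => S) with hP
  obtain ⟨N, hN0, hNV⟩ := exists_modulus (k := k)
    ((P ×ˢ P).image fun z => ps k z.1 - ps k z.2)
  have : NeZero N := ⟨hN0.ne'⟩
  have hN : ∀ x ∈ P, ∀ y ∈ P, (∀ j, ((ps k x j - ps k y j : ℤ) : ZMod N) = 0) →
      ps k x = ps k y := by
    intro x hx y hy h
    have := hNV (ps k x - ps k y) (Finset.mem_image.2 ⟨(x, y), mem_product.2 ⟨hx, hy⟩, rfl⟩) h
    exact sub_eq_zero.1 this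
  have hNpos : (0 : ℝ) < (N : ℝ) ^ k := by positivity
  have hcardι : Fintype.card (Fin k ⊕ Fin s) = k + s := by simp
  have : Nonempty (Fin k ⊕ Fin s) := ⟨Sum.inl ⟨0, by omega⟩⟩
  -- mean square over a subset of tuples
  have hms : ∀ A ⊆ P, ∑ α : Fin k → ZMod N, ‖FF α A‖ ^ 2
      = (N : ℝ) ^ k * #{z ∈ A ×ˢ A | ps k z.1 = ps k z.2} := by
    intro A hA
    exact sum_norm_sq A (fun x => ps k x) fun x hx y hy => hN x (hA hx) y (hA hy)
  set A1 := {x ∈ P | k ≤ #(univ.image fun i => x i % (p : ℤ))} with hA1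
  set A2 := {x ∈ P | ¬ k ≤ #(univ.image fun i => x i % (p : ℤ))} with hA2
  have hsplit : ∀ α : Fin k → ZMod N, FF α P = FF α A1 + FF α A2 := by
    intro α
    unfold FF
    rw [hA1, hA2, Finset.sum_filter_add_sum_filter_not]
  have h0 : (N : ℝ) ^ k * J k (Fin k ⊕ Fin s) S = ∑ α : Fin k → ZMod N, ‖FF α P‖ ^ 2 := by
    rw [hms P (Finset.Subset.refl _)]; rfl
  have h1 : ∑ α : Fin k → ZMod N, ‖FF α P‖ ^ 2
      ≤ 2 * ∑ α : Fin k → ZMod N, ‖FF α A1‖ ^ 2 + 2 * ∑ α : Fin k → ZMod N, ‖FF α A2‖ ^ 2 := by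
    rw [Finset.mul_sum, Finset.mul_sum, ← Finset.sum_add_distrib]
    refine Finset.sum_le_sum fun α _ => ?_
    rw [hsplit α]
    have h := norm_add_le (FF α A1) (FF α A2)
    nlinarith [sq_nonneg (‖FF α A1‖ - ‖FF α A2‖), norm_nonneg (FF α A1 + FF α A2),
      norm_nonneg (FF α A1), norm_nonneg (FF α A2)]
  -- part A
  set PS := Fintype.piFinset (fun _ : Fin s => S) with hPS
  set D := bx (D0 k p S) PS with hD
  have hDP : D ⊆ P := by
    intro x hx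
    rw [hD, mem_bx, D0, mem_filter, Fintype.mem_piFinset, hPS, Fintype.mem_piFinset] at hx
    rw [hP, Fintype.mem_piFinset]
    rintro (i | i)
    · exact hx.1.1 i
    · exact hx.2 i
  have hA : ∑ α : Fin k → ZMod N, ‖FF α A1‖ ^ 2
      ≤ ((k + s).factorial : ℝ) ^ 2 * ∑ α : Fin k → ZMod N, ‖FF α D‖ ^ 2 := by
    rw [hms A1 (Finset.filter_subset _ _), hms D hDP]
    have h := count_reorder (p := p) (k := k) (s := s) S
    rw [← hP, ← hA1, ← hPS, ← hD] at h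
    have h' : ((#{z ∈ A1 ×ˢ A1 | ps k z.1 = ps k z.2} : ℕ) : ℝ)
        ≤ ((k + s).factorial : ℝ) ^ 2 * #{z ∈ D ×ˢ D | ps k z.1 = ps k z.2} := by
      exact_mod_cast h
    nlinarith
  have hB : ∀ α : Fin k → ZMod N, ‖FF α D‖ ^ 2 ≤ (p : ℝ) ^ (2 * s - 1) *
      ∑ r ∈ Finset.Ico (0 : ℤ) p,
        ‖FF α (bx (D0 k p S) (Fintype.piFinset fun _ : Fin s => Sr p S r))‖ ^ 2 := by
    intro α
    have e1 : ∀ T : Finset ℤ, ‖FF α (bx (D0 k p S) (Fintype.piFinset fun _ : Fin s => T))‖ ^ 2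
        = ‖FF α (D0 k p S)‖ ^ 2 * ‖W α T‖ ^ (2 * s) := by
      intro T
      have h2 := W_pow (ι := Fin s) α T
      rw [Fintype.card_fin] at h2
      unfold FF
      rw [sum_bx, ← h2, norm_mul, mul_pow, norm_pow, ← pow_mul, mul_comm s 2]
    rw [hD, hPS, e1 S]
    simp_rw [e1]
    rw [← Finset.mul_sum, mul_left_comm]
    exact mul_le_mul_of_nonneg_left (norm_W_pow_le α hp.pos S hs) (sq_nonneg _)
  have hC : ∑ α : Fin k → ZMod N, ‖FF α D‖ ^ 2 ≤ (N : ℝ) ^ k * ((p : ℝ) ^ (2 * s) *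
      ((#S : ℝ) ^ k * (k.factorial * (p : ℝ) ^ (k * (k - 1) / 2)) * Js)) := by
    calc ∑ α : Fin k → ZMod N, ‖FF α D‖ ^ 2
        ≤ ∑ α : Fin k → ZMod N, (p : ℝ) ^ (2 * s - 1) * ∑ r ∈ Finset.Ico (0 : ℤ) p,
        ‖FF α (bx (D0 k p S) (Fintype.piFinset fun _ : Fin s => Sr p S r))‖ ^ 2 :=
          Finset.sum_le_sum fun α _ => hB α
      _ = (p : ℝ) ^ (2 * s - 1) * ∑ r ∈ Finset.Ico (0 : ℤ) p, ∑ α : Fin k → ZMod N,
        ‖FF α (bx (D0 k p S) (Fintype.piFinset fun _ : Fin s => Sr p S r))‖ ^ 2 := by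
          rw [← Finset.mul_sum, Finset.sum_comm]
      _ ≤ (p : ℝ) ^ (2 * s - 1) * ∑ r ∈ Finset.Ico (0 : ℤ) p, (N : ℝ) ^ k *
          ((#S : ℝ) ^ k * (k.factorial * (p : ℝ) ^ (k * (k - 1) / 2)) * Js) := by
          refine mul_le_mul_of_nonneg_left (Finset.sum_le_sum fun r hr => ?_) (by positivity)
          have hsub : bx (D0 k p S) (Fintype.piFinset fun _ : Fin s => Sr p S r) ⊆ P := by
            refine subset_trans (fun x hx => ?_) hDP
            rw [mem_bx, Fintype.mem_piFinset] at hx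
            rw [hD, mem_bx, hPS, Fintype.mem_piFinset]
            exact ⟨hx.1, fun i => (Finset.mem_filter.1 (hx.2 i)).1⟩
          rw [hms _ hsub]
          refine mul_le_mul_of_nonneg_left ?_ hNpos.le
          have h := count_class hp hk S hS r Js (hJs r hr)
          exact_mod_cast h
      _ = _ := by
          rw [Finset.sum_const, Int.card_Ico, sub_zero, Int.toNat_natCast, nsmul_eq_mul]
          have : (p : ℝ) ^ (2 * s) = (p : ℝ) ^ (2 * s - 1) * p := by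
            rw [← pow_succ, Nat.sub_add_cancel (by omega)]
          rw [this]; ring
  -- part B
  set R := Finset.Ico (0 : ℤ) p with hR
  have hp0 : (0 : ℤ) < p := by exact_mod_cast hp.pos
  set CC := {c ∈ Fintype.piFinset (fun _ : Fin k ⊕ Fin s => R) | #(univ.image c) < (k - 1) + 1}
    with hCC
  have hCCcard : (#CC : ℝ) ≤ (p : ℝ) ^ (k - 1) * ((k - 1 : ℕ) : ℝ) ^ (k + s) := by
    have h := card_few (q := k - 1) hcardι R (by rw [hR, Finset.mem_Ico]; exact ⟨le_rfl, hp0⟩)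
    have hRc : #R = p := by rw [hR, Int.card_Ico]; simp
    rw [hRc] at h
    exact_mod_cast h
  have hF2 : ∀ α : Fin k → ZMod N, FF α A2 = ∑ c ∈ CC, ∏ i, W α (Sr p S (c i)) := by
    intro α
    unfold FF
    rw [← Finset.sum_fiberwise_of_maps_to (t := CC) (g := fun x => fun i => x i % (p : ℤ))]
    · refine Finset.sum_congr rfl fun c hc => ?_
      rw [prod_W]
      refine Finset.sum_congr ?_ fun _ _ => rfl
      ext x
      rw [hCC, mem_filter, Fintype.mem_piFinset] at hc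
      rw [mem_filter, hA2, mem_filter, hP, Fintype.mem_piFinset, Fintype.mem_piFinset]
      constructor
      · rintro ⟨⟨h1, _⟩, h3⟩ i
        rw [Sr, mem_filter]
        exact ⟨h1 i, congrFun h3 i⟩
      · intro h
        have h4 : (fun i => x i % (p : ℤ)) = c := by
          funext i
          exact (Finset.mem_filter.1 (h i)).2
        refine ⟨⟨fun i => (Finset.mem_filter.1 (h i)).1, ?_⟩, h4⟩
        rw [h4]; omega
    · intro x hx
      rw [hA2, mem_filter] at hx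
      rw [hCC, mem_filter, Fintype.mem_piFinset]
      refine ⟨fun i => ?_, by omega⟩
      rw [hR, Finset.mem_Ico]
      exact ⟨Int.emod_nonneg _ hp0.ne', Int.emod_lt_of_pos _ hp0⟩
  have hE : ∀ α : Fin k → ZMod N, ‖FF α A2‖ ^ 2
      ≤ #CC * ∑ c ∈ CC, ∑ i, ‖W α (Sr p S (c i))‖ ^ (2 * (k + s)) := by
    intro α
    rw [hF2 α]
    have h2 : ‖∑ c ∈ CC, ∏ i, W α (Sr p S (c i))‖ ≤ ∑ c ∈ CC, ‖∏ i, W α (Sr p S (c i))‖ :=
      norm_sum_le _ _
    have h3 := sq_sum_le_card_mul_sum_sq (s := CC) (f := fun c => ‖∏ i, W α (Sr p S (c i))‖)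
    refine (pow_le_pow_left₀ (norm_nonneg _) h2 2).trans (h3.trans ?_)
    refine mul_le_mul_of_nonneg_left (Finset.sum_le_sum fun c _ => ?_) (Nat.cast_nonneg _)
    rw [norm_prod, ← Finset.prod_pow]
    refine (prod_le_sum_pow _ fun i => sq_nonneg _).trans ?_
    rw [hcardι]
    refine Finset.sum_le_sum fun i _ => ?_
    rw [← pow_mul]
  have hF : ∑ α : Fin k → ZMod N, ‖FF α A2‖ ^ 2
      ≤ (N : ℝ) ^ k * ((k + s) * (#CC : ℝ) ^ 2 * Jm) := by
    calc ∑ α : Fin k → ZMod N, ‖FF α A2‖ ^ 2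
        ≤ ∑ α : Fin k → ZMod N, #CC * ∑ c ∈ CC, ∑ i, ‖W α (Sr p S (c i))‖ ^ (2 * (k + s)) :=
          Finset.sum_le_sum fun α _ => hE α
      _ = #CC * ∑ c ∈ CC, ∑ i, ∑ α : Fin k → ZMod N, ‖W α (Sr p S (c i))‖ ^ (2 * (k + s)) := by
          rw [← Finset.mul_sum, Finset.sum_comm]
          congr 1
          refine Finset.sum_congr rfl fun c _ => ?_
          rw [Finset.sum_comm]
      _ ≤ #CC * ∑ c ∈ CC, ∑ i : Fin k ⊕ Fin s, (N : ℝ) ^ k * Jm := by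
          refine mul_le_mul_of_nonneg_left (Finset.sum_le_sum fun c hc =>
            Finset.sum_le_sum fun i _ => ?_) (Nat.cast_nonneg _)
          have h2 := sum_W_pow (N := N) (k := k) (Fin k ⊕ Fin s) (Sr p S (c i)) ?_
          · rw [hcardι] at h2
            rw [h2]
            refine mul_le_mul_of_nonneg_left ?_ hNpos.le
            rw [hCC, mem_filter, Fintype.mem_piFinset] at hc
            exact_mod_cast hJm _ (hc.1 i)
          · intro x hx y hy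
            have hsub : (Fintype.piFinset fun _ : Fin k ⊕ Fin s => Sr p S (c i)) ⊆ P :=
              Fintype.piFinset_subset _ _ fun _ => Finset.filter_subset _ _
            exact hN x (hsub hx) y (hsub hy)
      _ = _ := by
          simp only [Finset.sum_const, Finset.card_univ, nsmul_eq_mul, hcardι]
          push_cast
          ring
  have hfin : (N : ℝ) ^ k * J k (Fin k ⊕ Fin s) S ≤ (N : ℝ) ^ k *
      (2 * ((k + s).factorial : ℝ) ^ 2 * (p : ℝ) ^ (2 * s) *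
        ((#S : ℝ) ^ k * (k.factorial * (p : ℝ) ^ (k * (k - 1) / 2)) * Js)
      + 2 * (k + s) * ((p : ℝ) ^ (k - 1) * ((k - 1 : ℕ) : ℝ) ^ (k + s)) ^ 2 * Jm) := by
    rw [h0]
    refine h1.trans ?_
    have e1 : ∑ α : Fin k → ZMod N, ‖FF α A1‖ ^ 2 ≤ ((k + s).factorial : ℝ) ^ 2 *
        ((N : ℝ) ^ k * ((p : ℝ) ^ (2 * s) *
      ((#S : ℝ) ^ k * (k.factorial * (p : ℝ) ^ (k * (k - 1) / 2)) * Js))) :=
      hA.trans (mul_le_mul_of_nonneg_left hC (by positivity))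
    have e2 : ∑ α : Fin k → ZMod N, ‖FF α A2‖ ^ 2 ≤ (N : ℝ) ^ k *
        ((k + s) * ((p : ℝ) ^ (k - 1) * ((k - 1 : ℕ) : ℝ) ^ (k + s)) ^ 2 * Jm) := by
      refine hF.trans (mul_le_mul_of_nonneg_left ?_ hNpos.le)
      refine mul_le_mul_of_nonneg_right ?_ (Nat.cast_nonneg _)
      refine mul_le_mul_of_nonneg_left (pow_le_pow_left₀ (Nat.cast_nonneg _) hCCcard 2)
        (by positivity)
    calc _ ≤ 2 * (((k + s).factorial : ℝ) ^ 2 *
        ((N : ℝ) ^ k * ((p : ℝ) ^ (2 * s) *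
      ((#S : ℝ) ^ k * (k.factorial * (p : ℝ) ^ (k * (k - 1) / 2)) * Js))))
        + 2 * ((N : ℝ) ^ k *
        ((k + s) * ((p : ℝ) ^ (k - 1) * ((k - 1 : ℕ) : ℝ) ^ (k + s)) ^ 2 * Jm)) := by
          linarith
      _ = _ := by ring
  exact le_of_mul_le_mul_left hfin hNpos

end

end Pool.Agent.Work.VK
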