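import Mathlib
import Pool.Agent.Work.VK.Rec

/-! Vinogradov's mean value theorem with explicit constants. -/

namespace Pool.Agent.Work.VK

open Finset

noncomputable section

/-- number of solutions with `s` variables in `[1, Y]` on each side -/
def JY (k s Y : ℕ) : ℕ := J k (Fin s) (Finset.Icc (1 : ℤ) Y)

lemma Sr_Icc_le {k : ℕ} {ι : Type*} [Fintype ι] [DecidableEq ι] {p : ℕ} (hp : 0 < p) (Y : ℕ)
    {r : ℤ} (_hr : r ∈ Finset.Ico (0 : ℤ) p) :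
    J k ι (Sr p (Finset.Icc (1 : ℤ) Y) r) ≤ J k ι (Finset.Icc (1 : ℤ) ((Y / p + 1 : ℕ) : ℤ)) := by
  have hp' : (0 : ℤ) < p := by exact_mod_cast hp
  refine le_trans (J_mono ?_) (J_affine (Finset.Icc (1 : ℤ) ((Y / p + 1 : ℕ) : ℤ)) p (r - p) hp'.ne')
  intro x hx
  rw [Sr, mem_filter, Finset.mem_Icc] at hx
  obtain ⟨⟨h1, h2⟩, h3⟩ := hx
  refine Finset.mem_image.2 ⟨x / p + 1, ?_, ?_⟩
  · rw [Finset.mem_Icc]
    have h4 : 0 ≤ x / (p : ℤ) := Int.ediv_nonneg (by linarith) hp'.le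
    have h5 : x / (p : ℤ) ≤ (Y : ℤ) / p := Int.ediv_le_ediv hp' h2
    push_cast
    exact ⟨by linarith, by linarith⟩
  · have := Int.mul_ediv_add_emod x p
    rw [h3] at this
    linarith

/-- one step of the induction, raw form -/
theorem J_step_raw {p : ℕ} (hp : p.Prime) {k s : ℕ} (hk : k < p) (hk1 : 1 ≤ k) (hs : 1 ≤ s)
    (Y : ℕ) (hY : Y ≤ p ^ k) :
    (JY k (k + s) Y : ℝ) ≤
      2 * ((k + s).factorial : ℝ) ^ 2 * (p : ℝ) ^ (2 * s) *
        ((Y : ℝ) ^ k * (k.factorial * (p : ℝ) ^ (k * (k - 1) / 2)) * JY k s (Y / p + 1))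
      + 2 * (k + s) * ((p : ℝ) ^ (k - 1) * ((k - 1 : ℕ) : ℝ) ^ (k + s)) ^ 2 *
        (((Y / p + 1 : ℕ) : ℝ) ^ (2 * k) * JY k s (Y / p + 1)) := by
  have hS : ∀ a ∈ Finset.Icc (1 : ℤ) Y, ∀ b ∈ Finset.Icc (1 : ℤ) Y,
      ((p : ℤ) ^ k) ∣ a - b → a = b := by
    intro a ha b hb h
    rw [Finset.mem_Icc] at ha hb
    have h1 : a - b = 0 := by
      refine Int.eq_zero_of_abs_lt_dvd h ?_
      have h2 : (Y : ℤ) ≤ (p : ℤ) ^ k := by exact_mod_cast hY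
      rw [abs_lt]
      constructor <;> linarith
    linarith
  have h := J_rec hp hk hk1 hs (Finset.Icc (1 : ℤ) Y) hS (JY k s (Y / p + 1))
    ((Y / p + 1) ^ (2 * k) * JY k s (Y / p + 1))
    (fun r hr => Sr_Icc_le hp.pos Y hr) (fun r hr => by
      refine (Sr_Icc_le hp.pos Y hr).trans ?_
      refine (J_congr (Equiv.sumComm _ _) _).trans ?_
      refine (J_sum_le _).trans ?_
      rw [Fintype.card_fin, Int.card_Icc]
      have : ((((Y / p + 1 : ℕ) : ℤ) + 1 - 1).toNat) = Y / p + 1 := by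
        rw [add_sub_cancel_right, Int.toNat_natCast]
      rw [this]; rfl)
  have hcong : (JY k (k + s) Y : ℝ) ≤ J k (Fin k ⊕ Fin s) (Finset.Icc (1 : ℤ) Y) := by
    exact_mod_cast J_congr finSumFinEquiv.symm _
  refine hcong.trans (h.trans ?_)
  rw [Int.card_Icc, add_sub_cancel_right, Int.toNat_natCast]
  push_cast
  exact le_rfl

/-- the exponent after `l` steps -/
def EE (k l : ℕ) : ℝ :=
  2 * ((k : ℝ) ^ 2 + l * k) - k * (k + 1) / 2 + k * (k + 1) / 2 * (1 - 1 / k) ^ l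

lemma EE_zero (k : ℕ) : EE k 0 = 2 * (k : ℝ) ^ 2 := by
  unfold EE; push_cast; ring

lemma EE_succ {k : ℕ} (hk : 1 ≤ k) (l : ℕ) : (k : ℝ) * EE k (l + 1)
    = (k - 1) * EE k l + (2 * ((k : ℝ) ^ 2 + l * k) + k * (k - 1) / 2 + k ^ 2) := by
  have h0 : (k : ℝ) ≠ 0 := by positivity
  have h1 : (k : ℝ) * (1 - 1 / k) = k - 1 := by field_simp
  unfold EE
  rw [pow_succ]
  push_cast
  linear_combination (k * (k + 1) / 2 * (1 - 1 / (k : ℝ)) ^ l) * h1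

lemma pow_mem_unit {k : ℕ} (hk : 1 ≤ k) (l : ℕ) :
    0 ≤ (1 - 1 / (k : ℝ)) ^ l ∧ (1 - 1 / (k : ℝ)) ^ l ≤ 1 := by
  have h1 : (1 : ℝ) ≤ k := by exact_mod_cast hk
  have h2 : 1 / (k : ℝ) ≤ 1 := by rw [div_le_one (by linarith)]; exact h1
  have h3 : 0 ≤ 1 / (k : ℝ) := by positivity
  exact ⟨pow_nonneg (by linarith) _, pow_le_one₀ (by linarith) (by linarith)⟩

lemma EE_nonneg {k : ℕ} (hk : 1 ≤ k) (l : ℕ) : 0 ≤ EE k l := by
  have h1 : (1 : ℝ) ≤ k := by exact_mod_cast hk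
  have h := (pow_mem_unit hk l).1
  unfold EE
  have h4 : 0 ≤ (k : ℝ) * (k + 1) / 2 * (1 - 1 / (k : ℝ)) ^ l := by positivity
  have h5 : (0 : ℝ) ≤ l * k := by positivity
  nlinarith

lemma EE_le {k : ℕ} (hk : 1 ≤ k) (l : ℕ) : EE k l ≤ 2 * ((k : ℝ) ^ 2 + l * k) := by
  have h := (pow_mem_unit hk l).2
  unfold EE
  have h4 : (k : ℝ) * (k + 1) / 2 * (1 - 1 / (k : ℝ)) ^ l ≤ (k : ℝ) * (k + 1) / 2 * 1 :=
    mul_le_mul_of_nonneg_left h (by positivity)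
  linarith

lemma le_EE {k : ℕ} (hk : 1 ≤ k) (l : ℕ) :
    2 * ((k : ℝ) ^ 2 + l * k) - k * (k + 1) / 2 ≤ EE k l := by
  have h := (pow_mem_unit hk l).1
  unfold EE
  have h4 : 0 ≤ (k : ℝ) * (k + 1) / 2 * (1 - 1 / (k : ℝ)) ^ l := by positivity
  linarith

lemma const_bound {k s M : ℕ} (hk : 4 ≤ k) (hs : k ^ 2 ≤ s) (hM : k + s ≤ M) :
    2 * (k + s).factorial ^ 2 * k.factorial * 4 ^ (2 * s + k * (k - 1) / 2) * 4 ^ M +
      2 * (k + s) * 4 ^ (2 * (k - 1)) * (k - 1) ^ (2 * (k + s)) * 2 ^ (2 * k) * 4 ^ M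
      ≤ M ^ (8 * M) := by
  have hkk : k * k ≤ s := by nlinarith
  have hM16 : 16 ≤ M := by nlinarith
  have hkM : k ≤ M := by omega
  have hkM' : k - 1 ≤ M := by omega
  have hM1 : 1 ≤ M := by omega
  have f1 : (k + s).factorial ≤ M ^ M := (Nat.factorial_le hM).trans (Nat.factorial_le_pow M)
  have f2 : k.factorial ≤ M ^ M := (Nat.factorial_le hkM).trans (Nat.factorial_le_pow M)
  have hkk2 : k * (k - 1) / 2 ≤ M := by
    have h1 : k * (k - 1) ≤ k * k := Nat.mul_le_mul_left _ (by omega)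
    omega
  have f3 : 4 ^ (2 * s + k * (k - 1) / 2) ≤ M ^ (2 * M) := by
    calc 4 ^ (2 * s + k * (k - 1) / 2) ≤ 4 ^ (4 * M) :=
          Nat.pow_le_pow_right (by norm_num) (by omega)
      _ = 16 ^ (2 * M) := by
          rw [show (16 : ℕ) = 4 ^ 2 by norm_num, ← pow_mul]; congr 1; ring
      _ ≤ M ^ (2 * M) := Nat.pow_le_pow_left hM16 _
  have f4 : 4 ^ M ≤ M ^ M := Nat.pow_le_pow_left (by omega) _
  have f5 : 4 ^ (2 * (k - 1)) ≤ M ^ M := by
    calc 4 ^ (2 * (k - 1)) ≤ 4 ^ (2 * M) := Nat.pow_le_pow_right (by norm_num) (by omega)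
      _ = 16 ^ M := by rw [show (16 : ℕ) = 4 ^ 2 by norm_num, ← pow_mul]
      _ ≤ M ^ M := Nat.pow_le_pow_left hM16 _
  have f6 : (k - 1) ^ (2 * (k + s)) ≤ M ^ (2 * M) :=
    (Nat.pow_le_pow_left hkM' _).trans (Nat.pow_le_pow_right hM1 (by omega))
  have f7 : 2 ^ (2 * k) ≤ M ^ M := by
    calc 2 ^ (2 * k) ≤ 2 ^ (2 * M) := Nat.pow_le_pow_right (by norm_num) (by omega)
      _ = 4 ^ M := by rw [show (4 : ℕ) = 2 ^ 2 by norm_num, ← pow_mul]
      _ ≤ M ^ M := f4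
  have f8 : k + s ≤ M ^ M := hM.trans (Nat.le_self_pow (by omega) _)
  calc _ ≤ 2 * (M ^ M) ^ 2 * M ^ M * M ^ (2 * M) * M ^ M +
      2 * M ^ M * M ^ M * M ^ (2 * M) * M ^ M * M ^ M := by gcongr
    _ = 4 * M ^ (6 * M) := by
        have e1 : 2 * (M ^ M) ^ 2 * M ^ M * M ^ (2 * M) * M ^ M = 2 * M ^ (6 * M) := by
          rw [← pow_mul]
          have : 6 * M = M * 2 + M + 2 * M + M := by ring
          rw [this, pow_add, pow_add, pow_add]; ring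
        have e2 : 2 * M ^ M * M ^ M * M ^ (2 * M) * M ^ M * M ^ M = 2 * M ^ (6 * M) := by
          have : 6 * M = M + M + 2 * M + M + M := by ring
          rw [this, pow_add, pow_add, pow_add, pow_add]; ring
        rw [e1, e2]; ring
    _ ≤ M ^ (2 * M) * M ^ (6 * M) := by
        refine Nat.mul_le_mul_right _ ?_
        calc 4 ≤ M := by omega
          _ ≤ M ^ (2 * M) := Nat.le_self_pow (by omega) _
    _ = M ^ (8 * M) := by rw [← pow_add]; congr 1; ring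

/-- the numeric content of one step -/
theorem step_numeric {k l Y p Z : ℕ} (hk : 4 ≤ k) (D : ℝ) (hD : 0 ≤ D) (M : ℕ)
    (hM : k ^ 2 + (l + 1) * k ≤ M) (y : ℝ) (hy1 : 1 ≤ y) (hyY : y ^ k = Y)
    (hp : (p : ℝ) ≤ 4 * y) (hZ : (Z : ℝ) ≤ 2 * y ^ (k - 1)) (hZ1 : 1 ≤ Z) (Js Jm : ℝ)
    (hJs : Js ≤ D * (Z : ℝ) ^ EE k l) (hJs0 : 0 ≤ Js)
    (hrec : Jm ≤ 2 * ((k + (k ^ 2 + l * k)).factorial : ℝ) ^ 2 * (p : ℝ) ^ (2 * (k ^ 2 + l * k)) *
        ((Y : ℝ) ^ k * (k.factorial * (p : ℝ) ^ (k * (k - 1) / 2)) * Js)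
      + 2 * (k + (k ^ 2 + l * k : ℕ)) * ((p : ℝ) ^ (k - 1) *
        ((k - 1 : ℕ) : ℝ) ^ (k + (k ^ 2 + l * k))) ^ 2 * ((Z : ℝ) ^ (2 * k) * Js)) :
    Jm ≤ (M : ℝ) ^ (8 * M) * D * (Y : ℝ) ^ EE k (l + 1) := by
  set s := k ^ 2 + l * k with hs
  have hm : k + s ≤ M := by rw [hs]; nlinarith
  have hk' : (4 : ℝ) ≤ k := by exact_mod_cast hk
  have hs16 : 16 ≤ s := by nlinarith
  have hM16 : 16 ≤ M := by omega
  have hMr : (16 : ℝ) ≤ M := by exact_mod_cast hM16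
  have hy0 : 0 < y := by linarith
  have hsk : k ^ 2 ≤ s := by rw [hs]; exact Nat.le_add_right _ _
  have hkk : k * k ≤ s := by nlinarith
  set a := 2 * s + k * (k - 1) / 2 + k * k with ha
  have hfact : ((k + s).factorial : ℝ) ≤ (k + s).factorial := le_rfl
  have hk1 : 1 ≤ k := by omega
  -- first term
  have t1 : 2 * ((k + s).factorial : ℝ) ^ 2 * (p : ℝ) ^ (2 * s) *
        ((Y : ℝ) ^ k * (k.factorial * (p : ℝ) ^ (k * (k - 1) / 2)) * Js)
      ≤ (2 * (k + s).factorial ^ 2 * k.factorial * 4 ^ (2 * s + k * (k - 1) / 2)) * y ^ a * Js := by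
    have h1 : (p : ℝ) ^ (2 * s) ≤ (4 * y) ^ (2 * s) := pow_le_pow_left₀ (Nat.cast_nonneg _) hp _
    have h2 : (p : ℝ) ^ (k * (k - 1) / 2) ≤ (4 * y) ^ (k * (k - 1) / 2) :=
      pow_le_pow_left₀ (Nat.cast_nonneg _) hp _
    calc _ ≤ 2 * ((k + s).factorial : ℝ) ^ 2 * (4 * y) ^ (2 * s) *
        ((Y : ℝ) ^ k * (k.factorial * (4 * y) ^ (k * (k - 1) / 2)) * Js) := by gcongr
      _ = _ := by
        rw [← hyY, ha, ← pow_mul, pow_add, pow_add, pow_add, mul_pow, mul_pow]; ring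
  have t2 : 2 * (k + (s : ℕ)) * ((p : ℝ) ^ (k - 1) *
        ((k - 1 : ℕ) : ℝ) ^ (k + s)) ^ 2 * ((Z : ℝ) ^ (2 * k) * Js)
      ≤ (2 * (k + s) * 4 ^ (2 * (k - 1)) * ((k - 1 : ℕ) : ℝ) ^ (2 * (k + s)) * 2 ^ (2 * k)) *
        y ^ a * Js := by
    have h1 : (p : ℝ) ^ (k - 1) ≤ (4 * y) ^ (k - 1) := pow_le_pow_left₀ (Nat.cast_nonneg _) hp _
    have h2 : (Z : ℝ) ^ (2 * k) ≤ (2 * y ^ (k - 1)) ^ (2 * k) :=
      pow_le_pow_left₀ (Nat.cast_nonneg _) hZ _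
    have h3 : y ^ ((k - 1) * 2) * y ^ ((k - 1) * (2 * k)) ≤ y ^ a := by
      rw [← pow_add]
      refine pow_le_pow_right₀ hy1 ?_
      have h4 : (k - 1) * 2 + (k - 1) * (2 * k) = 2 * (k * k) - 2 := by
        obtain ⟨j, rfl⟩ : ∃ j, k = j + 1 := ⟨k - 1, by omega⟩
        simp only [Nat.add_sub_cancel]
        have : 2 * ((j + 1) * (j + 1)) = j * 2 + j * (2 * (j + 1)) + 2 := by ring
        omega
      omega
    calc _ ≤ 2 * (k + (s : ℕ)) * ((4 * y) ^ (k - 1) *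
        ((k - 1 : ℕ) : ℝ) ^ (k + s)) ^ 2 * ((2 * y ^ (k - 1)) ^ (2 * k) * Js) := by gcongr
      _ = (2 * (k + s) * 4 ^ (2 * (k - 1)) * ((k - 1 : ℕ) : ℝ) ^ (2 * (k + s)) * 2 ^ (2 * k)) *
        (y ^ ((k - 1) * 2) * y ^ ((k - 1) * (2 * k))) * Js := by
          rw [mul_pow (4 : ℝ), mul_pow, mul_pow, mul_pow (2 : ℝ), ← pow_mul, ← pow_mul, ← pow_mul,
            ← pow_mul, mul_comm 2 (k - 1), mul_comm 2 (k + s)]
          ring
      _ ≤ _ := by gcongr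
  have hE0 := EE_nonneg hk1 l
  have hZr : (1 : ℝ) ≤ Z := by exact_mod_cast hZ1
  have t3 : Js ≤ D * ((4 : ℝ) ^ M * y ^ (((k : ℝ) - 1) * EE k l)) := by
    refine hJs.trans (mul_le_mul_of_nonneg_left ?_ hD)
    have h1 : (Z : ℝ) ^ EE k l ≤ (2 * y ^ (k - 1)) ^ EE k l :=
      Real.rpow_le_rpow (by linarith) hZ hE0
    have h2 : (2 * y ^ (k - 1)) ^ EE k l = (2 : ℝ) ^ EE k l * y ^ (((k : ℝ) - 1) * EE k l) := by
      rw [Real.mul_rpow (by norm_num) (by positivity)]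
      congr 1
      rw [← Real.rpow_natCast, ← Real.rpow_mul hy0.le]
      congr 2
      rw [Nat.cast_sub hk1]; simp
    have h3 : (2 : ℝ) ^ EE k l ≤ (4 : ℝ) ^ M := by
      have h4 : EE k l ≤ ((2 * M : ℕ) : ℝ) := by
        refine (EE_le hk1 l).trans ?_
        have : ((k ^ 2 + l * k : ℕ) : ℝ) ≤ M := by exact_mod_cast (by omega : s ≤ M)
        push_cast at this ⊢
        linarith
      calc (2 : ℝ) ^ EE k l ≤ (2 : ℝ) ^ ((2 * M : ℕ) : ℝ) :=
            Real.rpow_le_rpow_of_exponent_le (by norm_num) h4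
        _ = (4 : ℝ) ^ M := by rw [Real.rpow_natCast, pow_mul]; norm_num
    rw [h2] at h1
    exact h1.trans (mul_le_mul_of_nonneg_right h3 (Real.rpow_nonneg hy0.le _))
  have t4 : Y ^ EE k (l + 1) = y ^ a * y ^ (((k : ℝ) - 1) * EE k l) := by
    have h5 : ((k * (k - 1) / 2 : ℕ) : ℝ) = (k : ℝ) * (k - 1) / 2 := by
      rw [Nat.cast_div (Nat.even_mul_pred_self k).two_dvd (by norm_num)]
      push_cast [Nat.cast_sub hk1]
      ring
    have h6 : (k : ℝ) * EE k (l + 1) = (a : ℝ) + ((k : ℝ) - 1) * EE k l := by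
      rw [EE_succ hk1, ha, hs]
      push_cast [h5]
      ring
    rw [← hyY, ← Real.rpow_natCast y k, ← Real.rpow_mul hy0.le, h6, Real.rpow_add hy0,
      Real.rpow_natCast]
  have hc := const_bound (k := k) (s := s) (M := M) hk hsk hm
  have hc' : (2 * ((k + s).factorial : ℝ) ^ 2 * k.factorial * 4 ^ (2 * s + k * (k - 1) / 2)) * 4 ^ M +
      (2 * (k + s) * 4 ^ (2 * (k - 1)) * ((k - 1 : ℕ) : ℝ) ^ (2 * (k + s)) * 2 ^ (2 * k)) * 4 ^ M
      ≤ (M : ℝ) ^ (8 * M) := by exact_mod_cast hc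
  have hya : 0 < y ^ a := by positivity
  calc Jm ≤ (2 * (k + s).factorial ^ 2 * k.factorial * 4 ^ (2 * s + k * (k - 1) / 2)) * y ^ a * Js
        + (2 * (k + s) * 4 ^ (2 * (k - 1)) * ((k - 1 : ℕ) : ℝ) ^ (2 * (k + s)) * 2 ^ (2 * k)) *
        y ^ a * Js := hrec.trans (add_le_add t1 t2)
    _ = ((2 * (k + s).factorial ^ 2 * k.factorial * 4 ^ (2 * s + k * (k - 1) / 2)) +
        (2 * (k + s) * 4 ^ (2 * (k - 1)) * ((k - 1 : ℕ) : ℝ) ^ (2 * (k + s)) * 2 ^ (2 * k))) *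
        y ^ a * Js := by ring
    _ ≤ ((2 * (k + s).factorial ^ 2 * k.factorial * 4 ^ (2 * s + k * (k - 1) / 2)) +
        (2 * (k + s) * 4 ^ (2 * (k - 1)) * ((k - 1 : ℕ) : ℝ) ^ (2 * (k + s)) * 2 ^ (2 * k))) *
        y ^ a * (D * ((4 : ℝ) ^ M * y ^ (((k : ℝ) - 1) * EE k l))) := by
          refine mul_le_mul_of_nonneg_left t3 (by positivity)
    _ = ((2 * ((k + s).factorial : ℝ) ^ 2 * k.factorial * 4 ^ (2 * s + k * (k - 1) / 2)) * 4 ^ M +
      (2 * (k + s) * 4 ^ (2 * (k - 1)) * ((k - 1 : ℕ) : ℝ) ^ (2 * (k + s)) * 2 ^ (2 * k)) * 4 ^ M)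
        * (D * (y ^ a * y ^ (((k : ℝ) - 1) * EE k l))) := by ring
    _ ≤ (M : ℝ) ^ (8 * M) * (D * (y ^ a * y ^ (((k : ℝ) - 1) * EE k l))) := by
          refine mul_le_mul_of_nonneg_right hc' ?_
          have := Real.rpow_nonneg hy0.le (((k : ℝ) - 1) * EE k l)
          positivity
    _ = _ := by rw [t4]; ring

/-- Vinogradov's mean value theorem -/
theorem mvt {k : ℕ} (hk : 4 ≤ k) (L : ℕ) : ∀ l ≤ L, ∀ Y : ℕ, 1 ≤ Y →
    (JY k (k ^ 2 + l * k) Y : ℝ) ≤ ((k : ℝ) ^ k) ^ (k * (k + 1)) *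
      (((k ^ 2 + L * k : ℕ) : ℝ) ^ (8 * (k ^ 2 + L * k))) ^ l * (Y : ℝ) ^ EE k l := by
  have hk1 : 1 ≤ k := by omega
  have hkr : (4 : ℝ) ≤ k := by exact_mod_cast hk
  set M := k ^ 2 + L * k with hM
  have hM1 : (1 : ℝ) ≤ M := by
    have : 1 ≤ M := by rw [hM]; nlinarith
    exact_mod_cast this
  have hB1 : (1 : ℝ) ≤ (M : ℝ) ^ (8 * M) := one_le_pow₀ hM1
  have hK1 : (1 : ℝ) ≤ ((k : ℝ) ^ k) ^ (k * (k + 1)) := one_le_pow₀ (one_le_pow₀ (by linarith))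
  intro l
  induction l with
  | zero =>
    intro _ Y hY
    have h1 : (JY k (k ^ 2 + 0 * k) Y : ℝ) ≤ (Y : ℝ) ^ (2 * k ^ 2) := by
      have h := J_le_card (k := k) (ι := Fin (k ^ 2 + 0 * k)) (Finset.Icc (1 : ℤ) Y)
      rw [Int.card_Icc, add_sub_cancel_right, Int.toNat_natCast, Fintype.card_fin, zero_mul,
        add_zero] at h
      have h' : JY k (k ^ 2 + 0 * k) Y ≤ Y ^ (2 * k ^ 2) := by
        unfold JY; rw [zero_mul, add_zero]; exact h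
      exact_mod_cast h'
    have h2 : (Y : ℝ) ^ (2 * k ^ 2) = (Y : ℝ) ^ EE k 0 := by
      rw [EE_zero, ← Real.rpow_natCast]; push_cast; rfl
    rw [h2] at h1
    refine h1.trans ?_
    have h3 : (0 : ℝ) ≤ (Y : ℝ) ^ EE k 0 := Real.rpow_nonneg (Nat.cast_nonneg _) _
    rw [pow_zero, mul_one]
    exact le_mul_of_one_le_left h3 hK1
  | succ l ih =>
    intro hl Y hY
    have hYr : (1 : ℝ) ≤ Y := by exact_mod_cast hY
    by_cases hYk : Y < k ^ k
    · -- trivial range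
      have h1 : (JY k (k ^ 2 + (l + 1) * k) Y : ℝ) ≤ (Y : ℝ) ^ (2 * (k ^ 2 + (l + 1) * k)) := by
        have h := J_le_card (k := k) (ι := Fin (k ^ 2 + (l + 1) * k)) (Finset.Icc (1 : ℤ) Y)
        rw [Int.card_Icc, add_sub_cancel_right, Int.toNat_natCast, Fintype.card_fin] at h
        exact_mod_cast h
      refine h1.trans ?_
      have h2 : (Y : ℝ) ^ (2 * (k ^ 2 + (l + 1) * k))
          ≤ (Y : ℝ) ^ (k * (k + 1)) * (Y : ℝ) ^ EE k (l + 1) := by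
        rw [← Real.rpow_natCast, ← Real.rpow_natCast, ← Real.rpow_add (by linarith)]
        refine Real.rpow_le_rpow_of_exponent_le hYr ?_
        have h3 := le_EE hk1 (l + 1)
        push_cast at h3 ⊢
        have h4 : (0 : ℝ) ≤ k * (k + 1) := by positivity
        linarith
      refine h2.trans ?_
      have h5 : (Y : ℝ) ^ (k * (k + 1)) ≤ ((k : ℝ) ^ k) ^ (k * (k + 1)) :=
        pow_le_pow_left₀ (by linarith) (by exact_mod_cast hYk.le) _
      have h6 : (0 : ℝ) ≤ (Y : ℝ) ^ EE k (l + 1) := Real.rpow_nonneg (Nat.cast_nonneg _) _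
      calc (Y : ℝ) ^ (k * (k + 1)) * (Y : ℝ) ^ EE k (l + 1)
          ≤ ((k : ℝ) ^ k) ^ (k * (k + 1)) * (Y : ℝ) ^ EE k (l + 1) :=
            mul_le_mul_of_nonneg_right h5 h6
        _ ≤ ((k : ℝ) ^ k) ^ (k * (k + 1)) * ((M : ℝ) ^ (8 * M)) ^ (l + 1) *
            (Y : ℝ) ^ EE k (l + 1) := by
          refine mul_le_mul_of_nonneg_right ?_ h6
          exact le_mul_of_one_le_right (by linarith) (one_le_pow₀ hB1)
    · push Not at hYk
      -- choose the prime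
      set y : ℝ := (Y : ℝ) ^ ((1 : ℝ) / k) with hy
      have hk0 : (k : ℝ) ≠ 0 := by positivity
      have hyY : y ^ k = Y := by
        rw [hy, ← Real.rpow_natCast, ← Real.rpow_mul (by linarith)]
        rw [one_div, inv_mul_cancel₀ hk0, Real.rpow_one]
      have hyk : (k : ℝ) ≤ y := by
        have h1 : ((k : ℝ) ^ k) ^ ((1 : ℝ) / k) ≤ (Y : ℝ) ^ ((1 : ℝ) / k) :=
          Real.rpow_le_rpow (by positivity) (by exact_mod_cast hYk) (by positivity)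
        have h2 : ((k : ℝ) ^ k) ^ ((1 : ℝ) / k) = k := by
          rw [← Real.rpow_natCast, ← Real.rpow_mul (by positivity), mul_one_div, div_self hk0,
            Real.rpow_one]
        rwa [h2] at h1
      have hy1 : 1 ≤ y := by linarith
      have hy0 : 0 < y := by linarith
      obtain ⟨p, hp, hqp, hp2⟩ := Nat.exists_prime_lt_and_le_two_mul ⌈y⌉₊
        (Nat.ceil_pos.2 hy0).ne'
      have hyp : y < p := (Nat.le_ceil y).trans_lt (by exact_mod_cast hqp)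
      have hp4 : (p : ℝ) ≤ 4 * y := by
        have h1 : (p : ℝ) ≤ 2 * ⌈y⌉₊ := by exact_mod_cast hp2
        have h2 : (⌈y⌉₊ : ℝ) < y + 1 := Nat.ceil_lt_add_one hy0.le
        linarith
      have hkp : k < p := by
        have : (k : ℝ) < p := hyk.trans_lt hyp
        exact_mod_cast this
      have hYp : Y ≤ p ^ k := by
        have h1 : (Y : ℝ) ≤ (p : ℝ) ^ k := by
          rw [← hyY]; exact pow_le_pow_left₀ hy0.le hyp.le _
        exact_mod_cast h1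
      have hZ : ((Y / p + 1 : ℕ) : ℝ) ≤ 2 * y ^ (k - 1) := by
        have hp0 : (0 : ℝ) < p := by exact_mod_cast hp.pos
        have h1 : ((Y / p : ℕ) : ℝ) ≤ (Y : ℝ) / p := Nat.cast_div_le
        have h2 : (Y : ℝ) / p ≤ y ^ (k - 1) := by
          rw [div_le_iff₀ hp0, ← hyY]
          calc y ^ k = y ^ (k - 1) * y := by rw [← pow_succ, Nat.sub_add_cancel hk1]
            _ ≤ y ^ (k - 1) * p := mul_le_mul_of_nonneg_left hyp.le (by positivity)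
        have h3 : (1 : ℝ) ≤ y ^ (k - 1) := one_le_pow₀ hy1
        push_cast
        linarith
      have hs1 : 1 ≤ k ^ 2 + l * k := by nlinarith
      have hrec := J_step_raw hp hkp hk1 hs1 Y hYp
      have hih := ih (by omega) (Y / p + 1) (Nat.le_add_left 1 _)
      have hD : (0 : ℝ) ≤ ((k : ℝ) ^ k) ^ (k * (k + 1)) * ((M : ℝ) ^ (8 * M)) ^ l := by positivity
      have hMl : k ^ 2 + (l + 1) * k ≤ M := by
        rw [hM]
        have : (l + 1) * k ≤ L * k := Nat.mul_le_mul_right _ hl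
        omega
      have hnum := step_numeric (k := k) (l := l) (Y := Y) (p := p) (Z := Y / p + 1) hk _ hD M hMl
        y hy1 hyY hp4 hZ (Nat.le_add_left 1 _) (JY k (k ^ 2 + l * k) (Y / p + 1) : ℝ)
        (JY k (k + (k ^ 2 + l * k)) Y : ℝ) hih (Nat.cast_nonneg _) (by
          refine hrec.trans (le_of_eq ?_)
          push_cast
          ring)
      have he : k ^ 2 + (l + 1) * k = k + (k ^ 2 + l * k) := by ring
      rw [he]
      refine hnum.trans (le_of_eq ?_)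
      rw [pow_succ]; ring

end

end Pool.Agent.Work.VK
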