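import Mathlib
import Pool.Agent.Work.BV.Additive
import Pool.Agent.Work.VK.Mvt

/-! The double sum estimate of Vinogradov and Korobov. -/

namespace Pool.Agent.Work.VK

open Finset
open Pool.Agent.BV

noncomputable section

/-- linear form -/
def Lf {k : ℕ} (β : Fin k → ℝ) (w : Fin k → ℤ) : ℝ := ∑ j, β j * w j

lemma e_sum {ι : Type*} (T : Finset ι) (f : ι → ℝ) : e (∑ i ∈ T, f i) = ∏ i ∈ T, e (f i) := by
  classical
  induction T using Finset.induction_on with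
  | empty => simp [add_e_zero]
  | insert a T ha ih => rw [Finset.sum_insert ha, Finset.prod_insert ha, add_e_add, ih]

lemma Lf_add {k : ℕ} (β : Fin k → ℝ) (v w : Fin k → ℤ) : Lf β (v + w) = Lf β v + Lf β w := by
  unfold Lf
  rw [← Finset.sum_add_distrib]
  refine Finset.sum_congr rfl fun j _ => ?_
  rw [Pi.add_apply]; push_cast; ring

lemma Lf_sub {k : ℕ} (β : Fin k → ℝ) (v w : Fin k → ℤ) : Lf β (v - w) = Lf β v - Lf β w := by
  unfold Lf
  rw [← Finset.sum_sub_distrib]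
  refine Finset.sum_congr rfl fun j _ => ?_
  rw [Pi.sub_apply]; push_cast; ring

lemma Lf_ps {k s : ℕ} (β : Fin k → ℝ) (x : Fin s → ℤ) :
    Lf β (ps k x) = ∑ i, Lf β (fun j : Fin k => x i ^ (j.1 + 1)) := by
  unfold Lf ps
  rw [Finset.sum_comm]
  refine Finset.sum_congr rfl fun j _ => ?_
  push_cast
  rw [Finset.mul_sum]

/-- expansion of the `2s`-th power of a Weyl sum -/
lemma norm_pow_expand {k s : ℕ} (β : Fin k → ℝ) (S : Finset ℤ) :
    ((‖∑ v ∈ S, e (Lf β (fun j : Fin k => v ^ (j.1 + 1)))‖ ^ (2 * s) : ℝ) : ℂ)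
      = ∑ z ∈ (Fintype.piFinset fun _ : Fin s => S) ×ˢ (Fintype.piFinset fun _ : Fin s => S),
          e (Lf β (ps k z.1 - ps k z.2)) := by
  have h1 : (∑ v ∈ S, e (Lf β (fun j : Fin k => v ^ (j.1 + 1)))) ^ s
      = ∑ x ∈ Fintype.piFinset (fun _ : Fin s => S), e (Lf β (ps k x)) := by
    have h2 := Finset.prod_univ_sum (fun _ : Fin s => S)
      (fun _ v => e (Lf β (fun j : Fin k => v ^ (j.1 + 1))))
    rw [Finset.prod_const, Finset.card_univ, Fintype.card_fin] at h2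
    rw [h2]
    refine Finset.sum_congr rfl fun x _ => ?_
    rw [Lf_ps, e_sum]
  rw [pow_mul]
  have h3 : ∀ w : ℂ, (((‖w‖ ^ 2) ^ s : ℝ) : ℂ) = w ^ s * (starRingEnd ℂ) (w ^ s) := by
    intro w
    rw [map_pow, ← mul_pow, Complex.mul_conj']
    push_cast; rfl
  rw [h3, h1, map_sum, Finset.sum_mul_sum, Finset.sum_product]
  refine Finset.sum_congr rfl fun x _ => Finset.sum_congr rfl fun y _ => ?_
  rw [← add_e_neg, ← add_e_add, Lf_sub, sub_eq_add_neg]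

/-- the box containing all differences of power sum vectors -/
def box (k s V : ℕ) : Finset (Fin k → ℤ) :=
  Fintype.piFinset fun j : Fin k => Finset.Icc (-((s : ℤ) * V ^ (j.1 + 1))) (s * V ^ (j.1 + 1))

lemma mem_box {k s V : ℕ} {x y : Fin s → ℤ}
    (hx : x ∈ Fintype.piFinset fun _ : Fin s => Finset.Icc (1 : ℤ) V)
    (hy : y ∈ Fintype.piFinset fun _ : Fin s => Finset.Icc (1 : ℤ) V) :
    ps k x - ps k y ∈ box k s V := by
  rw [Fintype.mem_piFinset] at hx hy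
  rw [box, Fintype.mem_piFinset]
  intro j
  have key : ∀ z : Fin s → ℤ, (∀ i, z i ∈ Finset.Icc (1 : ℤ) V) →
      0 ≤ ∑ i, z i ^ (j.1 + 1) ∧ ∑ i, z i ^ (j.1 + 1) ≤ s * (V : ℤ) ^ (j.1 + 1) := by
    intro z hz
    constructor
    · refine Finset.sum_nonneg fun i _ => pow_nonneg ?_ _
      have := (Finset.mem_Icc.1 (hz i)).1
      linarith
    · calc ∑ i, z i ^ (j.1 + 1) ≤ ∑ _i : Fin s, (V : ℤ) ^ (j.1 + 1) := by
            refine Finset.sum_le_sum fun i _ => ?_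
            have := Finset.mem_Icc.1 (hz i)
            exact pow_le_pow_left₀ (by linarith) this.2 _
        _ = _ := by simp
  have h1 := key x hx
  have h2 := key y hy
  simp only [Pi.sub_apply, ps, Finset.mem_Icc]
  constructor <;> linarith

/-- replacing tuples by vectors costs the number of solutions -/
lemma sum_tuples_le {k s V : ℕ} (G : (Fin k → ℤ) → ℝ) (hG : ∀ w, 0 ≤ G w) :
    ∑ z ∈ (Fintype.piFinset fun _ : Fin s => Finset.Icc (1 : ℤ) V) ×ˢ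
      (Fintype.piFinset fun _ : Fin s => Finset.Icc (1 : ℤ) V), G (ps k z.1 - ps k z.2)
      ≤ JY k s V * ∑ w ∈ box k s V, G w := by
  classical
  set P := Fintype.piFinset fun _ : Fin s => Finset.Icc (1 : ℤ) V with hP
  rw [← Finset.sum_fiberwise_of_maps_to (t := box k s V) (g := fun z => ps k z.1 - ps k z.2)
    (fun z hz => by rw [mem_product] at hz; exact mem_box hz.1 hz.2), Finset.mul_sum]
  refine Finset.sum_le_sum fun w _ => ?_
  have h1 : ∑ z ∈ (P ×ˢ P) with ps k z.1 - ps k z.2 = w, G (ps k z.1 - ps k z.2)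
      = #{z ∈ P ×ˢ P | ps k z.1 - ps k z.2 = w} * G w := by
    rw [Finset.sum_congr rfl (g := fun _ => G w)]
    · rw [Finset.sum_const, nsmul_eq_mul]
    · intro z hz
      rw [mem_filter] at hz
      rw [hz.2]
  rw [h1]
  refine mul_le_mul_of_nonneg_right ?_ (hG w)
  have h2 := card_shift_le P (fun x => ps k x) (-w)
  have h3 : #{z ∈ P ×ˢ P | ps k z.1 - ps k z.2 = w} = #{z ∈ P ×ˢ P | ps k z.1 + -w = ps k z.2} := by
    congr 1
    ext z
    rw [mem_filter, mem_filter]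
    refine and_congr_right fun _ => ?_
    constructor
    · intro h; rw [← h]; abel
    · intro h; rw [← h]; abel
  rw [h3]
  exact_mod_cast h2

/-- the local factor -/
def Wj (s U V : ℕ) (a : ℝ) (j : ℕ) : ℝ :=
  ∑ z ∈ Finset.Icc (-((s : ℤ) * U ^ (j + 1))) (s * U ^ (j + 1)),
    ‖∑ w ∈ Finset.Icc (-((s : ℤ) * V ^ (j + 1))) (s * V ^ (j + 1)), e (a * w * z)‖

theorem double_sum {k s U V : ℕ} (hs : 1 ≤ s) (α : Fin k → ℝ) :
    ‖∑ u ∈ Finset.Icc (1 : ℤ) U, ∑ v ∈ Finset.Icc (1 : ℤ) V,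
      e (∑ j, α j * (u : ℝ) ^ (j.1 + 1) * (v : ℝ) ^ (j.1 + 1))‖ ^ (4 * s ^ 2)
      ≤ ((U : ℝ) ^ (2 * s * (2 * s - 1)) * (V : ℝ) ^ (2 * s * (2 * s - 1))) *
        (JY k s U * JY k s V) * ∏ j : Fin k, Wj s U V (α j) j.1 := by
  classical
  set P := Fintype.piFinset fun _ : Fin s => Finset.Icc (1 : ℤ) V with hP
  set Q := Fintype.piFinset fun _ : Fin s => Finset.Icc (1 : ℤ) U with hQ
  let T : (Fin k → ℤ) → ℂ := fun w =>
    ∑ u ∈ Finset.Icc (1 : ℤ) U, e (Lf (fun j => α j * w j) (fun j : Fin k => u ^ (j.1 + 1)))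
  have hcardU : #(Finset.Icc (1 : ℤ) U) = U := by simp
  have hcardPP : #(P ×ˢ P) = V ^ (2 * s) := by
    rw [Finset.card_product, Fintype.card_piFinset]
    simp only [Finset.prod_const, Finset.card_univ, Fintype.card_fin, Int.card_Icc,
      add_sub_cancel_right, Int.toNat_natCast]
    rw [← pow_add, two_mul]
  have hin : ∀ u ∈ Finset.Icc (1 : ℤ) U, ∑ v ∈ Finset.Icc (1 : ℤ) V,
      e (∑ j, α j * (u : ℝ) ^ (j.1 + 1) * (v : ℝ) ^ (j.1 + 1))
      = ∑ v ∈ Finset.Icc (1 : ℤ) V, e (Lf (fun j : Fin k => α j * (u : ℝ) ^ (j.1 + 1))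
        (fun j : Fin k => v ^ (j.1 + 1))) := by
    intro u _
    refine Finset.sum_congr rfl fun v _ => ?_
    unfold Lf
    congr 1
    refine Finset.sum_congr rfl fun j _ => ?_
    push_cast; ring
  rw [Finset.sum_congr rfl hin]
  set A : ℤ → ℂ := fun u => ∑ v ∈ Finset.Icc (1 : ℤ) V,
    e (Lf (fun j : Fin k => α j * (u : ℝ) ^ (j.1 + 1)) (fun j : Fin k => v ^ (j.1 + 1))) with hA
  -- first Hölder
  have s1 : ‖∑ u ∈ Finset.Icc (1 : ℤ) U, A u‖ ^ (2 * s)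
      ≤ (U : ℝ) ^ (2 * s - 1) * ∑ z ∈ P ×ˢ P, ‖T (ps k z.1 - ps k z.2)‖ := by
    have h1 : ‖∑ u ∈ Finset.Icc (1 : ℤ) U, A u‖ ≤ ∑ u ∈ Finset.Icc (1 : ℤ) U, ‖A u‖ :=
      norm_sum_le _ _
    have h2 := pow_sum_le_card_mul_sum_pow (s := Finset.Icc (1 : ℤ) U) (f := fun u => ‖A u‖)
      (fun _ _ => norm_nonneg _) (2 * s - 1)
    rw [Nat.sub_add_cancel (by omega), hcardU] at h2
    refine (pow_le_pow_left₀ (norm_nonneg _) h1 _).trans (h2.trans ?_)
    refine mul_le_mul_of_nonneg_left ?_ (by positivity)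
    have h3 : ((∑ u ∈ Finset.Icc (1 : ℤ) U, ‖A u‖ ^ (2 * s) : ℝ) : ℂ)
        = ∑ z ∈ P ×ˢ P, T (ps k z.1 - ps k z.2) := by
      rw [Complex.ofReal_sum]
      have h4 : ∀ u ∈ Finset.Icc (1 : ℤ) U, ((‖A u‖ ^ (2 * s) : ℝ) : ℂ)
          = ∑ z ∈ P ×ˢ P, e (Lf (fun j : Fin k => α j * (u : ℝ) ^ (j.1 + 1))
            (ps k z.1 - ps k z.2)) := fun u _ => norm_pow_expand _ _
      rw [Finset.sum_congr rfl h4, Finset.sum_comm]
      refine Finset.sum_congr rfl fun z _ => Finset.sum_congr rfl fun u _ => ?_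
      unfold Lf
      congr 1
      refine Finset.sum_congr rfl fun j _ => ?_
      push_cast; ring
    have h5 : ∑ u ∈ Finset.Icc (1 : ℤ) U, ‖A u‖ ^ (2 * s)
        = ‖((∑ u ∈ Finset.Icc (1 : ℤ) U, ‖A u‖ ^ (2 * s) : ℝ) : ℂ)‖ := by
      rw [Complex.norm_real, Real.norm_of_nonneg (Finset.sum_nonneg fun _ _ => by positivity)]
    rw [h5, h3]
    exact norm_sum_le _ _
  -- second Hölder
  have s2 : (∑ z ∈ P ×ˢ P, ‖T (ps k z.1 - ps k z.2)‖) ^ (2 * s)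
      ≤ ((V : ℝ) ^ (2 * s)) ^ (2 * s - 1) *
        ∑ z ∈ P ×ˢ P, ‖T (ps k z.1 - ps k z.2)‖ ^ (2 * s) := by
    have h2 := pow_sum_le_card_mul_sum_pow (s := P ×ˢ P)
      (f := fun z => ‖T (ps k z.1 - ps k z.2)‖) (fun _ _ => norm_nonneg _) (2 * s - 1)
    rw [Nat.sub_add_cancel (by omega), hcardPP] at h2
    push_cast at h2
    exact h2
  have s3 : ∑ z ∈ P ×ˢ P, ‖T (ps k z.1 - ps k z.2)‖ ^ (2 * s)
      ≤ JY k s V * ∑ w ∈ box k s V, ‖T w‖ ^ (2 * s) :=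
    sum_tuples_le (fun w => ‖T w‖ ^ (2 * s)) (fun w => by positivity)
  have s4 : ∑ w ∈ box k s V, ‖T w‖ ^ (2 * s)
      ≤ JY k s U * ∏ j : Fin k, Wj s U V (α j) j.1 := by
    have h3 : ((∑ w ∈ box k s V, ‖T w‖ ^ (2 * s) : ℝ) : ℂ)
        = ∑ z ∈ Q ×ˢ Q, ∏ j : Fin k, ∑ w ∈ Finset.Icc (-((s : ℤ) * V ^ (j.1 + 1)))
          (s * V ^ (j.1 + 1)), e (α j * w * ((ps k z.1 - ps k z.2) j : ℤ)) := by
      rw [Complex.ofReal_sum]
      have h4 : ∀ w ∈ box k s V, ((‖T w‖ ^ (2 * s) : ℝ) : ℂ)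
          = ∑ z ∈ Q ×ˢ Q, e (Lf (fun j => α j * w j) (ps k z.1 - ps k z.2)) :=
        fun w _ => norm_pow_expand _ _
      rw [Finset.sum_congr rfl h4, Finset.sum_comm]
      refine Finset.sum_congr rfl fun z _ => ?_
      rw [Finset.prod_univ_sum]
      refine Finset.sum_congr rfl fun w _ => ?_
      unfold Lf
      rw [e_sum]
    have h5 : ∑ w ∈ box k s V, ‖T w‖ ^ (2 * s)
        = ‖((∑ w ∈ box k s V, ‖T w‖ ^ (2 * s) : ℝ) : ℂ)‖ := by
      rw [Complex.norm_real, Real.norm_of_nonneg (Finset.sum_nonneg fun _ _ => by positivity)]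
    rw [h5, h3]
    refine (norm_sum_le _ _).trans ?_
    have h6 := sum_tuples_le (k := k) (s := s) (V := U) (fun d => ∏ j : Fin k,
      ‖∑ w ∈ Finset.Icc (-((s : ℤ) * V ^ (j.1 + 1))) (s * V ^ (j.1 + 1)),
        e (α j * w * (d j : ℤ))‖) (fun d => Finset.prod_nonneg fun _ _ => norm_nonneg _)
    simp_rw [norm_prod]
    refine h6.trans ?_
    refine mul_le_mul_of_nonneg_left (le_of_eq ?_) (Nat.cast_nonneg _)
    unfold Wj box
    rw [Finset.prod_univ_sum]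
  have hfin : ‖∑ u ∈ Finset.Icc (1 : ℤ) U, A u‖ ^ (4 * s ^ 2)
      = (‖∑ u ∈ Finset.Icc (1 : ℤ) U, A u‖ ^ (2 * s)) ^ (2 * s) := by
    rw [← pow_mul]; congr 1; ring
  rw [hfin]
  calc (‖∑ u ∈ Finset.Icc (1 : ℤ) U, A u‖ ^ (2 * s)) ^ (2 * s)
      ≤ ((U : ℝ) ^ (2 * s - 1) * ∑ z ∈ P ×ˢ P, ‖T (ps k z.1 - ps k z.2)‖) ^ (2 * s) :=
        pow_le_pow_left₀ (by positivity) s1 _
    _ = (U : ℝ) ^ (2 * s * (2 * s - 1)) *
        (∑ z ∈ P ×ˢ P, ‖T (ps k z.1 - ps k z.2)‖) ^ (2 * s) := by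
        rw [mul_pow, ← pow_mul, mul_comm (2 * s - 1)]
    _ ≤ (U : ℝ) ^ (2 * s * (2 * s - 1)) * (((V : ℝ) ^ (2 * s)) ^ (2 * s - 1) *
        (JY k s V * (JY k s U * ∏ j : Fin k, Wj s U V (α j) j.1))) := by
        refine mul_le_mul_of_nonneg_left (s2.trans ?_) (by positivity)
        refine mul_le_mul_of_nonneg_left (s3.trans ?_) (by positivity)
        exact mul_le_mul_of_nonneg_left s4 (Nat.cast_nonneg _)
    _ = _ := by rw [← pow_mul]; ring

end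

end Pool.Agent.Work.VK
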