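import Mathlib
import Pool.Agent.Work.VK.Korobov

/-! Bounds for the local factors of the double sum estimate. -/

namespace Pool.Agent.Work.VK

open Finset
open Pool.Agent.BV

noncomputable section

lemma sum_Icc_int_sub (f : ℤ → ℂ) (n : ℕ) :
    ∑ w ∈ Finset.Icc (-(n : ℤ)) n, (f (w + 1) - f w) = f (n + 1) - f (-n) := by
  have h : Finset.Icc (-(n : ℤ)) n = (Finset.range (2 * n + 1)).image (fun i : ℕ => (i : ℤ) - n) := by
    ext w
    rw [Finset.mem_Icc, Finset.mem_image]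
    constructor
    · intro hw
      refine ⟨(w + n).toNat, ?_, ?_⟩
      · rw [Finset.mem_range]; omega
      · rw [Int.toNat_of_nonneg (by linarith)]; ring
    · rintro ⟨i, hi, rfl⟩
      rw [Finset.mem_range] at hi
      constructor <;> omega
  rw [h, Finset.sum_image (fun i _ j _ hij => by simpa using hij)]
  have h2 := Finset.sum_range_sub (fun i : ℕ => f ((i : ℤ) - n)) (2 * n + 1)
  have e1 : ∀ i : ℕ, f ((i : ℤ) - n + 1) - f ((i : ℤ) - n)
      = f (((i + 1 : ℕ) : ℤ) - n) - f ((i : ℤ) - n) := by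
    intro i
    congr 2
    push_cast; ring
  rw [Finset.sum_congr rfl fun i _ => e1 i, h2]
  congr 2
  · push_cast; ring
  · push_cast; ring

lemma geom_le (n : ℕ) (β : ℝ) (h0 : β ≠ 0) (h : |β| ≤ 1 / 2) :
    ‖∑ w ∈ Finset.Icc (-(n : ℤ)) n, e (w * β)‖ ≤ 1 / (2 * |β|) := by
  have h1 : (∑ w ∈ Finset.Icc (-(n : ℤ)) n, e (w * β)) * (e β - 1)
      = e ((n + 1) * β) - e (-n * β) := by
    have h2 := sum_Icc_int_sub (fun w => e (w * β)) n
    push_cast at h2
    rw [← h2, Finset.sum_mul]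
    refine Finset.sum_congr rfl fun w _ => ?_
    rw [mul_sub, mul_one, ← add_e_add]
    congr 2
    ring
  have h2 := congrArg norm h1
  rw [norm_mul] at h2
  have h3 : ‖e ((n + 1) * β) - e (-n * β)‖ ≤ 2 := by
    refine (norm_sub_le _ _).trans ?_
    rw [add_norm_e, add_norm_e]
    norm_num
  have h4 := add_norm_e_sub_one _ h
  have h5 : 0 < |β| := abs_pos.2 h0
  rw [le_div_iff₀ (by positivity)]
  have h6 := norm_nonneg (∑ w ∈ Finset.Icc (-(n : ℤ)) n, e (w * β))
  nlinarith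

lemma sum_inv_abs_le (N : ℕ) :
    ∑ z ∈ (Finset.Icc (-(N : ℤ)) N).erase 0, 1 / |(z : ℝ)| ≤ 2 * (1 + Real.log N) := by
  have hsub : (Finset.Icc (-(N : ℤ)) N).erase 0 ⊆
      (Finset.range N).image (fun i : ℕ => (i : ℤ) + 1) ∪
      (Finset.range N).image (fun i : ℕ => -((i : ℤ) + 1)) := by
    intro z hz
    rw [Finset.mem_erase, Finset.mem_Icc] at hz
    rw [Finset.mem_union, Finset.mem_image, Finset.mem_image]
    rcases lt_or_gt_of_ne hz.1 with h | h
    · right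
      refine ⟨(-z - 1).toNat, ?_, ?_⟩
      · rw [Finset.mem_range]; omega
      · rw [Int.toNat_of_nonneg (by omega)]; ring
    · left
      refine ⟨(z - 1).toNat, ?_, ?_⟩
      · rw [Finset.mem_range]; omega
      · rw [Int.toNat_of_nonneg (by omega)]; ring
  have hh : ∑ i ∈ Finset.range N, 1 / ((i : ℝ) + 1) ≤ 1 + Real.log N := by
    have h1 := harmonic_le_one_add_log N
    have h2 : ((harmonic N : ℚ) : ℝ) = ∑ i ∈ Finset.range N, 1 / ((i : ℝ) + 1) := by
      unfold harmonic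
      push_cast
      exact Finset.sum_congr rfl fun i _ => by rw [one_div]
    rw [← h2]; exact h1
  calc ∑ z ∈ (Finset.Icc (-(N : ℤ)) N).erase 0, 1 / |(z : ℝ)|
      ≤ ∑ z ∈ (Finset.range N).image (fun i : ℕ => (i : ℤ) + 1) ∪
      (Finset.range N).image (fun i : ℕ => -((i : ℤ) + 1)), 1 / |(z : ℝ)| :=
        Finset.sum_le_sum_of_subset_of_nonneg hsub fun _ _ _ => by positivity
    _ ≤ ∑ z ∈ (Finset.range N).image (fun i : ℕ => (i : ℤ) + 1), 1 / |(z : ℝ)| +
        ∑ z ∈ (Finset.range N).image (fun i : ℕ => -((i : ℤ) + 1)), 1 / |(z : ℝ)| := by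
        rw [← Finset.sum_union_inter]
        exact le_add_of_nonneg_right (Finset.sum_nonneg fun _ _ => by positivity)
    _ = ∑ i ∈ Finset.range N, 1 / ((i : ℝ) + 1) + ∑ i ∈ Finset.range N, 1 / ((i : ℝ) + 1) := by
        rw [Finset.sum_image (fun i _ j _ hij => by simpa using hij),
          Finset.sum_image (fun i _ j _ hij => by simpa using hij)]
        congr 1
        · refine Finset.sum_congr rfl fun i _ => ?_
          push_cast
          rw [abs_of_pos (by positivity)]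
        · refine Finset.sum_congr rfl fun i _ => ?_
          push_cast
          rw [abs_neg, abs_of_pos (by positivity)]
    _ ≤ 2 * (1 + Real.log N) := by linarith

lemma card_Icc_neg (n : ℕ) : (#(Finset.Icc (-(n : ℤ)) n) : ℝ) = 2 * n + 1 := by
  rw [Int.card_Icc]
  have : ((n : ℤ) + 1 - -n).toNat = 2 * n + 1 := by omega
  rw [this]; push_cast; ring

lemma Wj_eq (s U : ℕ) (a : ℝ) (j : ℕ) : Wj s U U a j =
    ∑ z ∈ Finset.Icc (-((s * U ^ (j + 1) : ℕ) : ℤ)) ((s * U ^ (j + 1) : ℕ) : ℤ),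
    ‖∑ w ∈ Finset.Icc (-((s * U ^ (j + 1) : ℕ) : ℤ)) ((s * U ^ (j + 1) : ℕ) : ℤ),
      e (a * w * z)‖ := by
  unfold Wj; push_cast; rfl

lemma norm_sum_e_le {ι : Type*} (T : Finset ι) (f : ι → ℝ) : ‖∑ i ∈ T, e (f i)‖ ≤ #T := by
  refine (norm_sum_le _ _).trans ?_
  simp [add_norm_e]

/-- the trivial bound -/
lemma Wj_trivial {s U : ℕ} (hs : 1 ≤ s) (hU : 1 ≤ U) (a : ℝ) (j : ℕ) :
    Wj s U U a j ≤ 9 * (s : ℝ) ^ 2 * (U : ℝ) ^ (2 * (j + 1)) := by
  rw [Wj_eq]
  set n := s * U ^ (j + 1) with hn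
  have hn1 : 1 ≤ n := by rw [hn]; exact Nat.one_le_iff_ne_zero.2 (by positivity)
  have hn1' : (1 : ℝ) ≤ n := by exact_mod_cast hn1
  calc _ ≤ ∑ z ∈ Finset.Icc (-(n : ℤ)) n, ((2 : ℝ) * n + 1) := by
        refine Finset.sum_le_sum fun z _ => ?_
        rw [← card_Icc_neg]
        exact norm_sum_e_le _ _
    _ = (2 * (n : ℝ) + 1) * (2 * n + 1) := by
        rw [Finset.sum_const, nsmul_eq_mul, card_Icc_neg]
    _ ≤ (3 * (n : ℝ)) * (3 * n) := by nlinarith
    _ = _ := by rw [hn]; push_cast; rw [mul_comm 2 (j + 1), pow_mul]; ring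

/-- the bound for a small coefficient -/
lemma Wj_good {s U : ℕ} (hs : 1 ≤ s) (hU : 1 ≤ U) (a : ℝ) (ha : a ≠ 0) (j : ℕ)
    (h : |a| * (s * (U : ℝ) ^ (j + 1)) ≤ 1 / 2) :
    Wj s U U a j ≤ 3 * (s * (U : ℝ) ^ (j + 1))
      + (1 + Real.log (s * (U : ℝ) ^ (j + 1))) / |a| := by
  rw [Wj_eq]
  set n := s * U ^ (j + 1) with hn
  have hnr : (n : ℝ) = s * (U : ℝ) ^ (j + 1) := by rw [hn]; push_cast; rfl
  rw [← hnr] at h ⊢
  have hn1 : 1 ≤ n := by rw [hn]; exact Nat.one_le_iff_ne_zero.2 (by positivity)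
  have hn1' : (1 : ℝ) ≤ n := by exact_mod_cast hn1
  have ha' : 0 < |a| := abs_pos.2 ha
  have h0mem : (0 : ℤ) ∈ Finset.Icc (-(n : ℤ)) n := by
    rw [Finset.mem_Icc]; constructor <;> omega
  rw [← Finset.add_sum_erase _ _ h0mem]
  have t0 : ‖∑ w ∈ Finset.Icc (-(n : ℤ)) n, e (a * w * (0 : ℤ))‖ ≤ 3 * (n : ℝ) := by
    refine (norm_sum_e_le _ _).trans ?_
    rw [card_Icc_neg]; linarith
  have t1 : ∑ z ∈ (Finset.Icc (-(n : ℤ)) n).erase 0, ‖∑ w ∈ Finset.Icc (-(n : ℤ)) n, e (a * w * z)‖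
      ≤ (1 + Real.log n) / |a| := by
    calc _ ≤ ∑ z ∈ (Finset.Icc (-(n : ℤ)) n).erase 0, 1 / (2 * |a|) * (1 / |(z : ℝ)|) := by
          refine Finset.sum_le_sum fun z hz => ?_
          rw [Finset.mem_erase, Finset.mem_Icc] at hz
          have hz0 : (z : ℝ) ≠ 0 := by exact_mod_cast hz.1
          have hzabs : |(z : ℝ)| ≤ n := by
            rw [abs_le]
            constructor
            · have : ((-(n : ℤ) : ℤ) : ℝ) ≤ z := by exact_mod_cast hz.2.1
              push_cast at this; exact this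
            · exact_mod_cast hz.2.2
          have h5 : |a * z| ≤ 1 / 2 := by
            rw [abs_mul]
            exact (mul_le_mul_of_nonneg_left hzabs ha'.le).trans h
          have h6 := geom_le n (a * z) (mul_ne_zero ha hz0) h5
          have h7 : ∀ w : ℤ, a * w * z = w * (a * z) := fun w => by ring
          simp_rw [h7]
          refine h6.trans (le_of_eq ?_)
          rw [abs_mul]
          field_simp
      _ = 1 / (2 * |a|) * ∑ z ∈ (Finset.Icc (-(n : ℤ)) n).erase 0, 1 / |(z : ℝ)| := by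
          rw [Finset.mul_sum]
      _ ≤ 1 / (2 * |a|) * (2 * (1 + Real.log n)) :=
          mul_le_mul_of_nonneg_left (sum_inv_abs_le n) (by positivity)
      _ = _ := by field_simp
  exact add_le_add t0 t1

end

end Pool.Agent.Work.VK
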