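import Mathlib
import Pool.Agent.Work.VK.Local

/-! The double sum with coefficients of size `X / m^(j+2)`. -/

namespace Pool.Agent.Work.VK

open Finset
open Pool.Agent.BV

noncomputable section

lemma num1 {q : ℕ} (hq : 24 ≤ q) : 540 * q ^ 2 ≤ 2 ^ q := by
  induction q, hq using Nat.le_induction with
  | base => norm_num
  | succ q hq ih =>
    have : 540 * (q + 1) ^ 2 ≤ 2 * (540 * q ^ 2) := by nlinarith
    calc 540 * (q + 1) ^ 2 ≤ 2 * (540 * q ^ 2) := this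
      _ ≤ 2 * 2 ^ q := Nat.mul_le_mul_left _ ih
      _ = 2 ^ (q + 1) := by rw [pow_succ]; ring

lemma num2 {q : ℕ} (hq : 24 ≤ q) :
    (((6 * q) ^ (6 * q)) ^ (6 * q * (6 * q + 1))) *
      ((180 * q ^ 2) ^ (8 * (180 * q ^ 2))) ^ (4 * (6 * q)) ≤ 2 ^ (2 * (180 * q ^ 2) ^ 2) := by
  have h1 := num1 hq
  have h2 : 6 * q ≤ 2 ^ q := by nlinarith
  have h3 : 180 * q ^ 2 ≤ 2 ^ q := by nlinarith
  calc (((6 * q) ^ (6 * q)) ^ (6 * q * (6 * q + 1))) *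
      ((180 * q ^ 2) ^ (8 * (180 * q ^ 2))) ^ (4 * (6 * q))
      ≤ (((2 ^ q) ^ (6 * q)) ^ (6 * q * (6 * q + 1))) *
      ((2 ^ q) ^ (8 * (180 * q ^ 2))) ^ (4 * (6 * q)) := by gcongr
    _ = 2 ^ (q * (6 * q) * (6 * q * (6 * q + 1)) + q * (8 * (180 * q ^ 2)) * (4 * (6 * q))) := by
        rw [← pow_mul, ← pow_mul, ← pow_mul, ← pow_mul, ← pow_add]
        congr 1; ring
    _ ≤ 2 ^ (2 * (180 * q ^ 2) ^ 2) := by
        refine Nat.pow_le_pow_right (by norm_num) ?_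
        have h4 : q ^ 3 ≤ q ^ 4 := Nat.pow_le_pow_right (by omega) (by norm_num)
        nlinarith

lemma EE_bound {q : ℕ} (hq : 24 ≤ q) :
    EE (6 * q) (4 * (6 * q)) ≤ 2 * (180 * (q : ℝ) ^ 2) - 6 * q * (6 * q + 1) / 2
      + 34 / 100 * (q : ℝ) ^ 2 := by
  have hqr : (24 : ℝ) ≤ q := by exact_mod_cast hq
  have h0 : (0 : ℝ) < 6 * q := by linarith
  have h1 : (1 - 1 / ((6 * q : ℕ) : ℝ)) ^ (4 * (6 * q)) ≤ 1 / 54 := by
    have h2 : (0 : ℝ) ≤ 1 - 1 / ((6 * q : ℕ) : ℝ) := by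
      push_cast
      rw [sub_nonneg, div_le_one h0]; linarith
    have h3 : 1 - 1 / ((6 * q : ℕ) : ℝ) ≤ Real.exp (-(1 / ((6 * q : ℕ) : ℝ))) :=
      Real.one_sub_le_exp_neg _
    calc (1 - 1 / ((6 * q : ℕ) : ℝ)) ^ (4 * (6 * q))
        ≤ Real.exp (-(1 / ((6 * q : ℕ) : ℝ))) ^ (4 * (6 * q)) := pow_le_pow_left₀ h2 h3 _
      _ = Real.exp (-4) := by
          rw [← Real.exp_nat_mul]
          congr 1
          push_cast
          field_simp
      _ ≤ 1 / 54 := by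
          rw [Real.exp_neg, ← one_div]
          refine one_div_le_one_div_of_le (by norm_num) ?_
          have h4 := Real.exp_one_gt_d9
          have h5 : Real.exp 4 = Real.exp 1 ^ 4 := by
            rw [← Real.exp_nat_mul]; norm_num
          rw [h5]
          have h6 : (2.718 : ℝ) ^ 4 ≤ Real.exp 1 ^ 4 :=
            pow_le_pow_left₀ (by norm_num) (by linarith) _
          refine le_trans ?_ h6
          norm_num
  unfold EE
  have h2 : ((6 * q : ℕ) : ℝ) * (((6 * q : ℕ) : ℝ) + 1) / 2 *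
      (1 - 1 / ((6 * q : ℕ) : ℝ)) ^ (4 * (6 * q))
      ≤ ((6 * q : ℕ) : ℝ) * (((6 * q : ℕ) : ℝ) + 1) / 2 * (1 / 54) :=
    mul_le_mul_of_nonneg_left h1 (by positivity)
  push_cast at h2 ⊢
  nlinarith

lemma eight_pow_le {q j : ℕ} {t : ℝ} (ht : 2 ^ 200 ≤ t) (hj : j ≤ 4 * q) :
    (8 : ℝ) ^ j ≤ t ^ (6 / 100 * (q : ℝ)) := by
  calc (8 : ℝ) ^ j ≤ 8 ^ (4 * q) := pow_le_pow_right₀ (by norm_num) hj
    _ = ((2 : ℝ) ^ 200) ^ (6 / 100 * (q : ℝ)) := by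
        rw [← Real.rpow_natCast 8, ← Real.rpow_natCast 2 200,
          ← Real.rpow_mul (by norm_num), show (8 : ℝ) = (2 : ℝ) ^ (3 : ℝ) by norm_num,
          ← Real.rpow_mul (by norm_num)]
        congr 1; push_cast; ring
    _ ≤ t ^ (6 / 100 * (q : ℝ)) := Real.rpow_le_rpow (by positivity) ht (by positivity)

lemma log_part {q j : ℕ} (hqr : (24 : ℝ) ≤ q) {t M : ℝ} (ht100 : 100 ≤ t)
    (ht2 : 1000 * (q : ℝ) ^ 2 ≤ t) {U : ℝ} (hU1 : 1 ≤ U) (hU : U ≤ t)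
    (hMr : M = 180 * (q : ℝ) ^ 2) (hj : j ≤ 4 * q) : 1 + Real.log (M * U ^ j) ≤ t := by
  have ht0 : 0 < t := by linarith
  have hU0 : 0 < U := by linarith
  have hM0 : 0 < M := by rw [hMr]; positivity
  have h1 : Real.log (M * U ^ j) = Real.log M + j * Real.log U := by
    rw [Real.log_mul (by positivity) (by positivity), Real.log_pow]
  have h2 : Real.log M ≤ M := Real.log_le_self (by positivity)
  have h3 : Real.log U ≤ 2 * Real.sqrt t := by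
    have h4 : Real.log U ≤ Real.log t := Real.log_le_log hU0 hU
    have h5 : Real.log t = 2 * Real.log (Real.sqrt t) := by
      rw [Real.log_sqrt ht0.le]; ring
    have h6 : Real.log (Real.sqrt t) ≤ Real.sqrt t := Real.log_le_self (Real.sqrt_nonneg _)
    linarith
  have h4 : (j : ℝ) ≤ 4 * q := by exact_mod_cast hj
  have hst : 30 * (q : ℝ) ≤ Real.sqrt t := by
    rw [Real.le_sqrt (by positivity) ht0.le]
    nlinarith
  have hst2 : Real.sqrt t * Real.sqrt t = t := Real.mul_self_sqrt ht0.le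
  have hlU : 0 ≤ Real.log U := Real.log_nonneg hU1
  have h7 : (j : ℝ) * Real.log U ≤ 4 * q * (2 * Real.sqrt t) := by
    refine mul_le_mul h4 h3 hlU (by positivity)
  rw [h1]
  have h8 : 0 ≤ Real.sqrt t := Real.sqrt_nonneg t
  have h9 : 4 * (q : ℝ) * (2 * Real.sqrt t) ≤ 8 / 30 * t := by nlinarith
  have h10 : M ≤ 18 / 100 * t := by rw [hMr]; linarith
  have h11 : (1 : ℝ) ≤ 1 / 100 * t := by linarith
  linarith

lemma first_part {q j : ℕ} {t M : ℝ} (ht100 : 100 ≤ t) {U : ℝ}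
    (hUt : t / 2 ≤ U) (hM1 : 1 ≤ M) (hj : 3 * q ≤ j) :
    3 * (M * U ^ j) ≤ 4 * M ^ 2 * t ^ (-(3 / 2 * (q : ℝ))) * U ^ (2 * j) := by
  have ht0 : 0 < t := by linarith
  have hU0 : 0 < U := by linarith
  set T := t ^ (-(3 / 2 * (q : ℝ))) with hT
  have hT0 : 0 < T := Real.rpow_pos_of_pos ht0 _
  have h1 : 1 ≤ T * U ^ j := by
    have h2 : (t / 2) ^ (3 * q) ≤ U ^ j := by
      calc (t / 2) ^ (3 * q) ≤ (t / 2) ^ j := pow_le_pow_right₀ (by linarith) hj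
        _ ≤ U ^ j := pow_le_pow_left₀ (by positivity) hUt _
    have h3 : t ^ (3 / 2 * (q : ℝ)) ≤ (t / 2) ^ (3 * q) := by
      have h4 : t ^ (3 / 2 * (q : ℝ)) = (t ^ ((1 : ℝ) / 2)) ^ (3 * q) := by
        rw [← Real.rpow_natCast, ← Real.rpow_mul ht0.le]
        congr 1; push_cast; ring
      rw [h4]
      refine pow_le_pow_left₀ (Real.rpow_nonneg ht0.le _) ?_ _
      rw [← Real.sqrt_eq_rpow, Real.sqrt_le_left (by positivity)]
      nlinarith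
    calc (1 : ℝ) = T * t ^ (3 / 2 * (q : ℝ)) := by
          rw [hT, ← Real.rpow_add ht0]; simp
      _ ≤ T * U ^ j := mul_le_mul_of_nonneg_left (h3.trans h2) hT0.le
  have h5 : U ^ (2 * j) = U ^ j * U ^ j := by rw [two_mul, pow_add]
  rw [h5]
  have h6 : 0 < U ^ j := by positivity
  calc 3 * (M * U ^ j) = 3 * (M * 1) * (U ^ j * 1) := by ring
    _ ≤ 4 * (M * M) * (U ^ j * (T * U ^ j)) := by gcongr; norm_num
    _ = _ := by ring

lemma power_identity {q j : ℕ} (hq : 1 ≤ q) {t : ℝ} (ht0 : 0 < t) :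
    (2 * t ^ 3) ^ (j + 1) / t ^ (6 * q - 6)
        = 2 * 8 ^ j * (t ^ (j + 9) / t ^ (6 * q)) * (t / 2) ^ (2 * j) := by
  have e1 : t ^ (6 * q) = t ^ (6 * q - 6) * t ^ 6 := by
    rw [← pow_add]; congr 1; omega
  have e2 : (t ^ 3) ^ (j + 1) * t ^ 6 = t ^ (j + 9) * t ^ (2 * j) := by
    rw [← pow_mul, ← pow_add, ← pow_add]; congr 1; ring
  have e3 : (2 : ℝ) ^ (j + 1) * 2 ^ (2 * j) = 2 * 8 ^ j := by
    rw [show (8 : ℝ) = 2 ^ 3 by norm_num, ← pow_mul, ← pow_add, ← pow_succ']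
    congr 1; ring
  have h1 : (0 : ℝ) < t ^ (6 * q - 6) := by positivity
  have h2 : (0 : ℝ) < t ^ 6 := by positivity
  have h3 : (0 : ℝ) < 2 ^ (2 * j) := by positivity
  rw [e1, div_pow, mul_pow]
  rw [div_eq_iff h1.ne']
  have e4 : 2 * 8 ^ j * (t ^ (j + 9) / (t ^ (6 * q - 6) * t ^ 6)) *
      (t ^ (2 * j) / 2 ^ (2 * j)) * t ^ (6 * q - 6)
      = (2 * 8 ^ j / 2 ^ (2 * j)) * (t ^ (j + 9) * t ^ (2 * j) / t ^ 6) := by
    field_simp
  rw [e4, ← e2, ← e3]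
  field_simp

/-- a good coefficient: the local factor is small -/
lemma Wj_small {q : ℕ} (hq : 24 ≤ q) {t : ℝ} (ht : 2 ^ 200 ≤ t) (ht2 : 1000 * (q : ℝ) ^ 2 ≤ t)
    {U : ℕ} (hU : (U : ℝ) ≤ t) (hU2 : t ≤ 2 * U) {X m : ℝ} (hm1 : t ^ 3 ≤ m) (hm2 : m ≤ 2 * t ^ 3)
    (hX1 : t ^ (6 * q - 6) ≤ X) (hX2 : X ≤ t ^ (6 * q)) {J : ℕ} (hJ1 : 3 * q ≤ J + 1)
    (hJ2 : J + 1 ≤ 4 * q) (a : ℝ) (ha : |a| = X / m ^ (J + 2)) :
    Wj (180 * q ^ 2) U U a J ≤ 9 * ((180 * q ^ 2 : ℕ) : ℝ) ^ 2 * t ^ (-(3 / 2 * (q : ℝ))) *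
      (U : ℝ) ^ (2 * (J + 1)) := by
  have hqr : (24 : ℝ) ≤ q := by exact_mod_cast hq
  have h8 := eight_pow_le (q := q) (j := J + 1) ht hJ2
  have ht100 : (100 : ℝ) ≤ t := le_trans (by norm_num) ht
  clear ht
  have ht1 : (1 : ℝ) ≤ t := by linarith
  have ht0 : 0 < t := by linarith
  have hU0 : (0 : ℝ) < U := by linarith
  have hU1 : 1 ≤ U := by exact_mod_cast (Nat.cast_pos.1 hU0)
  have hU1r : (1 : ℝ) ≤ U := by exact_mod_cast hU1
  have hm0 : 0 < m := lt_of_lt_of_le (by positivity) hm1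
  have hX0 : 0 < X := lt_of_lt_of_le (by positivity) hX1
  set M := 180 * q ^ 2 with hM
  have hMr : (M : ℝ) = 180 * (q : ℝ) ^ 2 := by rw [hM]; push_cast; rfl
  have hM1 : 1 ≤ M := by rw [hM]; nlinarith
  have hM1r : (1 : ℝ) ≤ M := by exact_mod_cast hM1
  have ha0 : a ≠ 0 := by
    rw [← abs_pos, ha]; positivity
  have ha' : 0 < |a| := abs_pos.2 ha0
  have hU' : (U : ℝ) ^ (J + 1) ≤ t ^ (J + 1) := pow_le_pow_left₀ hU0.le hU _
  -- smallness of the coefficient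
  have hsmall : |a| * (M * (U : ℝ) ^ (J + 1)) ≤ 1 / 2 := by
    rw [ha]
    have h1 : (t ^ 3) ^ (J + 2) ≤ m ^ (J + 2) := pow_le_pow_left₀ (by positivity) hm1 _
    have h2 : X * (M * (U : ℝ) ^ (J + 1)) ≤ t ^ (6 * q) * (M * t ^ (J + 1)) := by gcongr
    have h3 : t ^ (6 * q) * (M * t ^ (J + 1)) ≤ 1 / 2 * (t ^ 3) ^ (J + 2) := by
      have h4 : (t ^ 3) ^ (J + 2) = t ^ (6 * q) * t ^ (J + 1) * t ^ (2 * J + 5 - 6 * q) := by
        rw [← pow_mul, ← pow_add, ← pow_add]; congr 1; omega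
      have h5 : (2 : ℝ) * M ≤ t ^ (2 * J + 5 - 6 * q) := by
        have h6 : t ≤ t ^ (2 * J + 5 - 6 * q) := le_self_pow₀ ht1 (by omega)
        rw [hMr]; nlinarith
      rw [h4]
      have h7 : 0 < t ^ (6 * q) * t ^ (J + 1) := by positivity
      nlinarith
    rw [div_mul_eq_mul_div, div_le_iff₀ (by positivity)]
    refine h2.trans (h3.trans ?_)
    exact mul_le_mul_of_nonneg_left h1 (by norm_num)
  refine (Wj_good (s := M) (U := U) hM1 hU1 a ha0 J hsmall).trans ?_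
  have hUt : t / 2 ≤ U := by linarith
  have p1 := first_part (q := q) (j := J + 1) ht100 hUt hM1r hJ1
  have hlog := log_part (j := J + 1) hqr ht100 ht2 hU1r hU hMr hJ2
  set T := t ^ (-(3 / 2 * (q : ℝ))) with hT
  have hT0 : 0 < T := Real.rpow_pos_of_pos ht0 _
  have h3 : (t / 2) ^ (2 * (J + 1)) ≤ (U : ℝ) ^ (2 * (J + 1)) :=
    pow_le_pow_left₀ (by positivity) hUt _
  have h4 : 1 / |a| ≤ (2 * t ^ 3) ^ (J + 1 + 1) / t ^ (6 * q - 6) := by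
    have h1 : 1 / |a| = m ^ (J + 2) / X := by rw [ha]; field_simp
    rw [h1]
    exact div_le_div₀ (by positivity) (pow_le_pow_left₀ hm0.le hm2 _) (by positivity) hX1
  rw [power_identity (by omega) ht0] at h4
  have h7 : t ^ (J + 1 + 9) / t ^ (6 * q) ≤ t ^ (9 - 2 * (q : ℝ)) := by
    rw [← Real.rpow_natCast, ← Real.rpow_natCast, ← Real.rpow_sub ht0]
    refine Real.rpow_le_rpow_of_exponent_le ht1 ?_
    have : ((J + 1 : ℕ) : ℝ) ≤ ((4 * q : ℕ) : ℝ) := by exact_mod_cast hJ2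
    push_cast at this ⊢
    linarith
  have h9 : t * (2 * t ^ (6 / 100 * (q : ℝ)) * t ^ (9 - 2 * (q : ℝ))) ≤ 2 * T := by
    have : t * (2 * t ^ (6 / 100 * (q : ℝ)) * t ^ (9 - 2 * (q : ℝ)))
        = 2 * t ^ (1 + 6 / 100 * (q : ℝ) + (9 - 2 * (q : ℝ))) := by
      rw [Real.rpow_add ht0, Real.rpow_add ht0, Real.rpow_one]; ring
    rw [this, hT]
    refine mul_le_mul_of_nonneg_left (Real.rpow_le_rpow_of_exponent_le ht1 ?_) (by norm_num)
    linarith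
  have hr0 : 0 < t ^ (9 - 2 * (q : ℝ)) := Real.rpow_pos_of_pos ht0 _
  have hr1 : 0 < t ^ (6 / 100 * (q : ℝ)) := Real.rpow_pos_of_pos ht0 _
  have p2 : (1 + Real.log (M * (U : ℝ) ^ (J + 1))) / |a|
      ≤ 5 * (M : ℝ) ^ 2 * T * (U : ℝ) ^ (2 * (J + 1)) := by
    calc (1 + Real.log (M * (U : ℝ) ^ (J + 1))) / |a|
        = (1 + Real.log (M * (U : ℝ) ^ (J + 1))) * (1 / |a|) := by ring
      _ ≤ t * (2 * t ^ (6 / 100 * (q : ℝ)) * t ^ (9 - 2 * (q : ℝ)) * (U : ℝ) ^ (2 * (J + 1))) := by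
          refine mul_le_mul hlog ?_ (by positivity) ht0.le
          refine h4.trans ?_
          gcongr
      _ = (t * (2 * t ^ (6 / 100 * (q : ℝ)) * t ^ (9 - 2 * (q : ℝ)))) *
          (U : ℝ) ^ (2 * (J + 1)) := by ring
      _ ≤ 2 * T * (U : ℝ) ^ (2 * (J + 1)) := mul_le_mul_of_nonneg_right h9 (by positivity)
      _ ≤ 5 * (M : ℝ) ^ 2 * T * (U : ℝ) ^ (2 * (J + 1)) := by
          refine mul_le_mul_of_nonneg_right ?_ (by positivity)
          refine mul_le_mul_of_nonneg_right ?_ hT0.le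
          nlinarith
  calc 3 * (M * (U : ℝ) ^ (J + 1)) + (1 + Real.log (M * (U : ℝ) ^ (J + 1))) / |a|
      ≤ 4 * (M : ℝ) ^ 2 * T * (U : ℝ) ^ (2 * (J + 1)) +
        5 * (M : ℝ) ^ 2 * T * (U : ℝ) ^ (2 * (J + 1)) := add_le_add p1 p2
    _ = _ := by ring

end

end Pool.Agent.Work.VK
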