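import Mathlib
import Pool.Agent.Work.VK.Weyl2

/-! Bounds for the sums of `e (X / m)` over intervals. -/

namespace Pool.Agent.Work.VK

open Finset
open Pool.Agent.BV

noncomputable section

lemma norm_e_sub_e (x y : ℝ) : ‖e x - e y‖ ≤ 7 * |x - y| := by
  have h1 : e x - e y = e y * (e (x - y) - 1) := by
    rw [mul_sub, ← add_e_add, mul_one]; congr 2; ring
  rw [h1, norm_mul, add_norm_e, one_mul]
  have h2 : e (x - y) = Complex.exp (Complex.I * ((2 * Real.pi * (x - y) : ℝ) : ℂ)) := by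
    unfold e
    congr 1
    push_cast
    ring
  rw [h2]
  refine Real.norm_exp_I_mul_ofReal_sub_one_le.trans ?_
  rw [Real.norm_eq_abs, abs_mul, abs_of_pos (by positivity : (0 : ℝ) < 2 * Real.pi)]
  refine mul_le_mul_of_nonneg_right ?_ (abs_nonneg _)
  have := Real.pi_lt_d2
  linarith

lemma shift_le (f : ℕ → ℂ) (hf : ∀ m, ‖f m‖ ≤ 1) {a b : ℕ} (hab : a ≤ b) (h : ℕ) :
    ‖∑ m ∈ Ioc a b, f m - ∑ m ∈ Ioc a b, f (m + h)‖ ≤ 2 * h := by
  induction h with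
  | zero => simp
  | succ h ih =>
    have key : ∀ b, a ≤ b → ∑ m ∈ Ioc a b, f (m + h) - ∑ m ∈ Ioc a b, f (m + (h + 1)) =
        f (a + 1 + h) - f (b + 1 + h) := by
      intro b hb
      induction b, hb using Nat.le_induction with
      | base => simp
      | succ b hb ih2 =>
        rw [Finset.sum_Ioc_succ_top hb, Finset.sum_Ioc_succ_top hb]
        have : ∑ k ∈ Ioc a b, f (k + h) + f (b + 1 + h) -
            (∑ k ∈ Ioc a b, f (k + (h + 1)) + f (b + 1 + (h + 1))) =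
            (∑ k ∈ Ioc a b, f (k + h) - ∑ k ∈ Ioc a b, f (k + (h + 1))) +
              (f (b + 1 + h) - f (b + 1 + (h + 1))) := by ring
        rw [this, ih2]
        have h3 : b + 1 + (h + 1) = b + 1 + 1 + h := by ring
        rw [h3]; ring
    have h4 : ∑ m ∈ Ioc a b, f m - ∑ m ∈ Ioc a b, f (m + (h + 1)) =
        (∑ m ∈ Ioc a b, f m - ∑ m ∈ Ioc a b, f (m + h)) + (f (a + 1 + h) - f (b + 1 + h)) := by
      rw [← key b hab]; ring
    rw [h4]
    refine (norm_add_le _ _).trans ?_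
    have h5 := (norm_sub_le (f (a + 1 + h)) (f (b + 1 + h))).trans (add_le_add (hf _) (hf _))
    push_cast
    linarith

lemma taylor_eq {X m h : ℝ} (hm : 0 < m) (hh : 0 ≤ h) (k : ℕ) :
    X / (m + h) - (X / m + ∑ j ∈ range k, X * (-1) ^ (j + 1) / m ^ (j + 2) * h ^ (j + 1)) =
      X * (-1) ^ (k + 1) * h ^ (k + 1) / (m ^ (k + 1) * (m + h)) := by
  have hmh : m + h ≠ 0 := by positivity
  have hm0 : m ≠ 0 := hm.ne'
  induction k with
  | zero =>
    simp only [range_zero, sum_empty, add_zero, zero_add, pow_one]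
    field_simp
    ring
  | succ k ih =>
    rw [sum_range_succ]
    have h1 : X / (m + h) - (X / m + (∑ j ∈ range k, X * (-1) ^ (j + 1) / m ^ (j + 2) * h ^ (j + 1) +
        X * (-1) ^ (k + 1) / m ^ (k + 2) * h ^ (k + 1))) =
        (X / (m + h) - (X / m + ∑ j ∈ range k, X * (-1) ^ (j + 1) / m ^ (j + 2) * h ^ (j + 1))) -
        X * (-1) ^ (k + 1) / m ^ (k + 2) * h ^ (k + 1) := by ring
    rw [h1, ih]
    field_simp
    ring

lemma taylor_le {X m h : ℝ} (hX : 0 ≤ X) (hm : 0 < m) (hh : 0 ≤ h) (k : ℕ) :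
    |X / (m + h) - (X / m + ∑ j : Fin k, X * (-1) ^ (j.1 + 1) / m ^ (j.1 + 2) * h ^ (j.1 + 1))| ≤
      X / m * (h / m) ^ (k + 1) := by
  rw [Fin.sum_univ_eq_sum_range (fun j => X * (-1) ^ (j + 1) / m ^ (j + 2) * h ^ (j + 1)) k,
    taylor_eq hm hh, abs_div, abs_mul, abs_mul, abs_pow, abs_neg, abs_one, one_pow, mul_one,
    abs_of_nonneg hX, abs_of_nonneg (by positivity : 0 ≤ h ^ (k + 1)),
    abs_of_nonneg (by positivity : 0 ≤ m ^ (k + 1) * (m + h)), div_pow, div_mul_div_comm,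
    mul_comm m (m ^ (k + 1))]
  refine div_le_div_of_nonneg_left (by positivity) (by positivity) ?_
  refine mul_le_mul_of_nonneg_left (by linarith) (by positivity)

theorem smooth_t {q : ℕ} (hq : 24 ≤ q) {t : ℝ} (ht : 2 ^ 200 ≤ t) (ht2 : 1000 * (q : ℝ) ^ 2 ≤ t)
    {X : ℝ} (hX1 : t ^ (6 * q - 6) ≤ X) (hX2 : X ≤ t ^ (6 * q)) {a b : ℕ} (ha : t ^ 3 ≤ a)
    (hab : a ≤ b) (hb : (b : ℝ) ≤ 2 * t ^ 3) :
    ‖∑ m ∈ Ioc a b, e (X / m)‖ ≤ 5 * t ^ 3 * t ^ (-(1 / (200000 * (q : ℝ) ^ 2))) := by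
  have ht100 : (100 : ℝ) ≤ t := le_trans (by norm_num) ht
  have ht0 : 0 < t := by linarith
  have ht1 : 1 ≤ t := by linarith
  obtain ⟨U, hU⟩ : ∃ U : ℕ, U = ⌊t⌋₊ := ⟨_, rfl⟩
  have hU1 : (U : ℝ) ≤ t := by rw [hU]; exact Nat.floor_le ht0.le
  have hU2 : t ≤ 2 * U := by
    have := Nat.lt_floor_add_one t
    rw [← hU] at this
    linarith
  have hU0 : (0 : ℝ) < U := by linarith
  set δ := 1 / (200000 * (q : ℝ) ^ 2) with hδ
  have hqr : (24 : ℝ) ≤ q := by exact_mod_cast hq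
  have hδ1 : δ ≤ 1 := by
    rw [hδ, div_le_one (by positivity)]
    nlinarith
  have hX0 : 0 ≤ X := le_trans (by positivity) hX1
  set I := Finset.Icc (1 : ℤ) U with hI
  have hIcard : (#I : ℝ) = U := by rw [hI]; simp
  -- the pointwise bound
  have hpt : ∀ m ∈ Ioc a b, ‖∑ u ∈ I, ∑ v ∈ I, e (X / ((m : ℝ) + u * v))‖ ≤
      2 * (U : ℝ) ^ 2 * t ^ (-δ) + (U : ℝ) ^ 2 * (7 * t⁻¹ ^ 4) := by
    intro m hm
    rw [mem_Ioc] at hm
    have hm1 : t ^ 3 ≤ m := ha.trans (by exact_mod_cast hm.1.le)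
    have hm2 : (m : ℝ) ≤ 2 * t ^ 3 := le_trans (by exact_mod_cast hm.2) hb
    have hm0 : (0 : ℝ) < m := lt_of_lt_of_le (by positivity) hm1
    have hw := weyl_double hq ht ht2 hU1 hU2 hm1 hm2 hX1 hX2
      (fun j => X * (-1) ^ (j.1 + 1) / (m : ℝ) ^ (j.1 + 2)) (fun j => by
        rw [abs_div, abs_mul, abs_pow, abs_neg, abs_one, one_pow, mul_one, abs_of_nonneg hX0,
          abs_of_pos (by positivity)])
    rw [← hI, ← hδ] at hw
    have e1 : ∑ u ∈ I, ∑ v ∈ I, e (X / ((m : ℝ) + u * v)) =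
        e (X / m) * (∑ u ∈ I, ∑ v ∈ I, e (∑ j : Fin (6 * q), X * (-1) ^ (j.1 + 1) / (m : ℝ) ^ (j.1 + 2) *
          (u : ℝ) ^ (j.1 + 1) * (v : ℝ) ^ (j.1 + 1))) +
        ∑ u ∈ I, ∑ v ∈ I, (e (X / ((m : ℝ) + u * v)) -
          e (X / m + ∑ j : Fin (6 * q), X * (-1) ^ (j.1 + 1) / (m : ℝ) ^ (j.1 + 2) *
          (u : ℝ) ^ (j.1 + 1) * (v : ℝ) ^ (j.1 + 1))) := by
      rw [mul_sum, ← sum_add_distrib]
      refine sum_congr rfl fun u _ => ?_
      rw [mul_sum, ← sum_add_distrib]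
      refine sum_congr rfl fun v _ => ?_
      rw [add_e_add (X / m)]
      ring
    rw [e1]
    refine (norm_add_le _ _).trans (add_le_add ?_ ?_)
    · rw [norm_mul, add_norm_e, one_mul]; exact hw
    · refine (norm_sum_le _ _).trans ?_
      have h1 : ∀ u ∈ I, ‖∑ v ∈ I, (e (X / ((m : ℝ) + u * v)) -
          e (X / m + ∑ j : Fin (6 * q), X * (-1) ^ (j.1 + 1) / (m : ℝ) ^ (j.1 + 2) *
          (u : ℝ) ^ (j.1 + 1) * (v : ℝ) ^ (j.1 + 1)))‖ ≤ U * (7 * t⁻¹ ^ 4) := by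
        intro u hu
        rw [← hIcard, ← nsmul_eq_mul]
        refine (norm_sum_le _ _).trans (sum_le_card_nsmul _ _ _ fun v hv => ?_)
        rw [hI, Finset.mem_Icc] at hu hv
        have hu1 : (0 : ℝ) ≤ u := by exact_mod_cast (by omega : (0 : ℤ) ≤ u)
        have hv1 : (0 : ℝ) ≤ v := by exact_mod_cast (by omega : (0 : ℤ) ≤ v)
        have hu2 : (u : ℝ) ≤ t := le_trans (by exact_mod_cast hu.2) hU1
        have hv2 : (v : ℝ) ≤ t := le_trans (by exact_mod_cast hv.2) hU1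
        refine (norm_e_sub_e _ _).trans (mul_le_mul_of_nonneg_left ?_ (by norm_num))
        have hT := taylor_le (X := X) hX0 hm0 (mul_nonneg hu1 hv1) (6 * q)
        have e2 : ∑ j : Fin (6 * q), X * (-1) ^ (j.1 + 1) / (m : ℝ) ^ (j.1 + 2) *
          (u : ℝ) ^ (j.1 + 1) * (v : ℝ) ^ (j.1 + 1) = ∑ j : Fin (6 * q), X * (-1) ^ (j.1 + 1) /
            (m : ℝ) ^ (j.1 + 2) * ((u : ℝ) * v) ^ (j.1 + 1) :=
          sum_congr rfl fun j _ => by rw [mul_pow]; ring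
        rw [e2]
        refine hT.trans ?_
        have h2 : (u : ℝ) * v / m ≤ t⁻¹ := by
          rw [div_le_iff₀ hm0]
          calc (u : ℝ) * v ≤ t * t := mul_le_mul hu2 hv2 hv1 ht0.le
            _ = t⁻¹ * t ^ 3 := by field_simp
            _ ≤ t⁻¹ * m := mul_le_mul_of_nonneg_left hm1 (by positivity)
        calc X / m * ((u : ℝ) * v / m) ^ (6 * q + 1)
            ≤ t ^ (6 * q) / t ^ 3 * (t⁻¹) ^ (6 * q + 1) := by
              refine mul_le_mul ?_ (pow_le_pow_left₀ (by positivity) h2 _) (by positivity)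
                (by positivity)
              exact div_le_div₀ (by positivity) hX2 (by positivity) hm1
          _ = t⁻¹ ^ 4 := by
              have h0 : t ^ (6 * q) ≠ 0 := by positivity
              have h5 : t ^ (6 * q) / t ^ 3 * t⁻¹ ^ (6 * q + 1) =
                  (t ^ (6 * q) * (t ^ (6 * q))⁻¹) * (t⁻¹ ^ 3 * t⁻¹) := by
                rw [pow_succ, inv_pow, inv_pow, div_eq_mul_inv]; ring
              rw [h5, mul_inv_cancel₀ h0, one_mul]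
              ring
      refine (sum_le_card_nsmul _ _ _ h1).trans ?_
      rw [nsmul_eq_mul, hIcard]
      exact le_of_eq (by ring)
  -- averaging
  set S := ∑ m ∈ Ioc a b, e (X / m) with hS
  have hav : (U : ℝ) ^ 2 * ‖S‖ ≤ (U : ℝ) ^ 2 * (2 * (U : ℝ) ^ 2) +
      t ^ 3 * (2 * (U : ℝ) ^ 2 * t ^ (-δ) + (U : ℝ) ^ 2 * (7 * t⁻¹ ^ 4)) := by
    have e1 : ((U : ℂ)) ^ 2 * S = ∑ u ∈ I, ∑ v ∈ I, (S - ∑ m ∈ Ioc a b, e (X / ((m : ℝ) + u * v))) +
        ∑ m ∈ Ioc a b, ∑ u ∈ I, ∑ v ∈ I, e (X / ((m : ℝ) + u * v)) := by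
      have e2 : ∑ m ∈ Ioc a b, ∑ u ∈ I, ∑ v ∈ I, e (X / ((m : ℝ) + u * v)) =
          ∑ u ∈ I, ∑ v ∈ I, ∑ m ∈ Ioc a b, e (X / ((m : ℝ) + u * v)) := by
        rw [sum_comm]
        exact sum_congr rfl fun u _ => sum_comm
      rw [e2, ← sum_add_distrib]
      simp_rw [← sum_add_distrib, sub_add_cancel, sum_const, nsmul_eq_mul]
      have : (#I : ℂ) = U := by exact_mod_cast hIcard
      rw [this]; ring
    have e3 : ‖(U : ℂ) ^ 2 * S‖ = (U : ℝ) ^ 2 * ‖S‖ := by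
      rw [norm_mul, norm_pow, Complex.norm_natCast]
    rw [← e3, e1]
    refine (norm_add_le _ _).trans (add_le_add ?_ ?_)
    · refine (norm_sum_le _ _).trans ?_
      have h1 : ∀ u ∈ I, ‖∑ v ∈ I, (S - ∑ m ∈ Ioc a b, e (X / ((m : ℝ) + u * v)))‖ ≤
          U * (2 * (U : ℝ) ^ 2) := by
        intro u hu
        rw [← hIcard, ← nsmul_eq_mul]
        refine (norm_sum_le _ _).trans (sum_le_card_nsmul _ _ _ fun v hv => ?_)
        rw [hI, Finset.mem_Icc] at hu hv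
        rw [hIcard]
        obtain ⟨u', rfl⟩ := Int.eq_ofNat_of_zero_le (by omega : 0 ≤ u)
        obtain ⟨v', rfl⟩ := Int.eq_ofNat_of_zero_le (by omega : 0 ≤ v)
        have h2 := shift_le (fun m => e (X / (m : ℝ))) (fun m => (add_norm_e _).le) hab (u' * v')
        have h3 : ∑ m ∈ Ioc a b, e (X / ((m + u' * v' : ℕ) : ℝ)) =
            ∑ m ∈ Ioc a b, e (X / ((m : ℝ) + ((u' : ℤ) : ℝ) * ((v' : ℤ) : ℝ))) := by
          refine sum_congr rfl fun m _ => ?_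
          push_cast
          rfl
        have h4 : ‖S - ∑ m ∈ Ioc a b, e (X / ((m : ℝ) + ((u' : ℤ) : ℝ) * ((v' : ℤ) : ℝ)))‖ ≤
            2 * ((u' * v' : ℕ) : ℝ) := by
          rw [← h3]; exact h2
        refine h4.trans (mul_le_mul_of_nonneg_left ?_ (by norm_num))
        have hu' : u' ≤ U := by exact_mod_cast hu.2
        have hv' : v' ≤ U := by exact_mod_cast hv.2
        have : u' * v' ≤ U ^ 2 := by rw [sq]; exact Nat.mul_le_mul hu' hv'
        exact_mod_cast this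
      refine (sum_le_card_nsmul _ _ _ h1).trans ?_
      rw [nsmul_eq_mul, hIcard]
      exact le_of_eq (by ring)
    · refine (norm_sum_le _ _).trans ((sum_le_card_nsmul _ _ _ hpt).trans ?_)
      rw [nsmul_eq_mul]
      refine mul_le_mul_of_nonneg_right ?_ ?_
      · rw [Nat.card_Ioc, Nat.cast_sub hab]
        linarith
      · have := Real.rpow_pos_of_pos ht0 (-δ)
        positivity
  have h6 : ‖S‖ ≤ 2 * (U : ℝ) ^ 2 + t ^ 3 * (2 * t ^ (-δ) + 7 * t⁻¹ ^ 4) := by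
    have hU2p : (0 : ℝ) < (U : ℝ) ^ 2 := by positivity
    refine le_of_mul_le_mul_left (hav.trans (le_of_eq ?_)) hU2p
    ring
  refine h6.trans ?_
  have h7 : t⁻¹ ≤ t ^ (-δ) := by
    rw [← Real.rpow_neg_one]
    exact Real.rpow_le_rpow_of_exponent_le ht1 (by linarith)
  have h8 : (U : ℝ) ^ 2 ≤ t ^ 2 := pow_le_pow_left₀ hU0.le hU1 2
  have h9 : t ^ 3 * (7 * t⁻¹ ^ 4) ≤ t ^ 3 * t⁻¹ := by
    refine mul_le_mul_of_nonneg_left ?_ (by positivity)
    have : t⁻¹ ≤ 1 / 100 := by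
      rw [inv_le_comm₀ ht0 (by norm_num)]; linarith
    have h0 : 0 < t⁻¹ := by positivity
    have h10 : t⁻¹ ^ 4 = t⁻¹ * t⁻¹ ^ 3 := by ring
    have h11 : t⁻¹ ^ 3 ≤ (1 / 100) ^ 3 := pow_le_pow_left₀ h0.le this 3
    rw [h10]
    nlinarith
  have h12 : t ^ 2 = t ^ 3 * t⁻¹ := by field_simp
  have h13 : t ^ 3 * t⁻¹ ≤ t ^ 3 * t ^ (-δ) := mul_le_mul_of_nonneg_left h7 (by positivity)
  calc 2 * (U : ℝ) ^ 2 + t ^ 3 * (2 * t ^ (-δ) + 7 * t⁻¹ ^ 4)
      = 2 * (U : ℝ) ^ 2 + 2 * (t ^ 3 * t ^ (-δ)) + t ^ 3 * (7 * t⁻¹ ^ 4) := by ring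
    _ ≤ 5 * (t ^ 3 * t ^ (-δ)) := by linarith
    _ = _ := by ring

end

end Pool.Agent.Work.VK
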