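import Mathlib
import Pool.Agent.Work.VK.Smooth

/-! The Vinogradov bound for the sums of `e (X / m)` over long intervals. -/

namespace Pool.Agent.Work.VK

open Finset
open Pool.Agent.BV

noncomputable section

theorem smooth_VK {A X : ℝ} (hA0 : 0 < A) (hA : 600 ≤ Real.log A) (hX : A ^ 46 ≤ X)
    (hbig : 10 ^ 9 * (Real.log X / Real.log A) ^ 6 ≤ A) {a b : ℕ} (ha : A ≤ a) (hab : a ≤ b)
    (hb : (b : ℝ) ≤ 2 * A) :
    ‖∑ m ∈ Ioc a b, e (X / m)‖ ≤
      5 * A * Real.exp (-(Real.log A ^ 3 / (600000 * Real.log X ^ 2))) := by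
  have hX0 : 0 < X := lt_of_lt_of_le (by positivity) hX
  have hlA : 0 < Real.log A := by linarith
  have hlX : 46 * Real.log A ≤ Real.log X := by
    have := Real.log_le_log (by positivity) hX
    rw [Real.log_pow] at this
    exact_mod_cast this
  have hlX0 : 0 < Real.log X := by linarith
  obtain ⟨l, hl⟩ : ∃ l, l = Real.log X / Real.log A := ⟨_, rfl⟩
  rw [← hl] at hbig
  have hl46 : 46 ≤ l := by rw [hl, le_div_iff₀ hlA]; exact hlX
  obtain ⟨q, hq⟩ : ∃ q : ℕ, q = ⌊l / 2⌋₊ + 1 := ⟨_, rfl⟩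
  have hq24 : 24 ≤ q := by
    have : 23 ≤ ⌊l / 2⌋₊ := Nat.le_floor (by push_cast; linarith)
    omega
  have hq1 : ((q : ℝ) - 1) ≤ l / 2 := by
    rw [hq]; push_cast
    have := Nat.floor_le (by linarith : 0 ≤ l / 2)
    linarith
  have hq2 : l / 2 ≤ q := by
    rw [hq]; push_cast
    exact (Nat.lt_floor_add_one (l / 2)).le
  have hql : (q : ℝ) ≤ l := by linarith
  have hq0 : (0 : ℝ) < q := by linarith
  obtain ⟨t, ht⟩ : ∃ t : ℝ, t = A ^ ((1 : ℝ) / 3) := ⟨_, rfl⟩
  have ht0 : 0 < t := by rw [ht]; exact Real.rpow_pos_of_pos hA0 _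
  have ht3 : t ^ 3 = A := by
    rw [ht, ← Real.rpow_natCast, ← Real.rpow_mul hA0.le]; norm_num
  have ht200 : 2 ^ 200 ≤ t := by
    rw [← Real.log_le_log_iff (by positivity) ht0, Real.log_pow]
    have h1 : Real.log A = 3 * Real.log t := by rw [← ht3, Real.log_pow]; push_cast; rfl
    have := Real.log_two_lt_d9
    push_cast
    linarith
  have htq : 1000 * (q : ℝ) ^ 2 ≤ t := by
    refine le_of_pow_le_pow_left₀ (n := 3) (by norm_num) ht0.le ?_
    rw [ht3]
    calc (1000 * (q : ℝ) ^ 2) ^ 3 = 10 ^ 9 * (q : ℝ) ^ 6 := by ring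
      _ ≤ 10 ^ 9 * l ^ 6 := by gcongr
      _ ≤ A := hbig
  have hXA : ∀ n : ℕ, t ^ (6 * n) = A ^ (2 * n) := by
    intro n
    rw [← ht3, ← pow_mul]; congr 1; ring
  have hX1 : t ^ (6 * q - 6) ≤ X := by
    have h1 : 6 * q - 6 = 6 * (q - 1) := by omega
    rw [h1, hXA, ← Real.log_le_log_iff (by positivity) hX0, Real.log_pow]
    have h2 : ((2 * (q - 1) : ℕ) : ℝ) = 2 * ((q : ℝ) - 1) := by
      rw [Nat.cast_mul, Nat.cast_sub (by omega)]; push_cast; rfl
    rw [h2]
    have h3 : Real.log X = l * Real.log A := by rw [hl]; field_simp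
    rw [h3]
    exact mul_le_mul_of_nonneg_right (by linarith) hlA.le
  have hX2 : X ≤ t ^ (6 * q) := by
    rw [hXA, ← Real.log_le_log_iff hX0 (by positivity), Real.log_pow]
    have h3 : Real.log X = l * Real.log A := by rw [hl]; field_simp
    rw [h3]
    refine mul_le_mul_of_nonneg_right ?_ hlA.le
    push_cast; linarith
  have hmain := smooth_t hq24 ht200 htq hX1 hX2 (a := a) (b := b) (by rw [ht3]; exact ha) hab
    (by rw [ht3]; exact hb)
  rw [ht3] at hmain
  refine hmain.trans (mul_le_mul_of_nonneg_left ?_ (by linarith))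
  rw [ht, ← Real.rpow_mul hA0.le, Real.rpow_def_of_pos hA0]
  apply Real.exp_le_exp.mpr
  have h4 : Real.log A * (1 / 3 * -(1 / (200000 * (q : ℝ) ^ 2))) =
      -(Real.log A / (600000 * (q : ℝ) ^ 2)) := by field_simp; ring
  rw [h4, neg_le_neg_iff]
  have h5 : Real.log A ^ 3 / (600000 * Real.log X ^ 2) = Real.log A / (600000 * l ^ 2) := by
    rw [hl]; field_simp
  rw [h5]
  refine div_le_div_of_nonneg_left hlA.le (by positivity) ?_
  gcongr

lemma smooth_pos {l L X : ℝ} (hl : 600 ≤ l) (hbig : 10 ^ 9 * (L / l) ^ 6 ≤ Real.exp l)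
    (hX0 : 0 < X) (hX : Real.log X ≤ L) {a b : ℕ} (ha : l ≤ Real.log a) (hab : a ≤ b)
    (hb2 : b ≤ 2 * a) (hb : 46 * Real.log b ≤ Real.log X) :
    ‖∑ m ∈ Ioc a b, e (X / m)‖ ≤ 5 * a * Real.exp (-(l ^ 3 / (600000 * L ^ 2))) := by
  have ha0 : (0 : ℝ) < a := by
    rcases Nat.eq_zero_or_pos a with h | h
    · rw [h] at ha; simp at ha; linarith
    · exact_mod_cast h
  have hb0 : (0 : ℝ) < b := lt_of_lt_of_le ha0 (by exact_mod_cast hab)
  have hlb : Real.log a ≤ Real.log b := Real.log_le_log ha0 (by exact_mod_cast hab)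
  have hX1 : 46 * Real.log a ≤ Real.log X := by linarith
  have hlX : 0 < Real.log X := by linarith
  have hle : Real.exp l ≤ a := by
    rw [← Real.le_log_iff_exp_le ha0]; exact ha
  have h3 : (a : ℝ) ^ 46 ≤ X := by
    rw [← Real.log_le_log_iff (by positivity) hX0, Real.log_pow]
    push_cast; linarith
  have hq : Real.log X / Real.log a ≤ L / l := by
    refine div_le_div₀ (by linarith) hX (by linarith) ha
  have h4 : 10 ^ 9 * (Real.log X / Real.log a) ^ 6 ≤ (a : ℝ) := by
    refine le_trans ?_ (hbig.trans hle)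
    have : 0 ≤ Real.log X / Real.log a := div_nonneg hlX.le (by linarith)
    gcongr
  have h := smooth_VK ha0 (hl.trans ha) h3 h4 (a := a) (b := b) le_rfl hab (by exact_mod_cast hb2)
  refine h.trans (mul_le_mul_of_nonneg_left ?_ (by positivity))
  apply Real.exp_le_exp.mpr
  rw [neg_le_neg_iff]
  refine div_le_div₀ (by positivity) (by gcongr) (by positivity) (by gcongr)

lemma smooth_pos_long {l L X : ℝ} (hl : 600 ≤ l) (hbig : 10 ^ 9 * (L / l) ^ 6 ≤ Real.exp l)
    (hX0 : 0 < X) (hX : Real.log X ≤ L) {a b : ℕ} (ha : l ≤ Real.log a) (hab : a ≤ b)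
    (hb : 46 * Real.log b ≤ Real.log X) :
    ‖∑ m ∈ Ioc a b, e (X / m)‖ ≤ 10 * b * Real.exp (-(l ^ 3 / (600000 * L ^ 2))) := by
  induction b using Nat.strong_induction_on with
  | _ b ih =>
    set ρ := Real.exp (-(l ^ 3 / (600000 * L ^ 2))) with hρ
    have hρ0 : 0 < ρ := Real.exp_pos _
    have ha0 : 0 < a := by
      rcases Nat.eq_zero_or_pos a with h | h
      · rw [h] at ha; simp at ha; linarith
      · exact h
    rcases le_or_gt b (2 * a) with h2 | h2
    · refine (smooth_pos hl hbig hX0 hX ha hab h2 hb).trans ?_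
      have : (a : ℝ) ≤ b := by exact_mod_cast hab
      have h0 : (0 : ℝ) ≤ a := Nat.cast_nonneg _
      rw [← hρ]
      refine mul_le_mul_of_nonneg_right ?_ hρ0.le
      linarith
    · obtain ⟨c, hc⟩ : ∃ c : ℕ, c = (b + 1) / 2 := ⟨_, rfl⟩
      have hac : a ≤ c := by omega
      have hcb : c < b := by omega
      have hbc : b ≤ 2 * c := by omega
      have hcb2 : 2 * c ≤ b + 1 := by omega
      have hb3 : 3 ≤ b := by omega
      have hc0 : 0 < c := by omega
      have hlc : Real.log c ≤ Real.log b := Real.log_le_log (by exact_mod_cast hc0) (by exact_mod_cast hcb.le)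
      have hla : Real.log a ≤ Real.log c := Real.log_le_log (by exact_mod_cast ha0) (by exact_mod_cast hac)
      have h3 := ih c hcb hac (by linarith)
      have h4 := smooth_pos hl hbig hX0 hX (a := c) (b := b) (by linarith) hcb.le hbc hb
      rw [← sum_Ioc_consecutive _ hac hcb.le]
      refine (norm_add_le _ _).trans ((add_le_add h3 h4).trans ?_)
      rw [← hρ, ← add_mul]
      refine mul_le_mul_of_nonneg_right ?_ hρ0.le
      have h5 : (2 : ℝ) * c ≤ b + 1 := by exact_mod_cast hcb2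
      have h6 : (3 : ℝ) ≤ b := by exact_mod_cast hb3
      linarith

theorem smooth_long {l L X : ℝ} (hl : 600 ≤ l) (hbig : 10 ^ 9 * (L / l) ^ 6 ≤ Real.exp l)
    (hX : Real.log |X| ≤ L) {a b : ℕ} (ha : l ≤ Real.log a) (hab : a ≤ b)
    (hb : 46 * Real.log b ≤ Real.log |X|) :
    ‖∑ m ∈ Ioc a b, e (X / m)‖ ≤ 10 * b * Real.exp (-(l ^ 3 / (600000 * L ^ 2))) := by
  have ha0 : (0 : ℝ) < a := by
    rcases Nat.eq_zero_or_pos a with h | h
    · rw [h] at ha; simp at ha; linarith
    · exact_mod_cast h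
  have hlb : Real.log a ≤ Real.log b := Real.log_le_log ha0 (by exact_mod_cast hab)
  have hlX : 0 < Real.log |X| := by linarith
  have hX0 : 0 < |X| := by
    rcases eq_or_ne X 0 with h | h
    · rw [h] at hlX; simp at hlX
    · exact abs_pos.mpr h
  have h := smooth_pos_long hl hbig hX0 hX ha hab hb
  rcases le_total 0 X with h0 | h0
  · rwa [abs_of_nonneg h0] at h
  · rw [abs_of_nonpos h0] at h
    have e1 : ∑ m ∈ Ioc a b, e (X / m) = starRingEnd ℂ (∑ m ∈ Ioc a b, e (-X / m)) := by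
      rw [map_sum]
      refine sum_congr rfl fun m _ => ?_
      rw [← add_e_neg]; congr 1; ring
    rw [e1, RCLike.norm_conj]
    exact h

end

end Pool.Agent.Work.VK
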