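import Mathlib
import Pool.Agent.Work.VK.Long
import Pool.Agent.Work.BV.L_Vaughan
import Pool.Agent.Work.BV.DivSum

/-! The sums of `Λ m * e (x / m)` by Vaughan's identity. -/

namespace Pool.Agent.Work.VK

open Finset
open Pool.Agent.BV Pool.Agent.Work.BV
open scoped ArithmeticFunction.vonMangoldt

noncomputable section

lemma abel_eq (w : ℕ → ℂ) (z : ℕ → ℂ) {lo hi : ℕ} (h : lo ≤ hi) :
    ∑ b ∈ Ioc lo hi, w b * z b = w hi * ∑ b ∈ Ioc lo hi, z b -
      ∑ m ∈ Ico lo hi, (w (m + 1) - w m) * ∑ b ∈ Ioc lo m, z b := by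
  induction hi, h using Nat.le_induction with
  | base => simp
  | succ hi h ih =>
    rw [Finset.sum_Ioc_succ_top h, Finset.sum_Ioc_succ_top h, Finset.sum_Ico_succ_top h, ih]
    ring

lemma abel_mono (w : ℕ → ℝ) (hw0 : ∀ m, 0 ≤ w m) (hw : Monotone w) (z : ℕ → ℂ) {lo hi : ℕ}
    (h : lo ≤ hi) {M : ℝ} (hM : ∀ m, lo ≤ m → m ≤ hi → ‖∑ b ∈ Ioc lo m, z b‖ ≤ M) :
    ‖∑ b ∈ Ioc lo hi, (w b : ℂ) * z b‖ ≤ 2 * w hi * M := by
  have hM0 : 0 ≤ M := (norm_nonneg _).trans (hM lo le_rfl h)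
  rw [abel_eq (fun b => (w b : ℂ)) z h]
  refine (norm_sub_le _ _).trans ?_
  have h1 : ‖(w hi : ℂ) * ∑ b ∈ Ioc lo hi, z b‖ ≤ w hi * M := by
    rw [norm_mul, Complex.norm_real, Real.norm_eq_abs, abs_of_nonneg (hw0 _)]
    exact mul_le_mul_of_nonneg_left (hM hi h le_rfl) (hw0 _)
  have h2 : ‖∑ m ∈ Ico lo hi, ((w (m + 1) : ℂ) - w m) * ∑ b ∈ Ioc lo m, z b‖ ≤
      ∑ m ∈ Ico lo hi, (w (m + 1) - w m) * M := by
    refine (norm_sum_le _ _).trans (sum_le_sum fun m hm => ?_)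
    rw [mem_Ico] at hm
    rw [norm_mul, ← Complex.ofReal_sub, Complex.norm_real, Real.norm_eq_abs,
      abs_of_nonneg (sub_nonneg.mpr (hw (Nat.le_succ m)))]
    exact mul_le_mul_of_nonneg_left (hM m hm.1 hm.2.le) (sub_nonneg.mpr (hw (Nat.le_succ m)))
  have h3 : ∑ m ∈ Ico lo hi, (w (m + 1) - w m) * M = (w hi - w lo) * M := by
    rw [← sum_mul, Finset.sum_Ico_sub w h]
  rw [h3] at h2
  have h4 := mul_nonneg (hw0 lo) hM0
  nlinarith

/-- the cut exponential -/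
def hh (x : ℝ) (P P' n : ℕ) : ℂ := if P < n ∧ n ≤ P' then e (x / n) else 0

lemma cut_iff {P P' a b : ℕ} (hb : 0 < b) : (P < a * b ∧ a * b ≤ P') ↔ a ∈ Ioc (P / b) (P' / b) := by
  rw [mem_Ioc, Nat.div_lt_iff_lt_mul hb, Nat.le_div_iff_mul_le hb]

lemma sum_hh {x : ℝ} {P P' b : ℕ} (hb : 0 < b) (w : ℕ → ℂ) :
    ∑ a ∈ Finset.Icc 1 P', w a * hh x P P' (a * b) =
      ∑ a ∈ Ioc (P / b) (P' / b), w a * e (x / b / a) := by
  have h1 : ∀ a ∈ Finset.Icc 1 P', w a * hh x P P' (a * b) =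
      if a ∈ Ioc (P / b) (P' / b) then w a * e (x / b / a) else 0 := by
    intro a _
    unfold hh
    by_cases h : P < a * b ∧ a * b ≤ P'
    · rw [if_pos h, if_pos ((cut_iff hb).mp h)]
      congr 2
      push_cast
      rw [div_div, mul_comm]
    · rw [if_neg h, if_neg (fun h' => h ((cut_iff hb).mpr h')), mul_zero]
  rw [sum_congr rfl h1, ← sum_filter]
  refine sum_congr ?_ fun _ _ => rfl
  ext a
  rw [mem_filter, Finset.mem_Icc, mem_Ioc]
  have := Nat.div_le_self P' b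
  constructor
  · rintro ⟨_, h⟩; exact h
  · rintro ⟨h, h'⟩
    exact ⟨⟨Nat.lt_of_le_of_lt (Nat.zero_le _) h, h'.trans this⟩, h, h'⟩

/-- the standing hypotheses -/
structure Par (l L x : ℝ) (U P P' : ℕ) : Prop where
  hl : 600 ≤ l
  hbig : 10 ^ 9 * (L / l) ^ 6 ≤ Real.exp l
  hx0 : 0 < x
  hxL : Real.log x ≤ L
  hU : l ≤ Real.log U
  hUP : U ^ 3 ≤ P
  hP : P ≤ P'
  hPx : 48 * Real.log P' ≤ Real.log x

/-- the saving -/
def rho (l L : ℝ) : ℝ := Real.exp (-(l ^ 3 / (600000 * L ^ 2)))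

lemma rho_pos (l L : ℝ) : 0 < rho l L := Real.exp_pos _

lemma rho_le_one {l : ℝ} (hl : 0 ≤ l) (L : ℝ) : rho l L ≤ 1 := by
  unfold rho
  rw [Real.exp_le_one_iff, neg_nonpos]
  positivity

namespace Par

variable {l L x : ℝ} {U P P' : ℕ}

lemma U_pos (h : Par l L x U P P') : 0 < U := by
  rcases Nat.eq_zero_or_pos U with h0 | h0
  · have := h.hU
    rw [h0] at this
    simp at this
    linarith [h.hl]
  · exact h0

lemma P_pos (h : Par l L x U P P') : 0 < P := lt_of_lt_of_le (pow_pos h.U_pos 3) h.hUP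

lemma P'_pos (h : Par l L x U P P') : 0 < P' := lt_of_lt_of_le h.P_pos h.hP

lemma logP' (h : Par l L x U P P') : 600 ≤ Real.log P' := by
  have h1 : U ≤ P' := by
    have : U ≤ U ^ 3 := Nat.le_self_pow (by norm_num) U
    exact this.trans (h.hUP.trans h.hP)
  have h2 : Real.log U ≤ Real.log P' :=
    Real.log_le_log (by exact_mod_cast h.U_pos) (by exact_mod_cast h1)
  linarith [h.hl, h.hU]

/-- sums starting at `U` or later -/
lemma smooth (h : Par l L x U P P') {X : ℝ} (hX1 : 46 * Real.log P' ≤ Real.log |X|)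
    (hX2 : Real.log |X| ≤ Real.log x) {lo hi : ℕ} (hlo : U ≤ lo) (hle : lo ≤ hi) (hhi : hi ≤ P') :
    ‖∑ b ∈ Ioc lo hi, e (X / b)‖ ≤ 10 * hi * rho l L := by
  have hlo0 : 0 < lo := lt_of_lt_of_le h.U_pos hlo
  refine smooth_long h.hl h.hbig (hX2.trans h.hxL) (h.hU.trans ?_) hle (le_trans ?_ hX1)
  · exact Real.log_le_log (by exact_mod_cast h.U_pos) (by exact_mod_cast hlo)
  · have : Real.log hi ≤ Real.log P' :=
      Real.log_le_log (by exact_mod_cast (by omega : 0 < hi)) (by exact_mod_cast hhi)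
    linarith

lemma typeI_inner (h : Par l L x U P P') (w : ℕ → ℝ) (hw0 : ∀ m, 0 ≤ w m) (hw : Monotone w)
    {b : ℕ} (hb : 0 < b) (hbU : b ≤ U * U) :
    ‖∑ a ∈ Finset.Icc 1 P', (w a : ℂ) * hh x P P' (a * b)‖ ≤
      20 * w P' * (P' * (b : ℝ)⁻¹) * rho l L := by
  rw [sum_hh hb]
  have hb0 : (0 : ℝ) < b := by exact_mod_cast hb
  have hP0 : (0 : ℝ) < P' := by exact_mod_cast h.P'_pos
  have hlo : U ≤ P / b := by
    rw [Nat.le_div_iff_mul_le hb]
    calc U * b ≤ U * (U * U) := Nat.mul_le_mul_left _ hbU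
      _ = U ^ 3 := by ring
      _ ≤ P := h.hUP
  have hle : P / b ≤ P' / b := Nat.div_le_div_right h.hP
  have hbP : b ≤ P' := by
    have : U * U ≤ U ^ 3 := by
      calc U * U = U * U * 1 := by ring
        _ ≤ U * U * U := Nat.mul_le_mul_left _ h.U_pos
        _ = U ^ 3 := by ring
    exact hbU.trans (this.trans (h.hUP.trans h.hP))
  have hlb : Real.log b ≤ Real.log P' := Real.log_le_log hb0 (by exact_mod_cast hbP)
  have hlb0 : 0 ≤ Real.log b := Real.log_natCast_nonneg b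
  have hlx : Real.log |x / b| = Real.log x - Real.log b := by
    rw [abs_of_pos (by have := h.hx0; positivity), Real.log_div h.hx0.ne' hb0.ne']
  have hrho := rho_pos l L
  have hab := abel_mono w hw0 hw (fun a => e (x / b / a)) hle
    (M := 10 * ((P' / b : ℕ) : ℝ) * rho l L) (fun m hm1 hm2 => by
      refine (h.smooth (X := x / b) ?_ ?_ hlo hm1 (hm2.trans (Nat.div_le_self _ _))).trans ?_
      · rw [hlx]; have := h.hPx; linarith
      · rw [hlx]; linarith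
      · have : (m : ℝ) ≤ ((P' / b : ℕ) : ℝ) := by exact_mod_cast hm2
        gcongr)
  refine hab.trans ?_
  have h1 : ((P' / b : ℕ) : ℝ) ≤ P' * (b : ℝ)⁻¹ := by
    rw [← div_eq_mul_inv]; exact Nat.cast_div_le
  have h2 : w (P' / b) ≤ w P' := hw (Nat.div_le_self _ _)
  calc 2 * w (P' / b) * (10 * ((P' / b : ℕ) : ℝ) * rho l L)
      ≤ 2 * w P' * (10 * (P' * (b : ℝ)⁻¹) * rho l L) := by
        have := hw0 (P' / b)
        have := hw0 P'
        gcongr
    _ = _ := by ring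

/-- type I sums -/
lemma typeI (h : Par l L x U P P') (f : ArithmeticFunction ℝ) (w : ℕ → ℝ) (hf : ∀ n, 0 < n → f n = w n)
    (hw0 : ∀ m, 0 ≤ w m) (hw : Monotone w) (g : ArithmeticFunction ℝ) {G : ℝ} (hG0 : 0 ≤ G)
    (hg : ∀ n ∈ Finset.Icc 1 P', |g n| ≤ G) (hg0 : ∀ n, U * U < n → g n = 0) :
    ‖∑ n ∈ Finset.Icc 1 P', (((f * g) n : ℝ) : ℂ) * hh x P P' n‖ ≤
      20 * w P' * G * P' * (1 + Real.log P') * rho l L := by
  have hrho := rho_pos l L
  rw [sum_conv f g (hh x P P') P' (fun n hn => if_neg (by omega)), sum_comm]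
  have h1 : ∀ b ∈ Finset.Icc 1 P', ‖∑ a ∈ Finset.Icc 1 P', (f a : ℂ) * (g b : ℂ) * hh x P P' (a * b)‖ ≤
      20 * w P' * G * P' * rho l L * (b : ℝ)⁻¹ := by
    intro b hb
    have hb1 : 0 < b := by rw [Finset.mem_Icc] at hb; omega
    have hb0 : (0 : ℝ) < b := by exact_mod_cast hb1
    have e1 : ∑ a ∈ Finset.Icc 1 P', (f a : ℂ) * (g b : ℂ) * hh x P P' (a * b) =
        (g b : ℂ) * ∑ a ∈ Finset.Icc 1 P', (w a : ℂ) * hh x P P' (a * b) := by
      rw [mul_sum]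
      refine sum_congr rfl fun a ha => ?_
      rw [hf a (by rw [Finset.mem_Icc] at ha; omega)]
      ring
    rw [e1, norm_mul, Complex.norm_real, Real.norm_eq_abs]
    have hwP := hw0 P'
    rcases le_or_gt b (U * U) with h2 | h2
    · calc |g b| * ‖∑ a ∈ Finset.Icc 1 P', (w a : ℂ) * hh x P P' (a * b)‖
          ≤ G * (20 * w P' * (P' * (b : ℝ)⁻¹) * rho l L) :=
            mul_le_mul (hg b hb) (h.typeI_inner w hw0 hw hb1 h2) (norm_nonneg _) hG0
        _ = _ := by ring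
    · rw [hg0 b h2, abs_zero, zero_mul]
      positivity
  refine (norm_sum_le _ _).trans ((sum_le_sum h1).trans ?_)
  rw [← mul_sum]
  have hwP := hw0 P'
  calc 20 * w P' * G * P' * rho l L * ∑ b ∈ Finset.Icc 1 P', (b : ℝ)⁻¹
      ≤ 20 * w P' * G * P' * rho l L * (1 + Real.log P') :=
        mul_le_mul_of_nonneg_left (DivSum_H P') (by positivity)
    _ = _ := by ring

end Par

end

end Pool.Agent.Work.VK
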