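import Mathlib
import Pool.Agent.Work.VK.Bilinear

/-! Type II sums and the bound for the sums of `Λ m * e (x / m)`. -/

namespace Pool.Agent.Work.VK

open Finset
open Pool.Agent.BV Pool.Agent.Work.BV
open scoped ArithmeticFunction.vonMangoldt

noncomputable section

lemma tausq_inv (N : ℕ) :
    ∑ n ∈ Finset.Icc 1 N, (n.divisors.card : ℝ) ^ 2 * (n : ℝ)⁻¹ ≤
      (∑ i ∈ Finset.Icc 1 N, (i : ℝ)⁻¹) ^ 4 := by
  have e1 : ∀ n ∈ Finset.Icc 1 N, (n.divisors.card : ℝ) ^ 2 * (n : ℝ)⁻¹ ≤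
      ∑ p ∈ n.divisorsAntidiagonal, ((p.1.divisors.card : ℝ) * (p.1 : ℝ)⁻¹) *
        ((p.2.divisors.card : ℝ) * (p.2 : ℝ)⁻¹) := by
    intro n _
    rw [sq]
    nth_rewrite 2 [DivSum_tau]
    rw [mul_sum, sum_mul]
    refine sum_le_sum fun p hp => ?_
    have hp' := (Nat.mem_divisorsAntidiagonal.mp hp).1
    rw [mul_one]
    have h1 := DivSum_tauMul p.1 p.2
    rw [hp'] at h1
    have h2 : (n : ℝ)⁻¹ = (p.1 : ℝ)⁻¹ * (p.2 : ℝ)⁻¹ := by
      rw [← mul_inv, ← Nat.cast_mul, hp']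
    rw [h2]
    calc (n.divisors.card : ℝ) * ((p.1 : ℝ)⁻¹ * (p.2 : ℝ)⁻¹)
        ≤ ((p.1.divisors.card : ℝ) * (p.2.divisors.card : ℝ)) * ((p.1 : ℝ)⁻¹ * (p.2 : ℝ)⁻¹) :=
          mul_le_mul_of_nonneg_right h1 (by positivity)
      _ = _ := by ring
  refine (sum_le_sum e1).trans ?_
  rw [DivSum_pairs N (fun a b => ((a.divisors.card : ℝ) * (a : ℝ)⁻¹) *
    ((b.divisors.card : ℝ) * (b : ℝ)⁻¹))]
  set A := ∑ n ∈ Finset.Icc 1 N, (n.divisors.card : ℝ) * (n : ℝ)⁻¹ with hA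
  have hA0 : 0 ≤ A := sum_nonneg fun n _ => mul_nonneg (Nat.cast_nonneg _) (inv_nonneg.mpr (Nat.cast_nonneg _))
  calc ∑ d ∈ Finset.Icc 1 N, ∑ m ∈ Finset.Icc 1 (N / d), ((d.divisors.card : ℝ) * (d : ℝ)⁻¹) *
        ((m.divisors.card : ℝ) * (m : ℝ)⁻¹)
      ≤ ∑ d ∈ Finset.Icc 1 N, ((d.divisors.card : ℝ) * (d : ℝ)⁻¹) * A := by
        refine sum_le_sum fun d _ => ?_
        rw [← mul_sum]
        refine mul_le_mul_of_nonneg_left ?_ (by positivity)
        refine sum_le_sum_of_subset_of_nonneg (Icc_subset_Icc_right (Nat.div_le_self N d)) ?_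
        intros; positivity
    _ = A ^ 2 := by rw [← sum_mul, sq]
    _ ≤ ((∑ i ∈ Finset.Icc 1 N, (i : ℝ)⁻¹) ^ 2) ^ 2 := pow_le_pow_left₀ hA0 (DivSum_T2 N) 2
    _ = _ := by ring

/-- the kernel -/
def KK (x : ℝ) (U P P' a a' : ℕ) : ℂ :=
  ∑ b ∈ Ioc U P', (b : ℂ) * (hh x P P' (a * b) * starRingEnd ℂ (hh x P P' (a' * b)))

lemma KK_eq {x : ℝ} {U P P' a a' : ℕ} (ha : 0 < a) (ha' : 0 < a') :
    KK x U P P' a a' = ∑ b ∈ Ioc (max U (max (P / a) (P / a'))) (min P' (min (P' / a) (P' / a'))),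
      (((b : ℕ) : ℝ) : ℂ) * e ((x / a - x / a') / b) := by
  unfold KK
  have h1 : ∀ b ∈ Ioc U P', (b : ℂ) * (hh x P P' (a * b) * starRingEnd ℂ (hh x P P' (a' * b))) =
      if b ∈ Ioc (P / a) (P' / a) ∧ b ∈ Ioc (P / a') (P' / a') then
        (((b : ℕ) : ℝ) : ℂ) * e ((x / a - x / a') / b) else 0 := by
    intro b _
    unfold hh
    have c1 : (P < a * b ∧ a * b ≤ P') ↔ b ∈ Ioc (P / a) (P' / a) := by
      rw [mul_comm]; exact cut_iff ha
    have c2 : (P < a' * b ∧ a' * b ≤ P') ↔ b ∈ Ioc (P / a') (P' / a') := by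
      rw [mul_comm]; exact cut_iff ha'
    simp only [c1, c2]
    by_cases h1 : b ∈ Ioc (P / a) (P' / a)
    · by_cases h2 : b ∈ Ioc (P / a') (P' / a')
      · rw [if_pos h1, if_pos h2, if_pos ⟨h1, h2⟩, ← add_e_neg, ← add_e_add]
        push_cast
        congr 2
        rw [sub_div, div_div, div_div]
        ring
      · have h3 : ¬ (b ∈ Ioc (P / a) (P' / a) ∧ b ∈ Ioc (P / a') (P' / a')) := fun h => h2 h.2
        rw [if_neg h2, if_neg h3, map_zero, mul_zero, mul_zero]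
    · have h3 : ¬ (b ∈ Ioc (P / a) (P' / a) ∧ b ∈ Ioc (P / a') (P' / a')) := fun h => h1 h.1
      rw [if_neg h1, if_neg h3, zero_mul, mul_zero]
  rw [sum_congr rfl h1, ← sum_filter]
  refine sum_congr ?_ fun _ _ => rfl
  ext b
  simp only [mem_filter, mem_Ioc, max_lt_iff, le_min_iff]
  tauto

namespace Par

variable {l L x : ℝ} {U P P' : ℕ}

lemma hi_le {a : ℕ} : ((P' / a : ℕ) : ℝ) ≤ P' * (a : ℝ)⁻¹ := by
  rw [← div_eq_mul_inv]; exact Nat.cast_div_le

lemma KK_diag {a : ℕ} (ha : 0 < a) :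
    ‖KK x U P P' a a‖ ≤ (P' * (a : ℝ)⁻¹) ^ 2 := by
  rw [KK_eq ha ha]
  refine (norm_sum_le _ _).trans ?_
  have h1 : ∀ b ∈ Ioc (max U (max (P / a) (P / a))) (min P' (min (P' / a) (P' / a))),
      ‖(((b : ℕ) : ℝ) : ℂ) * e ((x / a - x / a) / b)‖ ≤ P' * (a : ℝ)⁻¹ := by
    intro b hb
    rw [mem_Ioc, le_min_iff, le_min_iff] at hb
    rw [norm_mul, add_norm_e, mul_one, Complex.norm_real, Real.norm_eq_abs,
      abs_of_nonneg (Nat.cast_nonneg _)]
    exact le_trans (by exact_mod_cast hb.2.2.1) hi_le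
  refine (sum_le_card_nsmul _ _ _ h1).trans ?_
  rw [nsmul_eq_mul, Nat.card_Ioc, sq]
  refine mul_le_mul_of_nonneg_right ?_ (by positivity)
  refine le_trans ?_ (hi_le (P' := P') (a := a))
  have : min P' (min (P' / a) (P' / a)) - max U (max (P / a) (P / a)) ≤ P' / a := by
    refine (Nat.sub_le _ _).trans ?_
    exact (min_le_right _ _).trans (min_le_left _ _)
  exact_mod_cast this

lemma KK_off (h : Par l L x U P P') {a a' : ℕ} (ha : 0 < a) (ha' : 0 < a') (haP : a ≤ P')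
    (haP' : a' ≤ P') (hne : a ≠ a') :
    ‖KK x U P P' a a'‖ ≤ 20 * rho l L * ((P' * (a : ℝ)⁻¹) * (P' * (a' : ℝ)⁻¹)) := by
  rw [KK_eq ha ha']
  have hrho := rho_pos l L
  set lo := max U (max (P / a) (P / a')) with hlo
  set hi := min P' (min (P' / a) (P' / a')) with hhi
  rcases lt_or_ge hi lo with hlt | hle
  · rw [Finset.Ioc_eq_empty (by omega), sum_empty, norm_zero]
    positivity
  have hUlo : U ≤ lo := le_max_left _ _
  have hhiP : hi ≤ P' := min_le_left _ _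
  have hhia : hi ≤ P' / a := (min_le_right _ _).trans (min_le_left _ _)
  have hhia' : hi ≤ P' / a' := (min_le_right _ _).trans (min_le_right _ _)
  have ha0 : (0 : ℝ) < a := by exact_mod_cast ha
  have ha0' : (0 : ℝ) < a' := by exact_mod_cast ha'
  have hx0 := h.hx0
  -- the size of X
  have hX : |x / a - x / a'| = x * (|(a' : ℝ) - a| / (a * a')) := by
    have : x / a - x / a' = x * (((a' : ℝ) - a) / (a * a')) := by field_simp
    rw [this, abs_mul, abs_of_pos hx0, abs_div, abs_of_pos (by positivity : (0 : ℝ) < a * a')]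
  have hd1 : (1 : ℝ) ≤ |(a' : ℝ) - a| := by
    have h1 : (1 : ℤ) ≤ |(a' : ℤ) - a| := Int.one_le_abs (by omega)
    exact_mod_cast h1
  have hd2 : |(a' : ℝ) - a| ≤ a * a' := by
    have h1 : (1 : ℝ) ≤ a := by exact_mod_cast ha
    have h2 : (1 : ℝ) ≤ a' := by exact_mod_cast ha'
    rw [abs_le]
    constructor <;> nlinarith
  have hla : Real.log a ≤ Real.log P' := Real.log_le_log ha0 (by exact_mod_cast haP)
  have hla' : Real.log a' ≤ Real.log P' := Real.log_le_log ha0' (by exact_mod_cast haP')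
  have hX1 : 46 * Real.log P' ≤ Real.log |x / a - x / a'| := by
    rw [hX]
    have h1 : x * (1 / (a * a')) ≤ x * (|(a' : ℝ) - a| / (a * a')) := by
      refine mul_le_mul_of_nonneg_left (div_le_div_of_nonneg_right hd1 (by positivity)) hx0.le
    have h2 : Real.log (x * (1 / (a * a'))) = Real.log x - (Real.log a + Real.log a') := by
      rw [mul_one_div, Real.log_div hx0.ne' (by positivity), Real.log_mul ha0.ne' ha0'.ne']
    have h3 := Real.log_le_log (by positivity) h1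
    rw [h2] at h3
    have := h.hPx
    linarith
  have hX2 : Real.log |x / a - x / a'| ≤ Real.log x := by
    have hne0 : 0 < |x / a - x / a'| := by
      rw [hX]; positivity
    refine Real.log_le_log hne0 ?_
    rw [hX]
    have : |(a' : ℝ) - a| / (a * a') ≤ 1 := by rw [div_le_one (by positivity)]; exact hd2
    nlinarith
  have hab := abel_mono (fun b => (b : ℝ)) (fun m => Nat.cast_nonneg m)
    Nat.mono_cast (fun b => e ((x / a - x / a') / b)) hle
    (M := 10 * (hi : ℝ) * rho l L) (fun m hm1 hm2 => by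
      refine (h.smooth hX1 hX2 hUlo hm1 (hm2.trans hhiP)).trans ?_
      have : (m : ℝ) ≤ (hi : ℝ) := by exact_mod_cast hm2
      gcongr)
  refine hab.trans ?_
  have h1 : (hi : ℝ) ≤ P' * (a : ℝ)⁻¹ := le_trans (by exact_mod_cast hhia) hi_le
  have h2 : (hi : ℝ) ≤ P' * (a' : ℝ)⁻¹ := le_trans (by exact_mod_cast hhia') hi_le
  have h3 : (hi : ℝ) * hi ≤ (P' * (a : ℝ)⁻¹) * (P' * (a' : ℝ)⁻¹) :=
    mul_le_mul h1 h2 (Nat.cast_nonneg _) (by positivity)
  calc 2 * (hi : ℝ) * (10 * (hi : ℝ) * rho l L) = 20 * rho l L * ((hi : ℝ) * hi) := by ring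
    _ ≤ _ := mul_le_mul_of_nonneg_left h3 (by positivity)

lemma KK_le (h : Par l L x U P P') {a a' : ℕ} (ha : a ∈ Finset.Icc 1 P') (ha' : a' ∈ Finset.Icc 1 P') :
    ‖KK x U P P' a a'‖ ≤ (if a = a' then (P' * (a : ℝ)⁻¹) ^ 2 else 0) +
      20 * rho l L * ((P' * (a : ℝ)⁻¹) * (P' * (a' : ℝ)⁻¹)) := by
  rw [Finset.mem_Icc] at ha ha'
  have hrho := rho_pos l L
  by_cases hne : a = a'
  · subst hne
    rw [if_pos rfl]
    have := KK_diag (x := x) (U := U) (P := P) (P' := P') (a := a) (by omega)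
    have h2 : 0 ≤ 20 * rho l L * ((P' * (a : ℝ)⁻¹) * (P' * (a : ℝ)⁻¹)) := by positivity
    linarith
  · rw [if_neg hne, zero_add]
    exact h.KK_off (by omega) (by omega) ha.2 ha'.2 hne

lemma LF_bound {a : ℕ} (ha : a ∈ Finset.Icc 1 P') : LF U a ≤ Real.log P' := by
  rw [Finset.mem_Icc] at ha
  exact (LF_le U a).trans (Real.log_le_log (by exact_mod_cast ha.1) (by exact_mod_cast ha.2))

/-- the second factor -/
lemma second (h : Par l L x U P P') :
    ∑ b ∈ Ioc U P', (b : ℝ) * ‖∑ a ∈ Finset.Icc 1 P', (LF U a : ℂ) * hh x P P' (a * b)‖ ^ 2 ≤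
      (P' : ℝ) ^ 2 * (Real.log P' ^ 2 / U + 20 * rho l L * (Real.log P' * (1 + Real.log P')) ^ 2) := by
  have hrho := rho_pos l L
  have hlP := h.logP'
  have hU0 : (0 : ℝ) < U := by exact_mod_cast h.U_pos
  -- expand
  have e1 : ((∑ b ∈ Ioc U P', (b : ℝ) *
      ‖∑ a ∈ Finset.Icc 1 P', (LF U a : ℂ) * hh x P P' (a * b)‖ ^ 2 : ℝ) : ℂ) =
      ∑ a ∈ Finset.Icc 1 P', ∑ a' ∈ Finset.Icc 1 P', (LF U a : ℂ) * (LF U a' : ℂ) *
        KK x U P P' a a' := by
    push_cast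
    have e2 : ∀ b ∈ Ioc U P', (b : ℂ) *
        (‖∑ a ∈ Finset.Icc 1 P', (LF U a : ℂ) * hh x P P' (a * b)‖ : ℂ) ^ 2 =
        ∑ a ∈ Finset.Icc 1 P', ∑ a' ∈ Finset.Icc 1 P', (LF U a : ℂ) * (LF U a' : ℂ) *
          ((b : ℂ) * (hh x P P' (a * b) * starRingEnd ℂ (hh x P P' (a' * b)))) := by
      intro b _
      rw [← Complex.mul_conj', map_sum, sum_mul_sum, mul_sum]
      refine sum_congr rfl fun a _ => ?_
      rw [mul_sum]
      refine sum_congr rfl fun a' _ => ?_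
      rw [map_mul, Complex.conj_ofReal]
      ring
    rw [sum_congr rfl e2, sum_comm]
    refine sum_congr rfl fun a _ => ?_
    rw [sum_comm]
    refine sum_congr rfl fun a' _ => ?_
    unfold KK
    rw [mul_sum]
  have h0 : 0 ≤ ∑ b ∈ Ioc U P', (b : ℝ) *
      ‖∑ a ∈ Finset.Icc 1 P', (LF U a : ℂ) * hh x P P' (a * b)‖ ^ 2 := by positivity
  rw [← abs_of_nonneg h0, ← Real.norm_eq_abs, ← Complex.norm_real, e1]
  calc ‖∑ a ∈ Finset.Icc 1 P', ∑ a' ∈ Finset.Icc 1 P', (LF U a : ℂ) * (LF U a' : ℂ) *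
        KK x U P P' a a'‖
      ≤ ∑ a ∈ Finset.Icc 1 P', ∑ a' ∈ Finset.Icc 1 P', LF U a * LF U a' *
          ((if a = a' then (P' * (a : ℝ)⁻¹) ^ 2 else 0) +
          20 * rho l L * ((P' * (a : ℝ)⁻¹) * (P' * (a' : ℝ)⁻¹))) := by
        refine (norm_sum_le _ _).trans (sum_le_sum fun a ha => ?_)
        refine (norm_sum_le _ _).trans (sum_le_sum fun a' ha' => ?_)
        rw [norm_mul, norm_mul, Complex.norm_real, Complex.norm_real, Real.norm_eq_abs,
          Real.norm_eq_abs, abs_of_nonneg (LF_nonneg U a), abs_of_nonneg (LF_nonneg U a')]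
        exact mul_le_mul_of_nonneg_left (h.KK_le ha ha')
          (mul_nonneg (LF_nonneg U a) (LF_nonneg U a'))
    _ = ∑ a ∈ Finset.Icc 1 P', LF U a ^ 2 * (P' * (a : ℝ)⁻¹) ^ 2 +
          20 * rho l L * (P' : ℝ) ^ 2 * (∑ a ∈ Finset.Icc 1 P', LF U a * (a : ℝ)⁻¹) ^ 2 := by
        rw [sq (∑ a ∈ Finset.Icc 1 P', LF U a * (a : ℝ)⁻¹), sum_mul_sum, mul_sum, ← sum_add_distrib]
        refine sum_congr rfl fun a ha => ?_
        simp_rw [mul_add]
        rw [sum_add_distrib, mul_sum]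
        congr 1
        · simp_rw [mul_ite, mul_zero]
          rw [sum_ite_eq, if_pos ha]
          ring
        · refine sum_congr rfl fun a' _ => ?_
          ring
    _ ≤ (P' : ℝ) ^ 2 * (Real.log P' ^ 2 / U) +
          20 * rho l L * (P' : ℝ) ^ 2 * (Real.log P' * (1 + Real.log P')) ^ 2 := by
        refine add_le_add ?_ ?_
        · have h1 : ∑ a ∈ Finset.Icc 1 P', LF U a ^ 2 * (P' * (a : ℝ)⁻¹) ^ 2 ≤
              ∑ a ∈ Ioc U P', (P' : ℝ) ^ 2 * Real.log P' ^ 2 * ((a : ℝ) ^ 2)⁻¹ := by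
            have h2 : Ioc U P' ⊆ Finset.Icc 1 P' := by
              intro a ha; rw [mem_Ioc] at ha; rw [Finset.mem_Icc]; omega
            rw [← sum_subset h2 (f := fun a => LF U a ^ 2 * (P' * (a : ℝ)⁻¹) ^ 2)]
            · refine sum_le_sum fun a ha => ?_
              have h3 := LF_bound (U := U) (h2 ha)
              have h4 := pow_le_pow_left₀ (LF_nonneg U a) h3 2
              calc LF U a ^ 2 * (P' * (a : ℝ)⁻¹) ^ 2 ≤ Real.log P' ^ 2 * (P' * (a : ℝ)⁻¹) ^ 2 :=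
                    mul_le_mul_of_nonneg_right h4 (by positivity)
                _ = _ := by ring
            · intro a ha ha'
              rw [Finset.mem_Icc] at ha
              rw [mem_Ioc, not_and] at ha'
              have : a ≤ U := by
                by_contra hc
                exact ha' (by omega) ha.2
              rw [LF_apply, if_pos this]
              ring
          refine h1.trans ?_
          rw [← mul_sum]
          have h5 : ∑ a ∈ Ioc U P', ((a : ℝ) ^ 2)⁻¹ ≤ 1 / U := by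
            rcases le_or_gt U P' with hUP | hUP
            · refine (sum_Ioc_inv_sq_le_sub (α := ℝ) h.U_pos.ne' hUP).trans ?_
              have : (0 : ℝ) ≤ (P' : ℝ)⁻¹ := by positivity
              rw [one_div]; linarith
            · rw [Finset.Ioc_eq_empty (by omega), sum_empty]; positivity
          calc (P' : ℝ) ^ 2 * Real.log P' ^ 2 * ∑ a ∈ Ioc U P', ((a : ℝ) ^ 2)⁻¹
              ≤ (P' : ℝ) ^ 2 * Real.log P' ^ 2 * (1 / U) :=
                mul_le_mul_of_nonneg_left h5 (by positivity)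
            _ = _ := by ring
        · refine mul_le_mul_of_nonneg_left ?_ (by positivity)
          refine pow_le_pow_left₀ (sum_nonneg fun a _ => mul_nonneg (LF_nonneg U a) (by positivity)) ?_ 2
          calc ∑ a ∈ Finset.Icc 1 P', LF U a * (a : ℝ)⁻¹
              ≤ ∑ a ∈ Finset.Icc 1 P', Real.log P' * (a : ℝ)⁻¹ :=
                sum_le_sum fun a ha => mul_le_mul_of_nonneg_right (LF_bound ha) (by positivity)
            _ = Real.log P' * ∑ a ∈ Finset.Icc 1 P', (a : ℝ)⁻¹ := by rw [mul_sum]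
            _ ≤ _ := mul_le_mul_of_nonneg_left (DivSum_H P') (by linarith)
    _ = _ := by ring

/-- type II sums -/
lemma typeII (h : Par l L x U P P') :
    ‖∑ n ∈ Finset.Icc 1 P', (((LF U * BB U) n : ℝ) : ℂ) * hh x P P' n‖ ≤
      P' * (1 + Real.log P') ^ 4 * Real.sqrt (1 / U + 20 * rho l L) := by
  have hrho := rho_pos l L
  have hlP := h.logP'
  have hU0 : (0 : ℝ) < U := by exact_mod_cast h.U_pos
  rw [sum_conv _ _ (hh x P P') P' (fun n hn => if_neg (by omega)), sum_comm]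
  have e1 : ∑ b ∈ Finset.Icc 1 P', ∑ a ∈ Finset.Icc 1 P', (LF U a : ℂ) * (BB U b : ℂ) *
      hh x P P' (a * b) = ∑ b ∈ Ioc U P', (BB U b : ℂ) *
        ∑ a ∈ Finset.Icc 1 P', (LF U a : ℂ) * hh x P P' (a * b) := by
    have h2 : Ioc U P' ⊆ Finset.Icc 1 P' := by
      intro a ha; rw [mem_Ioc] at ha; rw [Finset.mem_Icc]; omega
    have h3 : ∀ b ∈ Finset.Icc 1 P', ∑ a ∈ Finset.Icc 1 P', (LF U a : ℂ) * (BB U b : ℂ) *
      hh x P P' (a * b) = (BB U b : ℂ) *
        ∑ a ∈ Finset.Icc 1 P', (LF U a : ℂ) * hh x P P' (a * b) := by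
      intro b _
      rw [mul_sum]
      exact sum_congr rfl fun a _ => by ring
    rw [sum_congr rfl h3]
    symm
    refine sum_subset h2 fun b hb hb' => ?_
    rw [Finset.mem_Icc] at hb
    rw [mem_Ioc, not_and] at hb'
    have : b ≤ U := by
      by_contra hc
      exact hb' (by omega) hb.2
    rw [BB_of_le this]
    simp
  rw [e1]
  set T : ℕ → ℝ := fun b => ‖∑ a ∈ Finset.Icc 1 P', (LF U a : ℂ) * hh x P P' (a * b)‖ with hT
  have h1 : ‖∑ b ∈ Ioc U P', (BB U b : ℂ) *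
        ∑ a ∈ Finset.Icc 1 P', (LF U a : ℂ) * hh x P P' (a * b)‖ ≤
      ∑ b ∈ Ioc U P', (|BB U b| * (Real.sqrt b)⁻¹) * (Real.sqrt b * T b) := by
    refine (norm_sum_le _ _).trans (sum_le_sum fun b hb => ?_)
    rw [mem_Ioc] at hb
    have hb0 : (0 : ℝ) < b := by exact_mod_cast (by omega : 0 < b)
    have hs := Real.sqrt_pos.mpr hb0
    rw [norm_mul, Complex.norm_real, Real.norm_eq_abs]
    refine le_of_eq ?_
    field_simp
    simp only [hT]
  have h2 := sum_mul_sq_le_sq_mul_sq (Ioc U P') (fun b => |BB U b| * (Real.sqrt b)⁻¹)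
    (fun b => Real.sqrt b * T b)
  have h3 : ∑ b ∈ Ioc U P', (|BB U b| * (Real.sqrt b)⁻¹) ^ 2 ≤ (1 + Real.log P') ^ 4 := by
    calc ∑ b ∈ Ioc U P', (|BB U b| * (Real.sqrt b)⁻¹) ^ 2
        ≤ ∑ b ∈ Ioc U P', (b.divisors.card : ℝ) ^ 2 * (b : ℝ)⁻¹ := by
          refine sum_le_sum fun b hb => ?_
          rw [mul_pow, inv_pow, Real.sq_sqrt (Nat.cast_nonneg _)]
          refine mul_le_mul_of_nonneg_right ?_ (by positivity)
          exact pow_le_pow_left₀ (abs_nonneg _) (abs_BB_le U b) 2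
      _ ≤ ∑ b ∈ Finset.Icc 1 P', (b.divisors.card : ℝ) ^ 2 * (b : ℝ)⁻¹ := by
          refine sum_le_sum_of_subset_of_nonneg ?_ fun _ _ _ => by positivity
          intro a ha; rw [mem_Ioc] at ha; rw [Finset.mem_Icc]; omega
      _ ≤ _ := tausq_inv P'
      _ ≤ _ := pow_le_pow_left₀ (by positivity) (DivSum_H P') 4
  have h4 : ∑ b ∈ Ioc U P', (Real.sqrt b * T b) ^ 2 ≤
      (P' : ℝ) ^ 2 * ((1 + Real.log P') ^ 4 * (1 / U + 20 * rho l L)) := by
    have h5 : ∑ b ∈ Ioc U P', (Real.sqrt b * T b) ^ 2 = ∑ b ∈ Ioc U P', (b : ℝ) * T b ^ 2 :=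
      sum_congr rfl fun b _ => by rw [mul_pow, Real.sq_sqrt (Nat.cast_nonneg _)]
    rw [h5]
    refine h.second.trans (mul_le_mul_of_nonneg_left ?_ (by positivity))
    have hl1 : Real.log P' ^ 2 ≤ (1 + Real.log P') ^ 4 := by
      calc Real.log P' ^ 2 ≤ (1 + Real.log P') ^ 2 := pow_le_pow_left₀ (by linarith) (by linarith) 2
        _ ≤ (1 + Real.log P') ^ 4 := pow_le_pow_right₀ (by linarith) (by norm_num)
    have hl2 : (Real.log P' * (1 + Real.log P')) ^ 2 ≤ (1 + Real.log P') ^ 4 := by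
      have : Real.log P' * (1 + Real.log P') ≤ (1 + Real.log P') ^ 2 := by nlinarith
      calc (Real.log P' * (1 + Real.log P')) ^ 2 ≤ ((1 + Real.log P') ^ 2) ^ 2 :=
            pow_le_pow_left₀ (by nlinarith) this 2
        _ = _ := by ring
    calc Real.log P' ^ 2 / U + 20 * rho l L * (Real.log P' * (1 + Real.log P')) ^ 2
        ≤ (1 + Real.log P') ^ 4 / U + 20 * rho l L * (1 + Real.log P') ^ 4 := by gcongr
      _ = _ := by ring
  have hsq : ‖∑ b ∈ Ioc U P', (BB U b : ℂ) *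
        ∑ a ∈ Finset.Icc 1 P', (LF U a : ℂ) * hh x P P' (a * b)‖ ^ 2 ≤
      (P' * (1 + Real.log P') ^ 4 * Real.sqrt (1 / U + 20 * rho l L)) ^ 2 := by
    calc _ ≤ (∑ b ∈ Ioc U P', (|BB U b| * (Real.sqrt b)⁻¹) * (Real.sqrt b * T b)) ^ 2 :=
          pow_le_pow_left₀ (norm_nonneg _) h1 2
      _ ≤ _ := h2
      _ ≤ (1 + Real.log P') ^ 4 * ((P' : ℝ) ^ 2 * ((1 + Real.log P') ^ 4 * (1 / U + 20 * rho l L))) :=
          mul_le_mul h3 h4 (by positivity) (by positivity)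
      _ = _ := by
          rw [mul_pow, mul_pow, Real.sq_sqrt (by positivity)]
          ring
  exact le_of_pow_le_pow_left₀ two_ne_zero (by positivity) hsq

end Par

end

end Pool.Agent.Work.VK
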