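import Mathlib
import Pool.Agent.Work.VK.TypeII

/-! The sums of `e (x / p) / p` over primes. -/

namespace Pool.Agent.Work.VK

open Finset
open Pool.Agent.BV Pool.Agent.Work.BV
open scoped ArithmeticFunction.vonMangoldt ArithmeticFunction.Moebius ArithmeticFunction.zeta

noncomputable section

namespace Par

variable {l L x : ℝ} {U P P' : ℕ}

/-- the saving factor -/
def sav (l L : ℝ) (U : ℕ) : ℝ := 45 * Real.sqrt (rho l L) + 1 / Real.sqrt U

lemma lambda_hh (P P' : ℕ) (x : ℝ) : ∑ m ∈ Ioc P P', (Λ m : ℂ) * e (x / m) =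
    ∑ n ∈ Finset.Icc 1 P', ((Λ n : ℝ) : ℂ) * hh x P P' n := by
  have h1 : ∀ n ∈ Finset.Icc 1 P', ((Λ n : ℝ) : ℂ) * hh x P P' n =
      if P < n then ((Λ n : ℝ) : ℂ) * e (x / n) else 0 := by
    intro n hn
    rw [Finset.mem_Icc] at hn
    unfold hh
    by_cases h : P < n
    · rw [if_pos ⟨h, hn.2⟩, if_pos h]
    · rw [if_neg (fun h' => h h'.1), if_neg h, mul_zero]
  rw [sum_congr rfl h1, ← sum_filter]
  refine sum_congr ?_ fun _ _ => rfl
  ext n
  rw [mem_filter, Finset.mem_Icc, mem_Ioc]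
  constructor
  · rintro ⟨h, h'⟩; exact ⟨⟨by omega, h'⟩, h⟩
  · rintro ⟨h, h'⟩; exact ⟨h', h.2⟩

theorem lambda_sum (h : Par l L x U P P') :
    ‖∑ m ∈ Ioc P P', (Λ m : ℂ) * e (x / m)‖ ≤ P' * (1 + Real.log P') ^ 4 * sav l L U := by
  have hrho := rho_pos l L
  have hrho1 := rho_le_one (by linarith [h.hl] : 0 ≤ l) L
  have hlP := h.logP'
  have hU0 : (0 : ℝ) < U := by exact_mod_cast h.U_pos
  have hUU : U ≤ U * U := Nat.le_mul_of_pos_left U h.U_pos
  have hUP : U ≤ P := (Nat.le_self_pow (by norm_num) U).trans h.hUP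
  rw [lambda_hh]
  have e1 : ∑ n ∈ Finset.Icc 1 P', ((Λ n : ℝ) : ℂ) * hh x P P' n =
      ∑ n ∈ Finset.Icc 1 P', (((ArithmeticFunction.log * GG U) n : ℝ) : ℂ) * hh x P P' n -
      ∑ n ∈ Finset.Icc 1 P', ((((ζ : ArithmeticFunction ℝ) * CC U U) n : ℝ) : ℂ) * hh x P P' n +
      ∑ n ∈ Finset.Icc 1 P', (((LF U * BB U) n : ℝ) : ℂ) * hh x P P' n := by
    rw [← sum_sub_distrib, ← sum_add_distrib]
    refine sum_congr rfl fun n hn => ?_
    have hv := congrArg (fun f : ArithmeticFunction ℝ => f n) (vaughan U U)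
    simp only [ArithmeticFunction.add_apply, sub_eq_add_neg, ArithmeticFunction.neg_apply] at hv
    by_cases hPn : P < n
    · rw [FF_apply, if_neg (by omega)] at hv
      rw [hv]
      push_cast
      ring
    · have : hh x P P' n = 0 := if_neg (fun h' => hPn h'.1)
      rw [this]; ring
  rw [e1]
  have t1 := h.typeI ArithmeticFunction.log (fun n => Real.log n) (fun n _ => rfl)
    (fun m => Real.log_natCast_nonneg m)
    (fun m m' hm => by
      rcases Nat.eq_zero_or_pos m with h0 | h0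
      · rw [h0]; simp [Real.log_natCast_nonneg]
      · exact Real.log_le_log (by exact_mod_cast h0) (by exact_mod_cast hm)) (GG U) (G := 1) zero_le_one
    (fun n _ => abs_GG_le U n) (fun n hn => GG_of_lt (by omega))
  have t2 := h.typeI (ζ : ArithmeticFunction ℝ) (fun _ => 1)
    (fun n hn => by simp [ArithmeticFunction.natCoe_apply, ArithmeticFunction.zeta_apply, hn.ne'])
    (fun _ => zero_le_one) (fun _ _ _ => le_rfl) (CC U U) (G := Real.log P') (by linarith)
    (fun n hn => by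
      rw [Finset.mem_Icc] at hn
      exact (abs_CC_le U U n).trans (Real.log_le_log (by exact_mod_cast hn.1) (by exact_mod_cast hn.2)))
    (fun n hn => CC_of_lt hn)
  have t3 := h.typeII
  have hs : Real.sqrt (1 / U + 20 * rho l L) ≤ 1 / Real.sqrt U + 5 * Real.sqrt (rho l L) := by
    rw [Real.sqrt_le_left (by positivity)]
    have h1 := Real.sq_sqrt hrho.le
    have h2 : (1 / Real.sqrt U) ^ 2 = 1 / U := by
      rw [div_pow, one_pow, Real.sq_sqrt hU0.le]
    have h3 : 0 ≤ (1 / Real.sqrt U) * (5 * Real.sqrt (rho l L)) := by positivity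
    nlinarith
  have hr : rho l L ≤ Real.sqrt (rho l L) := by
    rw [Real.le_sqrt' hrho]
    nlinarith
  refine (norm_add_le _ _).trans ((add_le_add ((norm_sub_le _ _).trans (add_le_add t1 t2)) t3).trans ?_)
  have hP0 : (0 : ℝ) ≤ P' := Nat.cast_nonneg _
  have hl2 : Real.log P' * (1 + Real.log P') ≤ (1 + Real.log P') ^ 4 := by
    calc Real.log P' * (1 + Real.log P') ≤ (1 + Real.log P') ^ 2 := by nlinarith
      _ ≤ _ := pow_le_pow_right₀ (by linarith) (by norm_num)
  have hA : Real.log P' * (1 + Real.log P') * rho l L ≤ (1 + Real.log P') ^ 4 * Real.sqrt (rho l L) :=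
    mul_le_mul hl2 hr hrho.le (by positivity)
  have hB : (P' : ℝ) * (Real.log P' * (1 + Real.log P') * rho l L) ≤
      P' * ((1 + Real.log P') ^ 4 * Real.sqrt (rho l L)) := mul_le_mul_of_nonneg_left hA hP0
  have hC : (P' : ℝ) * (1 + Real.log P') ^ 4 * Real.sqrt (1 / U + 20 * rho l L) ≤
      P' * (1 + Real.log P') ^ 4 * (1 / Real.sqrt U + 5 * Real.sqrt (rho l L)) :=
    mul_le_mul_of_nonneg_left hs (by positivity)
  unfold sav
  calc 20 * Real.log P' * 1 * P' * (1 + Real.log P') * rho l L +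
        20 * 1 * Real.log P' * P' * (1 + Real.log P') * rho l L +
        P' * (1 + Real.log P') ^ 4 * Real.sqrt (1 / U + 20 * rho l L)
      = 40 * (P' * (Real.log P' * (1 + Real.log P') * rho l L)) +
        P' * (1 + Real.log P') ^ 4 * Real.sqrt (1 / U + 20 * rho l L) := by ring
    _ ≤ 40 * (P' * ((1 + Real.log P') ^ 4 * Real.sqrt (rho l L))) +
        P' * (1 + Real.log P') ^ 4 * (1 / Real.sqrt U + 5 * Real.sqrt (rho l L)) := by
        linarith
    _ = _ := by ring

lemma mono_right (h : Par l L x U P P') {m : ℕ} (hm : P ≤ m) (hm' : m ≤ P') : Par l L x U P m := by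
  refine ⟨h.hl, h.hbig, h.hx0, h.hxL, h.hU, h.hUP, hm, ?_⟩
  have : Real.log m ≤ Real.log P' :=
    Real.log_le_log (by exact_mod_cast lt_of_lt_of_le h.P_pos hm) (by exact_mod_cast hm')
  linarith [h.hPx]

/-- sums over primes with the logarithmic weight -/
theorem theta_sum (h : Par l L x U P P') {m : ℕ} (hm : P ≤ m) (hm' : m ≤ P') :
    ‖∑ p ∈ Ioc P m, if p.Prime then (Real.log p : ℂ) * e (x / p) else 0‖ ≤
      m * ((1 + Real.log P') ^ 4 * (45 * Real.sqrt (rho l L) + 3 / Real.sqrt U)) := by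
  have hlP := h.logP'
  have hU0 : (0 : ℝ) < U := by exact_mod_cast h.U_pos
  have hm0 : 0 < m := lt_of_lt_of_le h.P_pos hm
  have hm1 : (1 : ℝ) ≤ m := by exact_mod_cast hm0
  have hmr : (0 : ℝ) < m := by linarith
  have h1 := (h.mono_right hm hm').lambda_sum
  have hlm : Real.log m ≤ Real.log P' := Real.log_le_log hmr (by exact_mod_cast hm')
  have hlm0 : 0 ≤ Real.log m := Real.log_natCast_nonneg m
  have h2 : ‖∑ p ∈ Ioc P m, (if p.Prime then (Real.log p : ℂ) * e (x / p) else 0) -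
      ∑ p ∈ Ioc P m, (Λ p : ℂ) * e (x / p)‖ ≤ 2 * Real.sqrt m * Real.log m := by
    rw [← sum_sub_distrib]
    refine le_trans ?_ (Chebyshev.psi_sub_theta_le hm1)
    rw [Chebyshev.psi_sub_theta_eq_sum_not_prime, Nat.floor_natCast]
    refine (norm_sum_le _ _).trans ?_
    rw [sum_filter]
    have h3 : Ioc P m ⊆ Ioc 0 m := Ioc_subset_Ioc_left (Nat.zero_le _)
    refine le_trans (sum_le_sum fun p _ => ?_) (sum_le_sum_of_subset_of_nonneg h3 fun p _ _ => ?_)
    · by_cases hp : p.Prime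
      · rw [if_pos hp, if_neg (not_not.mpr hp), ArithmeticFunction.vonMangoldt_apply_prime hp,
          sub_self, norm_zero]
      · rw [if_neg hp, if_pos hp, zero_sub, norm_neg, norm_mul, add_norm_e, mul_one,
          Complex.norm_real, Real.norm_eq_abs,
          abs_of_nonneg ArithmeticFunction.vonMangoldt_nonneg]
    · split_ifs
      · exact le_rfl
      · exact ArithmeticFunction.vonMangoldt_nonneg
  have h4 : 2 * Real.sqrt m * Real.log m ≤ m * ((1 + Real.log P') ^ 4 * (2 / Real.sqrt U)) := by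
    have hUm : Real.sqrt U ≤ Real.sqrt m := by
      apply Real.sqrt_le_sqrt
      have : U ≤ m := ((Nat.le_self_pow (by norm_num) U).trans h.hUP).trans hm
      exact_mod_cast this
    have hsU : 0 < Real.sqrt U := Real.sqrt_pos.mpr hU0
    have hsm : 0 < Real.sqrt m := Real.sqrt_pos.mpr hmr
    have e2 : (m : ℝ) = Real.sqrt m * Real.sqrt m := (Real.mul_self_sqrt hmr.le).symm
    have h5 : Real.log m ≤ (1 + Real.log P') ^ 4 := by
      calc Real.log m ≤ (1 + Real.log P') ^ 1 := by linarith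
        _ ≤ _ := pow_le_pow_right₀ (by linarith) (by norm_num)
    have h6 : Real.sqrt m ≤ m / Real.sqrt U := by
      rw [le_div_iff₀ hsU]
      calc Real.sqrt m * Real.sqrt U ≤ Real.sqrt m * Real.sqrt m := by gcongr
        _ = m := e2.symm
    calc 2 * Real.sqrt m * Real.log m ≤ 2 * (m / Real.sqrt U) * (1 + Real.log P') ^ 4 := by gcongr
      _ = _ := by ring
  have h7 : (m : ℝ) * (1 + Real.log m) ^ 4 * sav l L U ≤ m * ((1 + Real.log P') ^ 4 * sav l L U) := by
    have : 0 ≤ sav l L U := by unfold sav; positivity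
    rw [mul_assoc]
    gcongr
  have h8 : ‖∑ p ∈ Ioc P m, if p.Prime then (Real.log p : ℂ) * e (x / p) else 0‖ ≤
      ‖∑ p ∈ Ioc P m, (if p.Prime then (Real.log p : ℂ) * e (x / p) else 0) -
      ∑ p ∈ Ioc P m, (Λ p : ℂ) * e (x / p)‖ + ‖∑ p ∈ Ioc P m, (Λ p : ℂ) * e (x / p)‖ := by
    have := norm_add_le (∑ p ∈ Ioc P m, (if p.Prime then (Real.log p : ℂ) * e (x / p) else 0) -
      ∑ p ∈ Ioc P m, (Λ p : ℂ) * e (x / p)) (∑ p ∈ Ioc P m, (Λ p : ℂ) * e (x / p))
    rwa [sub_add_cancel] at this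
  refine h8.trans ((add_le_add (h2.trans h4) (h1.trans h7)).trans (le_of_eq ?_))
  unfold sav
  ring

/-- the weight -/
def wt (m : ℕ) : ℝ := 1 / (m * Real.log m)

lemma wt_sum (P : ℕ) {P' : ℕ} (h : P ≤ P') :
    P' * wt P' + ∑ m ∈ Ico P P', (m : ℝ) * (wt m - wt (m + 1)) =
      P * wt P + ∑ m ∈ Ioc P P', wt m := by
  induction P', h using Nat.le_induction with
  | base => simp
  | succ n hn ih =>
    rw [Finset.sum_Ico_succ_top hn, Finset.sum_Ioc_succ_top hn,
      ← add_assoc ((P : ℝ) * wt P), ← ih]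
    push_cast
    ring

theorem prime_sum (h : Par l L x U P P') :
    ‖∑ p ∈ Ioc P P', if p.Prime then e (x / p) / p else 0‖ ≤
      (2 + Real.log P') ^ 5 * (45 * Real.sqrt (rho l L) + 3 / Real.sqrt U) := by
  have hlP := h.logP'
  have hU0 : (0 : ℝ) < U := by exact_mod_cast h.U_pos
  set η := (1 + Real.log P') ^ 4 * (45 * Real.sqrt (rho l L) + 3 / Real.sqrt U) with hη
  have hη0 : 0 ≤ η := by rw [hη]; positivity
  have hlogP : 600 ≤ Real.log P := (h.mono_right le_rfl h.hP).logP'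
  have hlog : ∀ m, P ≤ m → 600 ≤ Real.log m := fun m hm =>
    hlogP.trans (Real.log_le_log (by exact_mod_cast h.P_pos) (by exact_mod_cast hm))
  have hpos : ∀ m, P ≤ m → (0 : ℝ) < m := fun m hm => by
    exact_mod_cast lt_of_lt_of_le h.P_pos hm
  have e1 : ∑ p ∈ Ioc P P', (if p.Prime then e (x / p) / p else 0) =
      ∑ p ∈ Ioc P P', (wt p : ℂ) * (if p.Prime then (Real.log p : ℂ) * e (x / p) else 0) := by
    refine sum_congr rfl fun p hp => ?_
    rw [mem_Ioc] at hp
    have h1 := hlog p hp.1.le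
    have h2 := hpos p hp.1.le
    by_cases hpp : p.Prime
    · rw [if_pos hpp, if_pos hpp]
      unfold wt
      have h3 : (p : ℂ) ≠ 0 := by exact_mod_cast h2.ne'
      have h4 : ((Real.log p : ℝ) : ℂ) ≠ 0 := by
        rw [Complex.ofReal_ne_zero]; linarith
      push_cast at h4 ⊢
      field_simp
    · rw [if_neg hpp, if_neg hpp, mul_zero]
  rw [e1, abel_eq (fun m => (wt m : ℂ)) _ h.hP]
  have hwt0 : ∀ m, P ≤ m → 0 ≤ wt m := fun m hm => by
    have h1 := hlog m hm
    have h2 := hpos m hm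
    unfold wt
    positivity
  have hwt1 : ∀ m, P ≤ m → wt (m + 1) ≤ wt m := fun m hm => by
    have h1 := hlog m hm
    have h2 := hpos m hm
    unfold wt
    have h3 : Real.log m ≤ Real.log (m + 1 : ℕ) := Real.log_le_log h2 (by push_cast; linarith)
    push_cast at h3 ⊢
    refine div_le_div_of_nonneg_left zero_le_one (by positivity) ?_
    refine mul_le_mul (by linarith) h3 (by linarith) (by linarith)
  have hwt2 : ∀ m, P ≤ m → wt m ≤ (m : ℝ)⁻¹ := fun m hm => by
    have h1 := hlog m hm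
    have h2 := hpos m hm
    unfold wt
    rw [← one_div]
    refine div_le_div_of_nonneg_left zero_le_one h2 ?_
    nlinarith
  refine (norm_sub_le _ _).trans ?_
  have hA : ‖(wt P' : ℂ) * ∑ p ∈ Ioc P P', (if p.Prime then (Real.log p : ℂ) * e (x / p) else 0)‖ ≤
      P' * wt P' * η := by
    rw [norm_mul, Complex.norm_real, Real.norm_eq_abs, abs_of_nonneg (hwt0 _ h.hP)]
    have := h.theta_sum h.hP le_rfl
    calc wt P' * ‖∑ p ∈ Ioc P P', (if p.Prime then (Real.log p : ℂ) * e (x / p) else 0)‖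
        ≤ wt P' * (P' * η) := mul_le_mul_of_nonneg_left this (hwt0 _ h.hP)
      _ = _ := by ring
  have hB : ‖∑ m ∈ Ico P P', ((wt (m + 1) : ℂ) - wt m) *
      ∑ p ∈ Ioc P m, (if p.Prime then (Real.log p : ℂ) * e (x / p) else 0)‖ ≤
      ∑ m ∈ Ico P P', (m : ℝ) * (wt m - wt (m + 1)) * η := by
    refine (norm_sum_le _ _).trans (sum_le_sum fun m hm => ?_)
    rw [mem_Ico] at hm
    have h1 := h.theta_sum hm.1 hm.2.le
    rw [norm_mul, ← Complex.ofReal_sub, Complex.norm_real, Real.norm_eq_abs,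
      abs_of_nonpos (by linarith [hwt1 m hm.1])]
    calc -(wt (m + 1) - wt m) *
        ‖∑ p ∈ Ioc P m, (if p.Prime then (Real.log p : ℂ) * e (x / p) else 0)‖
        ≤ -(wt (m + 1) - wt m) * (m * η) :=
          mul_le_mul_of_nonneg_left h1 (by linarith [hwt1 m hm.1])
      _ = _ := by ring
  refine (add_le_add hA hB).trans ?_
  rw [← sum_mul, ← add_mul, wt_sum P h.hP]
  have hC : P * wt P ≤ 1 := by
    have h1 := hwt2 P le_rfl
    have h2 := hpos P le_rfl
    calc P * wt P ≤ P * (P : ℝ)⁻¹ := mul_le_mul_of_nonneg_left h1 h2.le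
      _ = 1 := by field_simp
  have hD : ∑ m ∈ Ioc P P', wt m ≤ 1 + Real.log P' := by
    refine le_trans ?_ (DivSum_H P')
    calc ∑ m ∈ Ioc P P', wt m ≤ ∑ m ∈ Ioc P P', (m : ℝ)⁻¹ := by
          refine sum_le_sum fun m hm => hwt2 m ?_
          rw [mem_Ioc] at hm; exact hm.1.le
      _ ≤ _ := by
          refine sum_le_sum_of_subset_of_nonneg ?_ fun _ _ _ => by positivity
          intro a ha; rw [mem_Ioc] at ha; rw [Finset.mem_Icc]; omega
  have hE : 0 ≤ 45 * Real.sqrt (rho l L) + 3 / Real.sqrt U := by positivity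
  calc (P * wt P + ∑ m ∈ Ioc P P', wt m) * η ≤ (2 + Real.log P') * η :=
        mul_le_mul_of_nonneg_right (by linarith) hη0
    _ = (2 + Real.log P') * (1 + Real.log P') ^ 4 *
        (45 * Real.sqrt (rho l L) + 3 / Real.sqrt U) := by rw [hη]; ring
    _ ≤ (2 + Real.log P') * (2 + Real.log P') ^ 4 *
        (45 * Real.sqrt (rho l L) + 3 / Real.sqrt U) := by gcongr; norm_num
    _ = _ := by ring

end Par

end

end Pool.Agent.Work.VK
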