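import Mathlib
import Pool.Agent.Work.VK.PrimeSum

/-! The choice of the parameters. -/

namespace Pool.Agent.Work.VK

open Finset
open Pool.Agent.BV Pool.Agent.Work.BV

noncomputable section

/-- the sum over primes -/
def Es (θ : ℝ) (P P' : ℕ) : ℂ := ∑ p ∈ Ioc P P', if p.Prime then e (θ / p) / p else 0

lemma Es_neg (θ : ℝ) (P P' : ℕ) : Es (-θ) P P' = starRingEnd ℂ (Es θ P P') := by
  unfold Es
  rw [map_sum]
  refine sum_congr rfl fun p _ => ?_
  split_ifs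
  · rw [map_div₀, ← add_e_neg, Complex.conj_natCast, neg_div]
  · rw [map_zero]

lemma par_exists {n P P' h : ℕ} (hX : 100 ≤ Real.log n) (hX2 : 4 * Real.log (Real.log n) ≤ Real.log n)
    (hQ : 1500 ^ 3 * Real.log n ^ 2 * Real.log (Real.log n) ≤ Real.log P ^ 3) (hP : P ≤ P')
    (hP' : 48 * Real.log P' ≤ Real.log n) (h1 : 1 ≤ h) (h2 : (h : ℝ) ≤ Real.log n ^ 3) :
    ∃ U : ℕ, Par (Real.log P / 4) (2 * Real.log n) (h * n) U P P' := by
  obtain ⟨X, hXd⟩ : ∃ X, X = Real.log n := ⟨_, rfl⟩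
  obtain ⟨Q, hQd⟩ : ∃ Q, Q = Real.log P := ⟨_, rfl⟩
  rw [← hXd] at hX hX2 hQ hP' h2 ⊢
  rw [← hQd] at hQ ⊢
  have hlX : 1 ≤ Real.log X := by
    rw [Real.le_log_iff_exp_le (by linarith)]
    have := Real.exp_one_lt_d9
    linarith
  have hQ3 : 1500 ^ 3 * X ^ 2 ≤ Q ^ 3 := by
    refine le_trans ?_ hQ
    have : 0 ≤ 1500 ^ 3 * X ^ 2 := by positivity
    nlinarith
  have hQ0 : 0 ≤ Q := by rw [hQd]; exact Real.log_natCast_nonneg P
  have hQ1 : 2400 ≤ Q := by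
    refine le_of_pow_le_pow_left₀ three_ne_zero hQ0 (le_trans ?_ hQ3)
    nlinarith
  have hn0 : (0 : ℝ) < n := by
    rcases Nat.eq_zero_or_pos n with h0 | h0
    · rw [h0] at hXd; simp at hXd; linarith
    · exact_mod_cast h0
  have hP0 : (0 : ℝ) < P := by
    rcases Nat.eq_zero_or_pos P with h0 | h0
    · rw [h0] at hQd; simp at hQd; linarith
    · exact_mod_cast h0
  have hh0 : (0 : ℝ) < h := by exact_mod_cast h1
  have hlh : Real.log h ≤ 3 * Real.log X := by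
    have := Real.log_le_log hh0 h2
    rw [Real.log_pow] at this
    exact_mod_cast this
  have hlh0 : 0 ≤ Real.log h := Real.log_natCast_nonneg h
  have hlx : Real.log (h * n) = Real.log h + X := by
    rw [Real.log_mul hh0.ne' hn0.ne', hXd]
  -- the cube root
  obtain ⟨r, hr⟩ : ∃ r : ℝ, r = (P : ℝ) ^ ((1 : ℝ) / 3) := ⟨_, rfl⟩
  have hr0 : 0 < r := by rw [hr]; exact Real.rpow_pos_of_pos hP0 _
  have hr3 : r ^ 3 = P := by
    rw [hr, ← Real.rpow_natCast, ← Real.rpow_mul hP0.le]; norm_num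
  have hlr : Real.log r = Q / 3 := by
    have : Real.log (r ^ 3) = Q := by rw [hr3, hQd]
    rw [Real.log_pow] at this
    push_cast at this
    linarith
  have hr2 : 2 ≤ r := by
    rw [← Real.log_le_log_iff (by norm_num) hr0, hlr]
    have := Real.log_two_lt_d9
    linarith
  refine ⟨⌊r⌋₊, ⟨by linarith, ?_, by positivity, ?_, ?_, ?_, hP, ?_⟩⟩
  · have h3 : (2 * X / (Q / 4)) ^ 6 ≤ 8 ^ 6 * X ^ 2 := by
      have h4 : X ^ 4 ≤ Q ^ 6 := by
        have : X ^ 2 ≤ Q ^ 3 := le_trans (by nlinarith) hQ3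
        calc X ^ 4 = (X ^ 2) ^ 2 := by ring
          _ ≤ (Q ^ 3) ^ 2 := pow_le_pow_left₀ (by positivity) this 2
          _ = Q ^ 6 := by ring
      have h5 : (2 * X / (Q / 4)) ^ 6 = 8 ^ 6 * X ^ 6 / Q ^ 6 := by
        rw [show 2 * X / (Q / 4) = 8 * X / Q by field_simp; ring, div_pow, mul_pow]
      rw [h5, div_le_iff₀ (by positivity)]
      calc 8 ^ 6 * X ^ 6 = 8 ^ 6 * X ^ 2 * X ^ 4 := by ring
        _ ≤ 8 ^ 6 * X ^ 2 * Q ^ 6 := by gcongr
    have h6 := Real.pow_div_factorial_le_exp (x := Q / 4) (by linarith) 6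
    have h7 : (375 ^ 3 * X ^ 2) ^ 2 ≤ (Q / 4) ^ 6 := by
      have : 375 ^ 3 * X ^ 2 ≤ (Q / 4) ^ 3 := by
        have e1 : (Q / 4) ^ 3 = Q ^ 3 / 64 := by ring
        rw [e1]
        linarith
      calc (375 ^ 3 * X ^ 2) ^ 2 ≤ ((Q / 4) ^ 3) ^ 2 := pow_le_pow_left₀ (by positivity) this 2
        _ = _ := by ring
    have h8 : (720 : ℝ) * (10 ^ 9 * (8 ^ 6 * X ^ 2)) ≤ (375 ^ 3 * X ^ 2) ^ 2 := by
      have e2 : (375 ^ 3 * X ^ 2) ^ 2 = 375 ^ 6 * X ^ 2 * X ^ 2 := by ring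
      have e3 : (10000 : ℝ) ≤ X ^ 2 := by nlinarith
      rw [e2]
      have : (375 : ℝ) ^ 6 * X ^ 2 * 10000 ≤ 375 ^ 6 * X ^ 2 * X ^ 2 :=
        mul_le_mul_of_nonneg_left e3 (by positivity)
      refine le_trans ?_ this
      have : 0 ≤ X ^ 2 := by positivity
      nlinarith
    have h9 : ((Nat.factorial 6 : ℕ) : ℝ) = 720 := by norm_num [Nat.factorial]
    rw [h9] at h6
    have h10 : 10 ^ 9 * (8 ^ 6 * X ^ 2) ≤ (Q / 4) ^ 6 / 720 := by
      rw [le_div_iff₀ (by norm_num)]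
      linarith
    linarith
  · rw [hlx]; linarith
  · have h3 : r / 2 ≤ ⌊r⌋₊ := by
      have := Nat.lt_floor_add_one r
      linarith
    have h4 := Real.log_le_log (by positivity) h3
    rw [Real.log_div hr0.ne' (by norm_num), hlr] at h4
    have := Real.log_two_lt_d9
    linarith
  · have h3 := Nat.floor_le hr0.le
    have h4 := pow_le_pow_left₀ (Nat.cast_nonneg _) h3 3
    rw [hr3] at h4
    exact_mod_cast h4
  · rw [hlx]; linarith

lemma final_bound {X Q : ℝ} (hX : 100 ≤ X) (hQ : 1500 ^ 3 * X ^ 2 * Real.log X ≤ Q ^ 3)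
    (hQ0 : 0 ≤ Q) {U : ℕ} (hU : Q / 4 ≤ Real.log U) (hU0 : 0 < U) {W : ℝ} (hW0 : 0 ≤ W)
    (hW : 48 * W ≤ X) :
    (2 + W) ^ 5 * (45 * Real.sqrt (rho (Q / 4) (2 * X)) + 3 / Real.sqrt U) ≤ 1 / X ^ 4 := by
  have hX0 : 0 < X := by linarith
  have hlX : 1 ≤ Real.log X := by
    rw [Real.le_log_iff_exp_le (by linarith)]
    have := Real.exp_one_lt_d9
    linarith
  have hQ3 : 1500 ^ 3 * X ^ 2 ≤ Q ^ 3 := by
    refine le_trans ?_ hQ
    have : 0 ≤ 1500 ^ 3 * X ^ 2 := by positivity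
    nlinarith
  have hl3 : 375 ^ 3 * X ^ 2 ≤ (Q / 4) ^ 3 := by
    have e1 : (Q / 4) ^ 3 = Q ^ 3 / 64 := by ring
    rw [e1]
    linarith
  -- the first term
  have h1 : Real.sqrt (rho (Q / 4) (2 * X)) ≤ 1 / X ^ 10 := by
    have e1 : (1 : ℝ) / X ^ 10 = Real.exp (-(10 * Real.log X)) := by
      rw [Real.exp_neg, mul_comm, Real.exp_mul, Real.exp_log hX0, one_div]
      norm_cast
    rw [e1, Real.sqrt_le_left (Real.exp_pos _).le, ← Real.exp_nat_mul]
    unfold rho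
    apply Real.exp_le_exp.mpr
    have e2 : 1500 ^ 3 * Real.log X / (64 * 2400000) ≤ (Q / 4) ^ 3 / (600000 * (2 * X) ^ 2) := by
      rw [div_le_div_iff₀ (by norm_num) (by positivity)]
      have e3 : (Q / 4) ^ 3 = Q ^ 3 / 64 := by ring
      rw [e3]
      calc 1500 ^ 3 * Real.log X * (600000 * (2 * X) ^ 2)
          = 2400000 * (1500 ^ 3 * X ^ 2 * Real.log X) := by ring
        _ ≤ 2400000 * Q ^ 3 := mul_le_mul_of_nonneg_left hQ (by norm_num)
        _ = _ := by ring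
    push_cast
    have e4 : (20 : ℝ) * Real.log X ≤ 1500 ^ 3 * Real.log X / (64 * 2400000) := by
      rw [le_div_iff₀ (by norm_num)]
      nlinarith
    linarith
  -- the second term
  have h2 : 1 / Real.sqrt U ≤ 1 / X ^ 10 := by
    have hU0' : (0 : ℝ) < U := by exact_mod_cast hU0
    refine div_le_div_of_nonneg_left zero_le_one (by positivity) ?_
    have e1 : Real.sqrt U = Real.exp (Real.log U / 2) := by
      rw [Real.exp_half, Real.exp_log hU0']
    rw [e1]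
    have e2 : Real.exp (Q / 8) ≤ Real.exp (Real.log U / 2) := Real.exp_le_exp.mpr (by linarith)
    refine le_trans ?_ e2
    have e3 := Real.pow_div_factorial_le_exp (x := Q / 8) (by linarith) 15
    refine le_trans ?_ e3
    have e4 : (Q / 8) ^ 15 = ((Q / 4) ^ 3) ^ 5 / 2 ^ 15 := by ring
    have e5 : (375 ^ 3 * X ^ 2) ^ 5 ≤ ((Q / 4) ^ 3) ^ 5 := pow_le_pow_left₀ (by positivity) hl3 5
    have e6 : ((Nat.factorial 15 : ℕ) : ℝ) = 1307674368000 := by norm_num [Nat.factorial]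
    rw [e4, e6, le_div_iff₀ (by norm_num), le_div_iff₀ (by norm_num)]
    refine le_trans ?_ e5
    have e7 : (375 ^ 3 * X ^ 2) ^ 5 = 375 ^ 15 * X ^ 10 := by ring
    rw [e7]
    have : 0 ≤ X ^ 10 := by positivity
    nlinarith
  have h3 : (2 + W) ^ 5 ≤ X ^ 5 := pow_le_pow_left₀ (by linarith) (by linarith) 5
  calc (2 + W) ^ 5 * (45 * Real.sqrt (rho (Q / 4) (2 * X)) + 3 / Real.sqrt U)
      ≤ X ^ 5 * (45 * (1 / X ^ 10) + 3 * (1 / X ^ 10)) := by
        refine mul_le_mul h3 ?_ (by positivity) (by positivity)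
        have : 3 / Real.sqrt U = 3 * (1 / Real.sqrt U) := by ring
        rw [this]
        linarith
    _ = 48 / X ^ 5 := by field_simp; ring
    _ ≤ 1 / X ^ 4 := by
        rw [div_le_div_iff₀ (by positivity) (by positivity)]
        have : 0 ≤ X ^ 4 := by positivity
        nlinarith

theorem Es_bound {n P P' : ℕ} {h : ℤ} (hX : 100 ≤ Real.log n)
    (hX2 : 4 * Real.log (Real.log n) ≤ Real.log n)
    (hQ : 1500 ^ 3 * Real.log n ^ 2 * Real.log (Real.log n) ≤ Real.log P ^ 3) (hP : P ≤ P')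
    (hP' : 48 * Real.log P' ≤ Real.log n) (h1 : h ≠ 0) (h2 : |(h : ℝ)| ≤ Real.log n ^ 3) :
    ‖Es (h * n) P P'‖ ≤ 1 / Real.log n ^ 4 := by
  have key : ∀ m : ℕ, 1 ≤ m → (m : ℝ) ≤ Real.log n ^ 3 → ‖Es (m * n) P P'‖ ≤ 1 / Real.log n ^ 4 := by
    intro m hm1 hm2
    obtain ⟨U, hpar⟩ := par_exists hX hX2 hQ hP hP' hm1 hm2
    refine hpar.prime_sum.trans ?_
    exact final_bound hX hQ (Real.log_natCast_nonneg P) hpar.hU hpar.U_pos
      (Real.log_natCast_nonneg P') hP'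
  rcases lt_or_gt_of_ne h1 with h0 | h0
  · have e1 : ((h : ℝ)) * n = -(((-h).toNat : ℝ) * n) := by
      have : (((-h).toNat : ℤ)) = -h := Int.toNat_of_nonneg (by omega)
      have h3 : (((-h).toNat : ℕ) : ℝ) = -(h : ℝ) := by exact_mod_cast this
      rw [h3]; ring
    rw [e1, Es_neg, RCLike.norm_conj]
    refine key _ (by omega) (le_trans (le_of_eq ?_) h2)
    have : (((-h).toNat : ℤ)) = -h := Int.toNat_of_nonneg (by omega)
    have h3 : (((-h).toNat : ℕ) : ℝ) = -(h : ℝ) := by exact_mod_cast this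
    rw [h3, abs_of_nonpos (by exact_mod_cast h0.le)]
  · have e1 : ((h : ℝ)) * n = ((h.toNat : ℝ) * n) := by
      have : ((h.toNat : ℤ)) = h := Int.toNat_of_nonneg (by omega)
      have h3 : ((h.toNat : ℕ) : ℝ) = (h : ℝ) := by exact_mod_cast this
      rw [h3]
    rw [e1]
    refine key _ (by omega) (le_trans (le_of_eq ?_) h2)
    have : ((h.toNat : ℤ)) = h := Int.toNat_of_nonneg (by omega)
    have h3 : ((h.toNat : ℕ) : ℝ) = (h : ℝ) := by exact_mod_cast this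
    rw [h3, abs_of_nonneg (by exact_mod_cast h0.le)]

end

end Pool.Agent.Work.VK
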