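import Mathlib

/-! Polynomial approximation of the sign function: `|sgn s - s * S_k (1 - s^2)| ≤ (1 - s^2)^k`. -/

namespace Pool.Agent.Work.VK

open Finset

noncomputable section

/-- the coefficients of `(1 - w) ^ (-1/2)` -/
def aj : ℕ → ℝ
  | 0 => 1
  | (j + 1) => aj j * ((2 * j + 1) / (2 * j + 2))

lemma aj_pos (j : ℕ) : 0 < aj j := by
  induction j with
  | zero => simp [aj]
  | succ j ih => unfold aj; positivity

lemma aj_le_one (j : ℕ) : aj j ≤ 1 := by
  induction j with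
  | zero => simp [aj]
  | succ j ih =>
    unfold aj
    have h1 : ((2 : ℝ) * j + 1) / (2 * j + 2) ≤ 1 := by
      rw [div_le_one (by positivity)]; linarith
    have h2 := aj_pos j
    have h3 : (0 : ℝ) ≤ ((2 : ℝ) * j + 1) / (2 * j + 2) := by positivity
    nlinarith

lemma aj_sq (j : ℕ) : aj j ^ 2 * (2 * j + 1) ≤ 1 := by
  induction j with
  | zero => simp [aj]
  | succ j ih =>
    unfold aj
    have h2 : (aj j * ((2 * j + 1) / (2 * j + 2))) ^ 2 * (2 * ((j + 1 : ℕ) : ℝ) + 1) =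
        (aj j ^ 2 * (2 * j + 1)) * (((2 * j + 1) * (2 * j + 3)) / (2 * j + 2) ^ 2) := by
      push_cast
      field_simp
      ring
    rw [h2]
    have h3 : (((2 : ℝ) * j + 1) * (2 * j + 3)) / (2 * j + 2) ^ 2 ≤ 1 := by
      rw [div_le_one (by positivity)]; nlinarith
    have h4 : (0 : ℝ) ≤ (((2 : ℝ) * j + 1) * (2 * j + 3)) / (2 * j + 2) ^ 2 := by positivity
    have h5 : 0 ≤ aj j ^ 2 * (2 * j + 1) := by positivity
    nlinarith

lemma aj_choose (j : ℕ) : (Nat.centralBinom j : ℝ) / 4 ^ j = aj j := by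
  induction j with
  | zero => simp [aj]
  | succ j ih =>
    have h1 : ((j + 1 : ℕ) : ℝ) * (Nat.centralBinom (j + 1) : ℝ) =
        2 * (2 * j + 1) * (Nat.centralBinom j : ℝ) := by
      exact_mod_cast Nat.succ_mul_centralBinom_succ j
    unfold aj
    rw [← ih]
    have h2 : ((j + 1 : ℕ) : ℝ) ≠ 0 := by positivity
    have h3 : (Nat.centralBinom (j + 1) : ℝ) = 2 * (2 * j + 1) * (Nat.centralBinom j : ℝ) / (j + 1 : ℕ) := by
      field_simp
      linarith
    rw [h3]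
    push_cast
    field_simp
    ring

lemma conv (m : ℕ) : ∑ p ∈ antidiagonal m, aj p.1 * aj p.2 = 1 := by
  induction m with
  | zero => simp [aj]
  | succ m ih =>
    have sym : ∀ n : ℕ, ∑ p ∈ antidiagonal n, (p.1 : ℝ) * (aj p.1 * aj p.2) =
        n / 2 * ∑ p ∈ antidiagonal n, aj p.1 * aj p.2 := by
      intro n
      have h1 : ∑ p ∈ antidiagonal n, (p.1 : ℝ) * (aj p.1 * aj p.2) =
          ∑ p ∈ antidiagonal n, (p.2 : ℝ) * (aj p.1 * aj p.2) := by
        rw [← Finset.Nat.sum_antidiagonal_swap]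
        refine sum_congr rfl fun p _ => ?_
        simp only [Prod.fst_swap, Prod.snd_swap]
        ring
      have h2 : ∑ p ∈ antidiagonal n, (p.1 : ℝ) * (aj p.1 * aj p.2) +
          ∑ p ∈ antidiagonal n, (p.2 : ℝ) * (aj p.1 * aj p.2) =
          n * ∑ p ∈ antidiagonal n, aj p.1 * aj p.2 := by
        rw [← sum_add_distrib, mul_sum]
        refine sum_congr rfl fun p hp => ?_
        rw [Finset.HasAntidiagonal.mem_antidiagonal] at hp
        rw [← hp]
        push_cast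
        ring
      linarith
    have h1 := sym (m + 1)
    rw [Finset.Nat.sum_antidiagonal_succ] at h1
    have h2 : ∑ p ∈ antidiagonal m, (((p.1 + 1, p.2).1 : ℕ) : ℝ) * (aj (p.1 + 1, p.2).1 * aj (p.1 + 1, p.2).2) =
        ∑ p ∈ antidiagonal m, (p.1 : ℝ) * (aj p.1 * aj p.2) +
          1 / 2 * ∑ p ∈ antidiagonal m, aj p.1 * aj p.2 := by
      rw [mul_sum, ← sum_add_distrib]
      refine sum_congr rfl fun p _ => ?_
      simp only [aj]
      push_cast
      field_simp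
    rw [h2, sym m, ih] at h1
    push_cast at h1
    have h3 : ((m : ℝ) + 1) ≠ 0 := by positivity
    have h4 : ((m : ℝ) + 1) / 2 * ∑ p ∈ antidiagonal (m + 1), aj p.1 * aj p.2 = ((m : ℝ) + 1) / 2 * 1 := by
      rw [← h1]; ring
    exact mul_left_cancel₀ (by positivity) h4

/-- partial sums of `(1 - w) ^ (-1/2)` -/
def Sk (k : ℕ) (w : ℝ) : ℝ := ∑ j ∈ range k, aj j * w ^ j

lemma Sk_nonneg (k : ℕ) {w : ℝ} (hw : 0 ≤ w) : 0 ≤ Sk k w :=
  sum_nonneg fun j _ => mul_nonneg (aj_pos j).le (pow_nonneg hw _)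

lemma tri (K : ℕ) (w : ℝ) : ∑ p ∈ (range K ×ˢ range K).filter (fun p => p.1 + p.2 < K),
    (aj p.1 * w ^ p.1) * (aj p.2 * w ^ p.2) = ∑ m ∈ range K, w ^ m := by
  rw [← sum_fiberwise_of_maps_to (t := range K) (g := fun p : ℕ × ℕ => p.1 + p.2)]
  · refine sum_congr rfl fun m hm => ?_
    rw [mem_range] at hm
    have h1 : ((range K ×ˢ range K).filter (fun p => p.1 + p.2 < K)).filter
        (fun p => p.1 + p.2 = m) = antidiagonal m := by
      ext p
      simp only [mem_filter, mem_product, mem_range, Finset.HasAntidiagonal.mem_antidiagonal]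
      constructor
      · rintro ⟨_, h⟩; exact h
      · intro h; exact ⟨⟨⟨by omega, by omega⟩, by omega⟩, h⟩
    rw [h1]
    calc ∑ p ∈ antidiagonal m, (aj p.1 * w ^ p.1) * (aj p.2 * w ^ p.2)
        = ∑ p ∈ antidiagonal m, (aj p.1 * aj p.2) * w ^ m := by
          refine sum_congr rfl fun p hp => ?_
          rw [Finset.HasAntidiagonal.mem_antidiagonal] at hp
          rw [← hp, pow_add]; ring
      _ = w ^ m := by rw [← sum_mul, conv, one_mul]
  · intro p hp
    rw [mem_filter] at hp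
    exact mem_range.mpr hp.2

lemma Sk_sq_le (k : ℕ) {w : ℝ} (hw : 0 ≤ w) (hw1 : w ≤ 1) : (1 - w) * Sk k w ^ 2 ≤ 1 := by
  have h1 : Sk k w ^ 2 ≤ ∑ m ∈ range (2 * k), w ^ m := by
    rw [← tri, sq]
    unfold Sk
    rw [sum_mul_sum, ← sum_product']
    refine sum_le_sum_of_subset_of_nonneg ?_ fun p _ _ => ?_
    · intro p hp
      rw [mem_product, mem_range, mem_range] at hp
      rw [mem_filter, mem_product, mem_range, mem_range]
      exact ⟨⟨by omega, by omega⟩, by omega⟩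
    · have := aj_pos p.1
      have := aj_pos p.2
      positivity
  calc (1 - w) * Sk k w ^ 2 ≤ (1 - w) * ∑ m ∈ range (2 * k), w ^ m :=
        mul_le_mul_of_nonneg_left h1 (by linarith)
    _ = 1 - w ^ (2 * k) := mul_neg_geom_sum w (2 * k)
    _ ≤ 1 := by have := pow_nonneg hw (2 * k); linarith

lemma le_Sk_sq (k : ℕ) {w : ℝ} (hw : 0 ≤ w) (hw1 : w ≤ 1) : 1 - w ^ k ≤ (1 - w) * Sk k w ^ 2 := by
  have h1 : ∑ m ∈ range k, w ^ m ≤ Sk k w ^ 2 := by
    rw [← tri, sq]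
    unfold Sk
    rw [sum_mul_sum, ← sum_product']
    refine sum_le_sum_of_subset_of_nonneg (filter_subset _ _) fun p _ _ => ?_
    have := aj_pos p.1
    have := aj_pos p.2
    positivity
  calc 1 - w ^ k = (1 - w) * ∑ m ∈ range k, w ^ m := (mul_neg_geom_sum w k).symm
    _ ≤ _ := mul_le_mul_of_nonneg_left h1 (by linarith)

lemma sign_approx (k : ℕ) {s : ℝ} (hs : 0 ≤ s) (hs1 : s ≤ 1) :
    1 - (1 - s ^ 2) ^ k ≤ s * Sk k (1 - s ^ 2) ∧ s * Sk k (1 - s ^ 2) ≤ 1 := by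
  have hw : 0 ≤ 1 - s ^ 2 := by nlinarith
  have hw1 : 1 - s ^ 2 ≤ 1 := by nlinarith
  have h1 := Sk_sq_le k hw hw1
  have h2 := le_Sk_sq k hw hw1
  have h3 : (1 - (1 - s ^ 2)) * Sk k (1 - s ^ 2) ^ 2 = (s * Sk k (1 - s ^ 2)) ^ 2 := by ring
  rw [h3] at h1 h2
  have h4 : 0 ≤ s * Sk k (1 - s ^ 2) := mul_nonneg hs (Sk_nonneg k hw)
  have h5 : 0 ≤ (1 - s ^ 2) ^ k := pow_nonneg hw k
  have h6 : (1 - s ^ 2) ^ k ≤ 1 := pow_le_one₀ hw hw1
  constructor
  · refine le_of_pow_le_pow_left₀ two_ne_zero h4 (le_trans ?_ h2)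
    nlinarith
  · refine le_of_pow_le_pow_left₀ two_ne_zero zero_le_one ?_
    rw [one_pow]; exact h1

end

end Pool.Agent.Work.VK
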