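import Mathlib
import Pool.Agent.Work.VK.Param
import Pool.Agent.Work.VK.Sign

/-! The long range: the primes in the Vinogradov-Korobov range are equidistributed. -/

namespace Pool.Agent.Work.VK

open Finset
open Pool.Agent.BV Pool.Agent.Work.BV

noncomputable section

lemma cos_eq (θ : ℝ) : ((Real.cos (2 * Real.pi * θ) : ℝ) : ℂ) = (e θ + e (-θ)) / 2 := by
  rw [Complex.ofReal_cos]
  unfold e Complex.cos
  push_cast
  congr 3
  ring_nf

lemma sin_eq (θ : ℝ) : ((Real.sin (2 * Real.pi * θ) : ℝ) : ℂ) =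
    (e θ - e (-θ)) * (1 / (2 * Complex.I)) := by
  rw [Complex.ofReal_sin]
  unfold e Complex.sin
  push_cast
  have h1 : Complex.exp (-(2 * Real.pi * θ) * Complex.I) =
      Complex.exp (2 * Real.pi * -θ * Complex.I) := by congr 1; ring
  rw [h1, one_div, mul_inv, Complex.inv_I]
  ring

lemma cos_pow_eq (θ : ℝ) (m : ℕ) : ((Real.cos (2 * Real.pi * θ) ^ m : ℝ) : ℂ) =
    ∑ i ∈ range (m + 1), ((m.choose i : ℂ) / 2 ^ m) * e ((2 * i - m) * θ) := by
  rw [Complex.ofReal_pow, cos_eq, div_pow, add_pow, sum_div]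
  refine sum_congr rfl fun i hi => ?_
  rw [mem_range] at hi
  rw [← add_e_pow, ← add_e_pow, ← add_e_add]
  have h1 : (i : ℝ) * θ + ((m - i : ℕ) : ℝ) * -θ = (2 * i - m) * θ := by
    rw [Nat.cast_sub (by omega)]; ring
  rw [h1]
  ring

/-- sums of `F (n / p) / p` over primes -/
def Fs (F : ℝ → ℂ) (n P P' : ℕ) : ℂ := ∑ p ∈ Ioc P P', if p.Prime then F (n / p) / p else 0

lemma Fs_expand {ι : Type*} (T : Finset ι) (c : ι → ℂ) (h : ι → ℝ) {F : ℝ → ℂ}
    (hF : ∀ θ, F θ = ∑ i ∈ T, c i * e (h i * θ)) (n P P' : ℕ) :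
    Fs F n P P' = ∑ i ∈ T, c i * Es (h i * n) P P' := by
  unfold Fs Es
  simp_rw [mul_sum]
  rw [sum_comm]
  refine sum_congr rfl fun p _ => ?_
  by_cases hp : p.Prime
  · simp only [if_pos hp]
    rw [hF, sum_div]
    refine sum_congr rfl fun i _ => ?_
    rw [mul_div_assoc, mul_div_assoc]
  · simp [if_neg hp]

lemma sum_choose (m : ℕ) : ∑ i ∈ range (m + 1), ((m.choose i : ℝ) / 2 ^ m) = 1 := by
  rw [← sum_div]
  have : ∑ i ∈ range (m + 1), (m.choose i : ℝ) = 2 ^ m := by exact_mod_cast Nat.sum_range_choose m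
  rw [this, div_self (by positivity)]

/-- `∑ 1 / p` -/
def Rs (P P' : ℕ) : ℝ := ∑ p ∈ Ioc P P', if p.Prime then 1 / (p : ℝ) else 0

lemma Rs_nonneg (P P' : ℕ) : 0 ≤ Rs P P' := sum_nonneg fun p _ => by split_ifs <;> positivity

lemma Es_zero_le (θ : ℝ) (P P' : ℕ) : ‖Es θ P P'‖ ≤ Rs P P' := by
  unfold Es Rs
  refine (norm_sum_le _ _).trans (sum_le_sum fun p _ => ?_)
  split_ifs
  · rw [norm_div, add_norm_e, Complex.norm_natCast]
  · rw [norm_zero]

/-- all the needed exponential sums are small -/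
def Small (B : ℝ) (K n P P' : ℕ) : Prop :=
  ∀ h : ℤ, h ≠ 0 → |h| ≤ K → ‖Es (h * n) P P'‖ ≤ B

lemma cos_sum {B : ℝ} (hB : 0 ≤ B) {K n P P' : ℕ} (hs : Small B K n P P') {k : ℕ} (hk : 2 * k ≤ K) :
    ‖Fs (fun θ => ((Real.cos (2 * Real.pi * θ) ^ (2 * k) : ℝ) : ℂ)) n P P'‖ ≤
      aj k * Rs P P' + B := by
  rw [Fs_expand (range (2 * k + 1)) (fun i => ((2 * k).choose i : ℂ) / 2 ^ (2 * k))
    (fun i => 2 * (i : ℝ) - (2 * k : ℕ)) (fun θ => cos_pow_eq θ (2 * k))]
  have h1 : ∀ i ∈ range (2 * k + 1), ‖((2 * k).choose i : ℂ) / 2 ^ (2 * k) *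
      Es ((2 * (i : ℝ) - (2 * k : ℕ)) * n) P P'‖ ≤
      ((2 * k).choose i : ℝ) / 2 ^ (2 * k) * B +
        (if i = k then ((2 * k).choose i : ℝ) / 2 ^ (2 * k) * Rs P P' else 0) := by
    intro i hi
    rw [mem_range] at hi
    have e1 : ‖((2 * k).choose i : ℂ) / 2 ^ (2 * k)‖ = ((2 * k).choose i : ℝ) / 2 ^ (2 * k) := by
      rw [norm_div, Complex.norm_natCast, norm_pow]; norm_num
    rw [norm_mul, e1]
    have h0 : (0 : ℝ) ≤ ((2 * k).choose i : ℝ) / 2 ^ (2 * k) := by positivity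
    by_cases hik : i = k
    · rw [if_pos hik]
      have := mul_le_mul_of_nonneg_left (Es_zero_le ((2 * (i : ℝ) - (2 * k : ℕ)) * n) P P') h0
      have := mul_nonneg h0 hB
      linarith
    · rw [if_neg hik, add_zero]
      refine mul_le_mul_of_nonneg_left ?_ h0
      have h2 := hs (2 * (i : ℤ) - (2 * k : ℕ)) (by omega) (by rw [abs_le]; constructor <;> omega)
      push_cast at h2 ⊢
      exact h2
  refine (norm_sum_le _ _).trans ((sum_le_sum h1).trans (le_of_eq ?_))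
  rw [sum_add_distrib, ← sum_mul, sum_choose, one_mul, sum_ite_eq', if_pos (mem_range.mpr (by omega)),
    ← aj_choose, Nat.centralBinom_eq_two_mul_choose, pow_mul]
  norm_num
  ring

lemma sin_cos_sum {B : ℝ} {K n P P' : ℕ} (hs : Small B K n P P') {j : ℕ}
    (hj : 2 * j + 1 ≤ K) :
    ‖Fs (fun θ => ((Real.sin (2 * Real.pi * θ) * Real.cos (2 * Real.pi * θ) ^ (2 * j) : ℝ) : ℂ))
      n P P'‖ ≤ B := by
  set c : ℕ → ℂ := fun i => ((2 * j).choose i : ℂ) / 2 ^ (2 * j) with hc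
  have hF : ∀ θ : ℝ, ((Real.sin (2 * Real.pi * θ) * Real.cos (2 * Real.pi * θ) ^ (2 * j) : ℝ) : ℂ) =
      ∑ q ∈ range (2 * j + 1) ×ˢ range 2, (c q.1 * (1 / (2 * Complex.I)) * (-1) ^ q.2) *
        e ((2 * (q.1 : ℝ) - (2 * j : ℕ) + 1 - 2 * q.2) * θ) := by
    intro θ
    rw [Complex.ofReal_mul, sin_eq, cos_pow_eq, mul_sum, sum_product]
    refine sum_congr rfl fun i _ => ?_
    rw [sum_range_succ, sum_range_one, hc]
    have h1 : e ((2 * (i : ℝ) - (2 * j : ℕ) + 1 - 2 * (0 : ℕ)) * θ) =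
        e θ * e ((2 * i - (2 * j : ℕ)) * θ) := by
      rw [← add_e_add]; congr 1; push_cast; ring
    have h2 : e ((2 * (i : ℝ) - (2 * j : ℕ) + 1 - 2 * (1 : ℕ)) * θ) =
        e (-θ) * e ((2 * i - (2 * j : ℕ)) * θ) := by
      rw [← add_e_add]; congr 1; push_cast; ring
    simp only
    rw [h1, h2]
    push_cast
    ring
  rw [Fs_expand _ _ _ hF]
  have h1 : ∀ q ∈ range (2 * j + 1) ×ˢ range 2, ‖(c q.1 * (1 / (2 * Complex.I)) * (-1) ^ q.2) *
      Es ((2 * (q.1 : ℝ) - (2 * j : ℕ) + 1 - 2 * q.2) * n) P P'‖ ≤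
      ((2 * j).choose q.1 : ℝ) / 2 ^ (2 * j) * (B / 2) := by
    intro q hq
    rw [mem_product, mem_range, mem_range] at hq
    have e1 : ‖c q.1‖ = ((2 * j).choose q.1 : ℝ) / 2 ^ (2 * j) := by
      rw [hc]; simp only; rw [norm_div, Complex.norm_natCast, norm_pow]; norm_num
    have e2 : ‖(1 : ℂ) / (2 * Complex.I)‖ = 1 / 2 := by
      rw [norm_div, norm_mul, Complex.norm_I]; norm_num
    rw [norm_mul, norm_mul, norm_mul, e1, e2, norm_pow, norm_neg, norm_one, one_pow, mul_one]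
    have h2 := hs (2 * (q.1 : ℤ) - (2 * j : ℕ) + 1 - 2 * q.2) (by omega)
      (by rw [abs_le]; constructor <;> omega)
    have h0 : (0 : ℝ) ≤ ((2 * j).choose q.1 : ℝ) / 2 ^ (2 * j) := by positivity
    calc ((2 * j).choose q.1 : ℝ) / 2 ^ (2 * j) * (1 / 2) *
          ‖Es ((2 * (q.1 : ℝ) - (2 * j : ℕ) + 1 - 2 * q.2) * n) P P'‖
        ≤ ((2 * j).choose q.1 : ℝ) / 2 ^ (2 * j) * (1 / 2) * B := by
          refine mul_le_mul_of_nonneg_left ?_ (by positivity)
          push_cast at h2 ⊢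
          exact h2
      _ = _ := by ring
  refine (norm_sum_le _ _).trans ((sum_le_sum h1).trans (le_of_eq ?_))
  rw [sum_product]
  simp only [sum_const, card_range]
  have h3 : ∀ i ∈ range (2 * j + 1), 2 • (((2 * j).choose i : ℝ) / 2 ^ (2 * j) * (B / 2)) =
      ((2 * j).choose i : ℝ) / 2 ^ (2 * j) * B := by
    intro i _; rw [nsmul_eq_mul]; push_cast; ring
  rw [sum_congr rfl h3, ← sum_mul, sum_choose, one_mul]

/-- the indicator of the upper half -/
def chi (p n : ℕ) : ℝ := if p < 2 * (n % p) then 1 else 0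

lemma chi_approx {p : ℕ} (hp : 0 < p) (n k : ℕ) :
    |chi p n - 1 / 2 + 1 / 2 * (Real.sin (2 * Real.pi * (n / p)) *
      Sk k (Real.cos (2 * Real.pi * (n / p)) ^ 2))| ≤
      1 / 2 * (Real.cos (2 * Real.pi * (n / p)) ^ 2) ^ k := by
  have hp0 : (0 : ℝ) < p := by exact_mod_cast hp
  obtain ⟨φ, hφ⟩ : ∃ φ : ℝ, φ = 2 * Real.pi * ((n % p : ℕ) / p) := ⟨_, rfl⟩
  have hsplit : (n : ℝ) / p = ((n % p : ℕ) : ℝ) / p + ((n / p : ℕ) : ℝ) := by
    have : (n : ℝ) = (p : ℝ) * ((n / p : ℕ) : ℝ) + ((n % p : ℕ) : ℝ) := by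
      exact_mod_cast (Nat.div_add_mod n p).symm
    rw [this]
    field_simp
    ring
  have hang : 2 * Real.pi * ((n : ℝ) / p) = φ + ((n / p : ℕ) : ℝ) * (2 * Real.pi) := by
    rw [hsplit, hφ]; ring
  rw [hang, Real.sin_add_nat_mul_two_pi, Real.cos_add_nat_mul_two_pi]
  have hcs := Real.sin_sq_add_cos_sq φ
  have hc : Real.cos φ ^ 2 = 1 - Real.sin φ ^ 2 := by linarith
  rw [hc]
  have hmod : n % p < p := Nat.mod_lt n hp
  unfold chi
  by_cases h : p < 2 * (n % p)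
  · -- upper half: sin ≤ 0
    rw [if_pos h]
    have h1 : Real.pi ≤ φ := by
      rw [hφ]
      have : (1 : ℝ) / 2 ≤ ((n % p : ℕ) : ℝ) / p := by
        rw [div_le_div_iff₀ (by norm_num) hp0]
        have : (p : ℝ) < 2 * ((n % p : ℕ) : ℝ) := by exact_mod_cast h
        linarith
      nlinarith [Real.pi_pos]
    have h2 : φ ≤ 2 * Real.pi := by
      rw [hφ]
      have : ((n % p : ℕ) : ℝ) / p ≤ 1 := by
        rw [div_le_one hp0]; exact_mod_cast hmod.le
      nlinarith [Real.pi_pos]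
    have h3 : 0 ≤ -Real.sin φ := by
      have := Real.sin_nonneg_of_nonneg_of_le_pi (x := φ - Real.pi) (by linarith) (by linarith)
      rw [Real.sin_sub_pi] at this
      exact this
    have h4 : -Real.sin φ ≤ 1 := by have := Real.neg_one_le_sin φ; linarith
    have h5 := sign_approx k h3 h4
    rw [neg_sq] at h5
    rw [abs_le]
    constructor <;> nlinarith [h5.1, h5.2, pow_nonneg (by nlinarith : 0 ≤ 1 - Real.sin φ ^ 2) k]
  · rw [if_neg h]
    have h1 : 0 ≤ φ := by rw [hφ]; positivity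
    have h2 : φ ≤ Real.pi := by
      rw [hφ]
      have : ((n % p : ℕ) : ℝ) / p ≤ 1 / 2 := by
        rw [div_le_div_iff₀ hp0 (by norm_num)]
        have : (2 : ℝ) * ((n % p : ℕ) : ℝ) ≤ p := by exact_mod_cast not_lt.mp h
        linarith
      nlinarith [Real.pi_pos]
    have h3 := Real.sin_nonneg_of_nonneg_of_le_pi h1 h2
    have h4 := Real.sin_le_one φ
    have h5 := sign_approx k h3 h4
    rw [abs_le]
    constructor <;> nlinarith [h5.1, h5.2, pow_nonneg (by nlinarith : 0 ≤ 1 - Real.sin φ ^ 2) k]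

/-- the deviation -/
def Dv (n P P' : ℕ) : ℝ := ∑ p ∈ Ioc P P', if p.Prime then (chi p n - 1 / 2) / p else 0

lemma Dv_le {B : ℝ} (hB : 0 ≤ B) {k n P P' : ℕ} (hs : Small B (2 * k + 1) n P P') :
    |Dv n P P'| ≤ (k + 1) / 2 * B + 1 / 2 * (aj k * Rs P P') := by
  set G : ℝ → ℝ := fun θ => Real.sin (2 * Real.pi * θ) * Sk k (Real.cos (2 * Real.pi * θ) ^ 2) with hG
  set A : ℝ := ∑ p ∈ Ioc P P', if p.Prime then G (n / p) / p else 0 with hA
  set C : ℝ := ∑ p ∈ Ioc P P', if p.Prime then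
    (Real.cos (2 * Real.pi * ((n : ℝ) / p)) ^ (2 * k)) / p else 0 with hC
  have h1 : |Dv n P P' + 1 / 2 * A| ≤ 1 / 2 * C := by
    have e1 : Dv n P P' + 1 / 2 * A = ∑ p ∈ Ioc P P', if p.Prime then
        (chi p n - 1 / 2 + 1 / 2 * G (n / p)) / p else 0 := by
      unfold Dv
      rw [hA, mul_sum, ← sum_add_distrib]
      refine sum_congr rfl fun p _ => ?_
      split_ifs
      · ring
      · ring
    rw [e1, hC, mul_sum]
    refine (abs_sum_le_sum_abs _ _).trans (sum_le_sum fun p _ => ?_)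
    by_cases hp : p.Prime
    · rw [if_pos hp, if_pos hp, abs_div, Nat.abs_cast, ← mul_div_assoc]
      refine div_le_div_of_nonneg_right ?_ (Nat.cast_nonneg _)
      have := chi_approx hp.pos n k
      rw [← pow_mul] at this
      exact this
    · rw [if_neg hp, if_neg hp, abs_zero, mul_zero]
  have h2 : |A| ≤ k * B := by
    have e1 : ((A : ℝ) : ℂ) = ∑ j ∈ range k, (aj j : ℂ) *
        Fs (fun θ => ((Real.sin (2 * Real.pi * θ) * Real.cos (2 * Real.pi * θ) ^ (2 * j) : ℝ) : ℂ))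
          n P P' := by
      unfold Fs
      rw [hA, Complex.ofReal_sum]
      simp_rw [mul_sum]
      rw [sum_comm]
      refine sum_congr rfl fun p _ => ?_
      by_cases hp : p.Prime
      · simp only [if_pos hp, hG]
        unfold Sk
        rw [mul_sum, sum_div, Complex.ofReal_sum]
        refine sum_congr rfl fun j _ => ?_
        rw [← pow_mul]
        push_cast
        ring
      · simp [if_neg hp]
    have e2 : |A| = ‖((A : ℝ) : ℂ)‖ := by rw [Complex.norm_real, Real.norm_eq_abs]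
    rw [e2, e1]
    refine (norm_sum_le _ _).trans ?_
    have h3 : ∀ j ∈ range k, ‖(aj j : ℂ) *
        Fs (fun θ => ((Real.sin (2 * Real.pi * θ) * Real.cos (2 * Real.pi * θ) ^ (2 * j) : ℝ) : ℂ))
          n P P'‖ ≤ B := by
      intro j hj
      rw [mem_range] at hj
      rw [norm_mul, Complex.norm_real, Real.norm_eq_abs, abs_of_pos (aj_pos j)]
      have h4 := sin_cos_sum hs (j := j) (by omega)
      have h5 := aj_le_one j
      have h6 := (aj_pos j).le
      calc aj j * _ ≤ 1 * B := mul_le_mul h5 h4 (norm_nonneg _) zero_le_one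
        _ = B := one_mul B
    refine (sum_le_card_nsmul _ _ _ h3).trans ?_
    rw [card_range, nsmul_eq_mul]
  have h3 : C ≤ aj k * Rs P P' + B := by
    have e1 : ((C : ℝ) : ℂ) = Fs (fun θ => ((Real.cos (2 * Real.pi * θ) ^ (2 * k) : ℝ) : ℂ)) n P P' := by
      unfold Fs
      rw [hC, Complex.ofReal_sum]
      refine sum_congr rfl fun p _ => ?_
      by_cases hp : p.Prime
      · simp only [if_pos hp]; push_cast; ring
      · simp [if_neg hp]
    have h4 := cos_sum hB hs (k := k) (by omega)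
    rw [← e1, Complex.norm_real, Real.norm_eq_abs] at h4
    exact (le_abs_self _).trans h4
  have h4 := abs_le.mp h1
  have h5 := abs_le.mp h2
  rw [abs_le]
  constructor <;> nlinarith

lemma Rs_le (P P' : ℕ) : Rs P P' ≤ 1 + Real.log P' := by
  refine le_trans ?_ (DivSum_H P')
  unfold Rs
  calc ∑ p ∈ Ioc P P', (if p.Prime then 1 / (p : ℝ) else 0) ≤ ∑ p ∈ Ioc P P', (p : ℝ)⁻¹ := by
        refine sum_le_sum fun p _ => ?_
        split_ifs
        · rw [one_div]
        · positivity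
    _ ≤ _ := by
        refine sum_le_sum_of_subset_of_nonneg ?_ fun _ _ _ => by positivity
        intro a ha; rw [mem_Ioc] at ha; rw [Finset.mem_Icc]; omega

theorem range_bound {n P P' : ℕ} (hX : 100 ≤ Real.log n)
    (hX2 : 4 * Real.log (Real.log n) ≤ Real.log n)
    (hQ : 1500 ^ 3 * Real.log n ^ 2 * Real.log (Real.log n) ≤ Real.log P ^ 3) (hP : P ≤ P')
    (hP' : 48 * Real.log P' ≤ Real.log n) : |Dv n P P'| ≤ 1 := by
  obtain ⟨X, hXd⟩ : ∃ X, X = Real.log n := ⟨_, rfl⟩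
  obtain ⟨k, hk⟩ : ∃ k : ℕ, k = ⌊X ^ 3 / 4⌋₊ := ⟨_, rfl⟩
  have hX100 : 100 ≤ X := by rw [hXd]; exact hX
  have hX0 : 0 < X := by linarith
  have hX3 : (10 : ℝ) ^ 6 ≤ X ^ 3 := by
    calc (10 : ℝ) ^ 6 = 100 ^ 3 := by norm_num
      _ ≤ X ^ 3 := pow_le_pow_left₀ (by norm_num) hX100 3
  have hk1 : (k : ℝ) ≤ X ^ 3 / 4 := by rw [hk]; exact Nat.floor_le (by positivity)
  have hk2 : X ^ 3 / 4 < k + 1 := by rw [hk]; exact Nat.lt_floor_add_one _
  have hs : Small (1 / X ^ 4) (2 * k + 1) n P P' := by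
    intro h h0 hle
    rw [hXd]
    refine Es_bound hX hX2 hQ hP hP' h0 ?_
    rw [← hXd]
    have h1 : |(h : ℝ)| ≤ ((2 * k + 1 : ℕ) : ℝ) := by exact_mod_cast hle
    refine h1.trans ?_
    push_cast
    linarith
  have h1 := Dv_le (by positivity) hs
  have h2 : ((k : ℝ) + 1) / 2 * (1 / X ^ 4) ≤ 1 / 2 := by
    have e1 : ((k : ℝ) + 1) / 2 ≤ X ^ 3 / 2 := by linarith
    calc ((k : ℝ) + 1) / 2 * (1 / X ^ 4) ≤ X ^ 3 / 2 * (1 / X ^ 4) :=
          mul_le_mul_of_nonneg_right e1 (by positivity)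
      _ = (1 / 2) * (1 / X) := by field_simp
      _ ≤ 1 / 2 * 1 := by
          refine mul_le_mul_of_nonneg_left ?_ (by norm_num)
          rw [div_le_one hX0]; linarith
      _ = 1 / 2 := by norm_num
  have h3 : aj k * Rs P P' ≤ 1 := by
    have hR : Rs P P' ≤ X := by
      refine (Rs_le P P').trans ?_
      rw [hXd]
      linarith
    have ha := aj_sq k
    have ha0 := aj_pos k
    have hR0 := Rs_nonneg P P'
    have h4 : (aj k * X) ^ 2 ≤ 1 := by
      have h5 : aj k ^ 2 * (X ^ 3 / 4) ≤ 1 := by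
        refine le_trans ?_ ha
        refine mul_le_mul_of_nonneg_left (by linarith) (by positivity)
      have h6 : X ^ 2 ≤ X ^ 3 / 4 := by nlinarith
      calc (aj k * X) ^ 2 = aj k ^ 2 * X ^ 2 := by ring
        _ ≤ aj k ^ 2 * (X ^ 3 / 4) := mul_le_mul_of_nonneg_left h6 (by positivity)
        _ ≤ 1 := h5
    have h7 : aj k * X ≤ 1 := by
      refine le_of_pow_le_pow_left₀ two_ne_zero zero_le_one ?_
      rw [one_pow]; exact h4
    calc aj k * Rs P P' ≤ aj k * X := mul_le_mul_of_nonneg_left hR ha0.le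
      _ ≤ 1 := h7
  linarith

end

end Pool.Agent.Work.VK
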