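import Mathlib
import Pool.Agent.Work.VK.Range
import Pool.Agent.Work.MP_e4117e_nt.Upper

/-! The bound for every integer. -/

namespace Pool.Agent.Work.VK

open Finset
open Pool.Agent.Work.MP_e4117e_nt

noncomputable section

lemma chi_eq_ind (p n : ℕ) : chi p n = ind p n := by
  unfold chi ind
  have h : ((n : ℤ) % (p : ℤ)) = ((n % p : ℕ) : ℤ) := by simp
  rw [h]
  by_cases h1 : p < 2 * (n % p)
  · rw [if_pos h1, if_pos (by exact_mod_cast h1)]
  · rw [if_neg h1, if_neg (by exact_mod_cast h1)]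

lemma Dv_eq (n P P' : ℕ) :
    Dv n P P' = PS (fun p => ind p n) P P' - PS (fun _ => 1) P P' / 2 := by
  unfold Dv PS
  rw [sum_div, ← sum_sub_distrib]
  refine sum_congr rfl fun p _ => ?_
  rw [chi_eq_ind]
  split_ifs
  · ring
  · ring

/-- the lower end of the long range -/
def VV (X : ℝ) : ℝ := X ^ ((2 : ℝ) / 3) * Real.log X ^ ((1 : ℝ) / 3)

lemma VV_cube {X : ℝ} (hX : 0 ≤ X) (hlX : 0 ≤ Real.log X) : VV X ^ 3 = X ^ 2 * Real.log X := by
  unfold VV
  rw [mul_pow, ← Real.rpow_natCast, ← Real.rpow_natCast (Real.log X ^ ((1 : ℝ) / 3)),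
    ← Real.rpow_mul hX, ← Real.rpow_mul hlX]
  norm_num

lemma VV_nonneg {X : ℝ} (hX : 0 ≤ X) (hlX : 0 ≤ Real.log X) : 0 ≤ VV X :=
  mul_nonneg (Real.rpow_nonneg hX _) (Real.rpow_nonneg hlX _)

/-- the long range in terms of `VV` -/
theorem long_range {n P P' : ℕ} (hX : 100 ≤ Real.log n)
    (hX2 : 4 * Real.log (Real.log n) ≤ Real.log n)
    (hQ : 1500 * VV (Real.log n) ≤ Real.log P) (hP : P ≤ P')
    (hP' : 48 * Real.log P' ≤ Real.log n) :
    |PS (fun p => ind p n) P P' - PS (fun _ => 1) P P' / 2| ≤ 1 := by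
  rw [← Dv_eq]
  have hl : 0 ≤ Real.log (Real.log n) := Real.log_nonneg (by linarith)
  refine range_bound hX hX2 ?_ hP hP'
  have h1 := pow_le_pow_left₀ (mul_nonneg (by norm_num) (VV_nonneg (by linarith) hl)) hQ 3
  rw [mul_pow, VV_cube (by linarith) hl] at h1
  linarith

/-- Mertens for a range -/
lemma PS_one_range {C : ℝ} (hC : Mer C) {a b : ℕ} (ha : 2 ≤ a) (hab : a ≤ b) :
    |PS (fun _ => 1) a b - (Real.log (Real.log b) - Real.log (Real.log a))| ≤ 2 * C := by
  have h1 := PS_add (fun _ => 1) (Nat.zero_le a) hab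
  have h2 := abs_le.mp (PS_mertens hC ha)
  have h3 := abs_le.mp (PS_mertens hC (ha.trans hab))
  rw [abs_le]
  constructor <;> linarith [h2.1, h2.2, h3.1, h3.2]

/-- the primes above the threshold `P` -/
theorem above {C : ℝ} (hC : Mer C) {n P : ℕ} (hX : 100 ≤ Real.log n)
    (hX2 : 4 * Real.log (Real.log n) ≤ Real.log n) (hP2 : 2 ≤ P)
    (hQ : 1500 * VV (Real.log n) ≤ Real.log P) (hPn : P ≤ n) :
    |PS (fun p => ind p n) P n - (Real.log (Real.log n) - Real.log (Real.log P)) / 2| ≤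
      60 + 4 * C := by
  have hC0 : 0 ≤ C := (abs_nonneg _).trans (hC 2 le_rfl)
  obtain ⟨X, hXd⟩ : ∃ X, X = Real.log n := ⟨_, rfl⟩
  have hn0 : (0 : ℝ) < n := by
    have : 0 < n := by omega
    exact_mod_cast this
  obtain ⟨z, hz⟩ : ∃ z : ℕ, z = ⌊Real.exp (X / 48)⌋₊ := ⟨_, rfl⟩
  have hX0 : 0 < X := by rw [hXd]; linarith
  have hz1 : (z : ℝ) ≤ Real.exp (X / 48) := by rw [hz]; exact Nat.floor_le (Real.exp_pos _).le
  have hz2 : Real.exp (X / 48) / 2 ≤ z := by
    have h1 : Real.exp (X / 48) < z + 1 := by rw [hz]; exact Nat.lt_floor_add_one _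
    have h2 : (2 : ℝ) ≤ Real.exp (X / 48) := by
      have := Real.add_one_le_exp (X / 48)
      rw [← hXd] at hX
      linarith
    linarith
  have hze : (0 : ℝ) < Real.exp (X / 48) := Real.exp_pos _
  have hz0 : (0 : ℝ) < z := by linarith
  have hlz1 : Real.log z ≤ X / 48 := by
    have := Real.log_le_log hz0 hz1
    rwa [Real.log_exp] at this
  have hlz2 : X / 48 - 1 ≤ Real.log z := by
    have := Real.log_le_log (by positivity) hz2
    rw [Real.log_div hze.ne' (by norm_num), Real.log_exp] at this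
    have := Real.log_two_lt_d9
    linarith
  have hlP : 0 < Real.log P := Real.log_pos (by exact_mod_cast hP2)
  rw [← hXd] at hX
  have hlz3 : X / 100 ≤ Real.log z := by linarith
  have hllz : Real.log X - 99 ≤ Real.log (Real.log z) := by
    have h1 := Real.log_le_log (by positivity) hlz3
    rw [Real.log_div hX0.ne' (by norm_num)] at h1
    have h2 : Real.log 100 ≤ 99 := by
      have := Real.log_le_sub_one_of_pos (x := 100) (by norm_num)
      linarith
    linarith
  have hzn : z ≤ n := by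
    have : (z : ℝ) ≤ n := by
      rw [← Real.log_le_log_iff hz0 hn0, ← hXd]
      linarith
    exact_mod_cast this
  have hn2 : 2 ≤ n := hP2.trans hPn
  rw [← hXd]
  rcases le_total P z with h | h
  · have hz2' : 2 ≤ z := hP2.trans h
    have h1 := abs_le.mp (long_range (P := P) (P' := z) (by rw [← hXd]; exact hX) hX2 hQ h
      (by rw [← hXd]; linarith))
    have h2 := PS_add (fun p => ind p n) h hzn
    have h3 := PS_ind_nonneg n z n
    have h4 := PS_ind_le n z n
    have h5 := abs_le.mp (PS_one_range hC hP2 h)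
    have h6 := abs_le.mp (PS_one_range hC hz2' hzn)
    rw [← hXd] at h6
    have h7 : Real.log (Real.log z) ≤ Real.log X := Real.log_le_log (by linarith) (by linarith)
    rw [← h2, abs_le]
    constructor <;> linarith [h1.1, h1.2, h5.1, h5.2, h6.1, h6.2]
  · have h3 := PS_ind_nonneg n P n
    have h4 := PS_ind_le n P n
    have h5 := abs_le.mp (PS_one_range hC hP2 hPn)
    rw [← hXd] at h5
    have h6 : Real.log z ≤ Real.log P := Real.log_le_log hz0 (by exact_mod_cast h)
    have h7 : Real.log (Real.log z) ≤ Real.log (Real.log P) := Real.log_le_log (by linarith) h6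
    have h8 : Real.log (Real.log P) ≤ Real.log X := by
      refine Real.log_le_log hlP ?_
      rw [hXd]
      exact Real.log_le_log (by exact_mod_cast (by omega : 0 < P)) (by exact_mod_cast hPn)
    rw [abs_le]
    constructor <;> linarith [h5.1, h5.2]

/-- a threshold exists -/
lemma threshold {V : ℝ} (hV : 1 ≤ V) : ∃ P : ℕ, 2 ≤ P ∧ V ≤ Real.log P ∧ Real.log P ≤ 2 * V := by
  refine ⟨⌈Real.exp V⌉₊, ?_, ?_, ?_⟩
  · have h1 : Real.exp V ≤ ⌈Real.exp V⌉₊ := Nat.le_ceil _
    have h2 : V + 1 ≤ Real.exp V := Real.add_one_le_exp V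
    have : (2 : ℝ) ≤ ⌈Real.exp V⌉₊ := by linarith
    exact_mod_cast this
  · have h1 : Real.exp V ≤ ⌈Real.exp V⌉₊ := Nat.le_ceil _
    have := Real.log_le_log (Real.exp_pos V) h1
    rwa [Real.log_exp] at this
  · have h1 : (⌈Real.exp V⌉₊ : ℝ) ≤ Real.exp V + 1 := (Nat.ceil_lt_add_one (Real.exp_pos V).le).le
    have h2 : Real.exp V + 1 ≤ Real.exp (2 * V) := by
      have h3 : Real.exp (2 * V) = Real.exp V * Real.exp V := by rw [← Real.exp_add]; ring_nf
      have h4 : V + 1 ≤ Real.exp V := Real.add_one_le_exp V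
      rw [h3]
      nlinarith
    have h5 : (0 : ℝ) < ⌈Real.exp V⌉₊ := lt_of_lt_of_le (Real.exp_pos V) (Nat.le_ceil _)
    have := Real.log_le_log h5 (h1.trans h2)
    rwa [Real.log_exp] at this

theorem all_integers : ∃ C : ℝ, ∃ n₀ : ℕ, ∀ n : ℕ, n₀ ≤ n →
    |S n - Real.log (Real.log n) / 2| ≤
      Real.log (Real.log n) / 3 + Real.log (Real.log (Real.log n)) / 6 + C := by
  obtain ⟨C, hC0, hC⟩ := mertens2
  refine ⟨2000 + 5 * C, ⌈Real.exp (10 ^ 20)⌉₊, fun n hn => ?_⟩
  have hn1 : Real.exp (10 ^ 20) ≤ n := (Nat.le_ceil _).trans (by exact_mod_cast hn)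
  have hn0 : (0 : ℝ) < n := lt_of_lt_of_le (Real.exp_pos _) hn1
  obtain ⟨X, hXd⟩ : ∃ X, X = Real.log n := ⟨_, rfl⟩
  have hX20 : (10 : ℝ) ^ 20 ≤ X := by
    rw [hXd, Real.le_log_iff_exp_le hn0]; exact hn1
  have hX0 : 0 < X := lt_of_lt_of_le (by norm_num) hX20
  have hlX1 : 1 ≤ Real.log X := by
    rw [Real.le_log_iff_exp_le hX0]
    have := Real.exp_one_lt_d9
    linarith
  -- `log X ≤ 3 X^(1/3)`-type bounds
  have hcb : 12 * 1500 ^ 3 * 12 * Real.log X ≤ X := by
    have h4 : Real.log X = 8 * Real.log (X ^ ((1 : ℝ) / 8)) := by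
      rw [Real.log_rpow hX0]; ring
    have h5 : Real.log (X ^ ((1 : ℝ) / 8)) ≤ X ^ ((1 : ℝ) / 8) := by
      have := Real.log_le_sub_one_of_pos (x := X ^ ((1 : ℝ) / 8)) (Real.rpow_pos_of_pos hX0 _)
      linarith
    obtain ⟨w, hw⟩ : ∃ w : ℝ, w = X ^ ((1 : ℝ) / 8) := ⟨_, rfl⟩
    have hw8 : w ^ 8 = X := by
      rw [hw, ← Real.rpow_natCast, ← Real.rpow_mul hX0.le]; norm_num
    have hw0 : 0 < w := by rw [hw]; exact Real.rpow_pos_of_pos hX0 _
    have hw1 : (300 : ℝ) ≤ w := by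
      refine le_of_pow_le_pow_left₀ (n := 8) (by norm_num) hw0.le ?_
      rw [hw8]
      refine le_trans (by norm_num) hX20
    rw [← hw] at h4 h5
    rw [h4]
    have h6 : (300 : ℝ) ^ 7 ≤ w ^ 7 := pow_le_pow_left₀ (by norm_num) hw1 7
    have h7 : X = w * w ^ 7 := by rw [← hw8]; ring
    calc 12 * 1500 ^ 3 * 12 * (8 * Real.log w) ≤ 12 * 1500 ^ 3 * 12 * (8 * w) := by linarith
      _ ≤ w * 300 ^ 7 := by nlinarith
      _ ≤ w * w ^ 7 := mul_le_mul_of_nonneg_left h6 hw0.le
      _ = X := h7.symm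
  have hV0 := VV_nonneg hX0.le (by linarith : 0 ≤ Real.log X)
  have hVc := VV_cube hX0.le (by linarith : 0 ≤ Real.log X)
  have hV1 : 1 ≤ 1500 * VV X := by
    refine le_of_pow_le_pow_left₀ three_ne_zero (by positivity) ?_
    rw [mul_pow, hVc]
    have : 1 ≤ X ^ 2 := by nlinarith
    nlinarith
  obtain ⟨P, hP2, hP3, hP4⟩ := threshold hV1
  have hPn : P ≤ n := by
    have hP0 : (0 : ℝ) < P := by exact_mod_cast (by omega : 0 < P)
    have : (P : ℝ) ≤ n := by
      rw [← Real.log_le_log_iff hP0 hn0, ← hXd]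
      refine hP4.trans ?_
      refine le_of_pow_le_pow_left₀ three_ne_zero hX0.le ?_
      have e1 : (2 * (1500 * VV X)) ^ 3 = 8 * 1500 ^ 3 * (VV X ^ 3) := by ring
      rw [e1, hVc]
      have h1 : 8 * 1500 ^ 3 * Real.log X ≤ X := by linarith
      calc 8 * 1500 ^ 3 * (X ^ 2 * Real.log X) = X ^ 2 * (8 * 1500 ^ 3 * Real.log X) := by ring
        _ ≤ X ^ 2 * X := mul_le_mul_of_nonneg_left h1 (by positivity)
        _ = X ^ 3 := by ring
    exact_mod_cast this
  have hA := above hC (n := n) (P := P) (by rw [← hXd]; linarith)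
    (by rw [← hXd]; linarith) hP2 (by rw [← hXd]; exact hP3) hPn
  rw [← hXd] at hA ⊢
  have hlP : 0 < Real.log P := Real.log_pos (by exact_mod_cast hP2)
  have hllP : Real.log (Real.log P) ≤ 2 / 3 * Real.log X + Real.log (Real.log X) / 3 + 3000 := by
    have h1 := Real.log_le_log hlP hP4
    have h2 : Real.log (2 * (1500 * VV X)) = Real.log 3000 + (2 / 3 * Real.log X + 1 / 3 * Real.log (Real.log X)) := by
      unfold VV
      rw [← mul_assoc, Real.log_mul (by norm_num) (by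
          have := Real.rpow_pos_of_pos hX0 ((2 : ℝ) / 3)
          have := Real.rpow_pos_of_pos (by linarith : 0 < Real.log X) ((1 : ℝ) / 3)
          positivity),
        Real.log_mul (Real.rpow_pos_of_pos hX0 _).ne' (Real.rpow_pos_of_pos (by linarith) _).ne',
        Real.log_rpow hX0, Real.log_rpow (by linarith)]
      norm_num
    have h3 : Real.log 3000 ≤ 2999 := by
      have := Real.log_le_sub_one_of_pos (x := 3000) (by norm_num)
      linarith
    linarith
  have p1 := PS_add (fun p => ind p n) (Nat.zero_le P) hPn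
  have p2 := PS_ind_nonneg n 0 P
  have p3 := PS_ind_le n 0 P
  have p4 := abs_le.mp (PS_mertens hC hP2)
  have hA' := abs_le.mp hA
  rw [S_eq, ← p1, abs_le]
  constructor <;> linarith [p4.1, p4.2, hA'.1, hA'.2]

end

end Pool.Agent.Work.VK
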