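import Mathlib
import Pool.Agent.Work.VK.AllN

/-! The exceptional set in intervals. -/

namespace Pool.Agent.Work.VK

open Finset
open Pool.Agent.Work.MP_e4117e_nt

noncomputable section

lemma VV_mono {X Y : ℝ} (hX : 1 ≤ X) (h : X ≤ Y) : VV X ≤ VV Y := by
  unfold VV
  have hl : 0 ≤ Real.log X := Real.log_nonneg hX
  have hl2 : Real.log X ≤ Real.log Y := Real.log_le_log (by linarith) h
  refine mul_le_mul (Real.rpow_le_rpow (by linarith) h (by norm_num))
    (Real.rpow_le_rpow hl hl2 (by norm_num)) (Real.rpow_nonneg hl _)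
    (Real.rpow_nonneg (by linarith) _)

lemma VV_ge_one {X : ℝ} (hX : Real.exp 1 ≤ X) : 1 ≤ VV X := by
  have h0 : 1 ≤ X := le_trans (by have := Real.add_one_le_exp (1 : ℝ); linarith) hX
  have h1 : 1 ≤ Real.log X := by
    rw [Real.le_log_iff_exp_le (by linarith)]; exact hX
  unfold VV
  have h2 := Real.one_le_rpow h0 (by norm_num : (0 : ℝ) ≤ 2 / 3)
  have h3 := Real.one_le_rpow h1 (by norm_num : (0 : ℝ) ≤ 1 / 3)
  nlinarith

/-- the primes above `p0`, for every integer up to `x` -/
lemma upper_part {C V : ℝ} (hC : Mer C) (hV : 1 ≤ V) {n p0 : ℕ} (hp0 : 2 ≤ p0) (hn : p0 ≤ n)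
    (hlarge : 1500 * V ≤ Real.log n → 100 ≤ Real.log n ∧ 4 * Real.log (Real.log n) ≤ Real.log n ∧
      VV (Real.log n) ≤ V) :
    |PS (fun p => ind p n) p0 n - (Real.log (Real.log n) - Real.log (Real.log p0)) / 2| ≤
      max 0 (Real.log (3000 * V) - Real.log (Real.log p0)) / 2 + 60 + 6 * C := by
  have hC0 : 0 ≤ C := (abs_nonneg _).trans (hC 2 le_rfl)
  have hm0 := le_max_left 0 (Real.log (3000 * V) - Real.log (Real.log p0))
  have hm1 := le_max_right 0 (Real.log (3000 * V) - Real.log (Real.log p0))
  have hlp0 : 0 < Real.log p0 := Real.log_pos (by exact_mod_cast hp0)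
  have hp0' : (0 : ℝ) < p0 := by exact_mod_cast (by omega : 0 < p0)
  have hlpn : Real.log p0 ≤ Real.log n := Real.log_le_log hp0' (by exact_mod_cast hn)
  -- the trivial bound up to `m`
  rcases lt_or_ge (Real.log n) (3000 * V) with hlt | hge
  · -- everything trivial
    have h3 := PS_ind_nonneg n p0 n
    have h4 := PS_ind_le n p0 n
    have h5 := abs_le.mp (PS_one_range hC hp0 hn)
    have h6 : Real.log (Real.log n) ≤ Real.log (3000 * V) :=
      Real.log_le_log (by linarith) hlt.le
    rw [abs_le]
    constructor <;> linarith [h5.1, h5.2]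
  · obtain ⟨hn1, hn2, hn3⟩ := hlarge (by linarith)
    obtain ⟨P, hP2, hP3, hP4⟩ := threshold (V := 1500 * V) (by linarith)
    have hP0 : (0 : ℝ) < P := by exact_mod_cast (by omega : 0 < P)
    have hn0 : (0 : ℝ) < n := by exact_mod_cast (by omega : 0 < n)
    have hPn : P ≤ n := by
      have : (P : ℝ) ≤ n := by
        rw [← Real.log_le_log_iff hP0 hn0]
        linarith
      exact_mod_cast this
    rcases le_total P p0 with h | h
    · have hl : Real.log P ≤ Real.log p0 := Real.log_le_log hP0 (by exact_mod_cast h)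
      have h1 := above hC (n := n) (P := p0) hn1 hn2 hp0 (by linarith) hn
      linarith
    · have h1 := abs_le.mp (above hC (n := n) (P := P) hn1 hn2 hP2 (by linarith) hPn)
      have h2 := PS_add (fun p => ind p n) h hPn
      have h3 := PS_ind_nonneg n p0 P
      have h4 := PS_ind_le n p0 P
      have h5 := abs_le.mp (PS_one_range hC hp0 h)
      have h6 : Real.log (Real.log P) ≤ Real.log (3000 * V) :=
        Real.log_le_log (by linarith) (by linarith)
      rw [← h2, abs_le]
      constructor <;> linarith [h1.1, h1.2, h5.1, h5.2]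

/-- the blocks in the middle -/
lemma middle_part {C : ℝ} (hC : Mer C) {n a b : ℕ} (ha : 1 ≤ a) (hab : a ≤ b)
    (h : ∀ j ∈ Ico a b, |fB (blk j) n| < 1 / (j : ℝ) ^ 2) :
    |PS (fun p => ind p n) (2 ^ a) (2 ^ b) - (Real.log b - Real.log a) / 2| ≤ 5 + C := by
  have hC0 : 0 ≤ C := (abs_nonneg _).trans (hC 2 le_rfl)
  have hb : 1 ≤ b := ha.trans hab
  have m1 := PS_one_pow hC ha
  have m2 := PS_one_pow hC hb
  have hab' : 2 ^ a ≤ 2 ^ b := Nat.pow_le_pow_right (by norm_num) hab
  have p2 := PS_add (fun _ => 1) (Nat.zero_le (2 ^ a)) hab'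
  have q1 := PS_ind n (2 ^ a) (2 ^ b)
  rw [PS_blocks n a b hab] at q1
  have q2 := abs_le.mp (PS_cmean (2 ^ a) (2 ^ b))
  have q5 : |∑ j ∈ Ico a b, fB (blk j) (n : ℤ)| ≤ 2 := by
    refine (abs_sum_le_sum_abs _ _).trans ?_
    calc ∑ j ∈ Ico a b, |fB (blk j) (n : ℤ)| ≤ ∑ j ∈ Ico a b, ((j : ℝ) ^ 2)⁻¹ := by
          refine sum_le_sum fun j hj => ?_
          rw [← one_div]
          exact (h j hj).le
      _ ≤ ∑ j ∈ Ioc 0 b, ((j : ℝ) ^ 2)⁻¹ := by
          refine sum_le_sum_of_subset_of_nonneg (fun j hj => ?_) fun i _ _ => by positivity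
          rw [mem_Ico] at hj
          rw [mem_Ioc]
          omega
      _ ≤ 2 := sum_inv_sq b
  have q5' := abs_le.mp q5
  rw [abs_le]
  constructor <;>
    linarith [m1.1, m1.2, m2.1, m2.2, q2.1, q2.2, q5'.1, q5'.2]

/-- the bound for every integer up to `x`, uniformly -/
lemma dev_all {C V : ℝ} (hC : Mer C) (hV : 1 ≤ V) {n : ℕ} (hn : 1 ≤ n)
    (hlarge : 1500 * V ≤ Real.log n → 100 ≤ Real.log n ∧ 4 * Real.log (Real.log n) ≤ Real.log n ∧
      VV (Real.log n) ≤ V) :
    |S n - Real.log (Real.log n) / 2| ≤ Real.log V / 2 + 2000 + 8 * C := by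
  have hC0 : 0 ≤ C := (abs_nonneg _).trans (hC 2 le_rfl)
  have hlV : 0 ≤ Real.log V := Real.log_nonneg hV
  rcases Nat.lt_or_ge n 2 with h | h
  · have h1 := dev_trivial (L := Real.exp 1) hC (by rw [Real.log_exp]) hn (by
      have : n = 1 := by omega
      rw [this, Nat.cast_one, Real.log_one]
      exact (Real.exp_pos 1).le)
    rw [Real.log_exp] at h1
    linarith
  · have h1 := abs_le.mp (upper_part hC hV le_rfl h hlarge)
    have h2 := PS_add (fun p => ind p n) (Nat.zero_le 2) h
    have h3 := PS_ind_nonneg n 0 2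
    have h4 := PS_ind_le n 0 2
    have h5 := abs_le.mp (PS_mertens hC le_rfl)
    have h6 := loglog_two
    have h7 : Real.log (3000 * V) ≤ Real.log V + 2999 := by
      rw [Real.log_mul (by norm_num) (by linarith)]
      have := Real.log_le_sub_one_of_pos (x := 3000) (by norm_num)
      linarith
    have h8 : max 0 (Real.log (3000 * V) - Real.log (Real.log (2 : ℕ))) ≤ Real.log V + 3000 := by
      refine max_le (by linarith) ?_
      push_cast
      linarith
    push_cast at h1 h5 h8
    rw [S_eq, ← h2, abs_le]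
    push_cast
    constructor <;> linarith [h1.1, h1.2, h5.1, h5.2]

theorem interval {C : ℝ} (hC : Mer C) : ∃ x₀ : ℕ, ∀ x t H : ℕ, ∀ T : ℝ, x₀ ≤ x → 1 ≤ H →
    t + H ≤ x → 0 < T → T ≤ Real.log H →
    (((Ioc t (t + H)).filter fun n : ℕ =>
      Real.log (Real.log H / T) / 2 + Real.log (max 1 (VV (Real.log x) / T)) / 2 +
        Real.log (Real.log (Real.log x)) / 2 + (5000 + 10 * C) <
        |S n - Real.log (Real.log n) / 2|).card : ℝ) ≤ Real.sqrt H * Real.exp T := by
  classical
  have hC0 : 0 ≤ C := (abs_nonneg _).trans (hC 2 le_rfl)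
  refine ⟨⌈Real.exp 16⌉₊, fun x t H T hx hH htH hT hTH => ?_⟩
  have hx1 : Real.exp 16 ≤ x := (Nat.le_ceil _).trans (by exact_mod_cast hx)
  have hx0 : (0 : ℝ) < x := lt_of_lt_of_le (Real.exp_pos _) hx1
  obtain ⟨X, hXd⟩ : ∃ X : ℝ, X = Real.log x := ⟨_, rfl⟩
  obtain ⟨L, hLd⟩ : ∃ L : ℝ, L = Real.log H := ⟨_, rfl⟩
  rw [← hXd, ← hLd]
  rw [← hLd] at hTH
  have hX16 : 16 ≤ X := by rw [hXd, Real.le_log_iff_exp_le hx0]; exact hx1
  have hX0 : 0 < X := by linarith
  have hlogX : 1 ≤ Real.log X := by
    rw [Real.le_log_iff_exp_le hX0]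
    have := Real.exp_one_lt_d9
    linarith
  have hloglogX : 0 ≤ Real.log (Real.log X) := Real.log_nonneg hlogX
  have hLX : L ≤ X := by
    rw [hXd, hLd]
    exact Real.log_le_log (by exact_mod_cast hH) (by exact_mod_cast (by omega : H ≤ x))
  have hL0 : 0 < L := lt_of_lt_of_le hT hTH
  obtain ⟨V, hVd⟩ : ∃ V : ℝ, V = VV X := ⟨_, rfl⟩
  rw [← hVd]
  have hV1 : 1 ≤ V := by
    rw [hVd]
    refine VV_ge_one (le_trans ?_ hX16)
    have := Real.exp_one_lt_d9
    linarith
  -- the size condition
  have hlarge : ∀ n ∈ Ioc t (t + H), 1500 * V ≤ Real.log n → 100 ≤ Real.log n ∧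
      4 * Real.log (Real.log n) ≤ Real.log n ∧ VV (Real.log n) ≤ V := by
    intro n hn h1
    rw [mem_Ioc] at hn
    have h2 : 1500 ≤ Real.log n := by linarith
    have hn0 : (0 : ℝ) < n := by exact_mod_cast (by omega : 0 < n)
    have h3 : Real.log n ≤ X := by
      rw [hXd]
      exact Real.log_le_log hn0 (by exact_mod_cast (by omega : n ≤ x))
    refine ⟨by linarith, ?_, ?_⟩
    · have h4 : Real.log (Real.log n) = 2 * Real.log (Real.sqrt (Real.log n)) := by
        rw [Real.log_sqrt (by linarith)]; ring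
      have h5 := Real.log_le_sub_one_of_pos (x := Real.sqrt (Real.log n))
        (Real.sqrt_pos.mpr (by linarith))
      have h6 : Real.sqrt (Real.log n) * Real.sqrt (Real.log n) = Real.log n :=
        Real.mul_self_sqrt (by linarith)
      have h7 : 8 ≤ Real.sqrt (Real.log n) := by
        rw [show (8 : ℝ) = Real.sqrt (8 ^ 2) by rw [Real.sqrt_sq (by norm_num)]]
        exact Real.sqrt_le_sqrt (by linarith)
      rw [h4]
      nlinarith
    · rw [hVd]; exact VV_mono (by linarith) h3
  have hmax1 := le_max_left 1 (V / T)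
  have hmax2 := le_max_right 1 (V / T)
  have hlmax1 : 0 ≤ Real.log (max 1 (V / T)) := Real.log_nonneg hmax1
  have hlmax2 : Real.log V - Real.log T ≤ Real.log (max 1 (V / T)) := by
    rw [← log_div_sub (by linarith) hT]
    exact Real.log_le_log (by positivity) hmax2
  rw [log_div_sub hL0 hT]
  have hlLT : Real.log T ≤ Real.log L := Real.log_le_log hT hTH
  -- parameters
  obtain ⟨M, hMd⟩ : ∃ M : ℝ, M = max L 16 := ⟨_, rfl⟩
  have hML : L ≤ M := by rw [hMd]; exact le_max_left _ _
  have hM16 : 16 ≤ M := by rw [hMd]; exact le_max_right _ _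
  have hMX : M ≤ X := by rw [hMd]; exact max_le hLX hX16
  have hlogM : 1 ≤ Real.log M := by
    rw [Real.le_log_iff_exp_le (by linarith)]
    have := Real.exp_one_lt_d9
    linarith
  have hlogMX : Real.log M ≤ Real.log X := Real.log_le_log (by linarith) hMX
  have hllM : Real.log (Real.log M) ≤ Real.log (Real.log X) := Real.log_le_log (by linarith) hlogMX
  set a : ℕ := ⌈36 * M * Real.log M / T⌉₊ with ha
  set b : ℕ := ⌊T / 4⌋₊ with hb
  have hq : 36 ≤ 36 * M * Real.log M / T := by
    rw [le_div_iff₀ hT]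
    nlinarith
  have ha0 : 36 * M * Real.log M / T ≤ a := Nat.le_ceil _
  have ha1 : 1 ≤ a := by
    have : (1 : ℝ) ≤ a := by linarith
    exact_mod_cast this
  have ha2 : (a : ℝ) ≤ 36 * M * Real.log M / T + 1 := (Nat.ceil_lt_add_one (by linarith)).le
  have ha3 : (a : ℝ) ≤ 37 * M * Real.log M / T := by
    have h1 : 1 ≤ M * Real.log M / T := by
      have : 36 * M * Real.log M / T = 36 * (M * Real.log M / T) := by ring
      linarith
    have h2 : 37 * M * Real.log M / T = 36 * M * Real.log M / T + M * Real.log M / T := by ring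
    linarith
  have ha4 : 36 * M * Real.log M ≤ T * a := by
    rw [div_le_iff₀ hT] at ha0
    linarith
  have hb1 : (b : ℝ) ≤ T / 4 := Nat.floor_le (by positivity)
  have hb2 : T / 4 < b + 1 := Nat.lt_floor_add_one _
  rcases Nat.lt_or_ge b a with hba | hab
  · -- the trivial range
    have h1 : (b : ℝ) + 1 ≤ a := by exact_mod_cast hba
    have h2 : T / 4 < 37 * M * Real.log M / T := by linarith
    rw [lt_div_iff₀ hT] at h2
    have h3 : T ^ 2 ≤ 148 * M * Real.log M := by nlinarith
    have h4 : 2 * Real.log T ≤ 160 + Real.log L + Real.log (Real.log X) := by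
      rcases le_total L 16 with h16 | h16
      · have h5 : Real.log T ≤ 15 := by
          have := Real.log_le_sub_one_of_pos hT
          linarith
        linarith
      · have hM' : M = L := by rw [hMd]; exact max_eq_left h16
        have h5 := Real.log_le_log (by positivity) h3
        rw [Real.log_pow, Real.log_mul (by positivity) (by positivity),
          Real.log_mul (by norm_num) (by positivity), hM'] at h5
        have h6 : Real.log 148 ≤ 147 := by
          have := Real.log_le_sub_one_of_pos (x := 148) (by norm_num)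
          linarith
        rw [hM'] at hllM
        push_cast at h5
        linarith
    have hempty : ((Ioc t (t + H)).filter fun n : ℕ =>
        (Real.log L - Real.log T) / 2 + Real.log (max 1 (V / T)) / 2 +
        Real.log (Real.log X) / 2 + (5000 + 10 * C) <
          |S n - Real.log (Real.log n) / 2|) = ∅ := by
      rw [filter_eq_empty_iff]
      intro n hn
      rw [not_lt]
      have hn1 : 1 ≤ n := by rw [mem_Ioc] at hn; omega
      have := dev_all hC hV1 hn1 (hlarge n hn)
      linarith
    rw [hempty, card_empty]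
    push_cast
    positivity
  · -- the main range
    have hab' : (a : ℝ) ≤ b := by exact_mod_cast hab
    have h1 : 144 * M * Real.log M ≤ T ^ 2 := by
      have : T * a ≤ T * (T / 4) := mul_le_mul_of_nonneg_left (hab'.trans hb1) hT.le
      nlinarith
    have h2 : 12 * Real.sqrt M ≤ T := by
      refine le_of_sq_le_sq ?_ hT.le
      rw [mul_pow, Real.sq_sqrt (by linarith)]
      nlinarith
    have h3 : 4 ≤ Real.sqrt M := by
      rw [show (4 : ℝ) = Real.sqrt (4 ^ 2) by rw [Real.sqrt_sq (by norm_num)]]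
      exact Real.sqrt_le_sqrt (by linarith)
    have h4 : Real.log M ≤ 2 * (Real.sqrt M - 1) := by
      have h5 : Real.log M = 2 * Real.log (Real.sqrt M) := by
        rw [Real.log_sqrt (by linarith)]
        ring
      rw [h5]
      have := Real.log_le_sub_one_of_pos (x := Real.sqrt M) (by linarith)
      linarith
    have hT12 : 4 * Real.log M + 12 ≤ T := by linarith
    have hML2 : M = L := by
      rw [hMd]
      refine max_eq_left ?_
      linarith
    have hHM : Real.log H ≤ M := by rw [← hLd]; exact hML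
    have hcount := count_bad (t := t) hH hHM hM16 (hTH.trans hML) hT12 ha1 ha4 hb1
    refine le_trans ?_ hcount
    refine Nat.cast_le.mpr (card_le_card fun n hn => ?_)
    rw [mem_filter] at hn ⊢
    obtain ⟨hnI, hdev⟩ := hn
    refine ⟨hnI, ?_⟩
    by_contra hgood
    have hn1 : 1 ≤ n := by rw [mem_Ioc] at hnI; omega
    obtain ⟨h2b, _⟩ := dev_good hC ha1 hab hb1 (by linarith) hn1 hgood
    have hblocks : ∀ j ∈ Ico a b, |fB (blk j) n| < 1 / (j : ℝ) ^ 2 := by
      unfold Bad at hgood
      rw [not_or] at hgood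
      have := hgood.2
      push Not at this
      exact this
    have hb1' : 1 ≤ b := ha1.trans hab
    have h2b0 : 2 ≤ 2 ^ b := two_le_pow hb1'
    have hmid := abs_le.mp (middle_part hC ha1 hab hblocks)
    have hup := abs_le.mp (upper_part hC hV1 h2b0 h2b (hlarge n hnI))
    rw [loglog_pow hb1'] at hup
    have hab2 : 2 ^ a ≤ 2 ^ b := Nat.pow_le_pow_right (by norm_num) hab
    have p1 := PS_add (fun p => ind p n) (Nat.zero_le (2 ^ a)) (hab2.trans h2b)
    have p1' := PS_add (fun p => ind p n) hab2 h2b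
    have p2 := PS_ind_nonneg n 0 (2 ^ a)
    have p3 := PS_ind_le n 0 (2 ^ a)
    have p4 := (PS_one_pow hC ha1).2
    have p5 : 0 ≤ Real.log a := Real.log_nonneg (by exact_mod_cast ha1)
    have p6 : Real.log a ≤ 36 + Real.log L + Real.log (Real.log X) - Real.log T := by
      have h5 := Real.log_le_log (by exact_mod_cast ha1) ha3
      rw [Real.log_div (by positivity) hT.ne', Real.log_mul (by positivity) (by positivity),
        Real.log_mul (by norm_num) (by positivity)] at h5
      have h6 : Real.log 37 ≤ 36 := by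
        have := Real.log_le_sub_one_of_pos (x := 37) (by norm_num)
        linarith
      rw [hML2] at h5 hllM
      linarith
    have p7 : Real.log T - 7 ≤ Real.log b := by
      have h8 : T / 8 ≤ b := by linarith
      have h9 := Real.log_le_log (by positivity) h8
      rw [Real.log_div hT.ne' (by norm_num)] at h9
      have h10 : Real.log 8 ≤ 7 := by
        have := Real.log_le_sub_one_of_pos (x := 8) (by norm_num)
        linarith
      linarith
    have p8 := loglog_two
    have p9 : max 0 (Real.log (3000 * V) - (Real.log b + Real.log (Real.log 2))) ≤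
        Real.log (max 1 (V / T)) + 3010 := by
      refine max_le (by linarith) ?_
      rw [Real.log_mul (by norm_num) (by linarith)]
      have := Real.log_le_sub_one_of_pos (x := 3000) (by norm_num)
      linarith
    have hfin : |S n - Real.log (Real.log n) / 2| ≤
        (Real.log L - Real.log T) / 2 + Real.log (max 1 (V / T)) / 2 +
        Real.log (Real.log X) / 2 + (5000 + 10 * C) := by
      rw [S_eq, ← p1, ← p1', abs_le]
      constructor <;> linarith [hmid.1, hmid.2, hup.1, hup.2]
    linarith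

end

end Pool.Agent.Work.VK
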