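import Mathlib
import Pool.Agent.Work.VK.Interval

/-! Halász-Montgomery for the sums over primes: the integers that are bad for the
Vinogradov-Korobov range of an interval lie in few short blocks. -/

namespace Pool.Agent.Work.VK

open Finset
open Pool.Agent.BV Pool.Agent.Work.BV
open Pool.Agent.Work.MP_e4117e_nt

noncomputable section

/-- the weight of a prime -/
def wt (p : ℕ) : ℝ := if p.Prime then 1 / (p : ℝ) else 0

lemma wt_nonneg (p : ℕ) : 0 ≤ wt p := by unfold wt; split_ifs <;> positivity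

lemma Es_wt (θ : ℝ) (P P' : ℕ) : Es θ P P' = ∑ p ∈ Ioc P P', (wt p : ℂ) * e (θ / p) := by
  unfold Es wt
  refine sum_congr rfl fun p _ => ?_
  split_ifs
  · push_cast; ring
  · simp

lemma Rs_wt (P P' : ℕ) : Rs P P' = ∑ p ∈ Ioc P P', wt p := rfl

/-- the dual sum -/
lemma dual (P P' : ℕ) (h : ℤ) (R : Finset ℕ) (c : ℕ → ℂ) (hc : ∀ n, ‖c n‖ ≤ 1) :
    ∑ p ∈ Ioc P P', wt p * ‖∑ n ∈ R, c n * e (h * n / p)‖ ^ 2 ≤
      ∑ n ∈ R, ∑ n' ∈ R, ‖Es (h * ((n : ℝ) - n')) P P'‖ := by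
  have key : ((∑ p ∈ Ioc P P', wt p * ‖∑ n ∈ R, c n * e (h * n / p)‖ ^ 2 : ℝ) : ℂ) =
      ∑ n ∈ R, ∑ n' ∈ R, c n * starRingEnd ℂ (c n') * Es (h * ((n : ℝ) - n')) P P' := by
    simp_rw [Es_wt, mul_sum]
    push_cast
    have h1 : ∀ p ∈ Ioc P P', (wt p : ℂ) * (‖∑ n ∈ R, c n * e (h * n / p)‖ : ℂ) ^ 2 =
        ∑ n ∈ R, ∑ n' ∈ R, c n * starRingEnd ℂ (c n') *
          ((wt p : ℂ) * e (h * ((n : ℝ) - n') / p)) := by
      intro p _
      rw [← Complex.mul_conj', map_sum, sum_mul_sum, mul_sum]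
      refine sum_congr rfl fun n _ => ?_
      rw [mul_sum]
      refine sum_congr rfl fun n' _ => ?_
      rw [map_mul, ← add_e_neg]
      have h2 : e (h * ((n : ℝ) - n') / p) = e (h * n / p) * e (-(h * n' / p)) := by
        rw [← add_e_add]; congr 1; ring
      rw [h2]
      ring
    rw [sum_congr rfl h1, sum_comm]
    refine sum_congr rfl fun n _ => ?_
    rw [sum_comm]
  have h0 : 0 ≤ ∑ p ∈ Ioc P P', wt p * ‖∑ n ∈ R, c n * e (h * n / p)‖ ^ 2 :=
    sum_nonneg fun p _ => mul_nonneg (wt_nonneg p) (by positivity)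
  have h2 : ∑ p ∈ Ioc P P', wt p * ‖∑ n ∈ R, c n * e (h * n / p)‖ ^ 2 =
      ‖((∑ p ∈ Ioc P P', wt p * ‖∑ n ∈ R, c n * e (h * n / p)‖ ^ 2 : ℝ) : ℂ)‖ := by
    rw [Complex.norm_real, Real.norm_eq_abs, abs_of_nonneg h0]
  rw [h2, key]
  refine (norm_sum_le _ _).trans (sum_le_sum fun n _ => (norm_sum_le _ _).trans
    (sum_le_sum fun n' _ => ?_))
  rw [norm_mul, norm_mul, RCLike.norm_conj]
  calc ‖c n‖ * ‖c n'‖ * ‖Es (h * ((n : ℝ) - n')) P P'‖
      ≤ 1 * 1 * ‖Es (h * ((n : ℝ) - n')) P P'‖ := by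
        refine mul_le_mul_of_nonneg_right ?_ (norm_nonneg _)
        exact mul_le_mul (hc n) (hc n') (norm_nonneg _) zero_le_one
    _ = _ := by ring

/-- Halász-Montgomery -/
theorem HM {P P' : ℕ} {h : ℤ} {R : Finset ℕ} {B δ : ℝ} (hδ : 0 ≤ δ) (hB : 0 ≤ B)
    (h1 : ∀ n ∈ R, δ ≤ ‖Es (h * n) P P'‖)
    (h2 : ∀ n ∈ R, ∀ n' ∈ R, n' < n → ‖Es (h * ((n - n' : ℕ) : ℝ)) P P'‖ ≤ B) :
    δ ^ 2 * (R.card : ℝ) ^ 2 ≤ Rs P P' * (R.card * Rs P P' + (R.card : ℝ) ^ 2 * B) := by
  classical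
  obtain ⟨c, hc⟩ : ∃ c : ℕ → ℂ, ∀ n, ‖c n‖ ≤ 1 ∧
      c n * Es (h * n) P P' = (‖Es (h * n) P P'‖ : ℂ) := by
    choose c hc using fun n : ℕ => show ∃ z : ℂ, ‖z‖ ≤ 1 ∧
        z * Es (h * n) P P' = (‖Es (h * n) P P'‖ : ℂ) by
      by_cases h0 : Es (h * n) P P' = 0
      · exact ⟨0, by simp, by simp [h0]⟩
      · refine ⟨(‖Es (h * n) P P'‖ : ℂ) / Es (h * n) P P', ?_, ?_⟩
        · rw [norm_div, Complex.norm_real, norm_norm, div_self (norm_ne_zero_iff.mpr h0)]
        · rw [div_mul_cancel₀ _ h0]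
    exact ⟨c, hc⟩
  set N : ℝ := (R.card : ℝ) with hN
  have hN0 : 0 ≤ N := Nat.cast_nonneg _
  have hR0 := Rs_nonneg P P'
  -- the sum
  have s1 : δ * N ≤ ∑ n ∈ R, ‖Es (h * n) P P'‖ := by
    have := card_nsmul_le_sum R (fun n => ‖Es (h * n) P P'‖) δ h1
    rw [nsmul_eq_mul] at this
    linarith
  have s2 : ∑ n ∈ R, ‖Es (h * n) P P'‖ ≤
      ∑ p ∈ Ioc P P', wt p * ‖∑ n ∈ R, c n * e (h * n / p)‖ := by
    have e1 : ((∑ n ∈ R, ‖Es (h * n) P P'‖ : ℝ) : ℂ) =
        ∑ p ∈ Ioc P P', (wt p : ℂ) * ∑ n ∈ R, c n * e (h * n / p) := by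
      rw [Complex.ofReal_sum]
      calc ∑ n ∈ R, ((‖Es (h * n) P P'‖ : ℝ) : ℂ) = ∑ n ∈ R, c n * Es (h * n) P P' :=
            sum_congr rfl fun n _ => (hc n).2.symm
        _ = ∑ n ∈ R, ∑ p ∈ Ioc P P', (wt p : ℂ) * (c n * e (h * n / p)) := by
            refine sum_congr rfl fun n _ => ?_
            rw [Es_wt, mul_sum]
            refine sum_congr rfl fun p _ => ?_
            ring
        _ = _ := by
            rw [sum_comm]
            refine sum_congr rfl fun p _ => ?_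
            rw [mul_sum]
    have e2 : ∑ n ∈ R, ‖Es (h * n) P P'‖ = ‖((∑ n ∈ R, ‖Es (h * n) P P'‖ : ℝ) : ℂ)‖ := by
      rw [Complex.norm_real, Real.norm_eq_abs, abs_of_nonneg (sum_nonneg fun _ _ => norm_nonneg _)]
    rw [e2, e1]
    refine (norm_sum_le _ _).trans (sum_le_sum fun p _ => ?_)
    rw [norm_mul, Complex.norm_real, Real.norm_eq_abs, abs_of_nonneg (wt_nonneg p)]
  have s3 : (∑ p ∈ Ioc P P', wt p * ‖∑ n ∈ R, c n * e (h * n / p)‖) ^ 2 ≤
      (∑ p ∈ Ioc P P', wt p) *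
        ∑ p ∈ Ioc P P', wt p * ‖∑ n ∈ R, c n * e (h * n / p)‖ ^ 2 := by
    refine sum_sq_le_sum_mul_sum_of_sq_le_mul _ (fun p _ => wt_nonneg p)
      (fun p _ => mul_nonneg (wt_nonneg p) (by positivity)) fun p _ => le_of_eq ?_
    ring
  have s4 := dual P P' h R c fun n => (hc n).1
  have s5 : ∑ n ∈ R, ∑ n' ∈ R, ‖Es (h * ((n : ℝ) - n')) P P'‖ ≤ N * Rs P P' + N ^ 2 * B := by
    have h3 : ∀ n ∈ R, ∑ n' ∈ R, ‖Es (h * ((n : ℝ) - n')) P P'‖ ≤ Rs P P' + N * B := by
      intro n hn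
      rw [← add_sum_erase R _ hn]
      have h4 : ∑ n' ∈ R.erase n, ‖Es (h * ((n : ℝ) - n')) P P'‖ ≤ N * B := by
        have h5 : ∀ n' ∈ R.erase n, ‖Es (h * ((n : ℝ) - n')) P P'‖ ≤ B := by
          intro n' hn'
          obtain ⟨hne, hn'R⟩ := mem_erase.mp hn'
          rcases lt_or_gt_of_ne hne with hlt | hlt
          · have := h2 n hn n' hn'R hlt
            rwa [Nat.cast_sub hlt.le] at this
          · have := h2 n' hn'R n hn hlt
            rw [Nat.cast_sub hlt.le] at this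
            have e1 : (h : ℝ) * ((n : ℝ) - n') = -(h * ((n' : ℝ) - n)) := by ring
            rw [e1, Es_neg, RCLike.norm_conj]
            exact this
        refine (sum_le_card_nsmul _ _ _ h5).trans ?_
        rw [nsmul_eq_mul]
        refine mul_le_mul_of_nonneg_right ?_ hB
        rw [hN]
        exact_mod_cast card_erase_le
      exact add_le_add (Es_zero_le _ _ _) h4
    refine (sum_le_card_nsmul _ _ _ h3).trans (le_of_eq ?_)
    rw [nsmul_eq_mul]
    ring
  have s6 : (δ * N) ^ 2 ≤ (∑ p ∈ Ioc P P', wt p * ‖∑ n ∈ R, c n * e (h * n / p)‖) ^ 2 :=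
    pow_le_pow_left₀ (mul_nonneg hδ hN0) (s1.trans s2) 2
  calc δ ^ 2 * N ^ 2 = (δ * N) ^ 2 := by ring
    _ ≤ _ := s6
    _ ≤ _ := s3
    _ ≤ Rs P P' * (N * Rs P P' + N ^ 2 * B) := mul_le_mul_of_nonneg_left (s4.trans s5) hR0

/-- the number of blocks of one parity that contain a bad integer -/
lemma card_blocks {P P' : ℕ} {h : ℤ} {A : Finset ℕ} {M : ℕ} {B δ W : ℝ} (hM : 0 < M) (hδ : 0 < δ)
    (hB : 0 ≤ B) (hW : Rs P P' ≤ W) (hBW : W * B ≤ δ ^ 2 / 2)
    (h1 : ∀ n ∈ A, δ ≤ ‖Es (h * n) P P'‖)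
    (hpar : ∀ n ∈ A, ∀ n' ∈ A, (n / M) % 2 = (n' / M) % 2)
    (h2 : ∀ n ∈ A, ∀ n' ∈ A, M < n - n' → ‖Es (h * ((n - n' : ℕ) : ℝ)) P P'‖ ≤ B) :
    (((A.image fun n => n / M)).card : ℝ) ≤ 2 * W ^ 2 / δ ^ 2 := by
  classical
  have hex : ∀ b ∈ A.image (fun n => n / M), ∃ n, n ∈ A ∧ n / M = b := by
    intro b hb
    obtain ⟨n, hn, hnb⟩ := mem_image.mp hb
    exact ⟨n, hn, hnb⟩
  choose! rep hrA hrb using hex
  set 𝓑 := A.image (fun n => n / M) with h𝓑
  set R := 𝓑.image rep with hR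
  have hcard : R.card = 𝓑.card := by
    refine card_image_of_injOn fun b hb b' hb' hbb' => ?_
    rw [← hrb b hb, ← hrb b' hb', hbb']
  have hRA : ∀ n ∈ R, n ∈ A := by
    intro n hn
    obtain ⟨b, hb, rfl⟩ := mem_image.mp hn
    exact hrA b hb
  have hdist : ∀ n ∈ R, ∀ n' ∈ R, n' < n → M < n - n' := by
    intro n hn n' hn' hlt
    obtain ⟨b, hb, rfl⟩ := mem_image.mp hn
    obtain ⟨b', hb', rfl⟩ := mem_image.mp hn'
    have hne : b ≠ b' := by rintro rfl; exact lt_irrefl _ hlt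
    have hb1 := hrb b hb
    have hb2 := hrb b' hb'
    have hp := hpar _ (hrA b hb) _ (hrA b' hb')
    rw [hb1, hb2] at hp
    have hle : rep b' / M ≤ rep b / M := Nat.div_le_div_right hlt.le
    rw [hb1, hb2] at hle
    have h3 : b' + 2 ≤ b := by omega
    have h4 : b * M ≤ rep b := by
      have := Nat.div_mul_le_self (rep b) M
      rwa [hb1] at this
    have h5 : rep b' < (b' + 1) * M := by
      have h6 := Nat.lt_div_mul_add hM (a := rep b')
      rw [hb2] at h6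
      linarith
    have h7 : (b' + 2) * M ≤ b * M := Nat.mul_le_mul_right _ h3
    have h8 : (b' + 2) * M = (b' + 1) * M + M := by ring
    omega
  have hmain := HM (P := P) (P' := P') (h := h) (R := R) hδ.le hB
    (fun n hn => h1 n (hRA n hn))
    (fun n hn n' hn' hlt => h2 n (hRA n hn) n' (hRA n' hn') (hdist n hn n' hn' hlt))
  rw [hcard] at hmain
  set N : ℝ := (𝓑.card : ℝ) with hN
  have hN0 : 0 ≤ N := Nat.cast_nonneg _
  have hR0 := Rs_nonneg P P'
  have hW0 : 0 ≤ W := hR0.trans hW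
  have h3 : δ ^ 2 * N ^ 2 ≤ N * W ^ 2 + N ^ 2 * (δ ^ 2 / 2) := by
    calc δ ^ 2 * N ^ 2 ≤ Rs P P' * (N * Rs P P' + N ^ 2 * B) := hmain
      _ ≤ W * (N * W + N ^ 2 * B) := by gcongr
      _ = N * W ^ 2 + N ^ 2 * (W * B) := by ring
      _ ≤ _ := by gcongr
  rcases eq_or_lt_of_le hN0 with h0 | h0
  · rw [← h0]; positivity
  · rw [le_div_iff₀ (by positivity)]
    have h4 : N * (N * δ ^ 2) ≤ N * (2 * W ^ 2) := by nlinarith
    exact le_of_mul_le_mul_left h4 h0

/-- the lower end of the long range for intervals of length `exp T` -/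
def Plo (T : ℝ) : ℕ := ⌈Real.exp (1500 * VV T)⌉₊

/-- the upper end -/
def Phi (T : ℝ) : ℕ := ⌊Real.exp (T / 100)⌋₊

/-- the integer `n` is bad for the range `(Plo T, Phi T]` -/
def Bd (T : ℝ) (n : ℕ) : Prop := 1 < |Dv n (Plo T) (Phi T)|

lemma four_log_le {y : ℝ} (hy : 100 ≤ y) : 4 * Real.log y ≤ y := by
  have h4 : Real.log y = 2 * Real.log (Real.sqrt y) := by
    rw [Real.log_sqrt (by linarith)]; ring
  have h5 := Real.log_le_sub_one_of_pos (x := Real.sqrt y) (Real.sqrt_pos.mpr (by linarith))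
  have h6 : Real.sqrt y * Real.sqrt y = y := Real.mul_self_sqrt (by linarith)
  have h7 : 8 ≤ Real.sqrt y := by
    rw [show (8 : ℝ) = Real.sqrt (8 ^ 2) by rw [Real.sqrt_sq (by norm_num)]]
    exact Real.sqrt_le_sqrt (by linarith)
  rw [h4]
  nlinarith

lemma Rs_sqrt {C T : ℝ} (hC : Mer C) (hT : (10 + C) ^ 4 ≤ T) {P P' : ℕ}
    (hP' : Real.log P' ≤ T / 100) : Rs P P' ≤ Real.sqrt T := by
  have hC0 : 0 ≤ C := (abs_nonneg _).trans (hC 2 le_rfl)
  have hT4 : (10 : ℝ) ^ 4 ≤ T := le_trans (pow_le_pow_left₀ (by norm_num) (by linarith) 4) hT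
  obtain ⟨w, hw⟩ : ∃ w : ℝ, w = Real.sqrt (Real.sqrt T) := ⟨_, rfl⟩
  have hT0 : 0 < T := lt_of_lt_of_le (by norm_num) hT4
  have hw2 : w ^ 2 = Real.sqrt T := by rw [hw, Real.sq_sqrt (Real.sqrt_nonneg _)]
  have hw4 : w ^ 4 = T := by
    calc w ^ 4 = (w ^ 2) ^ 2 := by ring
      _ = T := by rw [hw2, Real.sq_sqrt hT0.le]
  have hw0 : 0 ≤ w := by rw [hw]; exact Real.sqrt_nonneg _
  have hw1 : 10 + C ≤ w := le_of_pow_le_pow_left₀ (n := 4) (by norm_num) hw0 (by rw [hw4]; exact hT)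
  have hmain : Rs P P' ≤ Real.log T + C := by
    rcases Nat.lt_or_ge P' 2 with h | h
    · have h0 : Rs P P' = 0 := by
        unfold Rs
        refine sum_eq_zero fun p hp => ?_
        rw [mem_Ioc] at hp
        rw [if_neg]
        intro hpp
        have := hpp.two_le
        omega
      rw [h0]
      have : 0 ≤ Real.log T := Real.log_nonneg (by linarith)
      linarith
    · have h1 : Rs P P' ≤ PS (fun _ => 1) 0 P' := by
        unfold Rs PS
        refine sum_le_sum_of_subset_of_nonneg ?_ fun p _ _ => by split_ifs <;> positivity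
        intro a ha
        rw [mem_Ioc] at ha ⊢
        omega
      have h2 := (abs_le.mp (PS_mertens hC h)).2
      have h3 : Real.log (Real.log P') ≤ Real.log T := by
        refine Real.log_le_log (Real.log_pos (by exact_mod_cast h)) (by linarith)
      linarith
  have hlog : Real.log T ≤ 4 * w := by
    rw [← hw4, Real.log_pow]
    have := Real.log_le_sub_one_of_pos (x := w) (by linarith)
    push_cast
    linarith
  rw [← hw2]
  nlinarith

/-- a bad integer has a large exponential sum -/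
lemma Bd_large {C T : ℝ} (hC : Mer C) (hT : (10 + C) ^ 4 ≤ T) {n : ℕ} (hn : Bd T n) :
    ∃ h : ℤ, h ≠ 0 ∧ |h| ≤ (2 * ⌊T⌋₊ + 1 : ℕ) ∧
      1 / ((⌊T⌋₊ : ℝ) + 1) ≤ ‖Es (h * n) (Plo T) (Phi T)‖ := by
  have hC0 : 0 ≤ C := (abs_nonneg _).trans (hC 2 le_rfl)
  have hT4 : (10 : ℝ) ^ 4 ≤ T := le_trans (pow_le_pow_left₀ (by norm_num) (by linarith) 4) hT
  by_contra hcon
  push Not at hcon
  set k := ⌊T⌋₊ with hk
  have hk1 : T < k + 1 := Nat.lt_floor_add_one _
  have hk0 : (0 : ℝ) ≤ k := Nat.cast_nonneg _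
  have hs : Small (1 / ((k : ℝ) + 1)) (2 * k + 1) n (Plo T) (Phi T) := by
    intro h h0 hle
    exact (hcon h h0 (by exact_mod_cast hle)).le
  have hlP : Real.log (Phi T) ≤ T / 100 := by
    have h1 : ((Phi T : ℕ) : ℝ) ≤ Real.exp (T / 100) := Nat.floor_le (Real.exp_pos _).le
    rcases Nat.eq_zero_or_pos (Phi T) with h0 | h0
    · rw [h0, Nat.cast_zero, Real.log_zero]; linarith
    · have := Real.log_le_log (by exact_mod_cast h0) h1
      rwa [Real.log_exp] at this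
  have hR := Rs_sqrt (P := Plo T) hC hT hlP
  have hR0 := Rs_nonneg (Plo T) (Phi T)
  have hD := Dv_le (by positivity) hs
  have ha : aj k * Rs (Plo T) (Phi T) ≤ 1 := by
    have h1 : aj k * Rs (Plo T) (Phi T) ≤ aj k * Real.sqrt T :=
      mul_le_mul_of_nonneg_left hR (aj_pos k).le
    refine h1.trans ?_
    refine le_of_pow_le_pow_left₀ two_ne_zero zero_le_one ?_
    rw [mul_pow, Real.sq_sqrt (by linarith), one_pow]
    refine le_trans ?_ (aj_sq k)
    exact mul_le_mul_of_nonneg_left (by linarith) (by positivity)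
  have h2 : ((k : ℝ) + 1) / 2 * (1 / (k + 1)) = 1 / 2 := by field_simp
  rw [h2] at hD
  unfold Bd at hn
  linarith

/-- one step: the bad integers of an interval of length `exp T` lie in few blocks of length
`exp (T / 2)` -/
theorem step {C T : ℝ} (hC : Mer C) (hT : (10 + C) ^ 4 ≤ T) {t H : ℕ} (hH : (H : ℝ) ≤ Real.exp T) :
    ∃ 𝓑 : Finset ℕ, (𝓑.card : ℝ) ≤ T ^ 5 ∧
      ∀ n ∈ Ico t (t + H), Bd T n → n / ⌊Real.exp (T / 2)⌋₊ ∈ 𝓑 := by
  classical
  have hC0 : 0 ≤ C := (abs_nonneg _).trans (hC 2 le_rfl)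
  have hT4 : (10 : ℝ) ^ 4 ≤ T := le_trans (pow_le_pow_left₀ (by norm_num) (by linarith) 4) hT
  have hT0 : 0 < T := lt_of_lt_of_le (by norm_num) hT4
  set P := Plo T with hP
  set P' := Phi T with hP'
  set k := ⌊T⌋₊ with hk
  set M := ⌊Real.exp (T / 2)⌋₊ with hM
  have hk1 : T < k + 1 := Nat.lt_floor_add_one _
  have hk2 : (k : ℝ) ≤ T := Nat.floor_le hT0.le
  have hexp : 2 ≤ Real.exp (T / 2) := by
    have := Real.add_one_le_exp (T / 2)
    linarith
  have hM1 : Real.exp (T / 2) < M + 1 := Nat.lt_floor_add_one _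
  have hM0 : 0 < M := by
    have : (0 : ℝ) < M := by linarith
    exact_mod_cast this
  have hlM : T / 2 - 1 ≤ Real.log M := by
    have h1 : Real.exp (T / 2) / 2 ≤ M := by linarith
    have h2 := Real.log_le_log (by positivity) h1
    rw [Real.log_div (Real.exp_pos _).ne' (by norm_num), Real.log_exp] at h2
    have := Real.log_two_lt_d9
    linarith
  have hlP : Real.log P' ≤ T / 100 := by
    have h1 : (P' : ℝ) ≤ Real.exp (T / 100) := Nat.floor_le (Real.exp_pos _).le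
    rcases Nat.eq_zero_or_pos P' with h0 | h0
    · rw [h0, Nat.cast_zero, Real.log_zero]; linarith
    · have := Real.log_le_log (by exact_mod_cast h0) h1
      rwa [Real.log_exp] at this
  have hlP0 : 1500 * VV T ≤ Real.log P := by
    have h1 : Real.exp (1500 * VV T) ≤ P := Nat.le_ceil _
    have := Real.log_le_log (Real.exp_pos _) h1
    rwa [Real.log_exp] at this
  rcases Nat.lt_or_ge P' P with hlt | hge
  · refine ⟨∅, by rw [card_empty]; push_cast; positivity, fun n _ hn => ?_⟩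
    exfalso
    unfold Bd Dv at hn
    rw [Ioc_eq_empty (by omega), sum_empty, abs_zero] at hn
    linarith
  set δ : ℝ := 1 / ((k : ℝ) + 1) with hδ
  have hk0 : (0 : ℝ) ≤ k := Nat.cast_nonneg _
  have hδ0 : 0 < δ := by positivity
  set B : ℝ := 1 / (48 / 100 * T) ^ 4 with hB
  have hB0 : 0 ≤ B := by positivity
  set W : ℝ := Real.sqrt T with hW
  have hRW : Rs P P' ≤ W := Rs_sqrt hC hT hlP
  have hW2 : W ^ 2 = T := Real.sq_sqrt hT0.le
  have hW1 : 100 ≤ W := by
    rw [hW, show (100 : ℝ) = Real.sqrt (100 ^ 2) by rw [Real.sqrt_sq (by norm_num)]]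
    exact Real.sqrt_le_sqrt (by linarith)
  have hBW : W * B ≤ δ ^ 2 / 2 := by
    rw [hB, hδ, one_div_pow, div_div, mul_one_div, div_le_div_iff₀ (by positivity) (by positivity), one_mul]
    have h1 : ((k : ℝ) + 1) ^ 2 ≤ (2 * T) ^ 2 := pow_le_pow_left₀ (by positivity) (by linarith) 2
    have h2 : W * (((k : ℝ) + 1) ^ 2 * 2) ≤ W * ((2 * T) ^ 2 * 2) := by gcongr
    refine h2.trans ?_
    have h3 : W * 8 * T ^ 2 ≤ (48 / 100) ^ 4 * T ^ 4 := by
      have h4 : W * 8 ≤ (48 / 100) ^ 4 * T ^ 2 := by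
        rw [← hW2]
        have : (48 / 100 : ℝ) ^ 4 * (W ^ 2) ^ 2 = (48 / 100) ^ 4 * W ^ 3 * W := by ring
        rw [this]
        have h5 : (100 : ℝ) ^ 3 ≤ W ^ 3 := pow_le_pow_left₀ (by norm_num) hW1 3
        nlinarith
      calc W * 8 * T ^ 2 ≤ (48 / 100) ^ 4 * T ^ 2 * T ^ 2 := by gcongr
        _ = _ := by ring
    calc W * ((2 * T) ^ 2 * 2) = W * 8 * T ^ 2 := by ring
      _ ≤ _ := h3
      _ = _ := by ring
  -- small sums for large differences
  have hsmall : ∀ h : ℤ, h ≠ 0 → |h| ≤ (2 * k + 1 : ℕ) → ∀ d : ℕ, M < d → d < H →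
      ‖Es (h * (d : ℝ)) P P'‖ ≤ B := by
    intro h h0 hle d hd1 hd2
    have hd0 : (0 : ℝ) < d := by exact_mod_cast (by omega : 0 < d)
    have hld1 : 48 / 100 * T ≤ Real.log d := by
      have h1 : Real.log M ≤ Real.log d :=
        Real.log_le_log (by exact_mod_cast hM0) (by exact_mod_cast hd1.le)
      linarith
    have hld2 : Real.log d ≤ T := by
      have h1 : (d : ℝ) ≤ Real.exp T := le_trans (by exact_mod_cast hd2.le) hH
      have := Real.log_le_log hd0 h1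
      rwa [Real.log_exp] at this
    have hld100 : 100 ≤ Real.log d := by linarith
    have hl0 : 0 ≤ Real.log (Real.log d) := Real.log_nonneg (by linarith)
    have hQ : 1500 ^ 3 * Real.log d ^ 2 * Real.log (Real.log d) ≤ Real.log P ^ 3 := by
      have h1 : VV (Real.log d) ≤ VV T := VV_mono (by linarith) hld2
      have h2 : 1500 * VV (Real.log d) ≤ Real.log P := by linarith
      have h3 := pow_le_pow_left₀ (mul_nonneg (by norm_num) (VV_nonneg (by linarith) hl0)) h2 3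
      rw [mul_pow, VV_cube (by linarith) hl0] at h3
      linarith
    have h2 : |(h : ℝ)| ≤ Real.log d ^ 3 := by
      have h3 : |(h : ℝ)| ≤ ((2 * k + 1 : ℕ) : ℝ) := by exact_mod_cast hle
      refine h3.trans ?_
      push_cast
      have h4 : (48 / 100 * T) ^ 3 ≤ Real.log d ^ 3 := pow_le_pow_left₀ (by positivity) hld1 3
      refine le_trans ?_ h4
      have h5 : (48 / 100 * T) ^ 3 = (48 / 100) ^ 3 * T ^ 2 * T := by ring
      have h6 : ((10 : ℝ) ^ 4) ^ 2 ≤ T ^ 2 := pow_le_pow_left₀ (by norm_num) hT4 2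
      rw [h5]
      nlinarith
    have h3 := Es_bound (P := P) (P' := P') (h := h) hld100 (four_log_le hld100) hQ hge
      (by linarith) h0 h2
    refine h3.trans ?_
    rw [hB]
    exact div_le_div_of_nonneg_left zero_le_one (by positivity)
      (pow_le_pow_left₀ (by positivity) hld1 4)
  -- the blocks
  set A : ℤ → ℕ → Finset ℕ := fun h ε => (Ico t (t + H)).filter fun n =>
    δ ≤ ‖Es (h * n) P P'‖ ∧ (n / M) % 2 = ε with hA
  set I : Finset ℤ := (Icc (-((2 * k + 1 : ℕ) : ℤ)) ((2 * k + 1 : ℕ) : ℤ)).erase 0 with hI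
  refine ⟨I.biUnion fun h => (range 2).biUnion fun ε => (A h ε).image fun n => n / M, ?_, ?_⟩
  · have hcb : ∀ h ∈ I, ∀ ε, (((A h ε).image fun n => n / M).card : ℝ) ≤ 2 * W ^ 2 / δ ^ 2 := by
      intro h hh ε
      obtain ⟨h0, hh'⟩ := mem_erase.mp hh
      rw [mem_Icc] at hh'
      refine card_blocks (h := h) hM0 hδ0 hB0 hRW hBW (fun n hn => ?_) (fun n hn n' hn' => ?_)
        (fun n hn n' hn' hd => ?_)
      · exact (mem_filter.mp hn).2.1
      · rw [(mem_filter.mp hn).2.2, (mem_filter.mp hn').2.2]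
      · have h3 := (mem_filter.mp hn).1
        have h4 := (mem_filter.mp hn').1
        rw [mem_Ico] at h3 h4
        exact hsmall h h0 (by rw [abs_le]; exact hh') _ hd (by omega)
    have hN : 2 * W ^ 2 / δ ^ 2 ≤ 8 * T ^ 3 := by
      rw [hW2, hδ, one_div_pow, div_div_eq_mul_div, div_one]
      have h1 : ((k : ℝ) + 1) ^ 2 ≤ (2 * T) ^ 2 := pow_le_pow_left₀ (by positivity) (by linarith) 2
      calc 2 * T * ((k : ℝ) + 1) ^ 2 ≤ 2 * T * (2 * T) ^ 2 := by gcongr
        _ = 8 * T ^ 3 := by ring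
    have h1 : ((I.biUnion fun h => (range 2).biUnion fun ε => (A h ε).image fun n => n / M).card : ℝ) ≤
        ∑ h ∈ I, ∑ ε ∈ range 2, (((A h ε).image fun n => n / M).card : ℝ) := by
      refine le_trans (Nat.cast_le.mpr card_biUnion_le) ?_
      push_cast
      refine sum_le_sum fun h _ => ?_
      refine le_trans (Nat.cast_le.mpr card_biUnion_le) ?_
      push_cast
      exact le_rfl
    refine h1.trans ?_
    have h2 : ∀ h ∈ I, ∑ ε ∈ range 2, (((A h ε).image fun n => n / M).card : ℝ) ≤ 16 * T ^ 3 := by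
      intro h hh
      rw [sum_range_succ, sum_range_one]
      have e1 := hcb h hh 0
      have e2 := hcb h hh 1
      linarith
    refine (sum_le_card_nsmul _ _ _ h2).trans ?_
    rw [nsmul_eq_mul]
    have h3 : (I.card : ℝ) ≤ 4 * T + 4 := by
      have h4 : I.card ≤ 4 * k + 3 := by
        rw [hI]
        refine card_erase_le.trans ?_
        rw [Int.card_Icc]
        omega
      have h5 : (I.card : ℝ) ≤ ((4 * k + 3 : ℕ) : ℝ) := by exact_mod_cast h4
      push_cast at h5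
      linarith
    have hT3 : 0 ≤ T ^ 3 := by positivity
    calc (I.card : ℝ) * (16 * T ^ 3) ≤ (4 * T + 4) * (16 * T ^ 3) := by gcongr
      _ = (64 * T + 64) * T ^ 3 := by ring
      _ ≤ T ^ 2 * T ^ 3 := by
          refine mul_le_mul_of_nonneg_right ?_ hT3
          nlinarith
      _ = T ^ 5 := by ring
  · intro n hn hbad
    obtain ⟨h, h0, hle, hbig⟩ := Bd_large hC hT hbad
    rw [mem_biUnion]
    refine ⟨h, ?_, ?_⟩
    · rw [hI, mem_erase, mem_Icc]
      exact ⟨h0, abs_le.mp hle⟩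
    · rw [mem_biUnion]
      refine ⟨(n / M) % 2, mem_range.mpr (Nat.mod_lt _ (by norm_num)), ?_⟩
      rw [mem_image]
      refine ⟨n, ?_, rfl⟩
      rw [hA]
      simp only [mem_filter]
      exact ⟨hn, hbig, trivial⟩

open Classical in
/-- the integers that are bad for `m` successive ranges -/
theorem rec_count {C : ℝ} (hC : Mer C) : ∀ (m : ℕ) (T : ℝ) (t H : ℕ),
    2 * (10 + C) ^ 4 ≤ T / 2 ^ m → (H : ℝ) ≤ Real.exp T →
    (((Ico t (t + H)).filter fun n => ∀ i < m, Bd (T / 2 ^ i) n).card : ℝ) ≤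
      (T ^ 5) ^ m * Real.exp (T / 2 ^ m) := by
  have hC0 : 0 ≤ C := (abs_nonneg _).trans (hC 2 le_rfl)
  have hpos : 0 < (10 + C) ^ 4 := by positivity
  intro m
  induction m with
  | zero =>
    intro T t H _ hH
    have h1 : ((Ico t (t + H)).filter fun n => ∀ i < 0, Bd (T / 2 ^ i) n).card ≤ H := by
      refine (card_filter_le _ _).trans (le_of_eq ?_)
      rw [Nat.card_Ico]; omega
    have h2 : (((Ico t (t + H)).filter fun n => ∀ i < 0, Bd (T / 2 ^ i) n).card : ℝ) ≤ H := by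
      exact_mod_cast h1
    simp only [pow_zero, one_mul, div_one]
    exact h2.trans hH
  | succ m ih =>
    intro T t H hT hH
    have h2m : (1 : ℝ) ≤ 2 ^ m := one_le_pow₀ (by norm_num)
    have hT0 : 0 ≤ T := by
      have : 0 < T / 2 ^ (m + 1) := by linarith
      by_contra hneg
      push Not at hneg
      have : T / 2 ^ (m + 1) < 0 := div_neg_of_neg_of_pos hneg (by positivity)
      linarith
    have hT1 : (10 + C) ^ 4 ≤ T := by
      have h3 : T / 2 ^ (m + 1) ≤ T := div_le_self hT0 (one_le_pow₀ (by norm_num))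
      linarith
    obtain ⟨𝓑, hcard, hcov⟩ := step hC hT1 (t := t) hH
    set M := ⌊Real.exp (T / 2)⌋₊ with hM
    have hM1 : (M : ℝ) ≤ Real.exp (T / 2) := Nat.floor_le (Real.exp_pos _).le
    have hM0 : 0 < M := by
      have h1 : Real.exp (T / 2) < M + 1 := Nat.lt_floor_add_one _
      have h2 : 1 ≤ Real.exp (T / 2) := Real.one_le_exp (by linarith)
      have : (0 : ℝ) < M := by linarith
      exact_mod_cast this
    have hhalf : T / 2 ^ (m + 1) = T / 2 / 2 ^ m := by rw [pow_succ, div_div, mul_comm]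
    have hsub : ((Ico t (t + H)).filter fun n => ∀ i < m + 1, Bd (T / 2 ^ i) n) ⊆
        𝓑.biUnion fun b => (Ico (b * M) (b * M + M)).filter fun n =>
          ∀ i < m, Bd (T / 2 / 2 ^ i) n := by
      intro n hn
      rw [mem_filter] at hn
      obtain ⟨hnI, hbad⟩ := hn
      rw [mem_biUnion]
      refine ⟨n / M, hcov n hnI ?_, ?_⟩
      · have := hbad 0 (Nat.succ_pos m)
        rwa [pow_zero, div_one] at this
      · rw [mem_filter, mem_Ico]
        refine ⟨⟨Nat.div_mul_le_self _ _, Nat.lt_div_mul_add hM0⟩, fun i hi => ?_⟩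
        have := hbad (i + 1) (by omega)
        rwa [pow_succ, mul_comm, ← div_div] at this
    have h1 := Nat.cast_le (α := ℝ).mpr ((card_le_card hsub).trans card_biUnion_le)
    refine h1.trans ?_
    push_cast
    have h2 : ∀ b ∈ 𝓑, (((Ico (b * M) (b * M + M)).filter fun n =>
        ∀ i < m, Bd (T / 2 / 2 ^ i) n).card : ℝ) ≤ (T ^ 5) ^ m * Real.exp (T / 2 ^ (m + 1)) := by
      intro b _
      refine (ih (T / 2) (b * M) M (by rw [← hhalf]; exact hT) hM1).trans ?_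
      rw [← hhalf]
      refine mul_le_mul_of_nonneg_right ?_ (Real.exp_pos _).le
      exact pow_le_pow_left₀ (by positivity) (pow_le_pow_left₀ (by positivity) (by linarith) 5) m
    refine (sum_le_card_nsmul _ _ _ h2).trans ?_
    rw [nsmul_eq_mul]
    calc (𝓑.card : ℝ) * ((T ^ 5) ^ m * Real.exp (T / 2 ^ (m + 1)))
        ≤ T ^ 5 * ((T ^ 5) ^ m * Real.exp (T / 2 ^ (m + 1))) :=
          mul_le_mul_of_nonneg_right hcard (by positivity)
      _ = _ := by ring

end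

end Pool.Agent.Work.VK
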