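import Mathlib
import Pool.Agent.Work.VK.Interval
import Pool.Agent.Work.MP_e4117e_nt.Sharp

/-! The second order term is attained in short intervals. -/

namespace Pool.Agent.Work.VK

open Finset
open Pool.Agent.Work.MP_e4117e_nt

noncomputable section

open Classical in
lemma counting' {t H lo hi : ℕ} {P Q : ℕ → Prop} {g : ℕ → ℕ}
    (hg : Set.InjOn g (Ioc lo hi : Finset ℕ))
    (hgx : ∀ i ∈ Ioc lo hi, t < g i ∧ g i ≤ t + H) (hP : ∀ i ∈ Ioc lo hi, ¬ Q (g i) → P (g i)) :
    ((hi - lo : ℕ) : ℝ) ≤ (((Ioc t (t + H)).filter P).card : ℝ) +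
      (((Ioc t (t + H)).filter Q).card : ℝ) := by
  have h1 : (Ioc lo hi).image g ⊆ (Ioc t (t + H)).filter P ∪ (Ioc t (t + H)).filter Q := by
    intro n hn
    rw [mem_image] at hn
    obtain ⟨i, hi, rfl⟩ := hn
    obtain ⟨h2, h3⟩ := hgx i hi
    rw [mem_union, mem_filter, mem_filter, mem_Ioc]
    by_cases hQ : Q (g i)
    · exact Or.inr ⟨⟨h2, h3⟩, hQ⟩
    · exact Or.inl ⟨⟨h2, h3⟩, hP i hi hQ⟩
  have h2 := (card_le_card h1).trans (card_union_le _ _)
  rw [card_image_of_injOn hg, Nat.card_Ioc] at h2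
  exact_mod_cast h2

/-- the number of multiples of `M` in an interval -/
lemma mult_count {t H M : ℕ} (hM : 0 < M) :
    (H : ℝ) / M - 1 ≤ (((t + H) / M - t / M : ℕ) : ℝ) := by
  have hM0 : (0 : ℝ) < M := by exact_mod_cast hM
  have h1 : t / M ≤ (t + H) / M := Nat.div_le_div_right (by omega)
  rw [Nat.cast_sub h1]
  have h2 : ((t / M : ℕ) : ℝ) ≤ (t : ℝ) / M := Nat.cast_div_le
  have h3 : ((t : ℝ) + H) / M < (((t + H) / M : ℕ) : ℝ) + 1 := by
    rw [div_lt_iff₀ hM0]
    have : t + H < ((t + H) / M + 1) * M := by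
      have := Nat.lt_div_mul_add (a := t + H) hM
      linarith
    exact_mod_cast this
  have h4 : ((t : ℝ) + H) / M = (t : ℝ) / M + (H : ℝ) / M := add_div _ _ _
  linarith

/-- the size condition for `upper_part` -/
lemma large_cond {X V : ℝ} (hVd : V = VV X) (hV1 : 1 ≤ V) {n : ℕ} (h3 : Real.log n ≤ X)
    (h1 : 1500 * V ≤ Real.log n) : 100 ≤ Real.log n ∧
      4 * Real.log (Real.log n) ≤ Real.log n ∧ VV (Real.log n) ≤ V := by
  have h2 : 1500 ≤ Real.log n := by linarith
  refine ⟨by linarith, ?_, ?_⟩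
  · have h4 : Real.log (Real.log n) = 2 * Real.log (Real.sqrt (Real.log n)) := by
      rw [Real.log_sqrt (by linarith)]; ring
    have h5 := Real.log_le_sub_one_of_pos (x := Real.sqrt (Real.log n))
      (Real.sqrt_pos.mpr (by linarith))
    have h6 : Real.sqrt (Real.log n) * Real.sqrt (Real.log n) = Real.log n :=
      Real.mul_self_sqrt (by linarith)
    have h7 : 8 ≤ Real.sqrt (Real.log n) := by
      rw [show (8 : ℝ) = Real.sqrt (8 ^ 2) by rw [Real.sqrt_sq (by norm_num)]]
      exact Real.sqrt_le_sqrt (by linarith)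
    rw [h4]
    nlinarith
  · rw [hVd]; exact VV_mono (by linarith) h3

lemma VV_ge_rpow {X : ℝ} (hX : Real.exp 1 ≤ X) : X ^ ((2 : ℝ) / 3) ≤ VV X := by
  have h0 : 1 ≤ X := le_trans (by have := Real.add_one_le_exp (1 : ℝ); linarith) hX
  have h1 : 1 ≤ Real.log X := by
    rw [Real.le_log_iff_exp_le (by linarith)]; exact hX
  unfold VV
  have h2 := Real.rpow_nonneg (by linarith : 0 ≤ X) ((2 : ℝ) / 3)
  have h3 := Real.one_le_rpow h1 (by norm_num : (0 : ℝ) ≤ 1 / 3)
  nlinarith

theorem sharp_int {C : ℝ} (hC : Mer C) (ε : ℝ) (hε : 0 < ε) : ∃ x₀ : ℕ, ∀ x t H : ℕ, x₀ ≤ x →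
    t + H ≤ x → 1 ≤ H → VV (Real.log x) ≤ Real.log H →
    (H : ℝ) ^ (1 - ε) ≤ (((Ioc t (t + H)).filter fun n : ℕ =>
      Real.log (Real.log n) / 2 + Real.log (Real.log (Real.log x)) / 2 - (5000 + 10 * C) ≤
        S n).card : ℝ) ∧
    (H : ℝ) ^ (1 - ε) ≤ (((Ioc t (t + H)).filter fun n : ℕ =>
      S n ≤ Real.log (Real.log n) / 2 - Real.log (Real.log (Real.log x)) / 2 +
        (5000 + 10 * C)).card : ℝ) := by
  classical
  have hC0 : 0 ≤ C := (abs_nonneg _).trans (hC 2 le_rfl)
  set e : ℝ := min ε (1 / 4) with he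
  have he0 : 0 < e := lt_min hε (by norm_num)
  have he1 : e ≤ 1 / 4 := min_le_right _ _
  have heε : e ≤ ε := min_le_left _ _
  obtain ⟨L₀, hL₀⟩ := Filter.eventually_atTop.mp (eventually_sharp e he0)
  refine ⟨⌈Real.exp (max 16 (L₀ ^ 2))⌉₊, fun x t H hx htH hH1 hVH => ?_⟩
  have hx1 : Real.exp (max 16 (L₀ ^ 2)) ≤ x := (Nat.le_ceil _).trans (by exact_mod_cast hx)
  have hx0 : (0 : ℝ) < x := lt_of_lt_of_le (Real.exp_pos _) hx1
  obtain ⟨X, hXd⟩ : ∃ X : ℝ, X = Real.log x := ⟨_, rfl⟩
  have hXm : max 16 (L₀ ^ 2) ≤ X := by rw [hXd, Real.le_log_iff_exp_le hx0]; exact hx1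
  have hX16 : 16 ≤ X := (le_max_left _ _).trans hXm
  have hXL : L₀ ^ 2 ≤ X := (le_max_right _ _).trans hXm
  have hexp1' : Real.exp 1 ≤ X := by
    have := Real.exp_one_lt_d9
    linarith
  rw [← hXd] at hVH ⊢
  obtain ⟨V, hVd⟩ : ∃ V : ℝ, V = VV X := ⟨_, rfl⟩
  rw [← hVd] at hVH
  have hV1 : 1 ≤ V := by rw [hVd]; exact VV_ge_one hexp1'
  have hX0 : 0 < X := by linarith
  have hVX : X ^ ((2 : ℝ) / 3) ≤ V := by rw [hVd]; exact VV_ge_rpow hexp1'
  have hX12 : X ^ ((1 : ℝ) / 2) ≤ X ^ ((2 : ℝ) / 3) :=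
    Real.rpow_le_rpow_of_exponent_le (by linarith) (by norm_num)
  have hH0 : (0 : ℝ) < H := by exact_mod_cast hH1
  obtain ⟨L, hLd⟩ : ∃ L : ℝ, L = Real.log H := ⟨_, rfl⟩
  rw [← hLd] at hVH
  have hLL₀ : L₀ ≤ L := by
    refine le_trans ?_ (hX12.trans (hVX.trans hVH))
    rw [← Real.sqrt_eq_rpow]
    exact Real.le_sqrt_of_sq_le hXL
  have hLX : L ≤ X := by
    rw [hXd, hLd]
    exact Real.log_le_log hH0 (by exact_mod_cast (by omega : H ≤ x))
  obtain ⟨hL64, hL12, hLe, hL288, hL2⟩ := hL₀ L hLL₀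
  have hL0 : 0 < L := by linarith
  have hHL : (H : ℝ) = Real.exp L := by rw [hLd, Real.exp_log hH0]
  have hlogL : 1 ≤ Real.log L := by
    rw [Real.le_log_iff_exp_le hL0]
    have := Real.exp_one_lt_d9
    linarith
  have hlogLX : 1 / 2 * Real.log X ≤ Real.log L := by
    have h1 := Real.log_le_log (Real.rpow_pos_of_pos hX0 _) (hX12.trans (hVX.trans hVH))
    rwa [Real.log_rpow hX0] at h1
  have hlogX : 1 ≤ Real.log X := by
    rw [Real.le_log_iff_exp_le hX0]; exact hexp1'
  have hll1 : Real.log (Real.log X) - 1 ≤ Real.log (Real.log L) := by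
    have h1 := Real.log_le_log (by linarith) hlogLX
    rw [Real.log_mul (by norm_num) (by linarith), Real.log_div one_ne_zero two_ne_zero,
      Real.log_one] at h1
    have := Real.log_two_lt_d9
    linarith
  have hll2 : Real.log (Real.log L) ≤ Real.log (Real.log X) :=
    Real.log_le_log (by linarith) (Real.log_le_log hL0 hLX)
  have hsL : 8 ≤ Real.sqrt L := by
    rw [show (8 : ℝ) = Real.sqrt (8 ^ 2) by rw [Real.sqrt_sq (by norm_num)]]
    exact Real.sqrt_le_sqrt (by linarith)
  have hsL2 : Real.sqrt L * Real.sqrt L = L := Real.mul_self_sqrt hL0.le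
  -- parameters
  set T : ℝ := L / 8 with hT
  set a : ℕ := ⌈36 * L * Real.log L / T⌉₊ with ha
  set b : ℕ := ⌊T / 4⌋₊ with hb
  set y : ℕ := ⌊e / 4 * L⌋₊ with hy
  set M : ℕ := primorial y with hM
  have hq : 36 * L * Real.log L / T = 288 * Real.log L := by
    rw [hT]
    field_simp
    ring
  have ha0 : 288 * Real.log L ≤ a := by rw [← hq]; exact Nat.le_ceil _
  have ha1 : 1 ≤ a := by
    have : (1 : ℝ) ≤ a := by linarith
    exact_mod_cast this
  have ha2 : (a : ℝ) ≤ 288 * Real.log L + 1 := by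
    rw [← hq]
    exact (Nat.ceil_lt_add_one (by rw [hq]; linarith)).le
  have ha4 : 36 * L * Real.log L ≤ T * a := by
    rw [hT]
    nlinarith
  have hb1 : (b : ℝ) ≤ T / 4 := Nat.floor_le (by rw [hT]; positivity)
  have hb2 : T / 4 < b + 1 := Nat.lt_floor_add_one _
  have hab : a ≤ b := by
    have h1 : T / 4 = L / 32 := by rw [hT]; ring
    have : (a : ℝ) ≤ b := by linarith
    exact_mod_cast this
  have hy1 : (y : ℝ) ≤ e / 4 * L := Nat.floor_le (by positivity)
  have hy2 : e / 4 * L < y + 1 := Nat.lt_floor_add_one _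
  have hy3 : Real.sqrt L ≤ y := by
    have h1 : 8 ≤ e * Real.sqrt L := by
      rw [div_le_iff₀ he0] at hLe
      linarith
    have h2 : e / 4 * L = (e * Real.sqrt L) * Real.sqrt L / 4 := by
      rw [mul_assoc, hsL2]
      ring
    have h3 : 8 * Real.sqrt L ≤ (e * Real.sqrt L) * Real.sqrt L :=
      mul_le_mul_of_nonneg_right h1 (by linarith)
    linarith
  have hy4 : 2 ≤ y := by
    have : (2 : ℝ) ≤ y := by linarith
    exact_mod_cast this
  have hM0 : 0 < M := primorial_pos y
  have hM0' : (0 : ℝ) < M := by exact_mod_cast hM0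
  have hM2 : 2 ≤ M := Nat.le_of_dvd hM0 (dvd_primorial Nat.prime_two hy4)
  have hMexp : (M : ℝ) ≤ Real.exp (e * L / 2) := by
    have h1 : (M : ℝ) ≤ 4 ^ y := by
      have : M ≤ 4 ^ y := primorial_le_four_pow y
      exact_mod_cast this
    refine h1.trans ?_
    rw [← Real.exp_log (show (0 : ℝ) < 4 ^ y by positivity), Real.log_pow]
    refine Real.exp_le_exp.mpr ?_
    have h4 : Real.log 4 ≤ 2 := by
      rw [show (4 : ℝ) = 2 ^ 2 by norm_num, Real.log_pow]
      have := Real.log_two_lt_d9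
      push_cast
      linarith
    have h5 : (y : ℝ) * Real.log 4 ≤ y * 2 := mul_le_mul_of_nonneg_left h4 (Nat.cast_nonneg _)
    linarith
  have hN1 : ∀ t' : ℕ, Real.exp (L - e * L / 2) - 1 ≤ (((t' + H) / M - t' / M : ℕ) : ℝ) := by
    intro t'
    refine le_trans ?_ (mult_count hM0)
    have h2 : Real.exp (L - e * L / 2) ≤ (H : ℝ) / M := by
      rw [Real.exp_sub, ← hHL]
      exact div_le_div_of_nonneg_left hH0.le hM0' hMexp
    linarith
  have hbadcard := count_bad (t := t) (H := H) (a := a) (b := b) (L := L) (T := T) hH1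
    (by rw [← hLd]) (by linarith) (by rw [hT]; linarith) hL12 ha1 ha4 hb1
  have hbad2 : Real.sqrt H * Real.exp T ≤ Real.exp (L - e * L) := by
    have h1 : Real.sqrt H = Real.exp (L / 2) := by
      rw [hHL, Real.sqrt_eq_rpow, ← Real.exp_mul]
      congr 1
      ring
    rw [h1, ← Real.exp_add]
    refine Real.exp_le_exp.mpr ?_
    have : e * L ≤ 1 / 4 * L := mul_le_mul_of_nonneg_right he1 hL0.le
    rw [hT]
    linarith
  have hmain : (H : ℝ) ^ (1 - ε) ≤ Real.exp (L - e * L) := by
    rw [hHL, ← Real.exp_mul]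
    refine Real.exp_le_exp.mpr ?_
    have : e * L ≤ ε * L := mul_le_mul_of_nonneg_right heε hL0.le
    linarith
  have hexp3 : 3 * Real.exp (L - e * L) ≤ Real.exp (L - e * L / 2) := by
    have h1 : Real.exp (L - e * L / 2) = Real.exp (e * L / 2) * Real.exp (L - e * L) := by
      rw [← Real.exp_add]
      congr 1
      ring
    rw [h1]
    refine mul_le_mul_of_nonneg_right ?_ (Real.exp_pos _).le
    have := Real.add_one_le_exp (e * L / 2)
    linarith
  have hexp1 : 1 ≤ Real.exp (L - e * L) := by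
    rw [Real.one_le_exp_iff]
    have : e * L ≤ 1 / 4 * L := mul_le_mul_of_nonneg_right he1 hL0.le
    linarith
  have hNbig : ∀ t' : ℕ, Real.exp (L - e * L) ≤ (((t' + H) / M - t' / M : ℕ) : ℝ) -
      (((Ioc t (t + H)).filter fun n : ℕ => Bad T a b n).card : ℝ) := by
    intro t'
    have := hN1 t'
    linarith
  -- logarithmic bounds
  have g1 : Real.log a ≤ 288 + Real.log (Real.log L) := by
    have h1 : (a : ℝ) ≤ 289 * Real.log L := by linarith
    have h2 := Real.log_le_log (by exact_mod_cast ha1) h1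
    rw [Real.log_mul (by norm_num) (by linarith)] at h2
    have h6 : Real.log 289 ≤ 288 := by
      have := Real.log_le_sub_one_of_pos (x := 289) (by norm_num)
      linarith
    linarith
  have g2 : Real.log (Real.log L) ≤ Real.log a := by
    refine Real.log_le_log (by linarith) ?_
    linarith
  have g3 : Real.log L - 63 ≤ Real.log b := by
    have h1 : L / 64 ≤ b := by
      have h1 : T / 4 = L / 32 := by rw [hT]; ring
      linarith
    have h9 := Real.log_le_log (by positivity) h1
    rw [Real.log_div hL0.ne' (by norm_num)] at h9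
    have h10 : Real.log 64 ≤ 63 := by
      have := Real.log_le_sub_one_of_pos (x := 64) (by norm_num)
      linarith
    linarith
  have g4 : Real.log (Real.log L) - 1 ≤ Real.log (Real.log y) := by
    have h1 : Real.log L / 2 ≤ Real.log y := by
      rw [← Real.log_sqrt hL0.le]
      exact Real.log_le_log (by linarith) hy3
    have h2 := Real.log_le_log (by linarith) h1
    rw [Real.log_div (by linarith) (by norm_num)] at h2
    have := Real.log_two_lt_d9
    linarith
  have hyM := abs_le.mp (PS_mertens hC hy4)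
  have hy2a : y ≤ 2 ^ a := by
    have h1 : (y : ℝ) ≤ (2 : ℝ) ^ a := by
      have h2 : L ≤ (2 : ℝ) ^ a := by
        rw [← Real.log_le_log_iff hL0 (by positivity), Real.log_pow]
        have hlog2 : (0.5 : ℝ) < Real.log 2 := by have := Real.log_two_gt_d9; linarith
        have h3 : (a : ℝ) * 0.5 ≤ a * Real.log 2 :=
          mul_le_mul_of_nonneg_left hlog2.le (Nat.cast_nonneg _)
        linarith
      have : e / 4 * L ≤ L := by nlinarith
      linarith
    exact_mod_cast h1
  have p4 := (PS_one_pow hC ha1).2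
  have p0 := PS_add (fun _ => 1) (Nat.zero_le y) hy2a
  have hlVL : Real.log V ≤ Real.log L := Real.log_le_log (by linarith) hVH
  have hlV : 0 ≤ Real.log V := Real.log_nonneg hV1
  have hl3000 : Real.log (3000 * V) ≤ 2999 + Real.log V := by
    rw [Real.log_mul (by norm_num) (by linarith)]
    have := Real.log_le_sub_one_of_pos (x := 3000) (by norm_num)
    linarith
  have hl2 := loglog_two
  -- a common lemma for the integers outside the exceptional set
  have hgood : ∀ n : ℕ, t < n → n ≤ t + H → ¬ Bad T a b n →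
      |PS (fun p => ind p n) (2 ^ a) n - (Real.log (Real.log n) - Real.log a) / 2| ≤
        1700 + 7 * C ∧
      S n = PS (fun p => ind p n) 0 y + PS (fun p => ind p n) y (2 ^ a) +
        PS (fun p => ind p n) (2 ^ a) n := by
    intro n hn1 hnx hnb
    have hn0 : 1 ≤ n := by omega
    obtain ⟨h2b, _⟩ := dev_good hC ha1 hab hb1 (by rw [hT]; linarith) hn0 hnb
    have hblocks : ∀ j ∈ Ico a b, |fB (blk j) n| < 1 / (j : ℝ) ^ 2 := by
      unfold Bad at hnb
      rw [not_or] at hnb
      have := hnb.2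
      push Not at this
      exact this
    have hb1' : 1 ≤ b := ha1.trans hab
    have h2b0 : 2 ≤ 2 ^ b := two_le_pow hb1'
    have hn2 : Real.log n ≤ X := by
      rw [hXd]
      exact Real.log_le_log (by exact_mod_cast hn0) (by exact_mod_cast (by omega : n ≤ x))
    have hmid := abs_le.mp (middle_part hC ha1 hab hblocks)
    have hup := abs_le.mp (upper_part hC hV1 h2b0 h2b (large_cond hVd hV1 hn2))
    rw [loglog_pow hb1'] at hup
    have hmax : max 0 (Real.log (3000 * V) - (Real.log b + Real.log (Real.log 2))) ≤ 3064 :=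
      max_le (by norm_num) (by linarith)
    have hab' : 2 ^ a ≤ 2 ^ b := Nat.pow_le_pow_right (by norm_num) hab
    have hab2 : 2 ^ a ≤ n := hab'.trans h2b
    refine ⟨?_, ?_⟩
    · rw [← PS_add (fun p => ind p n) hab' h2b, abs_le]
      constructor <;> linarith [hmid.1, hmid.2, hup.1, hup.2]
    · rw [S_eq, PS_add _ (Nat.zero_le _) hy2a, PS_add _ (Nat.zero_le _) hab2]
  constructor
  · refine hmain.trans ((hNbig (t + 1)).trans ?_)
    rw [sub_le_iff_le_add]
    have hrange : ∀ i ∈ Ioc ((t + 1) / M) ((t + 1 + H) / M), t + 1 < M * i ∧ M * i ≤ t + 1 + H := by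
      intro i hi
      rw [mem_Ioc] at hi
      constructor
      · have := (Nat.div_lt_iff_lt_mul hM0).mp hi.1
        rwa [mul_comm] at this
      · have := (Nat.le_div_iff_mul_le hM0).mp hi.2
        rwa [mul_comm] at this
    refine counting' (g := fun i => M * i - 1) ?_ ?_ ?_
    · intro i hi j hj hij
      have h2 := hrange i hi
      have h3 := hrange j hj
      have h1 : M * i - 1 = M * j - 1 := hij
      have h4 : M * i = M * j := by omega
      exact Nat.eq_of_mul_eq_mul_left hM0 h4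
    · intro i hi
      have h2 := hrange i hi
      constructor
      · show t < M * i - 1
        omega
      · show M * i - 1 ≤ t + H
        omega
    · intro i hi hQ
      have h2 := hrange i hi
      obtain ⟨q1, q2⟩ := hgood (M * i - 1) (by omega) (by omega) hQ
      have q3 : PS (fun _ => 1) 0 y - 1 / 2 ≤ PS (fun p => ind p ((M * i - 1 : ℕ) : ℤ)) 0 y := by
        refine PS_dvd_succ fun p hp hpy => ?_
        have : M * i - 1 + 1 = M * i := by omega
        rw [this]
        exact (dvd_primorial hp hpy).mul_right i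
      have q4 := PS_ind_nonneg (M * i - 1) y (2 ^ a)
      have q5 := abs_le.mp q1
      show _ ≤ S (M * i - 1)
      rw [q2]
      linarith [q5.1, q5.2, hyM.1, hyM.2]
  · refine hmain.trans ((hNbig t).trans ?_)
    rw [sub_le_iff_le_add]
    have hrange : ∀ i ∈ Ioc (t / M) ((t + H) / M), t < M * i ∧ M * i ≤ t + H := by
      intro i hi
      rw [mem_Ioc] at hi
      constructor
      · have := (Nat.div_lt_iff_lt_mul hM0).mp hi.1
        rwa [mul_comm] at this
      · have := (Nat.le_div_iff_mul_le hM0).mp hi.2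
        rwa [mul_comm] at this
    refine counting' (g := fun i => M * i) ?_ ?_ ?_
    · intro i hi j hj hij
      exact Nat.eq_of_mul_eq_mul_left hM0 hij
    · intro i hi
      exact hrange i hi
    · intro i hi hQ
      have h2 := hrange i hi
      obtain ⟨q1, q2⟩ := hgood (M * i) h2.1 h2.2 hQ
      have q3 : PS (fun p => ind p ((M * i : ℕ) : ℤ)) 0 y = 0 :=
        PS_dvd fun p hp hpy => (dvd_primorial hp hpy).mul_right i
      have q4 := PS_ind_le (M * i) y (2 ^ a)
      have q5 := abs_le.mp q1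
      show S (M * i) ≤ _
      rw [q2, q3]
      linarith [q5.1, q5.2, hyM.1, hyM.2]

end

end Pool.Agent.Work.VK
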