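import Mathlib
import Pool.Agent.Work.VK.Clusters

/-! Few exceptions in short intervals. -/

namespace Pool.Agent.Work.VK

open Finset
open Pool.Agent.BV Pool.Agent.Work.BV
open Pool.Agent.Work.MP_e4117e_nt

noncomputable section

lemma VV_double {X : ℝ} (hX : 2 ≤ X) : VV (2 * X) ≤ 2 * VV X := by
  have hl : 0 ≤ Real.log X := Real.log_nonneg (by linarith)
  have hl2 : Real.log (2 * X) ≤ 2 * Real.log X := by
    rw [Real.log_mul (by norm_num) (by linarith)]
    have := Real.log_le_log (by norm_num) hX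
    linarith
  have hl3 : 0 ≤ Real.log (2 * X) := Real.log_nonneg (by linarith)
  refine le_of_pow_le_pow_left₀ three_ne_zero
    (mul_nonneg (by norm_num) (VV_nonneg (by linarith) hl)) ?_
  rw [mul_pow, VV_cube (by linarith) hl3, VV_cube (by linarith) hl]
  have : 0 ≤ X ^ 2 := by positivity
  nlinarith

lemma log_VV {X : ℝ} (hX : Real.exp 1 ≤ X) :
    Real.log (VV X) = 2 / 3 * Real.log X + 1 / 3 * Real.log (Real.log X) := by
  have h0 : 0 < X := lt_of_lt_of_le (Real.exp_pos 1) hX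
  have h1 : 1 ≤ Real.log X := by rw [Real.le_log_iff_exp_le h0]; exact hX
  unfold VV
  rw [Real.log_mul (Real.rpow_pos_of_pos h0 _).ne' (Real.rpow_pos_of_pos (by linarith) _).ne',
    Real.log_rpow h0, Real.log_rpow (by linarith)]

lemma log_le_const : Real.log 3000 ≤ 2999 ∧ Real.log 6000 ≤ 5999 ∧ Real.log 200 ≤ 199 ∧
    Real.log 2 ≤ 1 := by
  refine ⟨?_, ?_, ?_, ?_⟩
  · have := Real.log_le_sub_one_of_pos (x := 3000) (by norm_num); linarith
  · have := Real.log_le_sub_one_of_pos (x := 6000) (by norm_num); linarith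
  · have := Real.log_le_sub_one_of_pos (x := 200) (by norm_num); linarith
  · have := Real.log_le_sub_one_of_pos (x := 2) (by norm_num); linarith

/-- the deviation of an integer that is good for the range of `U` -/
lemma dev_U {C U X : ℝ} (hC : Mer C) (hU : (10 : ℝ) ^ 40 ≤ U) (hUV : U ≤ VV X)
    (hX : (10 : ℝ) ^ 40 ≤ X) {n : ℕ} (hn1 : X ≤ Real.log n) (hn2 : Real.log n ≤ 2 * X)
    (hgood : ¬ Bd U n) :
    |S n - Real.log (Real.log n) / 2| ≤
      1 / 3 * Real.log X - 1 / 6 * Real.log U + 1 / 3 * Real.log (Real.log X) + 6000 + 8 * C := by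
  have hC0 : 0 ≤ C := (abs_nonneg _).trans (hC 2 le_rfl)
  have hU0 : 0 < U := lt_of_lt_of_le (by norm_num) hU
  have hX0 : 0 < X := lt_of_lt_of_le (by norm_num) hX
  have hexp1 : Real.exp 1 ≤ 10 ^ 40 := by
    have := Real.exp_one_lt_d9
    norm_num at this ⊢
    linarith
  have hV1 : 1 ≤ VV X := VV_ge_one (hexp1.trans hX)
  have hVU1 : 1 ≤ VV U := VV_ge_one (hexp1.trans hU)
  obtain ⟨c1, c2, c3, c4⟩ := log_le_const
  -- `VV X ≤ X`
  have hlogX : 1 ≤ Real.log X := by rw [Real.le_log_iff_exp_le hX0]; exact hexp1.trans hX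
  have hlogU : 1 ≤ Real.log U := by rw [Real.le_log_iff_exp_le hU0]; exact hexp1.trans hU
  have hVX : VV X ≤ X := by
    refine le_of_pow_le_pow_left₀ three_ne_zero hX0.le ?_
    rw [VV_cube hX0.le (by linarith)]
    have h1 := Real.log_le_sub_one_of_pos hX0
    have h2 : 0 ≤ X ^ 2 := by positivity
    nlinarith
  have hUX : U ≤ X := hUV.trans hVX
  -- `VV U` is much smaller than `U`
  have hVU : 10 ^ 6 * VV U ≤ U := by
    refine le_of_pow_le_pow_left₀ three_ne_zero hU0.le ?_
    rw [mul_pow, VV_cube hU0.le (by linarith)]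
    obtain ⟨w, hw⟩ : ∃ w : ℝ, w = Real.sqrt U := ⟨_, rfl⟩
    have hw2 : w ^ 2 = U := by rw [hw]; exact Real.sq_sqrt hU0.le
    have hw0 : 0 ≤ w := by rw [hw]; exact Real.sqrt_nonneg _
    have hw1 : (10 : ℝ) ^ 20 ≤ w := by
      refine le_of_pow_le_pow_left₀ two_ne_zero hw0 ?_
      rw [hw2]
      refine le_trans (by norm_num) hU
    have h1 : Real.log U ≤ 2 * w := by
      rw [← hw2, Real.log_pow]
      have := Real.log_le_sub_one_of_pos (x := w) (lt_of_lt_of_le (by norm_num) hw1)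
      push_cast
      linarith
    have h2 : (10 ^ 6 : ℝ) ^ 3 * Real.log U ≤ U := by
      calc (10 ^ 6 : ℝ) ^ 3 * Real.log U ≤ (10 ^ 6 : ℝ) ^ 3 * (2 * w) := by gcongr
        _ ≤ 10 ^ 20 * w := by nlinarith
        _ ≤ w * w := by gcongr
        _ = U := by rw [← hw2]; ring
    calc (10 ^ 6 : ℝ) ^ 3 * (U ^ 2 * Real.log U) = U ^ 2 * ((10 ^ 6 : ℝ) ^ 3 * Real.log U) := by ring
      _ ≤ U ^ 2 * U := by gcongr
      _ = U ^ 3 := by ring
  obtain ⟨P, hPd⟩ : ∃ P : ℕ, P = Plo U := ⟨_, rfl⟩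
  obtain ⟨Q, hQd⟩ : ∃ Q : ℕ, Q = Phi U := ⟨_, rfl⟩
  -- the lower end
  have hV1500 : 1 ≤ 1500 * VV U := by linarith
  have hP2 : 2 ≤ P := by
    have h1 : Real.exp (1500 * VV U) ≤ P := by rw [hPd]; exact Nat.le_ceil _
    have h2 := Real.add_one_le_exp (1500 * VV U)
    have : (2 : ℝ) ≤ P := by linarith
    exact_mod_cast this
  have hlP : Real.log P ≤ 3000 * VV U := by
    have h1 : (P : ℝ) ≤ Real.exp (1500 * VV U) + 1 := by
      rw [hPd]; exact (Nat.ceil_lt_add_one (Real.exp_pos _).le).le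
    have h2 : Real.exp (1500 * VV U) + 1 ≤ Real.exp (3000 * VV U) := by
      have h3 : Real.exp (3000 * VV U) = Real.exp (1500 * VV U) * Real.exp (1500 * VV U) := by
        rw [← Real.exp_add]; ring_nf
      have h4 := Real.add_one_le_exp (1500 * VV U)
      rw [h3]
      nlinarith
    have h5 : (0 : ℝ) < P := by exact_mod_cast (by omega : 0 < P)
    have := Real.log_le_log h5 (h1.trans h2)
    rwa [Real.log_exp] at this
  have hlP0 : 0 < Real.log P := Real.log_pos (by exact_mod_cast hP2)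
  -- the upper end
  have hQ1 : (Q : ℝ) ≤ Real.exp (U / 100) := by rw [hQd]; exact Nat.floor_le (Real.exp_pos _).le
  have hQ2 : Real.exp (U / 100) < Q + 1 := by rw [hQd]; exact Nat.lt_floor_add_one _
  have hQ3 : Real.exp (U / 100) / 2 ≤ Q := by
    have := Real.add_one_le_exp (U / 100)
    have h1 : (100 : ℝ) ≤ U := le_trans (by norm_num) hU
    linarith
  have hQ0 : (0 : ℝ) < Q := lt_of_lt_of_le (by positivity) hQ3
  have hlQ1 : Real.log Q ≤ U / 100 := by
    have := Real.log_le_log hQ0 hQ1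
    rwa [Real.log_exp] at this
  have hlQ2 : U / 200 ≤ Real.log Q := by
    have := Real.log_le_log (by positivity) hQ3
    rw [Real.log_div (Real.exp_pos _).ne' (by norm_num), Real.log_exp] at this
    have h1 : (1000 : ℝ) ≤ U := le_trans (by norm_num) hU
    linarith
  have hPQ : P ≤ Q := by
    have hP0 : (0 : ℝ) < P := by exact_mod_cast (by omega : 0 < P)
    have : (P : ℝ) ≤ Q := by
      rw [← Real.log_le_log_iff hP0 hQ0]
      linarith
    exact_mod_cast this
  have hX100 : (1000 : ℝ) ≤ X := le_trans (by norm_num) hX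
  have hn0 : (0 : ℝ) < n := by
    rcases Nat.eq_zero_or_pos n with h0 | h0
    · rw [h0, Nat.cast_zero, Real.log_zero] at hn1; linarith
    · exact_mod_cast h0
  have hQn : Q ≤ n := by
    have : (Q : ℝ) ≤ n := by
      rw [← Real.log_le_log_iff hQ0 hn0]
      linarith
    exact_mod_cast this
  have hQ2' : 2 ≤ Q := hP2.trans hPQ
  -- the three ranges
  have hup := upper_part (V := 2 * VV X) hC (by linarith) hQ2' hQn (fun _ => by
    refine ⟨by linarith, four_log_le (by linarith), ?_⟩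
    exact (VV_mono (by linarith) hn2).trans (VV_double (by linarith)))
  have hD : |PS (fun p => ind p n) P Q - PS (fun _ => 1) P Q / 2| ≤ 1 := by
    rw [← Dv_eq, hPd, hQd]
    exact not_lt.mp hgood
  have hM := PS_one_range hC hP2 hPQ
  have hM0 := PS_mertens hC hP2
  have p1 := PS_add (fun p => ind p n) (Nat.zero_le P) hPQ
  have p2 := PS_add (fun p => ind p n) (Nat.zero_le Q) hQn
  have p3 := PS_ind_nonneg n 0 P
  have p4 := PS_ind_le n 0 P
  have q1 : Real.log (Real.log P) ≤ 2999 + (2 / 3 * Real.log U + 1 / 3 * Real.log (Real.log U)) := by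
    have h1 := Real.log_le_log hlP0 hlP
    rw [Real.log_mul (by norm_num) (by linarith), log_VV (hexp1.trans hU)] at h1
    linarith
  have q2 : Real.log U - 199 ≤ Real.log (Real.log Q) := by
    have h1 := Real.log_le_log (by positivity) hlQ2
    rw [Real.log_div hU0.ne' (by norm_num)] at h1
    linarith
  have q3 : Real.log (3000 * (2 * VV X)) ≤
      5999 + (2 / 3 * Real.log X + 1 / 3 * Real.log (Real.log X)) := by
    rw [show 3000 * (2 * VV X) = 6000 * VV X by ring, Real.log_mul (by norm_num) (by linarith),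
      log_VV (hexp1.trans hX)]
    linarith
  have q4 : Real.log (Real.log U) ≤ Real.log (Real.log X) :=
    Real.log_le_log (by linarith) (Real.log_le_log hU0 hUX)
  have q5 : Real.log U ≤ 2 / 3 * Real.log X + 1 / 3 * Real.log (Real.log X) := by
    rw [← log_VV (hexp1.trans hX)]
    exact Real.log_le_log hU0 hUV
  have q6 : max 0 (Real.log (3000 * (2 * VV X)) - Real.log (Real.log Q)) ≤
      6198 + (2 / 3 * Real.log X + 1 / 3 * Real.log (Real.log X)) - Real.log U := by
    refine max_le (by linarith) (by linarith)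
  have hup' := abs_le.mp hup
  have hD' := abs_le.mp hD
  have hM' := abs_le.mp hM
  have hM0' := abs_le.mp hM0
  rw [S_eq, ← p2, ← p1, abs_le]
  constructor <;> linarith [hup'.1, hup'.2, hD'.1, hD'.2, hM'.1, hM'.2, hM0'.1, hM0'.2]

/-- the number of halvings -/
lemma halvings {L T : ℝ} (hT : 2 ≤ T) (hTL : T < L) (hL : 2 ≤ Real.log L) : ∃ m : ℕ,
    T / 4 < L / 2 ^ m ∧ L / 2 ^ m ≤ T / 2 ∧ (∀ i < m, T / 2 < L / 2 ^ i) ∧
    (m : ℝ) ≤ 2 * Real.log L := by
  classical
  have hL0 : 0 < L := by linarith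
  have hex : ∃ m : ℕ, L / 2 ^ m ≤ T / 2 := by
    obtain ⟨m, hm⟩ := pow_unbounded_of_one_lt (2 * L / T) (by norm_num : (1 : ℝ) < 2)
    refine ⟨m, ?_⟩
    rw [div_le_iff₀ (by positivity)]
    rw [div_lt_iff₀ (by linarith)] at hm
    linarith
  set m := Nat.find hex with hm
  have h1 : L / 2 ^ m ≤ T / 2 := Nat.find_spec hex
  have h2 : ∀ i < m, T / 2 < L / 2 ^ i := fun i hi => not_le.mp (Nat.find_min hex hi)
  have hm0 : m ≠ 0 := by
    intro h0
    rw [h0, pow_zero, div_one] at h1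
    linarith
  obtain ⟨j, hj⟩ : ∃ j, m = j + 1 := Nat.exists_eq_succ_of_ne_zero hm0
  have h3 := h2 j (by omega)
  refine ⟨m, ?_, h1, h2, ?_⟩
  · rw [hj, pow_succ, ← div_div]
    linarith
  · have h4 : (2 : ℝ) ^ j ≤ L := by
      rw [lt_div_iff₀ (by positivity)] at h3
      have : (0 : ℝ) < 2 ^ j := by positivity
      nlinarith
    have h5 := Real.log_le_log (by positivity) h4
    rw [Real.log_pow] at h5
    have h6 := Real.log_two_gt_d9
    have h7 : (m : ℝ) = j + 1 := by rw [hj]; push_cast; ring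
    have h8 : (0 : ℝ) ≤ j := Nat.cast_nonneg j
    rw [h7]
    nlinarith

theorem short : ∃ C : ℝ, ∃ t₀ : ℕ, ∀ t H : ℕ, ∀ T : ℝ, t₀ ≤ t →
    Real.log H ≤ Real.log t ^ ((2 : ℝ) / 3) * Real.log (Real.log t) ^ ((1 : ℝ) / 3) →
    20 * Real.log (Real.log t) ^ 2 ≤ T →
    (((Ioc t (t + H)).filter fun n : ℕ =>
      Real.log (Real.log t) / 3 - Real.log T / 6 + Real.log (Real.log (Real.log t)) / 3 + C <
        |S n - Real.log (Real.log n) / 2|).card : ℝ) ≤ Real.exp T := by
  classical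
  obtain ⟨C, hC0, hC⟩ := mertens2
  refine ⟨7000 + 8 * C, ⌈Real.exp (Real.exp (10 ^ 40 + (10 + C) ^ 4))⌉₊,
    fun t H T ht hH hT => ?_⟩
  have hc4 : 0 < (10 + C) ^ 4 := by positivity
  have ht1 : Real.exp (Real.exp (10 ^ 40 + (10 + C) ^ 4)) ≤ t :=
    (Nat.le_ceil _).trans (by exact_mod_cast ht)
  have ht0 : (0 : ℝ) < t := lt_of_lt_of_le (Real.exp_pos _) ht1
  obtain ⟨X, hXd⟩ : ∃ X : ℝ, X = Real.log t := ⟨_, rfl⟩
  rw [← hXd] at hH hT ⊢
  have hX1 : Real.exp (10 ^ 40 + (10 + C) ^ 4) ≤ X := by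
    rw [hXd, Real.le_log_iff_exp_le ht0]; exact ht1
  have hX0 : 0 < X := lt_of_lt_of_le (Real.exp_pos _) hX1
  have hlX : 10 ^ 40 + (10 + C) ^ 4 ≤ Real.log X := by
    rw [Real.le_log_iff_exp_le hX0]; exact hX1
  have hXbig : (10 : ℝ) ^ 40 ≤ X := by
    have := Real.log_le_sub_one_of_pos hX0
    linarith
  have hlX40 : (10 : ℝ) ^ 40 ≤ Real.log X := by linarith
  have hT2 : 20 * Real.log X ≤ T := by
    refine le_trans ?_ hT
    have : (1 : ℝ) ≤ Real.log X := le_trans (by norm_num) hlX40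
    nlinarith
  have hT40 : 2 * (10 : ℝ) ^ 40 ≤ T := by linarith
  have hT0 : 0 < T := lt_of_lt_of_le (by norm_num) hT40
  change Real.log H ≤ VV X at hH
  rcases Nat.eq_zero_or_pos H with hH0 | hH0
  · subst hH0
    rw [add_zero, Ioc_self, filter_empty, card_empty]
    push_cast
    exact (Real.exp_pos _).le
  have hH0' : (0 : ℝ) < H := by exact_mod_cast hH0
  obtain ⟨L, hLd⟩ : ∃ L : ℝ, L = Real.log H := ⟨_, rfl⟩
  have hHL : (H : ℝ) = Real.exp L := by rw [hLd, Real.exp_log hH0']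
  rw [← hLd] at hH
  rcases le_or_gt L T with hLT | hTL
  · -- the trivial case
    refine le_trans ?_ (Real.exp_le_exp.mpr hLT)
    rw [← hHL]
    have := card_filter_le (Ioc t (t + H)) fun n : ℕ =>
      Real.log X / 3 - Real.log T / 6 + Real.log (Real.log X) / 3 + (7000 + 8 * C) <
        |S n - Real.log (Real.log n) / 2|
    rw [Nat.card_Ioc] at this
    exact_mod_cast this.trans (le_of_eq (by omega))
  have hexp1 : Real.exp 1 ≤ 10 ^ 40 := by
    have := Real.exp_one_lt_d9
    norm_num at this ⊢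
    linarith
  have hV1 : 1 ≤ VV X := VV_ge_one (hexp1.trans hXbig)
  have hVX : VV X ≤ X := by
    refine le_of_pow_le_pow_left₀ three_ne_zero hX0.le ?_
    rw [VV_cube hX0.le (le_trans (by norm_num) hlX40)]
    have h1 := Real.log_le_sub_one_of_pos hX0
    have h2 : 0 ≤ X ^ 2 := by positivity
    nlinarith
  have hL0 : 0 < L := by linarith
  have hLX : Real.log L ≤ Real.log X := Real.log_le_log hL0 (hH.trans hVX)
  have hlL : 2 ≤ Real.log L := by
    rw [Real.le_log_iff_exp_le hL0]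
    have h1 : Real.exp 2 = Real.exp 1 * Real.exp 1 := by rw [← Real.exp_add]; norm_num
    have h2 := Real.exp_one_lt_d9
    have h3 := Real.exp_pos 1
    have h4 : Real.exp 2 ≤ 9 := by rw [h1]; nlinarith
    have : (9 : ℝ) ≤ T := le_trans (by norm_num) hT40
    linarith
  obtain ⟨m, hm1, hm2, hm3, hm4⟩ := halvings (by linarith) hTL hlL
  have hcount := rec_count hC m L (t + 1) H (by linarith) hHL.le
  -- the exponent
  have hexpo : (L ^ 5) ^ m * Real.exp (L / 2 ^ m) ≤ Real.exp T := by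
    have h1 : (L ^ 5) ^ m = Real.exp (m * (5 * Real.log L)) := by
      rw [Real.exp_nat_mul, mul_comm 5, Real.exp_mul, Real.exp_log hL0]
      norm_cast
    rw [h1, ← Real.exp_add]
    apply Real.exp_le_exp.mpr
    have h2 : (m : ℝ) * (5 * Real.log L) ≤ 10 * Real.log X ^ 2 := by
      have h3 : (m : ℝ) * (5 * Real.log L) ≤ 2 * Real.log X * (5 * Real.log X) := by
        refine mul_le_mul (by linarith) (by linarith) (by linarith) (by linarith)
      linarith
    linarith
  refine le_trans (Nat.cast_le.mpr (card_le_card fun n hn => ?_)) (hcount.trans hexpo)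
  rw [mem_filter] at hn ⊢
  obtain ⟨hnI, hdev⟩ := hn
  rw [mem_Ioc] at hnI
  refine ⟨by rw [mem_Ico]; omega, fun i hi => ?_⟩
  by_contra hgood
  have hU1 := hm3 i hi
  have hU2 : L / 2 ^ i ≤ VV X := le_trans (div_le_self hL0.le (one_le_pow₀ (by norm_num))) hH
  have hn0 : (0 : ℝ) < n := by exact_mod_cast (by omega : 0 < n)
  have hn1 : X ≤ Real.log n := by
    rw [hXd]
    exact Real.log_le_log ht0 (by exact_mod_cast hnI.1.le)
  have hn2 : Real.log n ≤ 2 * X := by
    have h1 : (H : ℝ) ≤ t := by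
      rw [hHL, ← Real.exp_log ht0, ← hXd]
      exact Real.exp_le_exp.mpr (hH.trans hVX)
    have h2 : (n : ℝ) ≤ 2 * t := by
      have : (n : ℝ) ≤ ((t + H : ℕ) : ℝ) := by exact_mod_cast hnI.2
      push_cast at this
      linarith
    have h3 := Real.log_le_log hn0 h2
    rw [Real.log_mul (by norm_num) ht0.ne', ← hXd] at h3
    have := log_le_const.2.2.2
    have : (1 : ℝ) ≤ X := le_trans (by norm_num) hXbig
    linarith
  have hd := dev_U hC (by linarith) hU2 hXbig hn1 hn2 hgood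
  have hlU : Real.log T - 1 ≤ Real.log (L / 2 ^ i) := by
    have h1 := Real.log_le_log (by linarith) hU1.le
    rw [Real.log_div hT0.ne' (by norm_num)] at h1
    have := log_le_const.2.2.2
    linarith
  linarith

end

end Pool.Agent.Work.VK
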